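import Pool.Agent.Helper51.PS.Stm

set_option autoImplicit false

/-! # CNT: counting the solutions of a system of congruences in an interval -/

namespace Pool.Agent.Helper51.PS.CNT

open Finset

/-- the number of the elements of a residue class in an interval -/
lemma count (u K N v : ℕ) (hN : 0 < N) :
    |(((Ioc u (u + K)).filter (fun l => l ≡ v [MOD N])).card : ℝ) - (K : ℝ) / N| ≤ 1 := by
  have h1 := Nat.Ioc_filter_modEq_card u (u + K) hN v
  have hNq : (0 : ℚ) < N := by exact_mod_cast hN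
  set x : ℚ := ((u : ℚ) - v) / N with hx
  have h2 : (((u + K : ℕ) : ℚ) - v) / (N : ℚ) = x + (K : ℚ) / N := by
    rw [hx]
    push_cast
    ring
  rw [h2] at h1
  have h3 : 0 ≤ (K : ℚ) / N := by positivity
  have h4 : ⌊x⌋ ≤ ⌊x + (K : ℚ) / N⌋ := Int.floor_mono (by linarith)
  rw [max_eq_left (by linarith)] at h1
  have h5 : |(((Ioc u (u + K)).filter (fun l => l ≡ v [MOD N])).card : ℚ) - (K : ℚ) / N| ≤ 1 := by
    have h6 : (((Ioc u (u + K)).filter (fun l => l ≡ v [MOD N])).card : ℚ) =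
        ((⌊x + (K : ℚ) / N⌋ - ⌊x⌋ : ℤ) : ℚ) := by exact_mod_cast h1
    rw [h6, abs_le]
    push_cast
    have a1 := Int.floor_le x
    have a2 := Int.lt_floor_add_one x
    have a3 := Int.floor_le (x + (K : ℚ) / N)
    have a4 := Int.lt_floor_add_one (x + (K : ℚ) / N)
    constructor <;> linarith
  have h7 : ((|(((Ioc u (u + K)).filter (fun l => l ≡ v [MOD N])).card : ℚ) - (K : ℚ) / N| : ℚ) : ℝ) ≤
      ((1 : ℚ) : ℝ) := Rat.cast_le.2 h5
  push_cast at h7
  exact h7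

lemma gcd_dvd_aux {n Z k D : ℕ} (q : Fin n → ℕ) (j : Fin n → ℕ)
    (hsq : ∀ i, Squarefree (q i))
    (hp : ∀ i, ∀ p : ℕ, p.Prime → p ∣ q i → Z < p ∧ ¬ p ∣ k ∧ ¬ p ∣ D) (A : Finset (Fin n))
    (v : Fin n) (hC : ∀ i ∈ A, ¬ (q i).Coprime (q v) → j i = j v) (l : ℕ)
    (hl : ∀ i ∈ A, q i ∣ l + j i * k) : Nat.gcd (D * A.lcm q) (q v) ∣ l + j v * k := by
  have h1 : Squarefree (Nat.gcd (D * A.lcm q) (q v)) := (hsq v).squarefree_of_dvd (Nat.gcd_dvd_right _ _)
  rw [← Nat.prod_primeFactors_of_squarefree h1]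
  refine Finset.prod_primes_dvd _ (fun p hpp => (Nat.prime_of_mem_primeFactors hpp).prime) ?_
  intro p hpm
  have hpp := Nat.prime_of_mem_primeFactors hpm
  have hpd := Nat.dvd_of_mem_primeFactors hpm
  have h2 : p ∣ q v := hpd.trans (Nat.gcd_dvd_right _ _)
  have h3 : p ∣ D * A.lcm q := hpd.trans (Nat.gcd_dvd_left _ _)
  have h4 : p ∣ A.lcm q := (hpp.dvd_mul.1 h3).resolve_left (hp v p hpp h2).2.2
  have h5 : ∃ i ∈ A, p ∣ q i := by
    by_contra hcon
    push Not at hcon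
    have h6 : A.lcm q ∣ ∏ i ∈ A, q i := Finset.lcm_dvd fun i hi => Finset.dvd_prod_of_mem q hi
    obtain ⟨i, hi, hpi⟩ := (hpp.prime.dvd_finsetProd_iff q).1 (h4.trans h6)
    exact hcon i hi hpi
  obtain ⟨i, hi, hpi⟩ := h5
  have h7 : ¬ (q i).Coprime (q v) := fun hc => Nat.not_coprime_of_dvd_of_dvd hpp.one_lt hpi h2 hc
  rw [← hC i hi h7]
  exact hpi.trans (hl i hi)

lemma exists_sol {n Z k D : ℕ} (r : ℕ) (q : Fin n → ℕ) (j : Fin n → ℕ)
    (hsq : ∀ i, Squarefree (q i))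
    (hp : ∀ i, ∀ p : ℕ, p.Prime → p ∣ q i → Z < p ∧ ¬ p ∣ k ∧ ¬ p ∣ D) (A : Finset (Fin n))
    (hC : Cons q A j) : ∃ l : ℕ, l ≡ r [MOD D] ∧ ∀ i ∈ A, q i ∣ l + j i * k := by
  classical
  induction A using Finset.induction_on with
  | empty => exact ⟨r, Nat.ModEq.refl _, fun i hi => absurd hi (Finset.notMem_empty _)⟩
  | insert v A hv ih =>
    obtain ⟨l, hl1, hl2⟩ := ih (fun i hi i' hi' =>
      hC i (Finset.mem_insert_of_mem hi) i' (Finset.mem_insert_of_mem hi'))
    have hqv : 1 ≤ q v := Nat.one_le_iff_ne_zero.2 (hsq v).ne_zero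
    have h1 := gcd_dvd_aux q j hsq hp A v
      (fun i hi => hC i (Finset.mem_insert_of_mem hi) v (Finset.mem_insert_self _ _)) l hl2
    obtain ⟨w, hw⟩ : ∃ w, q v = w + 1 := ⟨q v - 1, by omega⟩
    have h2 : q v ∣ w * (j v * k) + j v * k := by
      rw [hw]
      exact ⟨j v * k, by ring⟩
    have h3 : l ≡ w * (j v * k) [MOD Nat.gcd (D * A.lcm q) (q v)] := by
      apply Nat.ModEq.add_right_cancel' (j v * k)
      exact ((Nat.modEq_zero_iff_dvd).2 h1).trans
        ((Nat.modEq_zero_iff_dvd).2 ((Nat.gcd_dvd_right _ _).trans h2)).symm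
    obtain ⟨m, hm1, hm2⟩ := Nat.chineseRemainder' h3
    refine ⟨m, ?_, ?_⟩
    · exact (hm1.of_mul_right _).trans hl1
    · intro i hi
      rcases Finset.mem_insert.1 hi with rfl | hi'
      · have h4 : m + j i * k ≡ w * (j i * k) + j i * k [MOD q i] := hm2.add_right _
        exact (Nat.modEq_zero_iff_dvd).1 (h4.trans ((Nat.modEq_zero_iff_dvd).2 h2))
      · have h5 : q i ∣ A.lcm q := Finset.dvd_lcm hi'
        have h6 : m ≡ l [MOD q i] := (hm1.of_mul_left D).of_dvd h5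
        have h7 : m + j i * k ≡ l + j i * k [MOD q i] := h6.add_right _
        exact (Nat.modEq_zero_iff_dvd).1 (h7.trans ((Nat.modEq_zero_iff_dvd).2 (hl2 i hi')))

theorem main : S_CNT := by
  intro n Z k D r u K q A j hZ hD hsq hp hj
  constructor
  · intro hC
    obtain ⟨l₀, hl1, hl2⟩ := exists_sol r q j hsq hp A hC
    have hcop : Nat.Coprime D (A.lcm q) := by
      apply Nat.Coprime.symm
      rw [Nat.coprime_iff_gcd_eq_one]
      by_contra hne
      obtain ⟨p, hpp, hpd⟩ := Nat.exists_prime_and_dvd hne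
      have h4 : p ∣ A.lcm q := hpd.trans (Nat.gcd_dvd_left _ _)
      have h6 : A.lcm q ∣ ∏ i ∈ A, q i := Finset.lcm_dvd fun i hi => Finset.dvd_prod_of_mem q hi
      obtain ⟨i, hi, hpi⟩ := (hpp.prime.dvd_finsetProd_iff q).1 (h4.trans h6)
      exact (hp i p hpp hpi).2.2 (hpd.trans (Nat.gcd_dvd_right _ _))
    have hN : 0 < D * A.lcm q := by
      refine Nat.mul_pos hD (Nat.pos_of_ne_zero fun h => ?_)
      rw [Finset.lcm_eq_zero_iff] at h
      obtain ⟨i, -, hi⟩ := h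
      exact (hsq i).ne_zero hi
    have h1 : (Ioc u (u + K)).filter (fun l => l ≡ r [MOD D] ∧ ∀ i ∈ A, q i ∣ l + j i * k) =
        (Ioc u (u + K)).filter (fun l => l ≡ l₀ [MOD D * A.lcm q]) := by
      apply filter_congr
      intro l _
      constructor
      · rintro ⟨h2, h3⟩
        rw [← Nat.modEq_and_modEq_iff_modEq_mul hcop]
        refine ⟨h2.trans hl1.symm, ?_⟩
        have h4 : ∀ i ∈ A, (q i : ℤ) ∣ (l₀ : ℤ) - l := by
          intro i hi
          have h5 : (q i : ℤ) ∣ (l₀ : ℤ) + j i * k := by exact_mod_cast hl2 i hi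
          have h6 : (q i : ℤ) ∣ (l : ℤ) + j i * k := by exact_mod_cast h3 i hi
          have h7 := dvd_sub h5 h6
          rwa [add_sub_add_right_eq_sub] at h7
        rw [Nat.modEq_iff_dvd]
        have h8 : A.lcm q ∣ ((l₀ : ℤ) - l).natAbs :=
          Finset.lcm_dvd fun i hi => Int.natCast_dvd.1 (h4 i hi)
        exact Int.natCast_dvd.2 h8
      · intro h2
        rw [← Nat.modEq_and_modEq_iff_modEq_mul hcop] at h2
        refine ⟨h2.1.trans hl1, fun i hi => ?_⟩
        have h6 : l ≡ l₀ [MOD q i] := h2.2.of_dvd (Finset.dvd_lcm hi)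
        have h7 : l + j i * k ≡ l₀ + j i * k [MOD q i] := h6.add_right _
        exact (Nat.modEq_zero_iff_dvd).1 (h7.trans ((Nat.modEq_zero_iff_dvd).2 (hl2 i hi)))
    rw [h1]
    exact count u K _ l₀ hN
  · intro hC
    rw [Finset.card_eq_zero, Finset.filter_eq_empty_iff]
    rintro l _ ⟨-, hl⟩
    apply hC
    intro i hi i' hi' hnc
    obtain ⟨p, hpp, hp1, hp2⟩ := Nat.Prime.not_coprime_iff_dvd.1 hnc
    have h1 : (p : ℤ) ∣ ((l : ℤ) + j i * k) - ((l : ℤ) + j i' * k) := by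
      refine dvd_sub ?_ ?_
      · exact_mod_cast hp1.trans (hl i hi)
      · exact_mod_cast hp2.trans (hl i' hi')
    have h2 : ((l : ℤ) + j i * k) - ((l : ℤ) + j i' * k) = ((j i : ℤ) - j i') * k := by ring
    rw [h2] at h1
    have h3 : (p : ℤ) ∣ (j i : ℤ) - j i' := by
      rcases (Nat.prime_iff_prime_int.1 hpp).dvd_or_dvd h1 with h4 | h4
      · exact h4
      · exact absurd (by exact_mod_cast h4 : p ∣ k) (hp i p hpp hp1).2.1
    have h5 := (hp i p hpp hp1).1
    have h6 := hj i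
    have h7 := hj i'
    have h8 : (j i : ℤ) - j i' = 0 := by
      apply Int.eq_zero_of_abs_lt_dvd h3
      rw [abs_lt]
      constructor <;> omega
    omega

end Pool.Agent.Helper51.PS.CNT
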