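import Pool.Agent.Helper51.PS.Stm
import Pool.Graph.R_seed8.Helper923.HMertens

set_option autoImplicit false

open Finset

namespace Pool.Agent.Helper51.PS.MER

/-- the primes above `Z` dividing `k` contribute little -/
theorem bad (Z k N : ℕ) (hZ : 2 ≤ Z) (hk : 1 ≤ k) (hlog : Real.log k ≤ Z) :
    ∑ p ∈ (Ioc Z N).filter (fun p => p.Prime ∧ p ∣ k), 1 / (p : ℝ) ≤ 1 / Real.log Z := by
  classical
  set B := (Ioc Z N).filter (fun p => p.Prime ∧ p ∣ k) with hB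
  have hZ0 : (0 : ℝ) < Z := by exact_mod_cast (by omega : 0 < Z)
  have hlZ : 0 < Real.log Z := Real.log_pos (by exact_mod_cast (by omega : 1 < Z))
  have hmem : ∀ p ∈ B, Z < p ∧ p.Prime ∧ p ∣ k := by
    intro p hp
    rw [hB, mem_filter, mem_Ioc] at hp
    exact ⟨hp.1.1, hp.2.1, hp.2.2⟩
  have hprod : ∏ p ∈ B, p ∣ k := by
    have h1 : B ⊆ k.primeFactors := by
      intro p hp
      rw [Nat.mem_primeFactors]
      exact ⟨(hmem p hp).2.1, (hmem p hp).2.2, by omega⟩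
    exact (prod_dvd_prod_of_subset _ _ _ h1).trans (Nat.prod_primeFactors_dvd k)
  have hcard : (B.card : ℝ) * Real.log Z ≤ Z := by
    refine le_trans ?_ hlog
    have h1 : ((Z : ℝ)) ^ B.card ≤ k := by
      have h2 : Z ^ B.card ≤ ∏ p ∈ B, p := by
        rw [← prod_const]
        exact prod_le_prod' fun p hp => (hmem p hp).1.le
      exact_mod_cast h2.trans (Nat.le_of_dvd (by omega) hprod)
    have h3 := Real.log_le_log (by positivity) h1
    rwa [Real.log_pow] at h3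
  have h1 : ∑ p ∈ B, 1 / (p : ℝ) ≤ ∑ p ∈ B, 1 / (Z : ℝ) := by
    refine sum_le_sum fun p hp => ?_
    exact one_div_le_one_div_of_le hZ0 (by exact_mod_cast (hmem p hp).1.le)
  rw [sum_const, nsmul_eq_mul] at h1
  refine h1.trans ?_
  rw [mul_one_div, div_le_div_iff₀ hZ0 hlZ]
  linarith

theorem main : S_MER := by
  classical
  intro L₀
  obtain ⟨C, hC0, hC⟩ := Pool.Agent.Helper923.HMertens.mertens_ratio
  obtain ⟨M, hM⟩ := exists_nat_ge (max 2 (Real.exp (L₀ + 2)))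
  have hM2 : 2 ≤ M := by exact_mod_cast (le_max_left _ _).trans hM
  have hMe : Real.exp (L₀ + 2) ≤ M := (le_max_right _ _).trans hM
  have hM0 : (0 : ℝ) < M := by exact_mod_cast (by omega : 0 < M)
  have hlM : L₀ + 2 ≤ Real.log M := (Real.le_log_iff_exp_le hM0).2 hMe
  obtain ⟨Z₀, hZ₀⟩ := exists_nat_ge (max 2 (Real.exp (C + 1)))
  have hZ2 : 2 ≤ Z₀ := by exact_mod_cast (le_max_left _ _).trans hZ₀
  have hZe : Real.exp (C + 1) ≤ Z₀ := (le_max_right _ _).trans hZ₀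
  refine ⟨M, Z₀, Real.log M + 1, hM2, fun Z hZ k hk hlog => ?_⟩
  have hZ2' : 2 ≤ Z := hZ2.trans hZ
  have hZ0 : (0 : ℝ) < Z := by exact_mod_cast (by omega : 0 < Z)
  have hlZ1 : C + 1 ≤ Real.log Z := by
    rw [Real.le_log_iff_exp_le hZ0]
    exact hZe.trans (by exact_mod_cast hZ)
  have hlZ : 0 < Real.log Z := by linarith
  have hle : Z ≤ Z ^ M := Nat.le_self_pow (by omega) Z
  have h1 := hC Z (Z ^ M) hZ2' hle
  have h2 : Real.log ((Z ^ M : ℕ) : ℝ) / Real.log Z = M := by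
    rw [Nat.cast_pow, Real.log_pow, mul_div_assoc, div_self hlZ.ne', mul_one]
  rw [h2] at h1
  have h3 : C / Real.log Z ≤ 1 := by
    rw [div_le_one hlZ]
    linarith
  have h4 : 1 / Real.log Z ≤ 1 := by
    rw [div_le_one hlZ]
    linarith
  have hbad := bad Z k (Z ^ M) hZ2' hk hlog
  have hsplit : ∑ p ∈ (Ioc Z (Z ^ M)).filter Nat.Prime, 1 / (p : ℝ) =
      ∑ p ∈ (Ioc Z (Z ^ M)).filter (fun p => p.Prime ∧ ¬ p ∣ k), 1 / (p : ℝ) +
      ∑ p ∈ (Ioc Z (Z ^ M)).filter (fun p => p.Prime ∧ p ∣ k), 1 / (p : ℝ) := by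
    rw [← sum_filter_add_sum_filter_not ((Ioc Z (Z ^ M)).filter Nat.Prime) (fun p => ¬ p ∣ k),
      filter_filter, filter_filter]
    simp only [not_not]
  have hbad0 : 0 ≤ ∑ p ∈ (Ioc Z (Z ^ M)).filter (fun p => p.Prime ∧ p ∣ k), 1 / (p : ℝ) :=
    sum_nonneg fun _ _ => by positivity
  rw [abs_le] at h1
  constructor
  · linarith [h1.1]
  · linarith [h1.2]

end Pool.Agent.Helper51.PS.MER
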