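import Pool.Graph.R_seed8.Helper923.PPS.Selberg

/-!
# Selberg weights on a finite set of primes

This is a copy of the library module `Pool/Graph/R_seed8/W356/UBSel.lean` (with the definitions it uses), made to avoid
the 350 imports of its statement file.
-/

set_option autoImplicit false

namespace Pool.Agent.Helper51.PS.SELW

open Finset
open Pool.Agent.Helper923.PPS

/-- divisor sum -/
noncomputable def ds (c : ℕ → ℝ) (Z : ℕ) (m : ℤ) : ℝ :=
  ∑ d ∈ Icc 1 Z, c d * (if (d : ℤ) ∣ m then 1 else 0)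

open Classical in
/-- squarefree numbers up to `z` composed of primes of `P` -/
noncomputable def sq (P : Finset ℕ) (z : ℕ) : Finset ℕ :=
  (Icc 1 z).filter (fun d => Squarefree d ∧ ∀ p : ℕ, p.Prime → p ∣ d → p ∈ P)

/-- `∑ 1/φ(d)` -/
noncomputable def GG (P : Finset ℕ) (z : ℕ) : ℝ := ∑ d ∈ sq P z, 1 / (Nat.totient d : ℝ)

/-- (SEL) Selberg weights on the primes of `P` -/
def St_SEL : Prop := ∀ (P : Finset ℕ) (z : ℕ), 1 ≤ z → (∀ p ∈ P, p.Prime) → ∃ c : ℕ → ℝ,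
  (∀ m : ℤ, 0 ≤ ds c (z ^ 2) m) ∧
  (∀ m : ℤ, (∀ p ∈ P, ¬ (p : ℤ) ∣ m) → ds c (z ^ 2) m = 1) ∧
  (∀ m : ℤ, ds c (z ^ 2) m ≤ ((sq P z).filter (fun d : ℕ => (d : ℤ) ∣ m)).card ^ 2) ∧
  (∀ d, |c d| ≤ 3 ^ d.primeFactors.card) ∧ (∀ d, c d ≠ 0 → d ∈ sq P (z ^ 2)) ∧
  ∑ d ∈ Icc 1 (z ^ 2), c d / d = 1 / GG P z

/-- The bound which gives that the weights are at most one. -/
theorem key (s : BoundingSieve) (R : ℝ) {d : ℕ} (hd : d ∣ s.prodPrimes) :
    (s.nu d)⁻¹ * ∑ l ∈ (Nat.divisors s.prodPrimes).filter (fun l : ℕ => d ∣ l ∧ (l : ℝ) ≤ R),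
      s.selbergTerms l ≤ selS s R := by
  classical
  have hP := s.prodPrimes_squarefree
  have hP0 : s.prodPrimes ≠ 0 := hP.ne_zero
  have hd0 : d ≠ 0 := fun h => hP0 (Nat.eq_zero_of_zero_dvd (h ▸ hd))
  obtain ⟨F, hF⟩ : ∃ F : Finset ℕ, F = (Nat.divisors s.prodPrimes).filter
    (fun l : ℕ => d ∣ l ∧ (l : ℝ) ≤ R) := ⟨_, rfl⟩
  rw [← hF]
  have hFm : ∀ l ∈ F, l ∣ s.prodPrimes ∧ d ∣ l ∧ (l : ℝ) ≤ R := by
    intro l hl
    rw [hF, mem_filter, Nat.mem_divisors] at hl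
    exact ⟨hl.1.1, hl.2.1, hl.2.2⟩
  have hcop : ∀ l ∈ F, Nat.Coprime (l / d) d := by
    intro l hl
    obtain ⟨h1, h2, -⟩ := hFm l hl
    have h3 : Squarefree (l / d * d) := by
      rw [Nat.div_mul_cancel h2]
      exact hP.squarefree_of_dvd h1
    exact Nat.coprime_of_squarefree_mul h3
  have hsum : (s.nu d)⁻¹ * s.selbergTerms d = ∑ e ∈ d.divisors, s.selbergTerms e := by
    have h := BoundingSieve.sum_divisors_selbergTerms_eq_selbergTerms_mul_nu_inv (s := s) hd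
    rw [← sum_filter, Nat.divisors_filter_dvd_of_dvd hP0 hd] at h
    rw [h, mul_comm]
  have h1 : (s.nu d)⁻¹ * ∑ l ∈ F, s.selbergTerms l =
      ∑ x ∈ F ×ˢ d.divisors, s.selbergTerms (x.2 * (x.1 / d)) := by
    rw [mul_sum, sum_product]
    refine sum_congr rfl fun l hl => ?_
    obtain ⟨h1, h2, -⟩ := hFm l hl
    have e1 : s.selbergTerms l = s.selbergTerms d * s.selbergTerms (l / d) := by
      rw [← BoundingSieve.selbergTerms_isMultiplicative.map_mul_of_coprime (hcop l hl).symm,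
        Nat.mul_div_cancel' h2]
    rw [e1, ← mul_assoc, hsum, sum_mul]
    refine sum_congr rfl fun e he => ?_
    rw [BoundingSieve.selbergTerms_isMultiplicative.map_mul_of_coprime]
    exact ((hcop l hl).symm).coprime_dvd_left (Nat.dvd_of_mem_divisors he)
  have hinj : Set.InjOn (fun x : ℕ × ℕ => x.2 * (x.1 / d)) (F ×ˢ d.divisors : Finset (ℕ × ℕ)) := by
    rintro ⟨l, e⟩ hx ⟨l', e'⟩ hx' h
    rw [mem_coe, mem_product] at hx hx'
    simp only at hx hx' h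
    have g1 : Nat.gcd (e * (l / d)) d = e := by
      rw [Nat.Coprime.gcd_mul_right_cancel e (hcop l hx.1)]
      exact Nat.gcd_eq_left (Nat.dvd_of_mem_divisors hx.2)
    have g2 : Nat.gcd (e' * (l' / d)) d = e' := by
      rw [Nat.Coprime.gcd_mul_right_cancel e' (hcop l' hx'.1)]
      exact Nat.gcd_eq_left (Nat.dvd_of_mem_divisors hx'.2)
    have g3 : e = e' := by rw [← g1, ← g2, h]
    subst g3
    have he0 : 0 < e := Nat.pos_of_ne_zero fun h0 => by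
      have := Nat.dvd_of_mem_divisors hx.2
      rw [h0] at this
      exact hd0 (Nat.eq_zero_of_zero_dvd this)
    have g4 : l / d = l' / d := Nat.eq_of_mul_eq_mul_left he0 h
    have g5 : l = l' := by
      rw [← Nat.div_mul_cancel (hFm l hx.1).2.1, ← Nat.div_mul_cancel (hFm l' hx'.1).2.1, g4]
    rw [g5]
  rw [h1, ← sum_image (g := fun x : ℕ × ℕ => x.2 * (x.1 / d)) (f := fun a => s.selbergTerms a) hinj]
  unfold selS
  refine sum_le_sum_of_subset_of_nonneg ?_ ?_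
  · intro a ha
    rw [mem_image] at ha
    obtain ⟨⟨l, e⟩, hx, rfl⟩ := ha
    rw [mem_product] at hx
    obtain ⟨h1, h2, h3⟩ := hFm l hx.1
    have h4 : e * (l / d) ∣ l := by
      have : e * (l / d) ∣ d * (l / d) := Nat.mul_dvd_mul_right (Nat.dvd_of_mem_divisors hx.2) _
      rwa [Nat.mul_div_cancel' h2] at this
    have hl0 : l ≠ 0 := fun h => hP0 (Nat.eq_zero_of_zero_dvd (h ▸ h1))
    rw [mem_filter, Nat.mem_divisors]
    refine ⟨⟨h4.trans h1, hP0⟩, le_trans ?_ h3⟩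
    exact_mod_cast Nat.le_of_dvd (Nat.pos_of_ne_zero hl0) h4
  · intro a ha _
    rw [mem_filter, Nat.mem_divisors] at ha
    exact (BoundingSieve.selbergTerms_pos ha.1.1).le

/-- The density `1 / d`. -/
noncomputable def nu : ArithmeticFunction ℝ := ⟨fun d => ((d : ℝ))⁻¹, by simp⟩

theorem nu_apply (d : ℕ) : nu d = ((d : ℝ))⁻¹ := rfl

theorem nu_mult : nu.IsMultiplicative := by
  refine ⟨?_, fun {m n} _ => ?_⟩
  · rw [nu_apply]
    simp
  · rw [nu_apply, nu_apply, nu_apply, Nat.cast_mul, mul_inv]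

theorem sqf (P : Finset ℕ) (hP : ∀ p ∈ P, p.Prime) : Squarefree (∏ p ∈ P, p) := by
  classical
  induction P using Finset.induction_on with
  | empty => simp
  | insert a s ha ih =>
    rw [prod_insert ha]
    have hap := hP a (mem_insert_self a s)
    have hs : ∀ p ∈ s, p.Prime := fun p hp => hP p (mem_insert_of_mem hp)
    rw [Nat.squarefree_mul_iff]
    refine ⟨?_, hap.squarefree, ih hs⟩
    rw [Nat.Prime.coprime_iff_not_dvd hap]
    intro h
    obtain ⟨q, hq, haq⟩ := (Prime.dvd_finsetProd_iff hap.prime _).1 h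
    rw [(Nat.prime_dvd_prime_iff_eq hap (hs q hq)).1 haq] at ha
    exact ha hq

/-- The sieve. -/
noncomputable def sv (P : Finset ℕ) (hP : ∀ p ∈ P, p.Prime) : BoundingSieve where
  support := ∅
  prodPrimes := ∏ p ∈ P, p
  prodPrimes_squarefree := sqf P hP
  weights := fun _ => 0
  weights_nonneg := fun _ => le_rfl
  totalMass := 0
  nu := nu
  nu_mult := nu_mult
  nu_pos_of_prime := fun p hp _ => by
    rw [nu_apply]
    exact inv_pos.2 (by exact_mod_cast hp.pos)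
  nu_lt_one_of_prime := fun p hp _ => by
    rw [nu_apply]
    exact inv_lt_one_of_one_lt₀ (by exact_mod_cast hp.one_lt)

theorem dvd_iff (P : Finset ℕ) (hP : ∀ p ∈ P, p.Prime) (d : ℕ) :
    d ∣ ∏ p ∈ P, p ↔ Squarefree d ∧ ∀ p : ℕ, p.Prime → p ∣ d → p ∈ P := by
  constructor
  · intro h
    refine ⟨(sqf P hP).squarefree_of_dvd h, fun p hp hpd => ?_⟩
    obtain ⟨q, hq, hpq⟩ := (Prime.dvd_finsetProd_iff hp.prime _).1 (hpd.trans h)
    rwa [(Nat.prime_dvd_prime_iff_eq hp (hP q hq)).1 hpq]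
  · rintro ⟨h1, h2⟩
    rw [← Nat.prod_primeFactors_of_squarefree h1]
    refine prod_dvd_prod_of_subset _ _ _ fun p hp => ?_
    exact h2 p (Nat.prime_of_mem_primeFactors hp) (Nat.dvd_of_mem_primeFactors hp)

theorem mem_sq (P : Finset ℕ) (hP : ∀ p ∈ P, p.Prime) (z d : ℕ) :
    d ∈ sq P z ↔ d ∣ ∏ p ∈ P, p ∧ d ≤ z := by
  rw [dvd_iff P hP]
  simp only [Pool.Agent.Helper51.PS.SELW.sq, Finset.mem_filter, Finset.mem_Icc]
  constructor
  · rintro ⟨⟨_, h2⟩, h3⟩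
    exact ⟨h3, h2⟩
  · rintro ⟨h1, h2⟩
    exact ⟨⟨Nat.pos_of_ne_zero h1.1.ne_zero, h2⟩, h1⟩

theorem sq_eq (P : Finset ℕ) (hP : ∀ p ∈ P, p.Prime) (z : ℕ) :
    (Nat.divisors (sv P hP).prodPrimes).filter (fun l : ℕ => (l : ℝ) ≤ (z : ℝ)) = sq P z := by
  ext l
  rw [mem_filter, Nat.mem_divisors, mem_sq P hP, Nat.cast_le]
  constructor
  · rintro ⟨⟨h1, _⟩, h2⟩
    exact ⟨h1, h2⟩
  · rintro ⟨h1, h2⟩
    exact ⟨⟨h1, (sqf P hP).ne_zero⟩, h2⟩

theorem term_eq (P : Finset ℕ) (hP : ∀ p ∈ P, p.Prime) (d : ℕ) :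
    (sv P hP).selbergTerms d = 1 / (Nat.totient d : ℝ) := by
  rw [BoundingSieve.selbergTerms_apply]
  have h : (Nat.totient d : ℝ) = d * ∏ p ∈ d.primeFactors, (1 - ((p : ℝ))⁻¹) := by
    have h := Nat.totient_eq_mul_prod_factors d
    have h2 := congrArg (fun x : ℚ => (x : ℝ)) h
    simpa using h2
  rw [h, one_div, mul_inv, prod_inv_distrib]
  rfl

theorem GG_eq (P : Finset ℕ) (hP : ∀ p ∈ P, p.Prime) (z : ℕ) :
    selS (sv P hP) z = GG P z := by
  unfold selS GG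
  rw [sq_eq P hP z]
  exact sum_congr rfl fun d _ => term_eq P hP d

/-- The weights. -/
noncomputable def lam (P : Finset ℕ) (hP : ∀ p ∈ P, p.Prime) (z d : ℕ) : ℝ :=
  selW (sv P hP) z d

theorem lam_one (P : Finset ℕ) (hP : ∀ p ∈ P, p.Prime) (z : ℕ) (hz : 1 ≤ z) :
    lam P hP z 1 = 1 := selW_one (sv P hP) z (by exact_mod_cast hz)

theorem lam_zero (P : Finset ℕ) (hP : ∀ p ∈ P, p.Prime) (z d : ℕ) (hd : d ∉ sq P z) :
    lam P hP z d = 0 := by
  rw [mem_sq P hP, not_and_or] at hd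
  rcases hd with hd | hd
  · unfold lam selW
    rw [sum_eq_zero, mul_zero]
    intro l hl
    rw [mem_filter, Nat.mem_divisors] at hl
    exact absurd (hl.2.1.trans hl.1.1) hd
  · exact selW_eq_zero (sv P hP) z (by exact_mod_cast not_le.1 hd)

theorem lam_le (P : Finset ℕ) (hP : ∀ p ∈ P, p.Prime) (z d : ℕ) (hz : 1 ≤ z) :
    |lam P hP z d| ≤ 1 := by
  by_cases hd : d ∣ (sv P hP).prodPrimes
  · unfold lam selW
    have hS := selS_pos (sv P hP) z (by exact_mod_cast hz)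
    have hnu : 0 < (sv P hP).nu d := BoundingSieve.nu_pos_of_dvd_prodPrimes hd
    have h0 : 0 ≤ ∑ l ∈ (Nat.divisors (sv P hP).prodPrimes).filter
        (fun l : ℕ => d ∣ l ∧ (l : ℝ) ≤ (z : ℝ)), (sv P hP).selbergTerms l := by
      refine sum_nonneg fun l hl => ?_
      rw [mem_filter, Nat.mem_divisors] at hl
      exact (BoundingSieve.selbergTerms_pos hl.1.1).le
    have hk := key (sv P hP) z hd
    have hμ : |((ArithmeticFunction.moebius d : ℤ) : ℝ)| ≤ 1 := by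
      have : |ArithmeticFunction.moebius d| ≤ 1 := ArithmeticFunction.abs_moebius_le_one
      exact_mod_cast this
    rw [abs_mul, abs_mul, abs_mul, abs_of_nonneg h0, abs_of_pos (inv_pos.mpr hnu),
      abs_of_pos (inv_pos.mpr hS)]
    obtain ⟨T0, hT0⟩ : ∃ T0 : ℝ, T0 = ∑ l ∈ (Nat.divisors (sv P hP).prodPrimes).filter
        (fun l : ℕ => d ∣ l ∧ (l : ℝ) ≤ (z : ℝ)), (sv P hP).selbergTerms l := ⟨_, rfl⟩
    rw [← hT0] at h0 hk ⊢
    calc ((sv P hP).nu d)⁻¹ * |((ArithmeticFunction.moebius d : ℤ) : ℝ)| *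
          (selS (sv P hP) z)⁻¹ * T0
        = |((ArithmeticFunction.moebius d : ℤ) : ℝ)| * ((selS (sv P hP) z)⁻¹ *
          (((sv P hP).nu d)⁻¹ * T0)) := by ring
      _ ≤ 1 * ((selS (sv P hP) z)⁻¹ * selS (sv P hP) z) := by gcongr
      _ = 1 := by rw [inv_mul_cancel₀ hS.ne', one_mul]
  · have h : d ∉ sq P z := fun h => hd ((mem_sq P hP z d).1 h).1
    rw [lam_zero P hP z d h, abs_zero]
    exact zero_le_one

/-- The coefficients. -/
noncomputable def cf (P : Finset ℕ) (hP : ∀ p ∈ P, p.Prime) (z d : ℕ) : ℝ :=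
  ∑ p ∈ (Pool.Agent.Helper51.PS.SELW.sq P z ×ˢ Pool.Agent.Helper51.PS.SELW.sq P z) with Nat.lcm p.1 p.2 = d,
    lam P hP z p.1 * lam P hP z p.2

theorem lcm_mem (P : Finset ℕ) (hP : ∀ p ∈ P, p.Prime) (z : ℕ) (a b : ℕ)
    (ha : a ∈ Pool.Agent.Helper51.PS.SELW.sq P z) (hb : b ∈ Pool.Agent.Helper51.PS.SELW.sq P z) :
    Nat.lcm a b ∈ Pool.Agent.Helper51.PS.SELW.sq P (z ^ 2) := by
  rw [mem_sq P hP] at ha hb ⊢
  refine ⟨Nat.lcm_dvd ha.1 hb.1, ?_⟩
  have ha0 : a ≠ 0 := fun h => (sqf P hP).ne_zero (Nat.eq_zero_of_zero_dvd (h ▸ ha.1))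
  have hb0 : b ≠ 0 := fun h => (sqf P hP).ne_zero (Nat.eq_zero_of_zero_dvd (h ▸ hb.1))
  calc Nat.lcm a b ≤ a * b :=
        Nat.le_of_dvd (Nat.mul_pos (Nat.pos_of_ne_zero ha0) (Nat.pos_of_ne_zero hb0))
          (Nat.lcm_dvd_mul a b)
    _ ≤ z * z := Nat.mul_le_mul ha.2 hb.2
    _ = z ^ 2 := by ring

theorem sq_sub (P : Finset ℕ) (z d : ℕ) (h : d ∈ Pool.Agent.Helper51.PS.SELW.sq P z) : d ∈ Icc 1 z := by
  simp only [Pool.Agent.Helper51.PS.SELW.sq, Finset.mem_filter] at h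
  exact h.1

theorem sum_cf (P : Finset ℕ) (hP : ∀ p ∈ P, p.Prime) (z : ℕ) (f : ℕ → ℝ) :
    ∑ d ∈ Icc 1 (z ^ 2), cf P hP z d * f d =
      ∑ p ∈ (Pool.Agent.Helper51.PS.SELW.sq P z ×ˢ Pool.Agent.Helper51.PS.SELW.sq P z),
        lam P hP z p.1 * lam P hP z p.2 * f (Nat.lcm p.1 p.2) := by
  classical
  rw [← sum_fiberwise_of_maps_to (s := Pool.Agent.Helper51.PS.SELW.sq P z ×ˢ Pool.Agent.Helper51.PS.SELW.sq P z)
    (t := Icc 1 (z ^ 2)) (g := fun p : ℕ × ℕ => Nat.lcm p.1 p.2)]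
  · refine sum_congr rfl fun d _ => ?_
    unfold cf
    rw [sum_mul]
    refine sum_congr ?_ fun p hp => ?_
    · rfl
    · rw [mem_filter] at hp
      rw [hp.2]
  · intro p hp
    rw [mem_product] at hp
    exact sq_sub P _ _ (lcm_mem P hP z p.1 p.2 hp.1 hp.2)

theorem ds_cf (P : Finset ℕ) (hP : ∀ p ∈ P, p.Prime) (z : ℕ) (m : ℤ) :
    ds (cf P hP z) (z ^ 2) m =
      (∑ d ∈ Pool.Agent.Helper51.PS.SELW.sq P z, lam P hP z d * (if (d : ℤ) ∣ m then 1 else 0)) ^ 2 := by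
  classical
  unfold ds
  rw [sum_cf P hP z (fun d => if (d : ℤ) ∣ m then 1 else 0), pow_two, sum_mul_sum, sum_product]
  refine sum_congr rfl fun a _ => sum_congr rfl fun b _ => ?_
  have h : (((Nat.lcm a b : ℕ) : ℤ) ∣ m) ↔ ((a : ℤ) ∣ m ∧ (b : ℤ) ∣ m) := by
    rw [Int.natCast_dvd, Int.natCast_dvd, Int.natCast_dvd]
    exact Nat.lcm_dvd_iff
  by_cases ha : (a : ℤ) ∣ m <;> by_cases hb : (b : ℤ) ∣ m <;> simp [h, ha, hb]

theorem quad (P : Finset ℕ) (hP : ∀ p ∈ P, p.Prime) (z : ℕ) (hz : 1 ≤ z) :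
    ∑ d ∈ Icc 1 (z ^ 2), cf P hP z d / d = 1 / GG P z := by
  classical
  have h0 : ∑ d ∈ Icc 1 (z ^ 2), cf P hP z d / d =
      ∑ d ∈ Icc 1 (z ^ 2), cf P hP z d * ((d : ℝ))⁻¹ :=
    sum_congr rfl fun d _ => div_eq_mul_inv _ _
  rw [h0, sum_cf P hP z (fun d => ((d : ℝ))⁻¹), ← GG_eq P hP z, one_div,
    ← mainSum_selW (sv P hP) z (by exact_mod_cast hz),
    BoundingSieve.mainSum_lambdaSquared_eq_sum_sum_mul, ← sum_product']
  have hsub : Pool.Agent.Helper51.PS.SELW.sq P z ×ˢ Pool.Agent.Helper51.PS.SELW.sq P z ⊆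
      Nat.divisors (sv P hP).prodPrimes ×ˢ Nat.divisors (sv P hP).prodPrimes := by
    intro p hp
    rw [mem_product] at hp ⊢
    rw [Nat.mem_divisors, Nat.mem_divisors]
    exact ⟨⟨((mem_sq P hP z _).1 hp.1).1, (sqf P hP).ne_zero⟩,
      ⟨((mem_sq P hP z _).1 hp.2).1, (sqf P hP).ne_zero⟩⟩
  rw [← sum_subset hsub]
  · refine sum_congr rfl fun p hp => ?_
    rw [mem_product] at hp
    have h1 := sq_sub P z _ hp.1
    have h2 := sq_sub P z _ hp.2
    rw [mem_Icc] at h1 h2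
    have e1 : ((Nat.gcd p.1 p.2 : ℕ) : ℝ) * ((Nat.lcm p.1 p.2 : ℕ) : ℝ) = p.1 * p.2 := by
      exact_mod_cast Nat.gcd_mul_lcm p.1 p.2
    have a0 : (p.1 : ℝ) ≠ 0 := by exact_mod_cast (by omega : p.1 ≠ 0)
    have b0 : (p.2 : ℝ) ≠ 0 := by exact_mod_cast (by omega : p.2 ≠ 0)
    have g0 : ((Nat.gcd p.1 p.2 : ℕ) : ℝ) ≠ 0 := by
      intro h
      rw [h, zero_mul] at e1
      exact mul_ne_zero a0 b0 e1.symm
    have l0 : ((Nat.lcm p.1 p.2 : ℕ) : ℝ) ≠ 0 := by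
      intro h
      rw [h, mul_zero] at e1
      exact mul_ne_zero a0 b0 e1.symm
    show lam P hP z p.1 * lam P hP z p.2 * ((Nat.lcm p.1 p.2 : ℕ) : ℝ)⁻¹ =
      (p.1 : ℝ)⁻¹ * lam P hP z p.1 * (p.2 : ℝ)⁻¹ * lam P hP z p.2 *
        (((Nat.gcd p.1 p.2 : ℕ) : ℝ)⁻¹)⁻¹
    rw [inv_inv]
    have e2 : ((Nat.lcm p.1 p.2 : ℕ) : ℝ)⁻¹ =
        (p.1 : ℝ)⁻¹ * (p.2 : ℝ)⁻¹ * ((Nat.gcd p.1 p.2 : ℕ) : ℝ) := by
      rw [← mul_inv, ← e1, mul_inv, mul_comm (((Nat.gcd p.1 p.2 : ℕ) : ℝ)⁻¹), mul_assoc,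
        inv_mul_cancel₀ g0, mul_one]
    rw [e2]
    ring
  · intro p _ hp
    rw [mem_product, not_and_or] at hp
    rcases hp with hp | hp
    · have h := lam_zero P hP z _ hp
      unfold lam at h
      rw [h]
      ring
    · have h := lam_zero P hP z _ hp
      unfold lam at h
      rw [h]
      ring

theorem cf_le (P : Finset ℕ) (hP : ∀ p ∈ P, p.Prime) (z : ℕ) (hz : 1 ≤ z) (d : ℕ) :
    |cf P hP z d| ≤ 3 ^ d.primeFactors.card := by
  classical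
  by_cases hd : d ∣ ∏ p ∈ P, p
  · have hsd := (dvd_iff P hP d).1 hd
    have h1 : |cf P hP z d| ≤ ((((Pool.Agent.Helper51.PS.SELW.sq P z ×ˢ Pool.Agent.Helper51.PS.SELW.sq P z).filter
        fun p : ℕ × ℕ => Nat.lcm p.1 p.2 = d).card : ℕ) : ℝ) := by
      unfold cf
      refine (abs_sum_le_sum_abs _ _).trans ?_
      rw [card_eq_sum_ones, Nat.cast_sum]
      refine sum_le_sum fun p _ => ?_
      rw [abs_mul, Nat.cast_one]
      exact mul_le_one₀ (lam_le P hP z _ hz) (abs_nonneg _) (lam_le P hP z _ hz)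
    have h2 : ((Pool.Agent.Helper51.PS.SELW.sq P z ×ˢ Pool.Agent.Helper51.PS.SELW.sq P z).filter
        fun p : ℕ × ℕ => Nat.lcm p.1 p.2 = d).card ≤ 3 ^ d.primeFactors.card := by
      have h3 := Nat.card_pair_lcm_eq hsd.1
      rw [ArithmeticFunction.cardDistinctFactors_apply, ← List.card_toFinset] at h3
      refine le_trans (card_le_card ?_) (le_of_eq h3)
      intro p hp
      rw [mem_filter] at hp ⊢
      refine ⟨?_, hp.2⟩
      rw [mem_product, Nat.mem_divisors, Nat.mem_divisors]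
      refine ⟨⟨?_, hsd.1.ne_zero⟩, ⟨?_, hsd.1.ne_zero⟩⟩
      · rw [← hp.2]
        exact Nat.dvd_lcm_left _ _
      · rw [← hp.2]
        exact Nat.dvd_lcm_right _ _
    exact h1.trans (by exact_mod_cast h2)
  · have h1 : cf P hP z d = 0 := by
      unfold cf
      refine sum_eq_zero fun p hp => ?_
      rw [mem_filter, mem_product] at hp
      exfalso
      refine hd ?_
      rw [← hp.2]
      exact ((mem_sq P hP _ _).1 (lcm_mem P hP z _ _ hp.1.1 hp.1.2)).1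
    rw [h1, abs_zero]
    positivity

theorem main : Pool.Agent.Helper51.PS.SELW.St_SEL := by
  classical
  intro P z hz hP
  refine ⟨cf P hP z, fun m => ?_, fun m hm => ?_, fun m => ?_, cf_le P hP z hz, fun d hd => ?_,
    quad P hP z hz⟩
  · rw [ds_cf]
    exact sq_nonneg _
  · rw [ds_cf, sum_eq_single 1]
    · rw [lam_one P hP z hz]
      simp
    · intro d hd hd1
      rw [if_neg, mul_zero]
      intro hdm
      obtain ⟨p, hp, hpd⟩ := Nat.exists_prime_and_dvd hd1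
      have h1 := ((dvd_iff P hP d).1 ((mem_sq P hP z d).1 hd).1).2 p hp hpd
      exact hm p h1 ((Int.natCast_dvd_natCast.2 hpd).trans hdm)
    · intro h
      exact absurd ((mem_sq P hP z 1).2 ⟨one_dvd _, hz⟩) h
  · rw [ds_cf]
    have h1 : |∑ d ∈ Pool.Agent.Helper51.PS.SELW.sq P z, lam P hP z d * (if (d : ℤ) ∣ m then 1 else 0)| ≤
        (((Pool.Agent.Helper51.PS.SELW.sq P z).filter (fun d : ℕ => (d : ℤ) ∣ m)).card : ℝ) := by
      refine (abs_sum_le_sum_abs _ _).trans ?_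
      rw [card_eq_sum_ones, Nat.cast_sum, sum_filter]
      refine sum_le_sum fun d _ => ?_
      by_cases h : (d : ℤ) ∣ m
      · rw [if_pos h, if_pos h, mul_one, Nat.cast_one]
        exact lam_le P hP z d hz
      · rw [if_neg h, if_neg h, mul_zero, abs_zero]
    have h2 := pow_le_pow_left₀ (abs_nonneg _) h1 2
    rw [sq_abs] at h2
    convert h2
  · unfold cf at hd
    obtain ⟨p, hp, -⟩ := exists_ne_zero_of_sum_ne_zero hd
    rw [mem_filter, mem_product] at hp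
    rw [← hp.2]
    exact lcm_mem P hP z _ _ hp.1.1 hp.1.2

end Pool.Agent.Helper51.PS.SELW
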