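import Pool.Agent.Helper51.PS.Stm
import Pool.Agent.Helper51.PS.SELW
import Pool.Graph.R_seed8.Helper923.PPS.BT

set_option autoImplicit false

open Finset

namespace Pool.Agent.Helper51.PS.SEL

/-- removing the multiples of the primes of `s` one after the other -/
theorem remove (R : ℕ) (s : Finset ℕ) (hs : ∀ p ∈ s, p.Prime) :
    (∏ p ∈ s, (1 - (p : ℝ)⁻¹)) * ∑ n ∈ Icc 1 R, (n : ℝ)⁻¹ ≤
      ∑ n ∈ (Icc 1 R).filter (fun n => ∀ p ∈ s, ¬ p ∣ n), (n : ℝ)⁻¹ := by
  classical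
  induction s using Finset.induction_on with
  | empty => simp
  | insert a s ha ih =>
    have hap := hs a (mem_insert_self a s)
    have ih' := ih (fun p hp => hs p (mem_insert_of_mem hp))
    rw [prod_insert ha, mul_assoc]
    have ha0 : (1 : ℝ) < a := by exact_mod_cast hap.one_lt
    have hinv : (a : ℝ)⁻¹ ≤ 1 := (inv_lt_one_of_one_lt₀ ha0).le
    refine (mul_le_mul_of_nonneg_left ih' (by linarith)).trans ?_
    obtain ⟨F, hF⟩ : ∃ F, F = (Icc 1 R).filter (fun n => ∀ p ∈ s, ¬ p ∣ n) := ⟨_, rfl⟩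
    rw [← hF]
    have hsplit := sum_filter_add_sum_filter_not F (fun n => a ∣ n) (fun n => (n : ℝ)⁻¹)
    have h1 : ∑ n ∈ F.filter (fun n => a ∣ n), (n : ℝ)⁻¹ ≤ (a : ℝ)⁻¹ * ∑ n ∈ F, (n : ℝ)⁻¹ := by
      rw [mul_sum]
      have h2 : F.filter (fun n => a ∣ n) ⊆ F.image (fun m => a * m) := by
        intro n hn
        rw [mem_filter, hF, mem_filter, mem_Icc] at hn
        obtain ⟨⟨hn1, hn2⟩, m, rfl⟩ := hn
        rw [mem_image]
        refine ⟨m, ?_, rfl⟩
        rw [hF, mem_filter, mem_Icc]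
        have hm : 0 < m := by
          rcases Nat.eq_zero_or_pos m with h | h
          · subst h; omega
          · exact h
        exact ⟨⟨hm, le_trans (Nat.le_mul_of_pos_left m hap.pos) hn1.2⟩,
          fun p hp hpm => hn2 p hp (hpm.mul_left a)⟩
      refine (sum_le_sum_of_subset_of_nonneg h2 (fun _ _ _ => by positivity)).trans ?_
      rw [sum_image (by
        intro x _ y _ hxy
        exact Nat.eq_of_mul_eq_mul_left hap.pos hxy)]
      apply le_of_eq
      apply sum_congr rfl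
      intro m _
      push_cast
      rw [mul_inv]
    have h2 : F.filter (fun n => ¬ a ∣ n) =
        (Icc 1 R).filter (fun n => ∀ p ∈ insert a s, ¬ p ∣ n) := by
      ext n
      rw [hF, mem_filter, mem_filter, mem_filter]
      constructor
      · rintro ⟨⟨h1, h2⟩, h3⟩
        refine ⟨h1, fun p hp => ?_⟩
        rw [mem_insert] at hp
        rcases hp with rfl | hp
        · exact h3
        · exact h2 p hp
      · rintro ⟨h1, h2⟩
        exact ⟨⟨h1, fun p hp => h2 p (mem_insert_of_mem hp)⟩, h2 a (mem_insert_self a s)⟩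
    rw [← h2]
    have h3 : (1 - (a : ℝ)⁻¹) * ∑ n ∈ F, (n : ℝ)⁻¹ =
        ∑ n ∈ F, (n : ℝ)⁻¹ - (a : ℝ)⁻¹ * ∑ n ∈ F, (n : ℝ)⁻¹ := by ring
    rw [h3]
    linarith

theorem totient_div (k : ℕ) (hk : 1 ≤ k) :
    (Nat.totient k : ℝ) / k = ∏ p ∈ k.primeFactors, (1 - (p : ℝ)⁻¹) := by
  have h : (Nat.totient k : ℝ) = k * ∏ p ∈ k.primeFactors, (1 - ((p : ℝ))⁻¹) := by
    have h := Nat.totient_eq_mul_prod_factors k
    have h2 := congrArg (fun x : ℚ => (x : ℝ)) h
    simpa using h2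
  have hk0 : (k : ℝ) ≠ 0 := by exact_mod_cast (by omega : k ≠ 0)
  rw [h, mul_div_assoc, mul_comm, div_mul_cancel₀]
  exact hk0

theorem GG_ge (k z : ℕ) (hk : 1 ≤ k) :
    (Nat.totient k : ℝ) / k * Real.log z ≤
      2 * SELW.GG ((Icc 1 z).filter (fun p => p.Prime ∧ ¬ p ∣ k)) z := by
  classical
  rcases Nat.eq_zero_or_pos z with rfl | hz
  · simp [SELW.GG, SELW.sq]
  have h1 := remove z k.primeFactors (fun p hp => Nat.prime_of_mem_primeFactors hp)
  have h2 := Pool.Agent.Helper923.PPS.sum_inv_le_two_mul k z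
  have h3 : (Icc 1 z).filter (fun n => ∀ p ∈ k.primeFactors, ¬ p ∣ n) =
      (Icc 1 z).filter (fun n => Nat.Coprime n k) := by
    refine filter_congr fun n hn => ?_
    constructor
    · intro h
      rw [Nat.coprime_iff_gcd_eq_one]
      by_contra hc
      obtain ⟨p, hp, hpd⟩ := Nat.exists_prime_and_dvd hc
      refine h p ?_ (hpd.trans (Nat.gcd_dvd_left _ _))
      rw [Nat.mem_primeFactors]
      exact ⟨hp, hpd.trans (Nat.gcd_dvd_right _ _), by omega⟩
    · intro h p hp hpn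
      exact Nat.Prime.not_coprime_iff_dvd.2
        ⟨p, Nat.prime_of_mem_primeFactors hp, hpn, Nat.dvd_of_mem_primeFactors hp⟩ h
  rw [h3, ← totient_div k hk] at h1
  have h4 := log_add_one_le_harmonic z
  rw [harmonic_eq_sum_Icc] at h4
  push_cast at h4
  have h5 : Real.log z ≤ Real.log ((z : ℝ) + 1) :=
    Real.log_le_log (by exact_mod_cast hz) (by linarith)
  have h6 : ∑ l ∈ (Icc 1 z).filter (fun l => Squarefree l ∧ Nat.Coprime l k), (l : ℝ)⁻¹ ≤
      SELW.GG ((Icc 1 z).filter (fun p => p.Prime ∧ ¬ p ∣ k)) z := by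
    unfold SELW.GG
    refine le_trans (sum_le_sum (f := fun l : ℕ => (l : ℝ)⁻¹)
      (g := fun l : ℕ => 1 / (Nat.totient l : ℝ)) fun l hl => ?_)
      (sum_le_sum_of_subset_of_nonneg ?_ fun _ _ _ => by positivity)
    · rw [mem_filter, mem_Icc] at hl
      rw [inv_eq_one_div]
      exact one_div_le_one_div_of_le (by exact_mod_cast Nat.totient_pos.2 (by omega))
        (by exact_mod_cast Nat.totient_le l)
    · intro l hl
      rw [mem_filter, mem_Icc] at hl
      obtain ⟨⟨hl1, hl2⟩, hsq, hco⟩ := hl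
      simp only [SELW.sq, mem_filter, mem_Icc]
      refine ⟨⟨hl1, hl2⟩, hsq, fun p hp hpl => ?_⟩
      exact ⟨⟨hp.one_lt.le, (Nat.le_of_dvd (by omega) hpl).trans hl2⟩, hp, fun hpk =>
        Nat.Prime.not_coprime_iff_dvd.2 ⟨p, hp, hpl, hpk⟩ hco⟩
  have h7 : 0 ≤ (Nat.totient k : ℝ) / k := by positivity
  have h8 : (Nat.totient k : ℝ) / k * Real.log z ≤
      (Nat.totient k : ℝ) / k * ∑ n ∈ Icc 1 z, (n : ℝ)⁻¹ :=
    mul_le_mul_of_nonneg_left (h5.trans h4) h7
  linarith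

theorem three_pow_le (e : ℕ) (he : 1 ≤ e) : (3 : ℝ) ^ e.primeFactors.card ≤ (e : ℝ) ^ 2 := by
  have h1 : (3 : ℕ) ^ e.primeFactors.card ≤ (∏ p ∈ e.primeFactors, p) ^ 2 := by
    rw [← prod_const, ← prod_pow]
    refine prod_le_prod' fun p hp => ?_
    have := (Nat.prime_of_mem_primeFactors hp).two_le
    nlinarith
  have h2 : (∏ p ∈ e.primeFactors, p) ≤ e := Nat.le_of_dvd (by omega) (Nat.prod_primeFactors_dvd e)
  exact_mod_cast h1.trans (Nat.pow_le_pow_left h2 2)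

theorem count (e k l Z : ℕ) (he : 1 ≤ e) (hco : Nat.Coprime e k) :
    |((((Icc 1 Z).filter (fun j => e ∣ l + j * k)).card : ℕ) : ℝ) - (Z : ℝ) / e| ≤ 1 := by
  classical
  have h1 := Pool.Agent.Helper923.PPS.count_dvd_AP (a := l + k) (q := k) (N := Z) (d := e) he hco
  have h2 : (Icc 1 Z).filter (fun j => e ∣ l + j * k) =
      ((range Z).filter (fun i => e ∣ l + k + i * k)).image (fun i => i + 1) := by
    ext j
    rw [mem_filter, mem_image, mem_Icc]
    constructor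
    · rintro ⟨⟨h1, h2⟩, h3⟩
      refine ⟨j - 1, ?_, by omega⟩
      rw [mem_filter, mem_range]
      refine ⟨by omega, ?_⟩
      have h4 : l + k + (j - 1) * k = l + j * k := by
        obtain ⟨i, rfl⟩ : ∃ i, j = i + 1 := ⟨j - 1, by omega⟩
        simp only [Nat.add_sub_cancel]
        ring
      rwa [h4]
    · rintro ⟨i, hi, rfl⟩
      rw [mem_filter, mem_range] at hi
      refine ⟨⟨by omega, by omega⟩, ?_⟩
      have h4 : l + k + i * k = l + (i + 1) * k := by ring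
      rw [← h4]
      exact hi.2
  rw [h2, card_image_of_injective _ (fun a b h => by simpa using h)]
  exact h1

theorem exists_root (Z : ℕ) : ∃ z : ℕ, z ^ 64 ≤ Z ∧ Z < (z + 1) ^ 64 := by
  classical
  have h : ∃ w : ℕ, Z < (w + 1) ^ 64 := ⟨Z, by
    calc Z < Z + 1 := Nat.lt_succ_self Z
      _ ≤ (Z + 1) ^ 64 := Nat.le_self_pow (by norm_num) _⟩
  refine ⟨Nat.find h, ?_, Nat.find_spec h⟩
  rcases Nat.eq_zero_or_pos (Nat.find h) with h0 | h0
  · rw [h0]
    exact Nat.zero_le _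
  · have h1 := Nat.find_min h (m := Nat.find h - 1) (by omega)
    rw [Nat.sub_add_cancel h0] at h1
    exact not_lt.1 h1

theorem log_le_of_pow (Z z m : ℕ) (hZ : 1 ≤ Z) (h : Z ≤ z ^ m) :
    Real.log Z ≤ (m : ℝ) * Real.log z := by
  have hZ0 : (0 : ℝ) < Z := by exact_mod_cast hZ
  have h2 : Real.log Z ≤ Real.log ((z : ℝ) ^ m) := Real.log_le_log hZ0 (by exact_mod_cast h)
  rwa [Real.log_pow] at h2

theorem abs_bound (Z z : ℕ) (c : ℕ → ℝ) (hc3 : ∀ d, |c d| ≤ 3 ^ d.primeFactors.card)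
    (hz36 : z ^ 36 ≤ Z) : ∑ e ∈ Icc 1 (z ^ 2), |c e| ≤ (Z : ℝ) ^ (1 / 6 : ℝ) := by
  have h1 : ∀ e ∈ Icc 1 (z ^ 2), |c e| ≤ ((z : ℝ) ^ 2) ^ 2 := by
    intro e he
    rw [mem_Icc] at he
    refine (hc3 e).trans ((three_pow_le e he.1).trans ?_)
    have : (e : ℝ) ≤ (z : ℝ) ^ 2 := by exact_mod_cast he.2
    exact pow_le_pow_left₀ (Nat.cast_nonneg e) this 2
  have h2 := sum_le_sum h1
  rw [sum_const, Nat.card_Icc, nsmul_eq_mul] at h2
  have h3 : (((z ^ 2 + 1 - 1 : ℕ)) : ℝ) * ((z : ℝ) ^ 2) ^ 2 = (z : ℝ) ^ 6 := by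
    rw [Nat.add_sub_cancel]
    push_cast
    ring
  rw [h3] at h2
  refine h2.trans ?_
  have h4 : (((z : ℝ) ^ 6) ^ 6) ^ (((6 : ℕ) : ℝ)⁻¹) = (z : ℝ) ^ 6 :=
    Real.pow_rpow_inv_natCast (by positivity) (by norm_num)
  have h5 : (((6 : ℕ) : ℝ)⁻¹) = (1 / 6 : ℝ) := by norm_num
  rw [h5] at h4
  rw [← h4]
  refine Real.rpow_le_rpow (by positivity) ?_ (by norm_num)
  have h6 : (z ^ 6) ^ 6 ≤ Z := by
    rw [← pow_mul]
    exact hz36
  exact_mod_cast h6

theorem succ_le_sq (z : ℕ) (hz : 2 ≤ z) : z + 1 ≤ z ^ 2 := by nlinarith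

theorem main : S_SEL := by
  classical
  refine ⟨258, 2 ^ 64, by norm_num, fun Z hZ k hk => ?_⟩
  obtain ⟨z, hz1, hz2⟩ := exists_root Z
  have hz : 2 ≤ z := by
    by_contra hc
    have h1 : (z + 1) ^ 64 ≤ 2 ^ 64 := Nat.pow_le_pow_left (by omega) 64
    omega
  have hzR : (2 : ℝ) ≤ z := by exact_mod_cast hz
  have hZ2 : 2 ≤ Z := le_trans (by norm_num) hZ
  have hZ0 : (0 : ℝ) < Z := by exact_mod_cast (by omega : 0 < Z)
  have hlZ : 0 < Real.log Z := Real.log_pos (by exact_mod_cast (by omega : 1 < Z))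
  have hlz : Real.log Z ≤ 128 * Real.log z := by
    have h1 : Z ≤ z ^ 128 := by
      calc Z ≤ (z + 1) ^ 64 := hz2.le
        _ ≤ (z ^ 2) ^ 64 := Nat.pow_le_pow_left (succ_le_sq z hz) 64
        _ = z ^ 128 := by rw [← pow_mul]
    have h2 := log_le_of_pow Z z 128 (by omega) h1
    exact_mod_cast h2
  obtain ⟨P, hPdef⟩ : ∃ P, P = (Icc 1 z).filter (fun p => p.Prime ∧ ¬ p ∣ k) := ⟨_, rfl⟩
  have hP : ∀ p ∈ P, p.Prime := by
    intro p hp
    rw [hPdef, mem_filter] at hp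
    exact hp.2.1
  obtain ⟨c, hc1, hc2, -, hc3, hc4, hc5⟩ := SELW.main P z (by omega) hP
  have hds : ∀ n : ℕ, SELW.ds c (z ^ 2) (n : ℤ) =
      ∑ e ∈ (Icc 1 (z ^ 2)).filter (fun e => e ∣ n), c e := by
    intro n
    unfold SELW.ds
    rw [sum_filter]
    refine sum_congr rfl fun e _ => ?_
    by_cases h : e ∣ n
    · rw [if_pos h, if_pos (Int.natCast_dvd_natCast.2 h), mul_one]
    · rw [if_neg h, if_neg (fun h' => h (Int.natCast_dvd_natCast.1 h')), mul_zero]
  have hDZ : z ^ 2 ≤ Z := le_trans (Nat.pow_le_pow_right (by omega) (by norm_num)) hz1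
  have habs : ∑ e ∈ Icc 1 (z ^ 2), |c e| ≤ (Z : ℝ) ^ (1 / 6 : ℝ) :=
    abs_bound Z z c hc3 (le_trans (Nat.pow_le_pow_right (by omega) (by norm_num)) hz1)
  refine ⟨c, z ^ 2, hDZ, habs, fun n => ?_, fun n hn => ?_, fun l => ?_⟩
  · rw [← hds]
    exact hc1 n
  · rw [← hds, hc2 n]
    intro p hp hpn
    have h1 := hn p (hP p hp) (Int.natCast_dvd_natCast.1 hpn)
    rw [hPdef, mem_filter, mem_Icc] at hp
    have h2 : z ≤ Z := le_trans (Nat.le_self_pow (by norm_num) z) hz1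
    omega
  · have h1 : ∑ j ∈ Icc 1 Z, ∑ e ∈ (Icc 1 (z ^ 2)).filter (fun e => e ∣ l + j * k), c e =
        ∑ e ∈ Icc 1 (z ^ 2), c e * (((Icc 1 Z).filter (fun j => e ∣ l + j * k)).card : ℝ) := by
      simp only [sum_filter]
      rw [sum_comm]
      refine sum_congr rfl fun e _ => ?_
      rw [← sum_filter, sum_const, nsmul_eq_mul, mul_comm]
    have h2 : ∀ e ∈ Icc 1 (z ^ 2),
        c e * (((Icc 1 Z).filter (fun j => e ∣ l + j * k)).card : ℝ) ≤ Z * (c e / e) + |c e| := by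
      intro e he
      rw [mem_Icc] at he
      by_cases hce : c e = 0
      · rw [hce]
        simp
      · have h3 := hc4 e hce
        simp only [SELW.sq, mem_filter, mem_Icc] at h3
        have hco : Nat.Coprime e k := by
          rw [Nat.coprime_iff_gcd_eq_one]
          by_contra hc
          obtain ⟨p, hp, hpd⟩ := Nat.exists_prime_and_dvd hc
          have h4 := h3.2.2 p hp (hpd.trans (Nat.gcd_dvd_left _ _))
          rw [hPdef, mem_filter] at h4
          exact h4.2.2 (hpd.trans (Nat.gcd_dvd_right _ _))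
        have h4 := count e k l Z he.1 hco
        have h5 : c e * ((((Icc 1 Z).filter (fun j => e ∣ l + j * k)).card : ℝ) - (Z : ℝ) / e) ≤
            |c e| * 1 := by
          refine (le_abs_self _).trans ?_
          rw [abs_mul]
          exact mul_le_mul_of_nonneg_left h4 (abs_nonneg _)
        have h6 : c e * ((((Icc 1 Z).filter (fun j => e ∣ l + j * k)).card : ℝ) - (Z : ℝ) / e) =
            c e * (((Icc 1 Z).filter (fun j => e ∣ l + j * k)).card : ℝ) - Z * (c e / e) := by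
          ring
        rw [h6] at h5
        linarith
    rw [h1]
    refine (sum_le_sum h2).trans ?_
    rw [sum_add_distrib, ← mul_sum, hc5]
    clear hz1 hz2 hZ
    have hG := GG_ge k z hk
    rw [← hPdef] at hG
    have hk0 : (0 : ℝ) < k := by exact_mod_cast hk
    have hφ0 : (0 : ℝ) < Nat.totient k := by exact_mod_cast Nat.totient_pos.2 hk
    have hφk : (Nat.totient k : ℝ) ≤ k := by exact_mod_cast Nat.totient_le k
    have hlz0 : 0 < Real.log z := Real.log_pos (by linarith)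
    have hG0 : 0 < SELW.GG P z := by
      have : 0 < (Nat.totient k : ℝ) / k * Real.log z := by positivity
      linarith
    have hG1 : (Nat.totient k : ℝ) / k * Real.log Z ≤ 256 * SELW.GG P z := by
      have h3 : (Nat.totient k : ℝ) / k * Real.log Z ≤
          (Nat.totient k : ℝ) / k * (128 * Real.log z) :=
        mul_le_mul_of_nonneg_left hlz (by positivity)
      linarith
    have hmain : (Z : ℝ) * (1 / SELW.GG P z) ≤
        256 * ((k : ℝ) / (Nat.totient k : ℝ) * (Z / Real.log Z)) := by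
      have h3 : 256 * ((k : ℝ) / (Nat.totient k : ℝ) * (Z / Real.log Z)) =
          (Z : ℝ) * (256 / ((Nat.totient k : ℝ) / k * Real.log Z)) := by
        field_simp
      rw [h3]
      refine mul_le_mul_of_nonneg_left ?_ hZ0.le
      rw [div_le_div_iff₀ hG0 (by positivity)]
      linarith
    have herr : (Z : ℝ) ^ (1 / 6 : ℝ) ≤ 2 * ((k : ℝ) / (Nat.totient k : ℝ) * (Z / Real.log Z)) := by
      have h3 : Real.log Z ≤ (Z : ℝ) ^ (5 / 6 : ℝ) / (5 / 6 : ℝ) :=
        Real.log_le_rpow_div hZ0.le (by norm_num)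
      have h4 : (Z : ℝ) ^ (1 / 6 : ℝ) * (Z : ℝ) ^ (5 / 6 : ℝ) = Z := by
        rw [← Real.rpow_add hZ0]
        norm_num
      have h5 : (Z : ℝ) ^ (1 / 6 : ℝ) ≤ 2 * (Z / Real.log Z) := by
        rw [← mul_div_assoc, le_div_iff₀ hlZ]
        have h6 : (Z : ℝ) ^ (1 / 6 : ℝ) * Real.log Z ≤
            (Z : ℝ) ^ (1 / 6 : ℝ) * ((Z : ℝ) ^ (5 / 6 : ℝ) / (5 / 6 : ℝ)) :=
          mul_le_mul_of_nonneg_left h3 (by positivity)
        have h7 : (Z : ℝ) ^ (1 / 6 : ℝ) * ((Z : ℝ) ^ (5 / 6 : ℝ) / (5 / 6 : ℝ)) =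
            (6 / 5) * Z := by
          rw [← mul_div_assoc, h4]
          ring
        linarith
      have h8 : (1 : ℝ) ≤ (k : ℝ) / (Nat.totient k : ℝ) := by
        rw [one_le_div hφ0]
        exact hφk
      have h9 : 0 ≤ Z / Real.log Z := by positivity
      nlinarith
    linarith

end Pool.Agent.Helper51.PS.SEL
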