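import Pool.Agent.Helper51.PS.Stm2
import Pool.Agent.Helper51.PS.SEL
import Pool.Agent.Helper51.PS.MER

/-!
# DIC: Selberg's weights and Mertens for all `k`
-/

set_option autoImplicit false

open Finset

namespace Pool.Agent.Helper51.PS.DIC

open Pool.Agent.Helper51.PS.Fin1

/-- `∏ (1 - 1/p)` over the primes `p ≤ Z` dividing `k` -/
noncomputable def kap (Z k : ℕ) : ℝ := ∏ p ∈ k.primeFactors.filter (fun p => p ≤ Z), (1 - (p : ℝ)⁻¹)

theorem factor_pos {k p : ℕ} (hp : p ∈ k.primeFactors) : 0 < 1 - (p : ℝ)⁻¹ := by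
  have h1 : (1 : ℝ) < p := by exact_mod_cast (Nat.prime_of_mem_primeFactors hp).one_lt
  have := inv_lt_one_of_one_lt₀ h1
  linarith

theorem kap_pos (Z k : ℕ) : 0 < kap Z k :=
  prod_pos fun _ hp => factor_pos (mem_filter.1 hp).1

theorem GG_ge (k z Z : ℕ) (hk : 1 ≤ k) (hzZ : z ≤ Z) :
    kap Z k * Real.log z ≤
      2 * SELW.GG ((Icc 1 z).filter (fun p => p.Prime ∧ ¬ p ∣ k)) z := by
  classical
  rcases Nat.eq_zero_or_pos z with rfl | hz
  · simp [SELW.GG, SELW.sq]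
  have h1 := SEL.remove z (k.primeFactors.filter (fun p => p ≤ Z))
    (fun p hp => Nat.prime_of_mem_primeFactors (mem_filter.1 hp).1)
  have h2 := Pool.Agent.Helper923.PPS.sum_inv_le_two_mul k z
  have h3 : (Icc 1 z).filter (fun n => ∀ p ∈ k.primeFactors.filter (fun p => p ≤ Z), ¬ p ∣ n) =
      (Icc 1 z).filter (fun n => Nat.Coprime n k) := by
    refine filter_congr fun n hn => ?_
    rw [mem_Icc] at hn
    constructor
    · intro h
      rw [Nat.coprime_iff_gcd_eq_one]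
      by_contra hc
      obtain ⟨p, hp, hpd⟩ := Nat.exists_prime_and_dvd hc
      have hpn : p ∣ n := hpd.trans (Nat.gcd_dvd_left _ _)
      refine h p ?_ hpn
      rw [mem_filter, Nat.mem_primeFactors]
      exact ⟨⟨hp, hpd.trans (Nat.gcd_dvd_right _ _), by omega⟩,
        (Nat.le_of_dvd (by omega) hpn).trans (hn.2.trans hzZ)⟩
    · intro h p hp hpn
      rw [mem_filter] at hp
      exact Nat.Prime.not_coprime_iff_dvd.2
        ⟨p, Nat.prime_of_mem_primeFactors hp.1, hpn, Nat.dvd_of_mem_primeFactors hp.1⟩ h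
  rw [h3] at h1
  have h4 := log_add_one_le_harmonic z
  rw [harmonic_eq_sum_Icc] at h4
  push_cast at h4
  have h5 : Real.log z ≤ Real.log ((z : ℝ) + 1) :=
    Real.log_le_log (by exact_mod_cast hz) (by linarith)
  have h6 : ∑ l ∈ (Icc 1 z).filter (fun l => Squarefree l ∧ Nat.Coprime l k), (l : ℝ)⁻¹ ≤
      SELW.GG ((Icc 1 z).filter (fun p => p.Prime ∧ ¬ p ∣ k)) z := by
    unfold SELW.GG
    refine le_trans (sum_le_sum (f := fun l : ℕ => (l : ℝ)⁻¹)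
      (g := fun l : ℕ => 1 / (Nat.totient l : ℝ)) fun l hl => ?_)
      (sum_le_sum_of_subset_of_nonneg ?_ fun _ _ _ => by positivity)
    · rw [mem_filter, mem_Icc] at hl
      rw [inv_eq_one_div]
      exact one_div_le_one_div_of_le (by exact_mod_cast Nat.totient_pos.2 (by omega))
        (by exact_mod_cast Nat.totient_le l)
    · intro l hl
      rw [mem_filter, mem_Icc] at hl
      obtain ⟨⟨hl1, hl2⟩, hsq, hco⟩ := hl
      simp only [SELW.sq, mem_filter, mem_Icc]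
      refine ⟨⟨hl1, hl2⟩, hsq, fun p hp hpl => ?_⟩
      exact ⟨⟨hp.one_lt.le, (Nat.le_of_dvd (by omega) hpl).trans hl2⟩, hp, fun hpk =>
        Nat.Prime.not_coprime_iff_dvd.2 ⟨p, hp, hpl, hpk⟩ hco⟩
  have h8 : kap Z k * Real.log z ≤ kap Z k * ∑ n ∈ Icc 1 z, (n : ℝ)⁻¹ :=
    mul_le_mul_of_nonneg_left (h5.trans h4) (kap_pos Z k).le
  have h9 : kap Z k * ∑ n ∈ Icc 1 z, (n : ℝ)⁻¹ =
      (∏ p ∈ k.primeFactors.filter (fun p => p ≤ Z), (1 - (p : ℝ)⁻¹)) * ∑ n ∈ Icc 1 z, (n : ℝ)⁻¹ := rfl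
  linarith

theorem abs_bound (Z z : ℕ) (c : ℕ → ℝ) (hc3 : ∀ d, |c d| ≤ 3 ^ d.primeFactors.card)
    (hz64 : z ^ 192 ≤ Z ^ 3) : ∑ e ∈ Icc 1 (z ^ 2), |c e| ≤ (Z : ℝ) ^ (3 / 32 : ℝ) := by
  have h1 : ∀ e ∈ Icc 1 (z ^ 2), |c e| ≤ ((z : ℝ) ^ 2) ^ 2 := by
    intro e he
    rw [mem_Icc] at he
    refine (hc3 e).trans ((SEL.three_pow_le e he.1).trans ?_)
    have : (e : ℝ) ≤ (z : ℝ) ^ 2 := by exact_mod_cast he.2
    exact pow_le_pow_left₀ (Nat.cast_nonneg e) this 2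
  have h2 := sum_le_sum h1
  rw [sum_const, Nat.card_Icc, nsmul_eq_mul] at h2
  have h3 : (((z ^ 2 + 1 - 1 : ℕ)) : ℝ) * ((z : ℝ) ^ 2) ^ 2 = (z : ℝ) ^ 6 := by
    rw [Nat.add_sub_cancel]
    push_cast
    ring
  rw [h3] at h2
  refine h2.trans ?_
  have h4 : (((z : ℝ) ^ 6) ^ 32) ^ (((32 : ℕ) : ℝ)⁻¹) = (z : ℝ) ^ 6 :=
    Real.pow_rpow_inv_natCast (by positivity) (by norm_num)
  have h5 : (Z : ℝ) ^ (3 / 32 : ℝ) = ((Z : ℝ) ^ 3) ^ (((32 : ℕ) : ℝ)⁻¹) := by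
    rw [← Real.rpow_natCast, ← Real.rpow_mul (Nat.cast_nonneg Z)]
    norm_num
  rw [← h4, h5]
  refine Real.rpow_le_rpow (by positivity) ?_ (by norm_num)
  have h6 : (z ^ 6) ^ 32 ≤ Z ^ 3 := by
    rw [← pow_mul]
    exact hz64
  exact_mod_cast h6

theorem cube (Z z : ℕ) (h : z ^ 64 ≤ Z) : z ^ 192 ≤ Z ^ 3 := by
  calc z ^ 192 = (z ^ 64) ^ 3 := by rw [← pow_mul]
    _ ≤ Z ^ 3 := Nat.pow_le_pow_left h 3

/-- The weights. -/
theorem weights (Z k : ℕ) (hZ : 2 ^ 64 ≤ Z) (hk : 1 ≤ k) : ∃ (c : ℕ → ℝ) (D : ℕ), D ≤ Z ∧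
    ∑ e ∈ Icc 1 D, |c e| ≤ (Z : ℝ) ^ (3 / 32 : ℝ) ∧
    (∀ n : ℕ, 0 ≤ ∑ e ∈ (Icc 1 D).filter (fun e => e ∣ n), c e) ∧
    (∀ n : ℕ, (∀ p : ℕ, p.Prime → p ∣ n → Z < p) → 1 ≤ ∑ e ∈ (Icc 1 D).filter (fun e => e ∣ n), c e) ∧
    ∀ l : ℕ, ∑ j ∈ Icc 1 Z, ∑ e ∈ (Icc 1 D).filter (fun e => e ∣ l + j * k), c e ≤
      258 * ((kap Z k)⁻¹ * (Z / Real.log Z)) := by
  classical
  obtain ⟨z, hz1, hz2⟩ := SEL.exists_root Z
  have hz : 2 ≤ z := by
    by_contra hc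
    have h1 : (z + 1) ^ 64 ≤ 2 ^ 64 := Nat.pow_le_pow_left (by omega) 64
    omega
  have hzR : (2 : ℝ) ≤ z := by exact_mod_cast hz
  have hZ2 : 2 ≤ Z := le_trans (by norm_num) hZ
  have hZ0 : (0 : ℝ) < Z := by exact_mod_cast (by omega : 0 < Z)
  have hZ1 : (1 : ℝ) ≤ Z := by exact_mod_cast (by omega : 1 ≤ Z)
  have hlZ : 0 < Real.log Z := Real.log_pos (by exact_mod_cast (by omega : 1 < Z))
  have hzZ : z ≤ Z := le_trans (Nat.le_self_pow (by norm_num) z) hz1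
  have hlz : Real.log Z ≤ 128 * Real.log z := by
    have h1 : Z ≤ z ^ 128 := by
      calc Z ≤ (z + 1) ^ 64 := hz2.le
        _ ≤ (z ^ 2) ^ 64 := Nat.pow_le_pow_left (SEL.succ_le_sq z hz) 64
        _ = z ^ 128 := by rw [← pow_mul]
    have h2 := SEL.log_le_of_pow Z z 128 (by omega) h1
    exact_mod_cast h2
  obtain ⟨P, hPdef⟩ : ∃ P, P = (Icc 1 z).filter (fun p => p.Prime ∧ ¬ p ∣ k) := ⟨_, rfl⟩
  have hP : ∀ p ∈ P, p.Prime := by
    intro p hp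
    rw [hPdef, mem_filter] at hp
    exact hp.2.1
  obtain ⟨c, hc1, hc2, -, hc3, hc4, hc5⟩ := SELW.main P z (by omega) hP
  have hds : ∀ n : ℕ, SELW.ds c (z ^ 2) (n : ℤ) =
      ∑ e ∈ (Icc 1 (z ^ 2)).filter (fun e => e ∣ n), c e := by
    intro n
    unfold SELW.ds
    rw [sum_filter]
    refine sum_congr rfl fun e _ => ?_
    by_cases h : e ∣ n
    · rw [if_pos h, if_pos (Int.natCast_dvd_natCast.2 h), mul_one]
    · rw [if_neg h, if_neg (fun h' => h (Int.natCast_dvd_natCast.1 h')), mul_zero]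
  have hDZ : z ^ 2 ≤ Z := le_trans (Nat.pow_le_pow_right (by omega) (by norm_num)) hz1
  have habs : ∑ e ∈ Icc 1 (z ^ 2), |c e| ≤ (Z : ℝ) ^ (3 / 32 : ℝ) := abs_bound Z z c hc3 (cube Z z hz1)
  refine ⟨c, z ^ 2, hDZ, habs, fun n => ?_, fun n hn => ?_, fun l => ?_⟩
  · rw [← hds]
    exact hc1 n
  · rw [← hds, hc2 n]
    intro p hp hpn
    have h1 := hn p (hP p hp) (Int.natCast_dvd_natCast.1 hpn)
    rw [hPdef, mem_filter, mem_Icc] at hp
    omega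
  · have h1 : ∑ j ∈ Icc 1 Z, ∑ e ∈ (Icc 1 (z ^ 2)).filter (fun e => e ∣ l + j * k), c e =
        ∑ e ∈ Icc 1 (z ^ 2), c e * (((Icc 1 Z).filter (fun j => e ∣ l + j * k)).card : ℝ) := by
      simp only [sum_filter]
      rw [sum_comm]
      refine sum_congr rfl fun e _ => ?_
      rw [← sum_filter, sum_const, nsmul_eq_mul, mul_comm]
    have h2 : ∀ e ∈ Icc 1 (z ^ 2),
        c e * (((Icc 1 Z).filter (fun j => e ∣ l + j * k)).card : ℝ) ≤ Z * (c e / e) + |c e| := by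
      intro e he
      rw [mem_Icc] at he
      by_cases hce : c e = 0
      · rw [hce]
        simp
      · have h3 := hc4 e hce
        simp only [SELW.sq, mem_filter, mem_Icc] at h3
        have hco : Nat.Coprime e k := by
          rw [Nat.coprime_iff_gcd_eq_one]
          by_contra hc
          obtain ⟨p, hp, hpd⟩ := Nat.exists_prime_and_dvd hc
          have h4 := h3.2.2 p hp (hpd.trans (Nat.gcd_dvd_left _ _))
          rw [hPdef, mem_filter] at h4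
          exact h4.2.2 (hpd.trans (Nat.gcd_dvd_right _ _))
        have h4 := SEL.count e k l Z he.1 hco
        have h5 : c e * ((((Icc 1 Z).filter (fun j => e ∣ l + j * k)).card : ℝ) - (Z : ℝ) / e) ≤
            |c e| * 1 := by
          refine (le_abs_self _).trans ?_
          rw [abs_mul]
          exact mul_le_mul_of_nonneg_left h4 (abs_nonneg _)
        have h6 : c e * ((((Icc 1 Z).filter (fun j => e ∣ l + j * k)).card : ℝ) - (Z : ℝ) / e) =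
            c e * (((Icc 1 Z).filter (fun j => e ∣ l + j * k)).card : ℝ) - Z * (c e / e) := by
          ring
        rw [h6] at h5
        linarith
    rw [h1]
    refine (sum_le_sum h2).trans ?_
    rw [sum_add_distrib, ← mul_sum, hc5]
    clear hz1 hz2 hZ
    have hG := GG_ge k z Z hk hzZ
    rw [← hPdef] at hG
    have hκ := kap_pos Z k
    have hκ1 : kap Z k ≤ 1 := prod_le_one (fun p hp => (factor_pos (mem_filter.1 hp).1).le)
      (fun p _ => by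
        have : (0 : ℝ) ≤ (p : ℝ)⁻¹ := by positivity
        linarith)
    generalize kap Z k = κ at *
    have hlz0 : 0 < Real.log z := Real.log_pos (by linarith)
    have hG0 : 0 < SELW.GG P z := by
      have : 0 < κ * Real.log z := by positivity
      linarith
    have hG1 : κ * Real.log Z ≤ 256 * SELW.GG P z := by
      have h3 : κ * Real.log Z ≤ κ * (128 * Real.log z) := mul_le_mul_of_nonneg_left hlz hκ.le
      linarith
    have hmain : (Z : ℝ) * (1 / SELW.GG P z) ≤ 256 * (κ⁻¹ * (Z / Real.log Z)) := by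
      have h3 : 256 * (κ⁻¹ * (Z / Real.log Z)) = (Z : ℝ) * (256 / (κ * Real.log Z)) := by
        field_simp
      rw [h3]
      refine mul_le_mul_of_nonneg_left ?_ hZ0.le
      rw [div_le_div_iff₀ hG0 (by positivity)]
      linarith
    have herr : (Z : ℝ) ^ (3 / 32 : ℝ) ≤ 2 * (κ⁻¹ * (Z / Real.log Z)) := by
      have h0 : (Z : ℝ) ^ (3 / 32 : ℝ) ≤ (Z : ℝ) ^ (1 / 6 : ℝ) :=
        Real.rpow_le_rpow_of_exponent_le hZ1 (by norm_num)
      have h3 : Real.log Z ≤ (Z : ℝ) ^ (5 / 6 : ℝ) / (5 / 6 : ℝ) :=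
        Real.log_le_rpow_div hZ0.le (by norm_num)
      have h4 : (Z : ℝ) ^ (1 / 6 : ℝ) * (Z : ℝ) ^ (5 / 6 : ℝ) = Z := by
        rw [← Real.rpow_add hZ0]
        norm_num
      have h5 : (Z : ℝ) ^ (1 / 6 : ℝ) ≤ 2 * (Z / Real.log Z) := by
        rw [← mul_div_assoc, le_div_iff₀ hlZ]
        have h6 : (Z : ℝ) ^ (1 / 6 : ℝ) * Real.log Z ≤
            (Z : ℝ) ^ (1 / 6 : ℝ) * ((Z : ℝ) ^ (5 / 6 : ℝ) / (5 / 6 : ℝ)) :=
          mul_le_mul_of_nonneg_left h3 (by positivity)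
        have h7 : (Z : ℝ) ^ (1 / 6 : ℝ) * ((Z : ℝ) ^ (5 / 6 : ℝ) / (5 / 6 : ℝ)) =
            (6 / 5) * Z := by
          rw [← mul_div_assoc, h4]
          ring
        linarith
      have h8 : (1 : ℝ) ≤ κ⁻¹ := (one_le_inv₀ hκ).2 hκ1
      have h9 : 0 ≤ Z / Real.log Z := by positivity
      nlinarith
    linarith

theorem prod_ge (s : Finset ℕ) (hs : ∀ p ∈ s, p.Prime) :
    1 + ∑ p ∈ s, 1 / (p : ℝ) ≤ ∏ p ∈ s, (1 - (p : ℝ)⁻¹)⁻¹ := by
  classical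
  induction s using Finset.induction_on with
  | empty => simp
  | insert a s ha ih =>
    have ih' := ih fun p hp => hs p (mem_insert_of_mem hp)
    rw [sum_insert ha, prod_insert ha]
    have ha1 : (1 : ℝ) < a := by exact_mod_cast (hs a (mem_insert_self a s)).one_lt
    have ha0 : (0 : ℝ) < (a : ℝ)⁻¹ := by positivity
    have ha2 : (a : ℝ)⁻¹ < 1 := inv_lt_one_of_one_lt₀ ha1
    have h1 : 1 + (a : ℝ)⁻¹ ≤ (1 - (a : ℝ)⁻¹)⁻¹ := by
      generalize (a : ℝ)⁻¹ = x at *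
      rw [inv_eq_one_div, le_div_iff₀ (by linarith)]
      nlinarith
    have h2 : 0 ≤ ∑ p ∈ s, 1 / (p : ℝ) := sum_nonneg fun _ _ => by positivity
    have h3 : (1 + (a : ℝ)⁻¹) * (1 + ∑ p ∈ s, 1 / (p : ℝ)) ≤
        (1 - (a : ℝ)⁻¹)⁻¹ * ∏ p ∈ s, (1 - (p : ℝ)⁻¹)⁻¹ :=
      mul_le_mul h1 ih' (by linarith) (by linarith)
    refine le_trans ?_ h3
    rw [one_div]
    nlinarith

theorem kappa_le (Z k : ℕ) (hk : 1 ≤ k) (s : Finset ℕ) (hs : ∀ p ∈ s, p.Prime ∧ p ∣ k ∧ Z < p) :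
    (kap Z k)⁻¹ * (1 + ∑ p ∈ s, 1 / (p : ℝ)) ≤ (k : ℝ) / (Nat.totient k : ℝ) := by
  classical
  have h1 : (k : ℝ) / (Nat.totient k : ℝ) = ((Nat.totient k : ℝ) / k)⁻¹ := by rw [inv_div]
  rw [h1, SEL.totient_div k hk, ← prod_filter_mul_prod_filter_not k.primeFactors (fun p => p ≤ Z),
    mul_inv, ← prod_inv_distrib (s := k.primeFactors.filter (fun p => ¬ p ≤ Z))]
  have h2 : 1 + ∑ p ∈ s, 1 / (p : ℝ) ≤
      1 + ∑ p ∈ k.primeFactors.filter (fun p => ¬ p ≤ Z), 1 / (p : ℝ) := by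
    have h3 : ∑ p ∈ s, 1 / (p : ℝ) ≤
        ∑ p ∈ k.primeFactors.filter (fun p => ¬ p ≤ Z), 1 / (p : ℝ) := by
      refine sum_le_sum_of_subset_of_nonneg ?_ fun _ _ _ => by positivity
      intro p hp
      obtain ⟨h4, h5, h6⟩ := hs p hp
      rw [mem_filter, Nat.mem_primeFactors]
      exact ⟨⟨h4, h5, by omega⟩, by omega⟩
    linarith
  have h3 := prod_ge (k.primeFactors.filter (fun p => ¬ p ≤ Z))
    (fun p hp => Nat.prime_of_mem_primeFactors (mem_filter.1 hp).1)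
  exact mul_le_mul_of_nonneg_left (h2.trans h3) (inv_nonneg.2 (kap_pos Z k).le)

open scoped Classical in
theorem main : S_DIC := by
  intro δ hδ
  obtain ⟨Λ, hΛ⟩ : ∃ Λ : ℝ, Λ = 2 * 258 / δ + 1 := ⟨_, rfl⟩
  have hΛ1 : 1 ≤ Λ := by
    have : 0 ≤ 2 * 258 / δ := by positivity
    linarith
  have hΛδ : 258 ≤ δ / 2 * Λ := by
    rw [hΛ]
    have : δ / 2 * (2 * 258 / δ + 1) = 258 + δ / 2 := by
      field_simp
    rw [this]
    linarith
  obtain ⟨M, Z₀, L₁, hM, hmer⟩ := MER.main (2 * Λ)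
  refine ⟨M, max Z₀ (2 ^ 64), max 1 L₁, hM, le_max_left _ _, fun Z hZ k hk => ?_⟩
  have hZ64 : 2 ^ 64 ≤ Z := (le_max_right _ _).trans hZ
  have hZ2 : 2 ≤ Z := le_trans (by norm_num) hZ64
  have hZM : Z ≤ Z ^ M := Nat.le_self_pow (by omega) Z
  have hZ0 : (0 : ℝ) < Z := by exact_mod_cast (by omega : 0 < Z)
  have hlZ : 0 < Real.log Z := Real.log_pos (by exact_mod_cast (by omega : 1 < Z))
  obtain ⟨hf1, hf2⟩ := hmer Z ((le_max_left _ _).trans hZ) 1 le_rfl (by simp)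
  obtain ⟨c, D, hD, habs, h0, h1, h2⟩ := weights Z k hZ64 hk
  clear hZ hZ64
  -- the sums
  obtain ⟨L, hL⟩ : ∃ L, L = ∑ p ∈ (Ioc Z (Z ^ M)).filter (fun p => p.Prime ∧ ¬ p ∣ k), 1 / (p : ℝ) :=
    ⟨_, rfl⟩
  obtain ⟨B, hB⟩ : ∃ B, B = (Ioc Z (Z ^ M)).filter (fun p => p.Prime ∧ p ∣ k) := ⟨_, rfl⟩
  have hfull : ∑ p ∈ (Ioc Z (Z ^ M)).filter (fun p => p.Prime ∧ ¬ p ∣ 1), 1 / (p : ℝ) =
      L + ∑ p ∈ B, 1 / (p : ℝ) := by
    have e1 : (Ioc Z (Z ^ M)).filter (fun p => p.Prime ∧ ¬ p ∣ 1) =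
        (Ioc Z (Z ^ M)).filter Nat.Prime := by
      refine filter_congr fun p _ => ?_
      constructor
      · rintro ⟨h, -⟩
        exact h
      · intro h
        exact ⟨h, fun h' => h.one_lt.ne' (Nat.dvd_one.1 h')⟩
    rw [e1, hL, hB, ← sum_filter_add_sum_filter_not ((Ioc Z (Z ^ M)).filter Nat.Prime)
      (fun p => ¬ p ∣ k), filter_filter, filter_filter]
    simp only [not_not]
  rw [hfull] at hf1 hf2
  have hB0 : 0 ≤ ∑ p ∈ B, 1 / (p : ℝ) := sum_nonneg fun _ _ => by positivity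
  have hBm : ∀ p ∈ B, p.Prime ∧ p ∣ k ∧ Z < p := by
    intro p hp
    rw [hB, mem_filter, mem_Ioc] at hp
    exact ⟨hp.2.1, hp.2.2, hp.1.1⟩
  have hκB := kappa_le Z k hk B hBm
  have hκ0 := kappa_le Z k hk ∅ (by simp)
  rw [sum_empty, add_zero, mul_one] at hκ0
  have hκ : 0 < (kap Z k)⁻¹ := inv_pos.2 (kap_pos Z k)
  have hZl : 0 < (Z : ℝ) / Real.log Z := by positivity
  by_cases hcase : Λ ≤ L
  · right
    refine ⟨c, D, 258 * ((kap Z k)⁻¹ * (Z / Real.log Z)), L, hD, habs, ?_, ?_, ?_, ?_, ?_, ?_, ?_⟩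
    · intro n
      convert h0 n
    · intro n hn
      convert h1 n hn
    · intro l
      convert h2 l
    · rw [hL]
    · linarith
    · exact le_trans (by linarith) (le_max_right _ _)
    · have hL0 : 0 < L := by linarith
      rw [one_div_mul_eq_div, div_le_iff₀ hL0]
      have e1 : 258 ≤ δ / 2 * L :=
        hΛδ.trans (mul_le_mul_of_nonneg_left hcase (by positivity))
      have e2 : (kap Z k)⁻¹ * (Z / Real.log Z) ≤ (k : ℝ) / (Nat.totient k : ℝ) * (Z / Real.log Z) :=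
        mul_le_mul_of_nonneg_right hκ0 hZl.le
      have e3 : 0 ≤ (kap Z k)⁻¹ * (Z / Real.log Z) := by positivity
      calc 258 * ((kap Z k)⁻¹ * (Z / Real.log Z))
          ≤ (δ / 2 * L) * ((k : ℝ) / (Nat.totient k : ℝ) * (Z / Real.log Z)) :=
            mul_le_mul e1 e2 e3 (by positivity)
        _ = _ := by ring
  · left
    intro l
    have hS2 : Λ ≤ ∑ p ∈ B, 1 / (p : ℝ) := by linarith
    have hcnt : (cnt Z (Z ^ M) k l : ℝ) ≤
        ∑ j ∈ Icc 1 Z, ∑ e ∈ (Icc 1 D).filter (fun e => e ∣ l + j * k), c e := by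
      unfold cnt
      rw [card_filter]
      push_cast
      apply sum_le_sum
      intro j _
      split_ifs with h
      · exact h1 _ fun p hp hpd => lt_of_le_of_lt hZM (h p hp hpd)
      · exact h0 _
    refine (hcnt.trans (h2 l)).trans ?_
    have e1 : (kap Z k)⁻¹ * (1 + Λ) ≤ (k : ℝ) / (Nat.totient k : ℝ) :=
      le_trans (mul_le_mul_of_nonneg_left (by linarith) hκ.le) hκB
    have e2 : 258 * (kap Z k)⁻¹ ≤ δ * ((k : ℝ) / (Nat.totient k : ℝ)) := by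
      have e3 : 258 * (kap Z k)⁻¹ ≤ δ * ((kap Z k)⁻¹ * (1 + Λ)) := by
        have e4 : 258 ≤ δ * (1 + Λ) := by nlinarith
        calc 258 * (kap Z k)⁻¹ ≤ (δ * (1 + Λ)) * (kap Z k)⁻¹ := mul_le_mul_of_nonneg_right e4 hκ.le
          _ = _ := by ring
      exact e3.trans (mul_le_mul_of_nonneg_left e1 hδ.le)
    calc 258 * ((kap Z k)⁻¹ * (Z / Real.log Z)) = (258 * (kap Z k)⁻¹) * (Z / Real.log Z) := by ring
      _ ≤ (δ * ((k : ℝ) / (Nat.totient k : ℝ))) * (Z / Real.log Z) :=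
        mul_le_mul_of_nonneg_right e2 hZl.le
      _ = _ := by ring

end Pool.Agent.Helper51.PS.DIC
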