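import Pool.Agent.Helper51.PS.Stm2
import Pool.Graph.R_seed8.Helper923.PPS.BT

/-!
# FST: the first moment (co-author: helper17)
-/

set_option autoImplicit false

open Finset

namespace Pool.Agent.Helper51.PS.FST

theorem main : S_FST := by
  classical
  obtain ⟨C, hC1, hC⟩ := Pool.Agent.Helper923.PPS.brun_titchmarsh
  refine ⟨2 * C, by linarith, fun k hk x y hky hyx => ?_⟩
  have hk2 : (2 : ℝ) ≤ k := by exact_mod_cast hk
  have hk0 : (0 : ℝ) < k := by linarith
  have hy2 : 2 < y := by linarith
  have hy0 : 0 < y := by linarith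
  have hφ : (0 : ℝ) < Nat.totient k := by exact_mod_cast Nat.totient_pos.2 (by omega)
  have hlk : 0 < Real.log (y / k) := Real.log_pos (by rw [lt_div_iff₀ hk0, one_mul]; exact hky)
  have hly : 0 < Real.log y := Real.log_pos (by linarith)
  obtain ⟨a, ha⟩ : ∃ a : ℕ, a = ⌊x - y⌋₊ := ⟨_, rfl⟩
  obtain ⟨N, hN⟩ : ∃ N : ℕ, N = ⌈y⌉₊ + 1 := ⟨_, rfl⟩
  have hyN : y ≤ N := by
    rw [hN]
    push_cast
    have := Nat.le_ceil y
    linarith
  have hN2 : 2 ≤ N := by
    have : (2 : ℝ) ≤ N := by linarith
    exact_mod_cast this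
  have hNy : (N : ℝ) ≤ 2 * y := by
    rw [hN]
    push_cast
    have := Nat.ceil_lt_add_one hy0.le
    linarith
  have hBT := hC a 1 N hN2 (Or.inl rfl)
  obtain ⟨P, hP⟩ : ∃ P : Finset ℕ, P = ((range N).filter (fun j => (a + j * 1).Prime)).image (fun j => a + j * 1) :=
    ⟨_, rfl⟩
  have hPc : (P.card : ℝ) ≤ 2 * C * (y / Real.log y) := by
    have h1 : (P.card : ℝ) ≤ (((range N).filter (fun j => (a + j * 1).Prime)).card : ℝ) := by
      rw [hP]
      exact_mod_cast card_image_le
    have h2 : C * N / Real.log N ≤ C * (2 * y) / Real.log y := by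
      apply div_le_div₀ (by nlinarith) _ hly (Real.log_le_log hy0 hyN)
      apply mul_le_mul_of_nonneg_left hNy (by linarith)
    calc (P.card : ℝ) ≤ _ := h1
      _ ≤ _ := hBT
      _ ≤ _ := h2
      _ = _ := by ring
  have hsub : ∀ l ∈ range k, ({p : ℕ | p.Prime ∧ x - y < p ∧ (p : ℝ) ≤ x ∧ p ≡ l [MOD k]}.ncard : ℝ) ≤
      ((P.filter (fun p => p % k = l)).card : ℝ) := by
    intro l hl
    rw [mem_range] at hl
    rw [← Set.ncard_coe_finset]
    have h1 : {p : ℕ | p.Prime ∧ x - y < p ∧ (p : ℝ) ≤ x ∧ p ≡ l [MOD k]} ⊆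
        ((P.filter (fun p => p % k = l) : Finset ℕ) : Set ℕ) := by
      rintro p ⟨hp, hp1, hp2, hp3⟩
      rw [mem_coe, mem_filter]
      refine ⟨?_, ?_⟩
      · rw [hP, mem_image]
        have hfl : (a : ℝ) ≤ x - y := by rw [ha]; exact Nat.floor_le (by linarith)
        have hfl2 : x - y < a + 1 := by rw [ha]; exact Nat.lt_floor_add_one _
        have hap : a < p := by
          have : (a : ℝ) < p := by linarith
          exact_mod_cast this
        refine ⟨p - a, ?_, by omega⟩
        rw [mem_filter, mem_range]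
        refine ⟨?_, ?_⟩
        · have h3 : (p : ℝ) < a + 1 + y := by linarith
          have h4 : (p : ℝ) < ((a + N : ℕ) : ℝ) := by
            rw [hN]
            push_cast
            have := Nat.le_ceil y
            linarith
          have h5 : p < a + N := by exact_mod_cast h4
          omega
        · rw [show a + (p - a) * 1 = p by omega]
          exact hp
      · have h6 : p % k = l % k := hp3
        rw [h6, Nat.mod_eq_of_lt hl]
    exact_mod_cast Set.ncard_le_ncard h1 (Finset.finite_toSet _)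
  have hsum : ∑ l ∈ range k, ((P.filter (fun p => p % k = l)).card : ℝ) = P.card := by
    have h1 := card_eq_sum_card_fiberwise (f := fun p => p % k) (s := P) (t := range k) (by
      intro p _
      exact mem_coe.2 (mem_range.2 (Nat.mod_lt _ (by omega))))
    rw [h1]
    push_cast
    rfl
  obtain ⟨F, hF⟩ : ∃ F : Finset ℕ, F = (range k).filter (fun l : ℕ => y / (Nat.totient k * Real.log (y / k)) ≤
    ({p : ℕ | p.Prime ∧ x - y < p ∧ (p : ℝ) ≤ x ∧ p ≡ l [MOD k]}.ncard : ℝ)) := ⟨_, rfl⟩
  have hFc : (F.card : ℝ) * (y / (Nat.totient k * Real.log (y / k))) ≤ 2 * C * (y / Real.log y) := by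
    calc (F.card : ℝ) * (y / (Nat.totient k * Real.log (y / k))) =
          ∑ l ∈ F, (y / (Nat.totient k * Real.log (y / k))) := by rw [sum_const, nsmul_eq_mul]
      _ ≤ ∑ l ∈ F, ((P.filter (fun p => p % k = l)).card : ℝ) := by
          refine sum_le_sum fun l hl => ?_
          rw [hF, mem_filter] at hl
          exact hl.2.trans (hsub l hl.1)
      _ ≤ ∑ l ∈ range k, ((P.filter (fun p => p % k = l)).card : ℝ) := by
          refine sum_le_sum_of_subset_of_nonneg ?_ fun _ _ _ => by positivity
          rw [hF]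
          exact filter_subset _ _
      _ = P.card := hsum
      _ ≤ _ := hPc
  have hfin : (F.card : ℝ) ≤ 2 * C * (Nat.totient k * Real.log (y / k) / Real.log y) := by
    have h1 : 0 < y / (Nat.totient k * Real.log (y / k)) := by positivity
    rw [← mul_le_mul_iff_left₀ h1]
    refine hFc.trans (le_of_eq ?_)
    field_simp
  rw [hF] at hfin
  convert hfin using 3

end Pool.Agent.Helper51.PS.FST
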