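import Pool.Agent.Helper51.PS.Stm

/-!
# Project PS: one window
-/

set_option autoImplicit false

open Finset
open scoped Classical

namespace Pool.Agent.Helper51.PS.Fin1

/-- the number of the `j ≤ Z` for which `l + j k` has no prime factor `≤ y` -/
noncomputable def cnt (Z y k l : ℕ) : ℕ :=
  ((Icc 1 Z).filter (fun j => ∀ p : ℕ, p.Prime → p ∣ l + j * k → y < p)).card

/-- the linear combination -/
noncomputable def GG (Z k D : ℕ) (P : Finset ℕ) (c : ℕ → ℝ) (L : ℝ) (l : ℕ) : ℝ :=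
  ∑ e ∈ Icc 1 D, c e * ∑ q ∈ QQ P, bt L q * ∑ j ∈ (Icc 1 Z).filter (fun j => e ∣ l + j * k),
    ((if q ∣ l + j * k then (1 : ℝ) else 0) - 1 / q)

/-- the sieve inequality -/
lemma sieve (hTUR : S_TUR) {Z k D M : ℕ} {c : ℕ → ℝ} {L X : ℝ} (P : Finset ℕ)
    (hP : P = (Ioc Z (Z ^ M)).filter (fun p => p.Prime ∧ ¬ p ∣ k)) (hL : L = ∑ p ∈ P, 1 / (p : ℝ)) (hL1 : 1 ≤ L)
    (hZM : Z ≤ Z ^ M)
    (h0 : ∀ n : ℕ, 0 ≤ ∑ e ∈ (Icc 1 D).filter (fun e => e ∣ n), c e)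
    (h1 : ∀ n : ℕ, (∀ p : ℕ, p.Prime → p ∣ n → Z < p) → 1 ≤ ∑ e ∈ (Icc 1 D).filter (fun e => e ∣ n), c e)
    (h2 : ∀ l : ℕ, ∑ j ∈ Icc 1 Z, ∑ e ∈ (Icc 1 D).filter (fun e => e ∣ l + j * k), c e ≤ X) (l : ℕ) :
    (cnt Z (Z ^ M) k l : ℝ) ≤ 1 / L * X + GG Z k D P c L l := by
  have hPp : ∀ p ∈ P, p.Prime := by
    intro p hp
    rw [hP, mem_filter] at hp
    exact hp.2.1
  obtain ⟨t1, t2, t3⟩ := hTUR P L hPp hL hL1
  have s1 : (cnt Z (Z ^ M) k l : ℝ) ≤ ∑ j ∈ Icc 1 Z, (∑ e ∈ (Icc 1 D).filter (fun e => e ∣ l + j * k), c e) *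
      (1 - ((P.filter (fun p => p ∣ l + j * k)).card : ℝ) / L) ^ 2 := by
    unfold cnt
    rw [card_filter]
    push_cast
    apply sum_le_sum
    intro j _
    split_ifs with h
    · have h3 : P.filter (fun p => p ∣ l + j * k) = ∅ := by
        rw [filter_eq_empty_iff]
        intro p hp hpd
        have h4 := h p (hPp p hp) hpd
        rw [hP, mem_filter, mem_Ioc] at hp
        omega
      rw [h3]
      simp only [card_empty, Nat.cast_zero, zero_div, sub_zero, one_pow, mul_one]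
      exact h1 _ fun p hp hpd => lt_of_le_of_lt hZM (h p hp hpd)
    · exact mul_nonneg (h0 _) (sq_nonneg _)
  refine s1.trans ?_
  have s2 : ∑ j ∈ Icc 1 Z, (∑ e ∈ (Icc 1 D).filter (fun e => e ∣ l + j * k), c e) *
      (1 - ((P.filter (fun p => p ∣ l + j * k)).card : ℝ) / L) ^ 2 =
      (∑ j ∈ Icc 1 Z, ∑ e ∈ (Icc 1 D).filter (fun e => e ∣ l + j * k), c e) * (1 + ∑ q ∈ QQ P, bt L q / q) +
      GG Z k D P c L l := by
    have s3 : GG Z k D P c L l = ∑ j ∈ Icc 1 Z, (∑ e ∈ (Icc 1 D).filter (fun e => e ∣ l + j * k), c e) *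
        ∑ q ∈ QQ P, bt L q * ((if q ∣ l + j * k then (1 : ℝ) else 0) - 1 / q) := by
      unfold GG
      have e1 : ∀ e ∈ Icc 1 D, c e * ∑ q ∈ QQ P, bt L q * ∑ j ∈ (Icc 1 Z).filter (fun j => e ∣ l + j * k),
          ((if q ∣ l + j * k then (1 : ℝ) else 0) - 1 / q) =
          ∑ j ∈ Icc 1 Z, (if e ∣ l + j * k then c e else 0) *
            ∑ q ∈ QQ P, bt L q * ((if q ∣ l + j * k then (1 : ℝ) else 0) - 1 / q) := by
        intro e _
        have e2 : ∑ q ∈ QQ P, bt L q * ∑ j ∈ (Icc 1 Z).filter (fun j => e ∣ l + j * k),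
            ((if q ∣ l + j * k then (1 : ℝ) else 0) - 1 / q) =
            ∑ j ∈ (Icc 1 Z).filter (fun j => e ∣ l + j * k),
              ∑ q ∈ QQ P, bt L q * ((if q ∣ l + j * k then (1 : ℝ) else 0) - 1 / q) := by
          rw [sum_comm]
          apply sum_congr rfl
          intro q _
          rw [mul_sum]
        rw [e2, mul_sum, sum_filter]
        apply sum_congr rfl
        intro j _
        split_ifs <;> ring
      rw [sum_congr rfl e1, sum_comm]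
      apply sum_congr rfl
      intro j _
      rw [← sum_mul, sum_filter]
    rw [s3, sum_mul, ← sum_add_distrib]
    apply sum_congr rfl
    intro j _
    rw [← mul_add]
    congr 1
    rw [t1, add_assoc]
    congr 1
    rw [← sum_add_distrib, sum_filter]
    apply sum_congr rfl
    intro q _
    split_ifs <;> ring
  rw [s2]
  apply add_le_add _ le_rfl
  have hs0 : 0 ≤ ∑ j ∈ Icc 1 Z, ∑ e ∈ (Icc 1 D).filter (fun e => e ∣ l + j * k), c e :=
    sum_nonneg fun j _ => h0 _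
  have hL0 : 0 < L := by linarith
  calc (∑ j ∈ Icc 1 Z, ∑ e ∈ (Icc 1 D).filter (fun e => e ∣ l + j * k), c e) * (1 + ∑ q ∈ QQ P, bt L q / q)
      ≤ (∑ j ∈ Icc 1 Z, ∑ e ∈ (Icc 1 D).filter (fun e => e ∣ l + j * k), c e) * (1 / L) := by
        apply mul_le_mul_of_nonneg_left _ hs0
        linarith
    _ ≤ X * (1 / L) := mul_le_mul_of_nonneg_right (h2 l) (by positivity)
    _ = _ := mul_comm _ _

lemma QQ_card (P : Finset ℕ) (N : ℕ) (hN : 1 ≤ N) (h : P.card ≤ N) : (QQ P).card ≤ 2 * N ^ 2 := by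
  have h1 : (QQ P).card ≤ P.card + P.card * P.card := by
    unfold QQ
    refine (card_union_le _ _).trans ?_
    apply Nat.add_le_add_left
    refine card_image_le.trans ?_
    rw [offDiag_card]
    exact Nat.sub_le _ _
  nlinarith

lemma QQ_prop {P : Finset ℕ} {Z k : ℕ} (hP : ∀ p ∈ P, p.Prime ∧ Z < p ∧ ¬ p ∣ k) :
    ∀ q ∈ QQ P, Squarefree q ∧ ∀ p : ℕ, p.Prime → p ∣ q → Z < p ∧ ¬ p ∣ k := by
  intro q hq
  unfold QQ at hq
  rw [mem_union, mem_image] at hq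
  rcases hq with hq | ⟨⟨p1, p2⟩, hx, rfl⟩
  · refine ⟨(hP q hq).1.squarefree, fun p hp hpq => ?_⟩
    rw [(Nat.prime_dvd_prime_iff_eq hp (hP q hq).1).1 hpq]
    exact (hP q hq).2
  · rw [mem_offDiag] at hx
    obtain ⟨h1, h2, h3⟩ := hx
    have hc : p1.Coprime p2 := (Nat.coprime_primes (hP p1 h1).1 (hP p2 h2).1).2 h3
    refine ⟨(Nat.squarefree_mul hc).2 ⟨(hP p1 h1).1.squarefree, (hP p2 h2).1.squarefree⟩, fun p hp hpq => ?_⟩
    rcases (hp.dvd_mul).1 hpq with h | h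
    · rw [(Nat.prime_dvd_prime_iff_eq hp (hP p1 h1).1).1 h]
      exact (hP p1 h1).2
    · rw [(Nat.prime_dvd_prime_iff_eq hp (hP p2 h2).1).1 h]
      exact (hP p2 h2).2

/-- the bound for the number of the bad `l`, explicit -/
lemma bad (hMOM : S_MOM) (hLCM : S_LCM) (hTUR : S_TUR) {Z k D M K u m : ℕ} {c : ℕ → ℝ} {L L₁ X T : ℝ} (P : Finset ℕ)
    (hP : P = (Ioc Z (Z ^ M)).filter (fun p => p.Prime ∧ ¬ p ∣ k)) (hL : L = ∑ p ∈ P, 1 / (p : ℝ)) (hL1 : 1 ≤ L)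
    (hLL : L ≤ L₁) (hZ : 1 ≤ Z) (hk : 1 ≤ k) (hZM : Z ≤ Z ^ M) (hD : D ≤ Z)
    (hc : ∑ e ∈ Icc 1 D, |c e| ≤ (Z : ℝ) ^ (1 / 6 : ℝ))
    (h0 : ∀ n : ℕ, 0 ≤ ∑ e ∈ (Icc 1 D).filter (fun e => e ∣ n), c e)
    (h1 : ∀ n : ℕ, (∀ p : ℕ, p.Prime → p ∣ n → Z < p) → 1 ≤ ∑ e ∈ (Icc 1 D).filter (fun e => e ∣ n), c e)
    (h2 : ∀ l : ℕ, ∑ j ∈ Icc 1 Z, ∑ e ∈ (Icc 1 D).filter (fun e => e ∣ l + j * k), c e ≤ X) (hT : 0 < T) :
    (((Ioc u (u + K)).filter (fun l => 1 / L * X + T < (cnt Z (Z ^ M) k l : ℝ))).card : ℝ) * T ^ (2 * m) ≤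
      ((Z : ℝ) ^ (1 / 6 : ℝ) * 2) ^ (2 * m) * (K * 4 ^ m * Z ^ m * ((4 * m + 1) ^ 2 * (1 + L₁) ^ 2) ^ (2 * m) +
        (2 * Z * (2 * (Z ^ M) ^ 2)) ^ (2 * m)) := by
  have hPp : ∀ p ∈ P, p.Prime ∧ Z < p ∧ ¬ p ∣ k := by
    intro p hp
    rw [hP, mem_filter, mem_Ioc] at hp
    exact ⟨hp.2.1, hp.1.1, hp.2.2⟩
  obtain ⟨t1, t2, t3⟩ := hTUR P L (fun p hp => (hPp p hp).1) hL hL1
  have hm := hMOM Z k K u m (Icc 1 D) (QQ P) c (bt L) 2 hZ hk (by
    intro e he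
    rw [mem_Icc] at he
    exact ⟨he.1, fun p hp hpe => (Nat.le_of_dvd he.1 hpe).trans (he.2.trans hD)⟩) (QQ_prop hPp) t3
  have hl := hLCM P L₁ (2 * m) (fun p hp => (hPp p hp).1) (hL ▸ hLL)
  have hcard : P.card ≤ Z ^ M := by
    rw [hP]
    refine (card_filter_le _ _).trans ?_
    rw [Nat.card_Ioc]
    exact Nat.sub_le _ _
  have hq := QQ_card P (Z ^ M) (Nat.one_le_pow _ _ hZ) hcard
  have hstep : (((Ioc u (u + K)).filter (fun l => 1 / L * X + T < (cnt Z (Z ^ M) k l : ℝ))).card : ℝ) * T ^ (2 * m) ≤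
      ∑ l ∈ Ioc u (u + K), (GG Z k D P c L l) ^ (2 * m) := by
    have e1 : (((Ioc u (u + K)).filter (fun l => 1 / L * X + T < (cnt Z (Z ^ M) k l : ℝ))).card : ℝ) * T ^ (2 * m) =
        ∑ l ∈ (Ioc u (u + K)).filter (fun l => 1 / L * X + T < (cnt Z (Z ^ M) k l : ℝ)), T ^ (2 * m) := by
      rw [sum_const, nsmul_eq_mul]
    rw [e1]
    refine (sum_le_sum (g := fun l => (GG Z k D P c L l) ^ (2 * m)) fun l hl => ?_).trans
      (sum_le_sum_of_subset_of_nonneg (filter_subset _ _) fun l _ _ => ?_)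
    · rw [mem_filter] at hl
      have e2 := sieve hTUR P hP hL hL1 hZM h0 h1 h2 l
      apply pow_le_pow_left₀ hT.le
      linarith [hl.2]
    · rw [pow_mul]
      positivity
  refine hstep.trans (hm.trans ?_)
  have hL₁ : 0 ≤ L₁ := by linarith
  have ha : 0 ≤ ∑ e ∈ Icc 1 D, |c e| := sum_nonneg fun _ _ => abs_nonneg _
  apply mul_le_mul
  · apply pow_le_pow_left₀ (by positivity)
    linarith
  · apply add_le_add
    · apply mul_le_mul_of_nonneg_left _ (by positivity)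
      refine hl.trans (le_of_eq ?_)
      push_cast
      ring
    · apply pow_le_pow_left₀ (by positivity)
      apply mul_le_mul_of_nonneg_left _ (by positivity)
      exact_mod_cast hq
  · positivity
  · positivity

end Pool.Agent.Helper51.PS.Fin1
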