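import Pool.Agent.Helper51.PS.Fin1

/-!
# Project PS: one window, parameters
-/

set_option autoImplicit false

open Finset Filter Topology
open scoped Classical

namespace Pool.Agent.Helper51.PS.Fin2

open Pool.Agent.Helper51.PS.Fin1

/-- powers of the logarithm against powers -/
lemma log_pow_le (A : ℝ) (n : ℕ) (e : ℝ) (he : 0 < e) :
    ∃ Z₀ : ℕ, 3 ≤ Z₀ ∧ ∀ Z : ℕ, Z₀ ≤ Z → A * Real.log Z ^ n ≤ (Z : ℝ) ^ e := by
  have h1 : Tendsto (fun x : ℝ => x ^ n * Real.exp (-(e * x))) atTop (𝓝 0) := by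
    have h2 := Real.tendsto_pow_mul_exp_neg_atTop_nhds_zero n
    have h3 : Tendsto (fun x : ℝ => e * x) atTop atTop := tendsto_id.const_mul_atTop he
    have h4 := (h2.comp h3).const_mul (1 / e ^ n)
    simp only [mul_zero] at h4
    refine h4.congr fun x => ?_
    simp only [Function.comp_apply, mul_pow]
    field_simp
  have h5 := h1.comp (Real.tendsto_log_atTop.comp tendsto_natCast_atTop_atTop)
  have h6 := h5.const_mul |A|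
  simp only [mul_zero] at h6
  have h7 := h6.eventually (gt_mem_nhds (show (0 : ℝ) < 1 by norm_num))
  rw [eventually_atTop] at h7
  obtain ⟨N, hN⟩ := h7
  refine ⟨max N 3, le_max_right _ _, fun Z hZ => ?_⟩
  have hZ3 : 3 ≤ Z := le_trans (le_max_right _ _) hZ
  have h8 := hN Z (le_trans (le_max_left _ _) hZ)
  simp only [Function.comp_apply] at h8
  have hZ0 : (0 : ℝ) < Z := by exact_mod_cast (by omega : 0 < Z)
  have h9 : Real.exp (-(e * Real.log Z)) = ((Z : ℝ) ^ e)⁻¹ := by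
    rw [Real.exp_neg, Real.rpow_def_of_pos hZ0, mul_comm]
  rw [h9] at h8
  have h10 : 0 < (Z : ℝ) ^ e := Real.rpow_pos_of_pos hZ0 _
  have hl : 0 ≤ Real.log Z := Real.log_natCast_nonneg Z
  have h11 : |A| * Real.log Z ^ n < (Z : ℝ) ^ e := by
    have := mul_lt_mul_of_pos_right h8 h10
    rw [one_mul] at this
    calc |A| * Real.log Z ^ n = |A| * (Real.log Z ^ n * ((Z : ℝ) ^ e)⁻¹) * (Z : ℝ) ^ e := by
          field_simp
      _ < _ := this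
  calc A * Real.log Z ^ n ≤ |A| * Real.log Z ^ n := mul_le_mul_of_nonneg_right (le_abs_self A) (by positivity)
    _ ≤ _ := h11.le

/-- the first term -/
lemma first {a ℓ δ L₁ T : ℝ} {m : ℕ} (ha : 1 ≤ a) (hℓ : 1 ≤ ℓ) (hδ : 0 < δ) (hL₁ : 0 ≤ L₁) (hT : T = δ / 2 * (a / ℓ))
    (hm : 4 * (m : ℝ) + 1 ≤ a ^ (1 / 7 : ℝ)) (hbig : 64 * (1 + L₁) ^ 4 / δ ^ 2 * ℓ ^ 2 ≤ a ^ (1 / 21 : ℝ)) :
    (a ^ (1 / 6 : ℝ) * 2) ^ 2 * (4 * a * ((4 * m + 1) ^ 2 * (1 + L₁) ^ 2) ^ 2) ≤ T ^ 2 * a ^ (-(1 / 21) : ℝ) := by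
  have ha0 : 0 < a := by linarith
  have e1 : (a ^ (1 / 6 : ℝ)) ^ 2 = a ^ (1 / 3 : ℝ) := by
    rw [← Real.rpow_natCast, ← Real.rpow_mul ha0.le]
    norm_num
  have e2 : (4 * (m : ℝ) + 1) ^ 4 ≤ a ^ (4 / 7 : ℝ) := by
    calc (4 * (m : ℝ) + 1) ^ 4 ≤ (a ^ (1 / 7 : ℝ)) ^ 4 := pow_le_pow_left₀ (by positivity) hm 4
      _ = _ := by
        rw [← Real.rpow_natCast, ← Real.rpow_mul ha0.le]
        norm_num
  have e3 : a ^ (1 / 3 : ℝ) * a * a ^ (4 / 7 : ℝ) * a ^ (1 / 21 : ℝ) * a ^ (1 / 21 : ℝ) = a ^ 2 := by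
    calc a ^ (1 / 3 : ℝ) * a * a ^ (4 / 7 : ℝ) * a ^ (1 / 21 : ℝ) * a ^ (1 / 21 : ℝ) =
        a ^ (1 / 3 : ℝ) * a ^ (1 : ℝ) * a ^ (4 / 7 : ℝ) * a ^ (1 / 21 : ℝ) * a ^ (1 / 21 : ℝ) := by
          rw [Real.rpow_one]
      _ = a ^ (2 : ℝ) := by
          rw [← Real.rpow_add ha0, ← Real.rpow_add ha0, ← Real.rpow_add ha0, ← Real.rpow_add ha0]
          norm_num
      _ = a ^ 2 := by norm_cast
  have e4 : a ^ (-(1 / 21) : ℝ) * a ^ (1 / 21 : ℝ) = 1 := by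
    rw [← Real.rpow_add ha0]
    norm_num
  have p1 : 0 < a ^ (1 / 21 : ℝ) := Real.rpow_pos_of_pos ha0 _
  have p2 : 0 < a ^ (1 / 3 : ℝ) := Real.rpow_pos_of_pos ha0 _
  have p3 : 0 < a ^ (4 / 7 : ℝ) := Real.rpow_pos_of_pos ha0 _
  -- multiply by a^(1/21)
  refine le_of_mul_le_mul_right ?_ p1
  rw [mul_assoc (T ^ 2), e4, mul_one, hT]
  have h1 : (a ^ (1 / 6 : ℝ) * 2) ^ 2 * (4 * a * ((4 * m + 1) ^ 2 * (1 + L₁) ^ 2) ^ 2) * a ^ (1 / 21 : ℝ) =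
      16 * (1 + L₁) ^ 4 * (a ^ (1 / 3 : ℝ) * a * a ^ (1 / 21 : ℝ)) * (4 * (m : ℝ) + 1) ^ 4 := by
    rw [mul_pow, e1]
    ring
  rw [h1]
  have h2 : 16 * (1 + L₁) ^ 4 * (a ^ (1 / 3 : ℝ) * a * a ^ (1 / 21 : ℝ)) * (4 * (m : ℝ) + 1) ^ 4 ≤
      16 * (1 + L₁) ^ 4 * (a ^ (1 / 3 : ℝ) * a * a ^ (1 / 21 : ℝ)) * a ^ (4 / 7 : ℝ) :=
    mul_le_mul_of_nonneg_left e2 (by positivity)
  refine h2.trans ?_
  have h3 : 16 * (1 + L₁) ^ 4 * (a ^ (1 / 3 : ℝ) * a * a ^ (1 / 21 : ℝ)) * a ^ (4 / 7 : ℝ) =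
      (64 * (1 + L₁) ^ 4 / δ ^ 2 * ℓ ^ 2) * ((δ ^ 2 / 4) / ℓ ^ 2 * (a ^ (1 / 3 : ℝ) * a * a ^ (4 / 7 : ℝ) * a ^ (1 / 21 : ℝ))) := by
    field_simp
    ring
  rw [h3]
  calc (64 * (1 + L₁) ^ 4 / δ ^ 2 * ℓ ^ 2) * ((δ ^ 2 / 4) / ℓ ^ 2 * (a ^ (1 / 3 : ℝ) * a * a ^ (4 / 7 : ℝ) * a ^ (1 / 21 : ℝ)))
      ≤ a ^ (1 / 21 : ℝ) * ((δ ^ 2 / 4) / ℓ ^ 2 * (a ^ (1 / 3 : ℝ) * a * a ^ (4 / 7 : ℝ) * a ^ (1 / 21 : ℝ))) :=
        mul_le_mul_of_nonneg_right hbig (by positivity)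
    _ = (δ ^ 2 / 4) / ℓ ^ 2 * (a ^ (1 / 3 : ℝ) * a * a ^ (4 / 7 : ℝ) * a ^ (1 / 21 : ℝ) * a ^ (1 / 21 : ℝ)) := by ring
    _ = (δ ^ 2 / 4) / ℓ ^ 2 * a ^ 2 := by rw [e3]
    _ = (δ / 2 * (a / ℓ)) ^ 2 := by
        field_simp
        ring

/-- the second term -/
lemma second {a ℓ δ T : ℝ} {M : ℕ} (ha : 1 ≤ a) (hℓ : 1 ≤ ℓ) (hδ : 0 < δ) (hT : T = δ / 2 * (a / ℓ))
    (hbig : 16 / δ * ℓ ≤ a) : (a ^ (1 / 6 : ℝ) * 2) * (2 * a * (2 * (a ^ M) ^ 2)) ≤ T * a ^ (2 * M + 2) := by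
  have ha0 : 0 < a := by linarith
  have e1 : a ^ (1 / 6 : ℝ) ≤ a := by
    calc a ^ (1 / 6 : ℝ) ≤ a ^ (1 : ℝ) := Real.rpow_le_rpow_of_exponent_le ha (by norm_num)
      _ = a := Real.rpow_one a
  have hℓ0 : 0 < ℓ := by linarith
  calc (a ^ (1 / 6 : ℝ) * 2) * (2 * a * (2 * (a ^ M) ^ 2)) ≤ (a * 2) * (2 * a * (2 * (a ^ M) ^ 2)) :=
        mul_le_mul_of_nonneg_right (by linarith) (by positivity)
    _ = (16 / δ * ℓ) * (δ / 2 * (1 / ℓ) * a ^ 2 * (a ^ M) ^ 2) := by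
        field_simp
        ring
    _ ≤ a * (δ / 2 * (1 / ℓ) * a ^ 2 * (a ^ M) ^ 2) := mul_le_mul_of_nonneg_right hbig (by positivity)
    _ = T * a ^ (2 * M + 2) := by
        rw [hT]
        ring

/-- choice of the number of moments -/
lemma moments {a κ : ℝ} {M : ℕ} (ha : 3 ≤ a) (hκ : 4 ≤ Real.log κ) (hκ0 : 0 < κ)
    (hlog : Real.log κ ≤ a ^ (1 / 7 : ℝ)) (hup : a ≤ κ ^ (1 / (16 * (M : ℝ) + 16))) :
    ∃ m : ℕ, 4 * (m : ℝ) + 1 ≤ a ^ (1 / 7 : ℝ) ∧ (a ^ (-(1 / 21) : ℝ)) ^ m ≤ κ ^ (-(1 / (42 * (8 * (M : ℝ) + 8)))) ∧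
      (a ^ (2 * M + 2)) ^ (2 * m) ≤ κ ^ (1 / 2 : ℝ) := by
  have ha0 : 0 < a := by linarith
  have hl1 : 1 ≤ Real.log a := by
    rw [Real.le_log_iff_exp_le ha0]
    linarith [Real.exp_one_lt_d9]
  have hM0 : (0 : ℝ) ≤ M := Nat.cast_nonneg M
  have h1 : Real.log a ≤ 1 / (16 * (M : ℝ) + 16) * Real.log κ := by
    rw [← Real.log_rpow hκ0]
    exact Real.log_le_log ha0 hup
  set lam : ℝ := Real.log κ / ((8 * M + 8) * Real.log a) with hlam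
  have hpos : 0 < (8 * (M : ℝ) + 8) * Real.log a := by positivity
  have hlam2 : 2 ≤ lam := by
    rw [hlam, le_div_iff₀ hpos]
    have : (16 * (M : ℝ) + 16) * Real.log a ≤ Real.log κ := by
      calc (16 * (M : ℝ) + 16) * Real.log a ≤ (16 * (M : ℝ) + 16) * (1 / (16 * (M : ℝ) + 16) * Real.log κ) :=
            mul_le_mul_of_nonneg_left h1 (by positivity)
        _ = Real.log κ := by field_simp
    linarith
  have hf1 : (⌊lam⌋₊ : ℝ) ≤ lam := Nat.floor_le (by linarith)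
  have hf2 : lam < ⌊lam⌋₊ + 1 := Nat.lt_floor_add_one lam
  have hll : lam * ((8 * (M : ℝ) + 8) * Real.log a) = Real.log κ := by
    rw [hlam]
    field_simp
  refine ⟨⌊lam⌋₊, ?_, ?_, ?_⟩
  · have : 8 * lam ≤ Real.log κ := by
      rw [← hll]
      have : 8 ≤ (8 * (M : ℝ) + 8) * Real.log a := by nlinarith
      nlinarith
    linarith
  · rw [← Real.rpow_natCast, ← Real.rpow_mul ha0.le]
    rw [← Real.log_le_log_iff (Real.rpow_pos_of_pos ha0 _) (Real.rpow_pos_of_pos hκ0 _), Real.log_rpow ha0,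
      Real.log_rpow hκ0]
    have h2 : lam / 2 ≤ ⌊lam⌋₊ := by linarith
    have h3 : 1 / (42 * (8 * (M : ℝ) + 8)) * Real.log κ = lam / 2 * (1 / 21) * Real.log a := by
      rw [← hll]
      field_simp
      ring
    have h4 : lam / 2 * (1 / 21) * Real.log a ≤ ⌊lam⌋₊ * (1 / 21) * Real.log a := by
      apply mul_le_mul_of_nonneg_right _ (by linarith)
      linarith
    have h5 : -(1 / (42 * (8 * (M : ℝ) + 8))) * Real.log κ = -(lam / 2 * (1 / 21) * Real.log a) := by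
      rw [neg_mul, h3]
    rw [h5]
    have h6 : -(1 / 21 : ℝ) * (⌊lam⌋₊ : ℝ) * Real.log a = -(⌊lam⌋₊ * (1 / 21) * Real.log a) := by ring
    linarith
  · rw [← pow_mul, ← Real.rpow_natCast]
    rw [← Real.log_le_log_iff (Real.rpow_pos_of_pos ha0 _) (Real.rpow_pos_of_pos hκ0 _), Real.log_rpow ha0,
      Real.log_rpow hκ0]
    push_cast
    have h3 : 1 / 2 * Real.log κ = (2 * (M : ℝ) + 2) * (2 * lam) * Real.log a := by
      rw [← hll]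
      ring
    rw [h3]
    apply mul_le_mul_of_nonneg_right _ (by linarith)
    apply mul_le_mul_of_nonneg_left _ (by linarith)
    linarith

/-- one window: all but `K ^ (1 - c)` of the `l` in an interval of length `K` have few good `j ≤ Z` -/
def S_ONE : Prop := ∀ δ : ℝ, 0 < δ → ∃ (M K₀ : ℕ) (c : ℝ), 2 ≤ M ∧ 0 < c ∧ c < 1 ∧ ∀ K : ℕ, K₀ ≤ K → ∀ Z : ℕ,
  Real.log K ^ 7 ≤ Z → (Z : ℝ) ≤ (K : ℝ) ^ c → ∀ k : ℕ, 1 ≤ k → Real.log k ≤ Z → ∀ u : ℕ,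
    (((Ioc u (u + K)).filter (fun l => δ * ((k : ℝ) / (Nat.totient k : ℝ) * (Z / Real.log Z)) <
      (cnt Z (Z ^ M) k l : ℝ))).card : ℝ) ≤ (K : ℝ) ^ (1 - c)

theorem one (hMOM : S_MOM) (hLCM : S_LCM) (hTUR : S_TUR) (hSEL : S_SEL) (hMER : S_MER) : S_ONE := by
  intro δ hδ
  obtain ⟨C, Z₁, hC, hsel⟩ := hSEL
  obtain ⟨M, Z₂, L₁, hM, hmer⟩ := hMER (max 1 (2 * C / δ))
  obtain ⟨Z₃, hZ₃, hbig1⟩ := log_pow_le (64 * (1 + L₁) ^ 4 / δ ^ 2) 2 (1 / 21) (by norm_num)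
  obtain ⟨Z₄, hZ₄, hbig2⟩ := log_pow_le (16 / δ) 1 1 (by norm_num)
  -- `c`
  set c2 : ℝ := 1 / (42 * (8 * (M : ℝ) + 8)) with hc2
  have hM0 : (0 : ℝ) ≤ M := Nat.cast_nonneg M
  have hc20 : 0 < c2 := by positivity
  have hc21 : c2 ≤ 1 / 2 := by
    rw [hc2]
    apply one_div_le_one_div_of_le (by norm_num)
    linarith
  have hcc : c2 / 2 ≤ 1 / (16 * (M : ℝ) + 16) := by
    rw [hc2, div_div]
    apply one_div_le_one_div_of_le (by positivity)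
    linarith
  set ZZ := max (max Z₁ Z₂) (max (max Z₃ Z₄) 3) with hZZ
  obtain ⟨K₁, hK₁, hKbig⟩ := log_pow_le (ZZ + 2 + 1 / c2) 0 (c2 / 2) (by positivity)
  have hlogK : Tendsto (fun K : ℕ => Real.log K) atTop atTop :=
    Real.tendsto_log_atTop.comp tendsto_natCast_atTop_atTop
  obtain ⟨K₂, hK₂⟩ := eventually_atTop.1 (hlogK.eventually_ge_atTop (max 4 (ZZ : ℝ)))
  refine ⟨M, max K₁ K₂, c2 / 2, hM, by positivity, by linarith, ?_⟩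
  intro K hK Z hZlow hZup k hk hkZ u
  have hK1 : K₁ ≤ K := le_trans (le_max_left _ _) hK
  have hlK : max 4 (ZZ : ℝ) ≤ Real.log K := hK₂ K (le_trans (le_max_right _ _) hK)
  have hlK4 : 4 ≤ Real.log K := le_trans (le_max_left _ _) hlK
  have hlKZ : (ZZ : ℝ) ≤ Real.log K := le_trans (le_max_right _ _) hlK
  have hK3 : 3 ≤ K := le_trans hK₁ hK1
  have hK0 : (0 : ℝ) < K := by exact_mod_cast (by omega : 0 < K)
  have hKone : (1 : ℝ) ≤ K := by exact_mod_cast (by omega : 1 ≤ K)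
  have hZZZ : ZZ ≤ Z := by
    have h1 : (ZZ : ℝ) ≤ Z := by
      refine hlKZ.trans (le_trans ?_ hZlow)
      calc Real.log K = Real.log K ^ 1 := (pow_one _).symm
        _ ≤ Real.log K ^ 7 := pow_le_pow_right₀ (by linarith) (by norm_num)
    exact_mod_cast h1
  have hZa : Z₁ ≤ Z := le_trans (le_trans (le_max_left _ _) (le_max_left _ _)) hZZZ
  have hZb : Z₂ ≤ Z := le_trans (le_trans (le_max_right _ _) (le_max_left _ _)) hZZZ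
  have hZc : Z₃ ≤ Z := le_trans (le_trans (le_trans (le_max_left _ _) (le_max_left _ _)) (le_max_right _ _)) hZZZ
  have hZd : Z₄ ≤ Z := le_trans (le_trans (le_trans (le_max_right _ _) (le_max_left _ _)) (le_max_right _ _)) hZZZ
  have hZe : 3 ≤ Z := le_trans (le_trans (le_max_right _ _) (le_max_right _ _)) hZZZ
  have ha3 : (3 : ℝ) ≤ Z := by exact_mod_cast hZe
  have ha1 : (1 : ℝ) ≤ Z := by linarith
  have ha0 : (0 : ℝ) < Z := by linarith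
  have hl1 : 1 ≤ Real.log Z := by
    rw [Real.le_log_iff_exp_le ha0]
    linarith [Real.exp_one_lt_d9]
  have hl0 : 0 < Real.log Z := by linarith
  obtain ⟨c, D, hD, hs1, hs2, hs3, hs4⟩ := hsel Z hZa k hk
  obtain ⟨hm1, hm2⟩ := hmer Z hZb k hk hkZ
  set P := (Ioc Z (Z ^ M)).filter (fun p => p.Prime ∧ ¬ p ∣ k) with hP
  set L : ℝ := ∑ p ∈ P, 1 / (p : ℝ) with hL
  have hL1 : 1 ≤ L := le_trans (le_max_left _ _) hm1
  have hLC : 2 * C / δ ≤ L := le_trans (le_max_right _ _) hm1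
  have hL₁ : 0 ≤ L₁ := by linarith
  have hlog7 : Real.log K ≤ (Z : ℝ) ^ (1 / 7 : ℝ) := by
    have h1 : Real.log K = (Real.log K ^ 7) ^ (1 / 7 : ℝ) := by
      rw [← Real.rpow_natCast, ← Real.rpow_mul (by linarith)]
      norm_num
    rw [h1]
    exact Real.rpow_le_rpow (by positivity) hZlow (by norm_num)
  have hup : (Z : ℝ) ≤ (K : ℝ) ^ (1 / (16 * (M : ℝ) + 16)) :=
    hZup.trans (Real.rpow_le_rpow_of_exponent_le hKone hcc)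
  obtain ⟨m, g1, g2, g3⟩ := moments (M := M) ha3 hlK4 hK0 hlog7 hup
  set T : ℝ := δ / 2 * ((Z : ℝ) / Real.log Z) with hT
  have hT0 : 0 < T := by positivity
  have hZM : Z ≤ Z ^ M := Nat.le_self_pow (by omega) Z
  have hb := bad hMOM hLCM hTUR (K := K) (u := u) (m := m) (L₁ := L₁) (T := T) P hP hL hL1 hm2 (by omega) hk hZM hD hs1
    hs2 hs3 hs4 hT0
  have hf := first (m := m) ha1 hl1 hδ hL₁ hT g1 (hbig1 Z hZc)
  have hsec := second (M := M) ha1 hl1 hδ hT (by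
    have := hbig2 Z hZd
    simpa using this)
  -- the set
  have hsub : (Ioc u (u + K)).filter (fun l => δ * ((k : ℝ) / (Nat.totient k : ℝ) * (Z / Real.log Z)) <
      (cnt Z (Z ^ M) k l : ℝ)) ⊆ (Ioc u (u + K)).filter (fun l => 1 / L * (C * ((k : ℝ) / (Nat.totient k : ℝ) *
        (Z / Real.log Z))) + T < (cnt Z (Z ^ M) k l : ℝ)) := by
    intro l hl
    rw [mem_filter] at hl ⊢
    refine ⟨hl.1, lt_of_le_of_lt ?_ hl.2⟩
    have hφ0 : (0 : ℝ) < Nat.totient k := by exact_mod_cast Nat.totient_pos.2 (by omega)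
    have hkφ : 1 ≤ (k : ℝ) / (Nat.totient k : ℝ) := by
      rw [one_le_div hφ0]
      exact_mod_cast Nat.totient_le k
    have hY : 0 < (Z : ℝ) / Real.log Z := by positivity
    have hX : 0 < (k : ℝ) / (Nat.totient k : ℝ) * (Z / Real.log Z) := by positivity
    have h1 : 1 / L * C ≤ δ / 2 := by
      rw [one_div, inv_mul_le_iff₀ (by linarith)]
      rw [div_le_iff₀ hδ] at hLC
      linarith
    have h2 : 1 / L * (C * ((k : ℝ) / (Nat.totient k : ℝ) * (Z / Real.log Z))) ≤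
        δ / 2 * ((k : ℝ) / (Nat.totient k : ℝ) * (Z / Real.log Z)) := by
      rw [← mul_assoc]
      exact mul_le_mul_of_nonneg_right h1 hX.le
    have h3 : T ≤ δ / 2 * ((k : ℝ) / (Nat.totient k : ℝ) * (Z / Real.log Z)) := by
      rw [hT]
      apply mul_le_mul_of_nonneg_left _ (by positivity)
      exact le_mul_of_one_le_left hY.le hkφ
    linarith
  have hcard := card_le_card hsub
  refine (Nat.cast_le.2 hcard).trans ?_
  -- divide by `T ^ (2 m)`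
  have key : (((Ioc u (u + K)).filter (fun l => 1 / L * (C * ((k : ℝ) / (Nat.totient k : ℝ) *
        (Z / Real.log Z))) + T < (cnt Z (Z ^ M) k l : ℝ))).card : ℝ) ≤
      K * ((Z : ℝ) ^ (-(1 / 21) : ℝ)) ^ m + ((Z : ℝ) ^ (2 * M + 2)) ^ (2 * m) := by
    refine le_of_mul_le_mul_right (hb.trans ?_) (pow_pos hT0 (2 * m))
    have t1 : ((Z : ℝ) ^ (1 / 6 : ℝ) * 2) ^ (2 * m) * (K * 4 ^ m * Z ^ m * ((4 * m + 1) ^ 2 * (1 + L₁) ^ 2) ^ (2 * m)) =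
        K * (((Z : ℝ) ^ (1 / 6 : ℝ) * 2) ^ 2 * (4 * Z * ((4 * m + 1) ^ 2 * (1 + L₁) ^ 2) ^ 2)) ^ m := by
      rw [pow_mul, pow_mul ((4 * (m : ℝ) + 1) ^ 2 * (1 + L₁) ^ 2), mul_pow (((Z : ℝ) ^ (1 / 6 : ℝ) * 2) ^ 2),
        mul_pow (4 * (Z : ℝ)), mul_pow 4 (Z : ℝ)]
      ring
    have t2 : ((Z : ℝ) ^ (1 / 6 : ℝ) * 2) ^ (2 * m) * (2 * Z * (2 * ((Z : ℝ) ^ M) ^ 2)) ^ (2 * m) =
        (((Z : ℝ) ^ (1 / 6 : ℝ) * 2) * (2 * Z * (2 * ((Z : ℝ) ^ M) ^ 2))) ^ (2 * m) := by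
      rw [mul_pow _ (2 * (Z : ℝ) * (2 * ((Z : ℝ) ^ M) ^ 2))]
    rw [mul_add, t1]
    rw [show ((2 : ℝ) * Z * (2 * (((Z : ℝ) ^ M) ^ 2))) ^ (2 * m) = (2 * Z * (2 * ((Z : ℝ) ^ M) ^ 2)) ^ (2 * m) from rfl, t2,
      add_mul]
    apply add_le_add
    · calc (K : ℝ) * (((Z : ℝ) ^ (1 / 6 : ℝ) * 2) ^ 2 * (4 * Z * ((4 * m + 1) ^ 2 * (1 + L₁) ^ 2) ^ 2)) ^ m ≤
          K * (T ^ 2 * (Z : ℝ) ^ (-(1 / 21) : ℝ)) ^ m := by
            apply mul_le_mul_of_nonneg_left _ hK0.le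
            exact pow_le_pow_left₀ (by positivity) hf m
        _ = _ := by
          rw [mul_pow, ← pow_mul]
          ring
    · calc (((Z : ℝ) ^ (1 / 6 : ℝ) * 2) * (2 * Z * (2 * ((Z : ℝ) ^ M) ^ 2))) ^ (2 * m) ≤
          (T * (Z : ℝ) ^ (2 * M + 2)) ^ (2 * m) := pow_le_pow_left₀ (by positivity) hsec _
        _ = _ := by
          rw [mul_pow]
          ring
  refine key.trans ?_
  have f1 : (K : ℝ) * ((Z : ℝ) ^ (-(1 / 21) : ℝ)) ^ m ≤ (K : ℝ) ^ (1 - c2) := by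
    calc (K : ℝ) * ((Z : ℝ) ^ (-(1 / 21) : ℝ)) ^ m ≤ (K : ℝ) ^ (1 : ℝ) * (K : ℝ) ^ (-c2) := by
          rw [Real.rpow_one]
          exact mul_le_mul_of_nonneg_left g2 hK0.le
      _ = (K : ℝ) ^ (1 - c2) := by
          rw [← Real.rpow_add hK0]
          rfl
  have f2 : ((Z : ℝ) ^ (2 * M + 2)) ^ (2 * m) ≤ (K : ℝ) ^ (1 - c2) :=
    g3.trans (Real.rpow_le_rpow_of_exponent_le hKone (by linarith))
  have f3 : 2 ≤ (K : ℝ) ^ (c2 / 2) := by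
    have h1 := hKbig K hK1
    simp only [pow_zero, mul_one] at h1
    have h2 : (0 : ℝ) ≤ ZZ := Nat.cast_nonneg _
    have h3 : 0 < 1 / c2 := by positivity
    linarith
  calc (K : ℝ) * ((Z : ℝ) ^ (-(1 / 21) : ℝ)) ^ m + ((Z : ℝ) ^ (2 * M + 2)) ^ (2 * m) ≤
      2 * (K : ℝ) ^ (1 - c2) := by linarith
    _ ≤ (K : ℝ) ^ (c2 / 2) * (K : ℝ) ^ (1 - c2) := mul_le_mul_of_nonneg_right f3 (by positivity)
    _ = (K : ℝ) ^ (1 - c2 / 2) := by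
        rw [← Real.rpow_add hK0]
        congr 1
        ring

end Pool.Agent.Helper51.PS.Fin2
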