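import Pool.Agent.Helper51.PS.Fin2

/-!
# Project PS: all windows near a point
-/

set_option autoImplicit false

open Finset Filter Topology
open scoped Classical

namespace Pool.Agent.Helper51.PS.Fin3

open Pool.Agent.Helper51.PS.Fin1 Pool.Agent.Helper51.PS.Fin2

/-- all windows `m + k, ..., m + h k` with `m ≡ n` near `n` contain few rough numbers -/
def Good (δ : ℝ) (M : ℕ) (c : ℝ) (K k n : ℕ) : Prop :=
  ∀ m h : ℕ, 1 ≤ m → m ≡ n [MOD k] → |(m : ℝ) - n| ≤ k * (K : ℝ) ^ c → Real.log K ^ 7 ≤ h → (h : ℝ) ≤ (K : ℝ) ^ c →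
    (cnt h (h ^ M) k m : ℝ) ≤ δ * ((k : ℝ) / (Nat.totient k : ℝ) * (h / Real.log h))

/-- all but `K ^ (1 - c)` points of an interval of length `K` are good -/
def S_UNI : Prop := ∀ δ : ℝ, 0 < δ → ∃ (M K₀ : ℕ) (c : ℝ), 2 ≤ M ∧ 0 < c ∧ c < 1 ∧ ∀ K : ℕ, K₀ ≤ K → ∀ k : ℕ, 1 ≤ k →
  Real.log k ≤ Real.log K ^ 7 → ∀ u : ℕ,
    (((Ioc u (u + K)).filter (fun n => ¬ Good δ M c K k n)).card : ℝ) ≤ (K : ℝ) ^ (1 - c)

lemma shift_right {u K s : ℕ} (Q : ℕ → Prop) :
    ((Ioc u (u + K)).filter (fun n => Q (n + s))).card ≤ ((Ioc (u + s) (u + s + K)).filter Q).card := by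
  apply card_le_card_of_injOn (fun n => n + s)
  · intro n hn
    simp only [coe_filter, mem_Ioc, Set.mem_ofPred_eq] at hn ⊢
    exact ⟨⟨by omega, by omega⟩, hn.2⟩
  · intro a _ b _ h
    simpa using h

lemma shift_left {u K s : ℕ} (Q : ℕ → Prop) :
    ((Ioc u (u + K)).filter (fun n => s < n ∧ Q (n - s))).card ≤ ((Ioc (u - s) (u - s + K)).filter Q).card := by
  apply card_le_card_of_injOn (fun n => n - s)
  · intro n hn
    simp only [coe_filter, mem_Ioc, Set.mem_ofPred_eq] at hn ⊢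
    exact ⟨⟨by omega, by omega⟩, hn.2.2⟩
  · intro a ha b hb h
    simp only [coe_filter, mem_Ioc, Set.mem_ofPred_eq] at ha hb h
    omega

theorem uni (h1 : S_ONE) : S_UNI := by
  intro δ hδ
  obtain ⟨M, K₁, c, hM, hc0, hc1, hone⟩ := h1 δ hδ
  obtain ⟨K₂, hK₂, hbig⟩ := log_pow_le 8 0 (c / 4) (by positivity)
  refine ⟨M, max K₁ K₂, c / 4, hM, by positivity, by linarith, ?_⟩
  intro K hK k hk hkK u
  have hKa : K₁ ≤ K := le_trans (le_max_left _ _) hK
  have hKb : K₂ ≤ K := le_trans (le_max_right _ _) hK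
  have hK3 : 3 ≤ K := le_trans hK₂ hKb
  have hK0 : (0 : ℝ) < K := by exact_mod_cast (by omega : 0 < K)
  have hKone : (1 : ℝ) ≤ K := by exact_mod_cast (by omega : 1 ≤ K)
  have hk0 : (0 : ℝ) < k := by exact_mod_cast hk
  have h8 : 8 ≤ (K : ℝ) ^ (c / 4) := by
    have := hbig K hKb
    simpa using this
  set N : ℕ := ⌊(K : ℝ) ^ (c / 4)⌋₊ + 1 with hN
  have hNle : (N : ℝ) ≤ 2 * (K : ℝ) ^ (c / 4) := by
    have : (⌊(K : ℝ) ^ (c / 4)⌋₊ : ℝ) ≤ (K : ℝ) ^ (c / 4) := Nat.floor_le (by positivity)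
    rw [hN]
    push_cast
    linarith
  have hlt : ∀ a : ℕ, (a : ℝ) ≤ (K : ℝ) ^ (c / 4) → a < N := by
    intro a ha
    have := Nat.le_floor ha
    omega
  -- the bad property for a window
  obtain ⟨Bd, hBd⟩ : ∃ Bd : ℕ → ℕ → Prop, ∀ h m : ℕ, Bd h m ↔ (Real.log K ^ 7 ≤ h ∧ (h : ℝ) ≤ (K : ℝ) ^ (c / 4) ∧
    δ * ((k : ℝ) / (Nat.totient k : ℝ) * (h / Real.log h)) < (cnt h (h ^ M) k m : ℝ)) := ⟨_, fun _ _ => Iff.rfl⟩
  have hcount : ∀ h v : ℕ, (((Ioc v (v + K)).filter (fun m => Bd h m)).card : ℝ) ≤ (K : ℝ) ^ (1 - c) := by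
    intro h v
    by_cases hh : Real.log K ^ 7 ≤ h ∧ (h : ℝ) ≤ (K : ℝ) ^ (c / 4)
    · have h2 : (h : ℝ) ≤ (K : ℝ) ^ c := hh.2.trans (Real.rpow_le_rpow_of_exponent_le hKone (by linarith))
      refine le_trans ?_ (hone K hKa h hh.1 h2 k hk (hkK.trans hh.1) v)
      apply Nat.cast_le.2
      apply card_le_card
      intro m hm
      rw [mem_filter] at hm ⊢
      exact ⟨hm.1, ((hBd h m).1 hm.2).2.2⟩
    · have h2 : (Ioc v (v + K)).filter (fun m => Bd h m) = ∅ := by
        rw [filter_eq_empty_iff]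
        intro m _ hm
        exact hh ⟨((hBd h m).1 hm).1, ((hBd h m).1 hm).2.1⟩
      rw [h2]
      simp only [card_empty, Nat.cast_zero]
      positivity
  have hsub : (Ioc u (u + K)).filter (fun n => ¬ Good δ M (c / 4) K k n) ⊆
      (range N ×ˢ range N).biUnion (fun p => (Ioc u (u + K)).filter (fun n => Bd p.2 (n + p.1 * k)) ∪
        (Ioc u (u + K)).filter (fun n => p.1 * k < n ∧ Bd p.2 (n - p.1 * k))) := by
    intro n hn
    rw [mem_filter] at hn
    obtain ⟨hn1, hn2⟩ := hn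
    unfold Good at hn2
    push Not at hn2
    obtain ⟨m, h, hm1, hmn, habs, hh1, hh2, hh3⟩ := hn2
    have hB : Bd h m := (hBd h m).2 ⟨hh1, hh2, hh3⟩
    rw [mem_biUnion]
    rcases le_total n m with hle | hle
    · have hdvd : k ∣ m - n := (Nat.modEq_iff_dvd' hle).1 hmn.symm
      obtain ⟨s, hs⟩ := hdvd
      have hms : m = n + s * k := by
        have : m - n = s * k := by rw [hs, mul_comm]
        omega
      have hs1 : (s : ℝ) ≤ (K : ℝ) ^ (c / 4) := by
        have h2 : (m : ℝ) - n = k * s := by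
          rw [hms]
          push_cast
          ring
        rw [h2, abs_of_nonneg (by positivity)] at habs
        exact le_of_mul_le_mul_left habs hk0
      refine ⟨(s, h), ?_, ?_⟩
      · rw [mem_product, mem_range, mem_range]
        exact ⟨hlt s hs1, hlt h hh2⟩
      · rw [mem_union]
        left
        rw [mem_filter]
        exact ⟨hn1, hms ▸ hB⟩
    · have hdvd : k ∣ n - m := (Nat.modEq_iff_dvd' hle).1 hmn
      obtain ⟨s, hs⟩ := hdvd
      have hms : n = m + s * k := by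
        have : n - m = s * k := by rw [hs, mul_comm]
        omega
      have hs1 : (s : ℝ) ≤ (K : ℝ) ^ (c / 4) := by
        have h2 : (m : ℝ) - n = -(k * s) := by
          rw [hms]
          push_cast
          ring
        rw [h2, abs_neg, abs_of_nonneg (by positivity)] at habs
        exact le_of_mul_le_mul_left habs hk0
      refine ⟨(s, h), ?_, ?_⟩
      · rw [mem_product, mem_range, mem_range]
        exact ⟨hlt s hs1, hlt h hh2⟩
      · rw [mem_union]
        right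
        rw [mem_filter]
        refine ⟨hn1, (show s * k < n by omega), ?_⟩
        have : n - s * k = m := by omega
        simp only [this]
        exact hB
  have hc2 := (card_le_card hsub).trans card_biUnion_le
  have hc3 : (((Ioc u (u + K)).filter (fun n => ¬ Good δ M (c / 4) K k n)).card : ℝ) ≤
      ∑ p ∈ range N ×ˢ range N, 2 * (K : ℝ) ^ (1 - c) := by
    refine (Nat.cast_le.2 hc2).trans ?_
    push_cast
    apply sum_le_sum
    intro p _
    have e1 := shift_right (u := u) (K := K) (s := p.1 * k) (Bd p.2)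
    have e2 := shift_left (u := u) (K := K) (s := p.1 * k) (Bd p.2)
    have e3 := hcount p.2 (u + p.1 * k)
    have e4 := hcount p.2 (u - p.1 * k)
    have e1' : (((Ioc u (u + K)).filter (fun n => Bd p.2 (n + p.1 * k))).card : ℝ) ≤
        (((Ioc (u + p.1 * k) (u + p.1 * k + K)).filter (fun m => Bd p.2 m)).card : ℝ) := Nat.cast_le.2 e1
    have e2' : (((Ioc u (u + K)).filter (fun n => p.1 * k < n ∧ Bd p.2 (n - p.1 * k))).card : ℝ) ≤
        (((Ioc (u - p.1 * k) (u - p.1 * k + K)).filter (fun m => Bd p.2 m)).card : ℝ) := Nat.cast_le.2 e2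
    have e5 : ((((Ioc u (u + K)).filter (fun n => Bd p.2 (n + p.1 * k)) ∪
        (Ioc u (u + K)).filter (fun n => p.1 * k < n ∧ Bd p.2 (n - p.1 * k))).card : ℕ) : ℝ) ≤
        (((Ioc u (u + K)).filter (fun n => Bd p.2 (n + p.1 * k))).card : ℝ) +
        (((Ioc u (u + K)).filter (fun n => p.1 * k < n ∧ Bd p.2 (n - p.1 * k))).card : ℝ) := by
      exact_mod_cast card_union_le _ _
    linarith
  refine hc3.trans ?_
  rw [sum_const, card_product, card_range, nsmul_eq_mul]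
  push_cast
  have hp : 0 < (K : ℝ) ^ (1 - c) := by positivity
  calc (N : ℝ) * N * (2 * (K : ℝ) ^ (1 - c)) ≤
      (2 * (K : ℝ) ^ (c / 4)) * (2 * (K : ℝ) ^ (c / 4)) * (2 * (K : ℝ) ^ (1 - c)) := by
        apply mul_le_mul_of_nonneg_right _ (by positivity)
        exact mul_le_mul hNle hNle (by positivity) (by positivity)
    _ = 8 * ((K : ℝ) ^ (c / 4) * (K : ℝ) ^ (c / 4) * (K : ℝ) ^ (1 - c)) := by ring
    _ ≤ (K : ℝ) ^ (c / 4) * ((K : ℝ) ^ (c / 4) * (K : ℝ) ^ (c / 4) * (K : ℝ) ^ (1 - c)) :=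
        mul_le_mul_of_nonneg_right h8 (by positivity)
    _ = (K : ℝ) ^ (1 - c / 4) := by
        rw [← Real.rpow_add hK0, ← Real.rpow_add hK0, ← Real.rpow_add hK0]
        congr 1
        ring

end Pool.Agent.Helper51.PS.Fin3
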