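import Pool.Agent.Helper51.PS.Fin3

/-!
# Project PS: primes near a point, residue classes
-/

set_option autoImplicit false

open Finset Filter Topology
open scoped Classical

namespace Pool.Agent.Helper51.PS.Fin4

open Pool.Agent.Helper51.PS.Fin1 Pool.Agent.Helper51.PS.Fin2 Pool.Agent.Helper51.PS.Fin3

/-- `N(x,y;k,l)`: the number of primes `p` with `x - y < p ≤ x` and `p ≡ l (mod k)`. -/
noncomputable def N (x y : ℝ) (k l : ℕ) : ℕ :=
  {p : ℕ | p.Prime ∧ x - y < p ∧ (p : ℝ) ≤ x ∧ p ≡ l [MOD k]}.ncard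

/-- the exceptional positions -/
def BadPos (δ c : ℝ) (K k n : ℕ) : Prop :=
  ∃ x y : ℝ, y ≤ x ∧ |x - n| ≤ k * (K : ℝ) ^ c ∧ k * Real.log K ^ 7 ≤ y ∧ y ≤ k * (K : ℝ) ^ c ∧
    δ * y / (Nat.totient k * Real.log (y / k)) < N x y k n

def S_POS : Prop := ∀ δ : ℝ, 0 < δ → ∃ (K₀ : ℕ) (c : ℝ), 0 < c ∧ c < 1 ∧ ∀ K : ℕ, K₀ ≤ K → ∀ k : ℕ, 1 ≤ k →
  Real.log k ≤ Real.log K ^ 7 → ∀ u : ℕ,
    (((Ioc u (u + K)).filter (fun n => BadPos δ c K k n)).card : ℝ) ≤ (K : ℝ) ^ (1 - c)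

lemma exists_rep (a k n : ℕ) (hk : 1 ≤ k) : ∃ m, a < m ∧ m ≤ a + k ∧ m ≡ n [MOD k] := by
  refine ⟨a + 1 + (n + (k - 1) * (a + 1)) % k, by omega, ?_, ?_⟩
  · have := Nat.mod_lt (n + (k - 1) * (a + 1)) (by omega : 0 < k)
    omega
  · have h1 : a + 1 + (n + (k - 1) * (a + 1)) % k ≡ a + 1 + (n + (k - 1) * (a + 1)) [MOD k] :=
      Nat.ModEq.add_left _ (Nat.mod_modEq _ _)
    refine h1.trans ?_
    have h2 : a + 1 + (n + (k - 1) * (a + 1)) = n + k * (a + 1) := by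
      obtain ⟨k', rfl⟩ : ∃ k', k = k' + 1 := ⟨k - 1, by omega⟩
      simp only [Nat.add_sub_cancel]
      ring
    rw [h2]
    unfold Nat.ModEq
    simp

/-- the primes in a window are among `m, m + k, ..., m + h k` -/
lemma N_le {x y : ℝ} {k n m h B : ℕ} (hk : 1 ≤ k) (hyx : y ≤ x) (hm1 : ⌊x - y⌋₊ < m) (hm2 : m ≤ ⌊x - y⌋₊ + k)
    (hmn : m ≡ n [MOD k]) (hh : y / k ≤ h) (hB : ∀ p : ℕ, p.Prime → m + k ≤ p → B < p) :
    N x y k n ≤ 1 + cnt h B k m := by
  have hk0 : (0 : ℝ) < k := by exact_mod_cast hk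
  have h1 : {p : ℕ | p.Prime ∧ x - y < p ∧ (p : ℝ) ≤ x ∧ p ≡ n [MOD k]} ⊆
      ((insert m (((Icc 1 h).filter (fun j => ∀ p : ℕ, p.Prime → p ∣ m + j * k → B < p)).image
        (fun j => m + j * k)) : Finset ℕ) : Set ℕ) := by
    intro p hp
    obtain ⟨hp1, hp2, hp3, hp4⟩ := hp
    have h2 : ⌊x - y⌋₊ < p := by
      rw [Nat.floor_lt (by linarith)]
      exact hp2
    have hpm : p ≡ m [MOD k] := hp4.trans hmn.symm
    have h3 : m ≤ p := by
      by_contra hlt
      push Not at hlt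
      have hd : k ∣ m - p := (Nat.modEq_iff_dvd' hlt.le).1 hpm
      have := Nat.le_of_dvd (by omega) hd
      omega
    have hd : k ∣ p - m := (Nat.modEq_iff_dvd' h3).1 hpm.symm
    obtain ⟨j, hj⟩ := hd
    have hpj : p = m + j * k := by
      have : p - m = j * k := by rw [hj, mul_comm]
      omega
    rw [mem_coe, mem_insert]
    by_cases hj0 : j = 0
    · left
      rw [hpj, hj0]
      ring
    · right
      rw [mem_image]
      refine ⟨j, ?_, hpj.symm⟩
      rw [mem_filter, mem_Icc]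
      refine ⟨⟨by omega, ?_⟩, ?_⟩
      · have hm3 : x - y < m := by
          rw [← Nat.floor_lt (by linarith)]
          exact hm1
        have h4 : (j : ℝ) * k ≤ y := by
          have : (p : ℝ) = m + j * k := by
            rw [hpj]
            push_cast
            ring
          linarith
        have h5 : (j : ℝ) ≤ h := by
          refine le_trans ?_ hh
          rw [le_div_iff₀ hk0]
          exact h4
        exact_mod_cast h5
      · intro q hq hqd
        have h6 : q = p := by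
          rw [← hpj] at hqd
          exact (Nat.prime_dvd_prime_iff_eq hq hp1).1 hqd
        rw [h6]
        apply hB p hp1
        rw [hpj]
        have : 1 * k ≤ j * k := Nat.mul_le_mul_right _ (by omega)
        omega
  unfold N
  refine (Set.ncard_le_ncard h1 (Finset.finite_toSet _)).trans ?_
  rw [Set.ncard_coe_finset]
  refine (card_insert_le _ _).trans ?_
  rw [add_comm]
  apply Nat.add_le_add_left
  unfold cnt
  exact card_image_le

/-- the final estimate -/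
lemma final {δ t : ℝ} {k h : ℕ} {y : ℝ} (hδ : 0 < δ) (hk : 1 ≤ k) (hy : t = y / k) (ht : (4 / δ) ^ 2 ≤ t) (ht3 : 3 ≤ t)
    (hh1 : t ≤ h) (hh2 : (h : ℝ) ≤ t + 1) :
    1 + δ / 4 * ((k : ℝ) / (Nat.totient k : ℝ) * (h / Real.log h)) ≤ δ * y / (Nat.totient k * Real.log (y / k)) := by
  have hk0 : (0 : ℝ) < k := by exact_mod_cast hk
  have hφ0 : (0 : ℝ) < Nat.totient k := by exact_mod_cast Nat.totient_pos.2 (by omega)
  have hφk : (Nat.totient k : ℝ) ≤ k := by exact_mod_cast Nat.totient_le k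
  have ht0 : 0 < t := by linarith
  have hy' : y = k * t := by
    rw [hy]
    field_simp
  have hlt : 0 < Real.log t := Real.log_pos (by linarith)
  have hlh : Real.log t ≤ Real.log h := Real.log_le_log ht0 hh1
  have hkφ : 1 ≤ (k : ℝ) / (Nat.totient k : ℝ) := by
    rw [one_le_div hφ0]
    exact hφk
  have hh0 : (0 : ℝ) < h := by linarith
  have e1 : (h : ℝ) / Real.log h ≤ 2 * (t / Real.log t) := by
    calc (h : ℝ) / Real.log h ≤ h / Real.log t := div_le_div_of_nonneg_left hh0.le hlt hlh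
      _ ≤ (2 * t) / Real.log t := div_le_div_of_nonneg_right (by linarith) hlt.le
      _ = _ := by ring
  have e2 : Real.log t ≤ t ^ (1 / 2 : ℝ) / (1 / 2) := Real.log_le_rpow_div ht0.le (by norm_num)
  have e3 : 4 / δ ≤ t ^ (1 / 2 : ℝ) := by
    have h1 : ((4 / δ) ^ 2) ^ (1 / 2 : ℝ) = 4 / δ := by
      rw [← Real.rpow_natCast, ← Real.rpow_mul (by positivity)]
      norm_num
    rw [← h1]
    exact Real.rpow_le_rpow (by positivity) ht (by norm_num)
  have e4 : t = t ^ (1 / 2 : ℝ) * t ^ (1 / 2 : ℝ) := by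
    rw [← Real.rpow_add ht0]
    norm_num
  have hs0 : 0 < t ^ (1 / 2 : ℝ) := Real.rpow_pos_of_pos ht0 _
  have e5 : 1 ≤ δ / 2 * (t / Real.log t) := by
    have h1 : t ^ (1 / 2 : ℝ) / 2 ≤ t / Real.log t := by
      rw [le_div_iff₀ hlt]
      calc t ^ (1 / 2 : ℝ) / 2 * Real.log t ≤ t ^ (1 / 2 : ℝ) / 2 * (t ^ (1 / 2 : ℝ) / (1 / 2)) :=
            mul_le_mul_of_nonneg_left e2 (by positivity)
        _ = t ^ (1 / 2 : ℝ) * t ^ (1 / 2 : ℝ) := by ring
        _ = t := e4.symm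
    calc 1 = δ / 2 * ((4 / δ) / 2) := by
          field_simp
          norm_num
      _ ≤ δ / 2 * (t ^ (1 / 2 : ℝ) / 2) := by
          apply mul_le_mul_of_nonneg_left _ (by positivity)
          linarith
      _ ≤ _ := mul_le_mul_of_nonneg_left h1 (by positivity)
  have hT : 0 < t / Real.log t := by positivity
  have e6 : δ * y / (Nat.totient k * Real.log (y / k)) = δ * ((k : ℝ) / (Nat.totient k : ℝ) * (t / Real.log t)) := by
    rw [← hy, hy']
    field_simp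
  rw [e6]
  have e7 : δ / 4 * ((k : ℝ) / (Nat.totient k : ℝ) * (h / Real.log h)) ≤
      δ / 2 * ((k : ℝ) / (Nat.totient k : ℝ) * (t / Real.log t)) := by
    calc δ / 4 * ((k : ℝ) / (Nat.totient k : ℝ) * (h / Real.log h)) ≤
        δ / 4 * ((k : ℝ) / (Nat.totient k : ℝ) * (2 * (t / Real.log t))) := by gcongr
      _ = _ := by ring
  have e8 : δ / 2 * (t / Real.log t) ≤ δ / 2 * ((k : ℝ) / (Nat.totient k : ℝ) * (t / Real.log t)) := by
    apply mul_le_mul_of_nonneg_left _ (by positivity)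
    exact le_mul_of_one_le_left hT.le hkφ
  linarith

theorem pos (h1 : S_UNI) : S_POS := by
  intro δ hδ
  obtain ⟨M, K₁, c₁, hM, hc10, hc11, huni⟩ := h1 (δ / 4) (by positivity)
  have hM0 : (0 : ℝ) < M := by exact_mod_cast (by omega : 0 < M)
  have hM2 : (2 : ℝ) ≤ M := by exact_mod_cast hM
  set c : ℝ := min (c₁ / 2) (1 / (8 * M)) with hc
  have hc0 : 0 < c := lt_min (by positivity) (by positivity)
  have hca : c ≤ c₁ / 2 := min_le_left _ _
  have hcb : c ≤ 1 / (8 * M) := min_le_right _ _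
  have hc16 : c ≤ 1 / 16 := by
    refine hcb.trans ?_
    apply one_div_le_one_div_of_le (by norm_num)
    linarith
  have hcM : c * M ≤ 1 / 8 := by
    calc c * M ≤ 1 / (8 * M) * M := mul_le_mul_of_nonneg_right hcb hM0.le
      _ = 1 / 8 := by field_simp
  obtain ⟨K₂, hK₂, hbig1⟩ := log_pow_le 3 0 c hc0
  obtain ⟨K₃, hK₃, hbig2⟩ := log_pow_le (2 ^ M + 2) 0 (1 / 8) (by norm_num)
  have hlogK : Tendsto (fun K : ℕ => Real.log K) atTop atTop :=
    Real.tendsto_log_atTop.comp tendsto_natCast_atTop_atTop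
  obtain ⟨K₄, hK₄⟩ := eventually_atTop.1 (hlogK.eventually_ge_atTop (max 3 ((4 / δ) ^ 2)))
  refine ⟨max (max K₁ K₂) (max K₃ K₄), c, hc0, by linarith, ?_⟩
  intro K hK k hk hkK u
  have hKa : K₁ ≤ K := le_trans (le_trans (le_max_left _ _) (le_max_left _ _)) hK
  have hKb : K₂ ≤ K := le_trans (le_trans (le_max_right _ _) (le_max_left _ _)) hK
  have hKc : K₃ ≤ K := le_trans (le_trans (le_max_left _ _) (le_max_right _ _)) hK
  have hKd : K₄ ≤ K := le_trans (le_trans (le_max_right _ _) (le_max_right _ _)) hK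
  have hK3 : 3 ≤ K := le_trans hK₂ hKb
  have hK0 : (0 : ℝ) < K := by exact_mod_cast (by omega : 0 < K)
  have hKone : (1 : ℝ) ≤ K := by exact_mod_cast (by omega : 1 ≤ K)
  have hk0 : (0 : ℝ) < k := by exact_mod_cast hk
  have hl3 : 3 ≤ Real.log K := le_trans (le_max_left _ _) (hK₄ K hKd)
  have hlδ : (4 / δ) ^ 2 ≤ Real.log K := le_trans (le_max_right _ _) (hK₄ K hKd)
  have hl7 : Real.log K ≤ Real.log K ^ 7 := by
    calc Real.log K = Real.log K ^ 1 := (pow_one _).symm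
      _ ≤ _ := pow_le_pow_right₀ (by linarith) (by norm_num)
  set T : ℝ := (K : ℝ) ^ c with hT
  have hT3 : 3 ≤ T := by
    have := hbig1 K hKb
    simpa using this
  have hTT : T * T ≤ (K : ℝ) ^ c₁ := by
    rw [hT, ← Real.rpow_add hK0]
    exact Real.rpow_le_rpow_of_exponent_le hKone (by linarith)
  have hTT8 : T * T ≤ (K : ℝ) ^ (1 / 8 : ℝ) := by
    rw [hT, ← Real.rpow_add hK0]
    exact Real.rpow_le_rpow_of_exponent_le hKone (by linarith)
  have h18 : 2 ^ M + 2 ≤ (K : ℝ) ^ (1 / 8 : ℝ) := by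
    have := hbig2 K hKc
    simpa using this
  have h2M : (0 : ℝ) < 2 ^ M := by positivity
  have hpow : (2 * T) ^ M < (K : ℝ) ^ (1 / 2 : ℝ) := by
    have e1 : T ^ M ≤ (K : ℝ) ^ (1 / 8 : ℝ) := by
      rw [hT, ← Real.rpow_natCast, ← Real.rpow_mul hK0.le]
      exact Real.rpow_le_rpow_of_exponent_le hKone hcM
    calc (2 * T) ^ M = 2 ^ M * T ^ M := mul_pow _ _ _
      _ ≤ 2 ^ M * (K : ℝ) ^ (1 / 8 : ℝ) := mul_le_mul_of_nonneg_left e1 (by positivity)
      _ < (K : ℝ) ^ (1 / 8 : ℝ) * (K : ℝ) ^ (1 / 8 : ℝ) := by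
          apply mul_lt_mul_of_pos_right _ (by positivity)
          linarith
      _ = (K : ℝ) ^ (1 / 4 : ℝ) := by
          rw [← Real.rpow_add hK0]
          norm_num
      _ ≤ _ := Real.rpow_le_rpow_of_exponent_le hKone (by norm_num)
  -- the exceptional set
  have hsub : (Ioc u (u + K)).filter (fun n => BadPos δ c K k n) ⊆
      (Ioc u (u + K)).filter (fun n => ¬ Good (δ / 4) M c₁ K k n) ∪ Icc 1 ⌊(K : ℝ) ^ (3 / 4 : ℝ)⌋₊ := by
    intro n hn
    rw [mem_filter] at hn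
    obtain ⟨hn1, x, y, hyx, hxn, hy1, hy2, hy3⟩ := hn
    rw [mem_union, mem_filter]
    by_cases hsmall : (n : ℝ) ≤ (K : ℝ) ^ (3 / 4 : ℝ)
    · right
      rw [mem_Icc]
      rw [mem_Ioc] at hn1
      exact ⟨by omega, Nat.le_floor hsmall⟩
    left
    refine ⟨hn1, fun hgood => ?_⟩
    push Not at hsmall
    have hy0 : 0 ≤ x - y := by linarith
    obtain ⟨m, hm1, hm2, hmn⟩ := exists_rep ⌊x - y⌋₊ k n hk
    have hm3 : x - y < m := by
      rw [← Nat.floor_lt hy0]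
      exact hm1
    have hm4 : (m : ℝ) ≤ x - y + k := by
      have h2 : (m : ℝ) ≤ ⌊x - y⌋₊ + k := by exact_mod_cast hm2
      have h3 := Nat.floor_le hy0
      linarith
    have hmabs : |(m : ℝ) - n| ≤ k * (1 + 2 * T) := by
      have h2 := abs_le.1 hxn
      rw [abs_le]
      have : (0 : ℝ) ≤ k := hk0.le
      have hkT : 0 ≤ k * T := by positivity
      constructor
      · nlinarith [h2.1, h2.2]
      · have : 0 ≤ y := le_trans (by positivity) hy1
        nlinarith [h2.1, h2.2]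
    have hq : 1 + 2 * T ≤ T * T := by nlinarith
    set t : ℝ := y / k with ht
    have ht1 : Real.log K ^ 7 ≤ t := by
      rw [ht, le_div_iff₀ hk0]
      linarith
    have ht2 : t ≤ T := by
      rw [ht, div_le_iff₀ hk0]
      linarith
    set h : ℕ := ⌈t⌉₊ with hh
    have hh1 : t ≤ h := Nat.le_ceil t
    have hh2 : (h : ℝ) ≤ t + 1 := (Nat.ceil_lt_add_one (by linarith)).le
    have hhT : (h : ℝ) ≤ 2 * T := by linarith
    have hhM : ((h ^ M : ℕ) : ℝ) < (K : ℝ) ^ (1 / 2 : ℝ) := by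
      push_cast
      exact lt_of_le_of_lt (pow_le_pow_left₀ (by positivity) hhT M) hpow
    have hg := hgood m h (by omega) hmn (hmabs.trans (mul_le_mul_of_nonneg_left (hq.trans hTT) hk0.le))
      (ht1.trans hh1) (by nlinarith)
    have hB : ∀ p : ℕ, p.Prime → m + k ≤ p → h ^ M < p := by
      intro p _ hp
      have hp' : (m : ℝ) + k ≤ p := by exact_mod_cast hp
      have hm0 : (0 : ℝ) ≤ m := Nat.cast_nonneg m
      have : ((h ^ M : ℕ) : ℝ) < p := by
        refine hhM.trans_le ?_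
        by_cases hkk : (K : ℝ) ^ (1 / 2 : ℝ) ≤ k
        · linarith
        · push Not at hkk
          have e1 : (m : ℝ) - n ≥ -(k * (1 + 2 * T)) := (abs_le.1 hmabs).1
          have e2 : k * (1 + 2 * T) ≤ (K : ℝ) ^ (1 / 2 : ℝ) * (K : ℝ) ^ (1 / 8 : ℝ) :=
            mul_le_mul hkk.le (hq.trans hTT8) (by positivity) (by positivity)
          have e3 : (K : ℝ) ^ (3 / 4 : ℝ) = (K : ℝ) ^ (1 / 2 : ℝ) * (K : ℝ) ^ (1 / 8 : ℝ) * (K : ℝ) ^ (1 / 8 : ℝ) := by
            rw [← Real.rpow_add hK0, ← Real.rpow_add hK0]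
            norm_num
          have e4 : 2 ≤ (K : ℝ) ^ (1 / 8 : ℝ) := by linarith
          have e5 : 1 ≤ (K : ℝ) ^ (1 / 2 : ℝ) := Real.one_le_rpow hKone (by norm_num)
          have e6 : (K : ℝ) ^ (1 / 2 : ℝ) * (K : ℝ) ^ (1 / 8 : ℝ) * 2 ≤
              (K : ℝ) ^ (1 / 2 : ℝ) * (K : ℝ) ^ (1 / 8 : ℝ) * (K : ℝ) ^ (1 / 8 : ℝ) :=
            mul_le_mul_of_nonneg_left e4 (by positivity)
          have e7 : (K : ℝ) ^ (1 / 2 : ℝ) * 1 ≤ (K : ℝ) ^ (1 / 2 : ℝ) * (K : ℝ) ^ (1 / 8 : ℝ) :=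
            mul_le_mul_of_nonneg_left (by linarith) (by positivity)
          linarith
      exact_mod_cast this
    have hN := N_le hk hyx hm1 hm2 hmn hh1 hB
    have hN' : (N x y k n : ℝ) ≤ 1 + cnt h (h ^ M) k m := by exact_mod_cast hN
    have hfin := final (h := h) hδ hk ht (hlδ.trans (hl7.trans ht1)) (hl3.trans (hl7.trans ht1)) hh1 hh2
    linarith
  have hcard := (card_le_card hsub).trans (card_union_le _ _)
  refine (Nat.cast_le.2 hcard).trans ?_
  push_cast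
  rw [Nat.card_Icc, Nat.add_sub_cancel]
  have f1 := huni K hKa k hk hkK u
  have f2 : (⌊(K : ℝ) ^ (3 / 4 : ℝ)⌋₊ : ℝ) ≤ (K : ℝ) ^ (3 / 4 : ℝ) := Nat.floor_le (by positivity)
  have f3 : (K : ℝ) ^ (1 - c₁) ≤ (K : ℝ) ^ (1 - 2 * c) := Real.rpow_le_rpow_of_exponent_le hKone (by linarith)
  have f4 : (K : ℝ) ^ (3 / 4 : ℝ) ≤ (K : ℝ) ^ (1 - 2 * c) := Real.rpow_le_rpow_of_exponent_le hKone (by linarith)
  have f5 : 2 * (K : ℝ) ^ (1 - 2 * c) ≤ (K : ℝ) ^ (1 - c) := by
    calc 2 * (K : ℝ) ^ (1 - 2 * c) ≤ T * (K : ℝ) ^ (1 - 2 * c) :=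
          mul_le_mul_of_nonneg_right (by linarith) (by positivity)
      _ = _ := by
        rw [hT, ← Real.rpow_add hK0]
        congr 1
        ring
  linarith

end Pool.Agent.Helper51.PS.Fin4
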