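import Pool.Agent.Helper51.PS.Fin4
import Pool.Graph.R_pool_sql_team_seeded_b0a926ef.Results.MP_26a8c3_nt.AlmostAllClasses
import Pool.Graph.R_seed8.Results.MP_26a8c3_nt.ShortProgressions

/-!
# Project PS: residue classes, combination with the library
-/

set_option autoImplicit false

open Finset Filter Topology
open scoped Classical

namespace Pool.Agent.Helper51.PS.Fin5

open Pool.Agent.Helper51.PS.Fin1 Pool.Agent.Helper51.PS.Fin2 Pool.Agent.Helper51.PS.Fin3 Pool.Agent.Helper51.PS.Fin4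

def S_CLS : Prop := ∀ δ : ℝ, 0 < δ → ∃ (k₀ : ℕ) (c : ℝ), 0 < c ∧ c < 1 ∧ ∀ k : ℕ, k₀ ≤ k → ∀ u : ℕ,
  (((range k).filter (fun l => ∃ x y : ℝ, y ≤ x ∧ |x - u| ≤ (k : ℝ) ^ (1 + c) ∧ k * Real.log k ^ 7 ≤ y ∧
    y ≤ (k : ℝ) ^ (1 + c) ∧ δ * y / (Nat.totient k * Real.log (y / k)) < N x y k l)).card : ℝ) ≤ (k : ℝ) ^ (1 - c)

theorem cls (h1 : S_POS) : S_CLS := by
  intro δ hδ
  obtain ⟨K₁, c₁, hc10, hc11, hpos⟩ := h1 δ hδ
  obtain ⟨K₂, hK₂, hbig⟩ := log_pow_le 3 0 (c₁ / 2) (by positivity)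
  have hlogK : Tendsto (fun K : ℕ => Real.log K) atTop atTop :=
    Real.tendsto_log_atTop.comp tendsto_natCast_atTop_atTop
  obtain ⟨K₃, hK₃⟩ := eventually_atTop.1 (hlogK.eventually_ge_atTop 1)
  refine ⟨max (max K₁ K₂) K₃, c₁ / 2, by positivity, by linarith, ?_⟩
  intro k hk u
  have hka : K₁ ≤ k := le_trans (le_trans (le_max_left _ _) (le_max_left _ _)) hk
  have hkb : K₂ ≤ k := le_trans (le_trans (le_max_right _ _) (le_max_left _ _)) hk
  have hkc : K₃ ≤ k := le_trans (le_max_right _ _) hk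
  have hk3 : 3 ≤ k := le_trans hK₂ hkb
  have hk1 : 1 ≤ k := by omega
  have hk0 : (0 : ℝ) < k := by exact_mod_cast (by omega : 0 < k)
  have hkone : (1 : ℝ) ≤ k := by exact_mod_cast hk1
  have hl1 : 1 ≤ Real.log k := hK₃ k hkc
  have hT3 : 3 ≤ (k : ℝ) ^ (c₁ / 2) := by
    have := hbig k hkb
    simpa using this
  have hTT : (k : ℝ) ^ (c₁ / 2) * (k : ℝ) ^ (c₁ / 2) = (k : ℝ) ^ c₁ := by
    rw [← Real.rpow_add hk0]
    congr 1
    ring
  have h1c : (k : ℝ) ^ (1 + c₁ / 2) = k * (k : ℝ) ^ (c₁ / 2) := by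
    rw [Real.rpow_add hk0, Real.rpow_one]
  have hl7 : Real.log k ≤ Real.log k ^ 7 := by
    calc Real.log k = Real.log k ^ 1 := (pow_one _).symm
      _ ≤ _ := pow_le_pow_right₀ hl1 (by norm_num)
  have h2 := hpos k hka k hk1 hl7 u
  refine le_trans ?_ (h2.trans (Real.rpow_le_rpow_of_exponent_le hkone (by linarith)))
  apply Nat.cast_le.2
  choose f hf1 hf2 hf3 using fun l : ℕ => exists_rep u k l hk1
  apply card_le_card_of_injOn f
  · intro l hl
    rw [mem_coe, mem_filter] at hl ⊢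
    obtain ⟨_, x, y, hyx, hxu, hy1, hy2, hy3⟩ := hl
    refine ⟨mem_Ioc.2 ⟨hf1 l, hf2 l⟩, x, y, hyx, ?_, hy1, ?_, ?_⟩
    · have e1 : (u : ℝ) < f l := by exact_mod_cast hf1 l
      have e2 : (f l : ℝ) ≤ u + k := by exact_mod_cast hf2 l
      rw [h1c] at hxu
      have e3 := abs_le.1 hxu
      have e4 : k * (k : ℝ) ^ (c₁ / 2) + k ≤ k * (k : ℝ) ^ c₁ := by
        rw [← hTT]
        nlinarith [mul_pos hk0 (by linarith : (0 : ℝ) < (k : ℝ) ^ (c₁ / 2))]
      rw [abs_le]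
      constructor
      · linarith [e3.1, e3.2]
      · linarith [e3.1, e3.2]
    · rw [h1c] at hy2
      refine hy2.trans (mul_le_mul_of_nonneg_left ?_ hk0.le)
      exact Real.rpow_le_rpow_of_exponent_le hkone (by linarith)
    · have : N x y k (f l) = N x y k l := by
        unfold N
        congr 1
        ext p
        exact ⟨fun h => ⟨h.1, h.2.1, h.2.2.1, h.2.2.2.trans (hf3 l)⟩,
          fun h => ⟨h.1, h.2.1, h.2.2.1, h.2.2.2.trans (hf3 l).symm⟩⟩
      rw [this]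
      exact hy3
  · intro a ha b hb hab
    rw [mem_coe, mem_filter, mem_range] at ha hb
    have h3 : a ≡ b [MOD k] := (hf3 a).symm.trans (hab ▸ hf3 b)
    unfold Nat.ModEq at h3
    rwa [Nat.mod_eq_of_lt ha.1, Nat.mod_eq_of_lt hb.1] at h3

/-- all but few classes, arbitrary intervals, the whole range -/
def S_ALL : Prop := ∀ A : ℝ, ∃ δ c : ℝ, 0 < δ ∧ 0 < c ∧ ∃ k₀ : ℕ, ∀ k : ℕ, k₀ ≤ k → ∀ x y : ℝ,
  k * Real.log k ^ 7 ≤ y → y ≤ (k : ℝ) ^ A → y ≤ x →
  (((range k).filter (fun l => l.Coprime k ∧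
    (2 - δ) * y / (Nat.totient k * Real.log (y / k)) ≤ N x y k l)).card : ℝ) ≤ (k : ℝ) ^ (1 - c)

theorem all (h1 : S_CLS) : S_ALL := by
  intro A
  obtain ⟨k₁, c₁, hc10, hc11, hcls⟩ := h1 (1 / 2) (by norm_num)
  obtain ⟨δ, c₂, hδ, hc2, k₂, hlib⟩ :=
    Pool.Agent.Results.MP_26a8c3_nt.AlmostAllClasses.result.1 c₁ A hc10
  have hlogK : Tendsto (fun K : ℕ => Real.log K) atTop atTop :=
    Real.tendsto_log_atTop.comp tendsto_natCast_atTop_atTop
  obtain ⟨K₃, hK₃⟩ := eventually_atTop.1 (hlogK.eventually_ge_atTop 2)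
  refine ⟨min δ 1, min c₁ c₂, lt_min hδ one_pos, lt_min hc10 hc2, max (max k₁ k₂) (max K₃ 3), ?_⟩
  intro k hk x y hy1 hy2 hyx
  have hka : k₁ ≤ k := le_trans (le_trans (le_max_left _ _) (le_max_left _ _)) hk
  have hkb : k₂ ≤ k := le_trans (le_trans (le_max_right _ _) (le_max_left _ _)) hk
  have hkc : K₃ ≤ k := le_trans (le_trans (le_max_left _ _) (le_max_right _ _)) hk
  have hk3 : 3 ≤ k := le_trans (le_trans (le_max_right _ _) (le_max_right _ _)) hk
  have hk0 : (0 : ℝ) < k := by exact_mod_cast (by omega : 0 < k)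
  have hkone : (1 : ℝ) ≤ k := by exact_mod_cast (by omega : 1 ≤ k)
  have hl1 : 2 ≤ Real.log k := hK₃ k hkc
  have hl7 : 2 ≤ Real.log k ^ 7 := by
    calc 2 ≤ Real.log k ^ 1 := by rw [pow_one]; exact hl1
      _ ≤ _ := pow_le_pow_right₀ (by linarith) (by norm_num)
  have hyk : 2 ≤ y / k := by
    rw [le_div_iff₀ hk0]
    nlinarith
  have hy0 : 0 < y := by
    have : 0 < y / k := by linarith
    exact (div_pos_iff_of_pos_right hk0).1 this
  have hφ0 : (0 : ℝ) < Nat.totient k := by exact_mod_cast Nat.totient_pos.2 (by omega)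
  have hlog : 0 < Real.log (y / k) := Real.log_pos (by linarith)
  have hB : 0 < y / (Nat.totient k * Real.log (y / k)) := by positivity
  by_cases hcase : y ≤ (k : ℝ) ^ (1 + c₁)
  · refine le_trans ?_ ((hcls k hka ⌊x⌋₊).trans (Real.rpow_le_rpow_of_exponent_le hkone
      (by linarith [min_le_left c₁ c₂])))
    apply Nat.cast_le.2
    apply card_le_card
    intro l hl
    rw [mem_filter] at hl ⊢
    refine ⟨hl.1, x, y, hyx, ?_, hy1, hcase, ?_⟩
    · have hx0 : 0 ≤ x := by linarith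
      have e1 := Nat.floor_le hx0
      have e2 := Nat.lt_floor_add_one x
      have e3 : 1 ≤ (k : ℝ) ^ (1 + c₁) := Real.one_le_rpow hkone (by linarith)
      rw [abs_le]
      constructor <;> linarith
    · refine lt_of_lt_of_le ?_ hl.2.2
      rw [mul_div_assoc, mul_div_assoc]
      apply mul_lt_mul_of_pos_right _ hB
      linarith [min_le_right δ 1]
  · push Not at hcase
    have h2 := hlib k hkb x y hcase.le hy2 hyx
    refine le_trans ?_ (h2.trans (Real.rpow_le_rpow_of_exponent_le hkone (by linarith [min_le_right c₁ c₂])))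
    rw [← Set.ncard_coe_finset]
    apply Nat.cast_le.2
    apply Set.ncard_le_ncard
    · intro l hl
      rw [mem_coe, mem_filter, mem_range] at hl
      refine ⟨hl.1, hl.2.1, ?_⟩
      refine le_trans ?_ hl.2.2
      rw [mul_div_assoc, mul_div_assoc]
      apply mul_le_mul_of_nonneg_right _ hB.le
      linarith [min_le_left δ 1]
    · exact (Set.finite_lt_nat k).subset fun l hl => hl.1

/-- all but few positions, all intervals, every modulus -/
def S_INT : Prop := ∀ ε : ℝ, 0 < ε → ε ≤ 1 / 2 → ∃ c : ℝ, 0 < c ∧ ∃ X₀ : ℕ, ∀ X : ℕ, X₀ ≤ X → ∀ k : ℕ, 1 ≤ k →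
  (((Icc 1 X).filter (fun n => ∃ a b : ℕ, a < n ∧ n ≤ b ∧ b ≤ X ∧ k * Real.log X ^ 7 ≤ (b : ℝ) - a ∧
    (b : ℝ) - a ≤ k * (X : ℝ) ^ (5 / 9 - ε) ∧
    (2 - 3 * ε) * ((b : ℝ) - a) / (Nat.totient k * Real.log (((b : ℝ) - a) / k)) < N b (b - a) k n)).card : ℝ) ≤
    (X : ℝ) ^ (1 - c)

lemma N_nat {a b k n : ℕ} (hab : a ≤ b) : N b ((b : ℝ) - a) k n =
    Pool.Agent.Results.MP_26a8c3_nt.ShortProgressions.cnt a b k n := by
  unfold N Pool.Agent.Results.MP_26a8c3_nt.ShortProgressions.cnt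
  rw [← Set.ncard_coe_finset]
  congr 1
  ext p
  simp only [coe_filter, mem_Ioc, Set.mem_ofPred_eq, sub_sub_cancel, Nat.cast_lt, Nat.cast_le]
  tauto

theorem int (h1 : S_POS) : S_INT := by
  intro ε hε hε2
  obtain ⟨K₁, c₁, hc10, hc11, hpos⟩ := h1 (1 / 2) (by norm_num)
  obtain ⟨κ, hκ, x₁, hlib⟩ := Pool.Agent.Results.MP_26a8c3_nt.ShortProgressions.result.2.1 ε hε
  set d : ℝ := min c₁ κ with hd
  have hd0 : 0 < d := lt_min hc10 hκ
  have hd1 : d ≤ c₁ := min_le_left _ _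
  have hd2 : d ≤ κ := min_le_right _ _
  have hd3 : d < 1 := lt_of_le_of_lt hd1 hc11
  obtain ⟨K₂, hK₂, hbig⟩ := log_pow_le 2 21 (d / 4) (by positivity)
  obtain ⟨K₄, hK₄, hbig4⟩ := log_pow_le 2 0 (d / 4) (by positivity)
  have hlogK : Tendsto (fun K : ℕ => Real.log K) atTop atTop :=
    Real.tendsto_log_atTop.comp tendsto_natCast_atTop_atTop
  obtain ⟨K₃, hK₃⟩ := eventually_atTop.1 (hlogK.eventually_ge_atTop 2)
  refine ⟨d / 4, by positivity, max (max (max K₁ x₁) (max K₂ K₃)) K₄, ?_⟩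
  intro X hX k hk
  have hX' : max (max K₁ x₁) (max K₂ K₃) ≤ X := le_trans (le_max_left _ _) hX
  have hXa : K₁ ≤ X := le_trans (le_trans (le_max_left _ _) (le_max_left _ _)) hX'
  have hXb : x₁ ≤ X := le_trans (le_trans (le_max_right _ _) (le_max_left _ _)) hX'
  have hXc : K₂ ≤ X := le_trans (le_trans (le_max_left _ _) (le_max_right _ _)) hX'
  have hXd : K₃ ≤ X := le_trans (le_trans (le_max_right _ _) (le_max_right _ _)) hX'
  have hXe : K₄ ≤ X := le_trans (le_max_right _ _) hX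
  have hX3 : 3 ≤ X := le_trans hK₂ hXc
  have hX0 : (0 : ℝ) < X := by exact_mod_cast (by omega : 0 < X)
  have hXone : (1 : ℝ) ≤ X := by exact_mod_cast (by omega : 1 ≤ X)
  have hk0 : (0 : ℝ) < k := by exact_mod_cast hk
  have hl1 : 2 ≤ Real.log X := hK₃ X hXd
  have hl7 : Real.log X ≤ Real.log X ^ 7 := by
    calc Real.log X = Real.log X ^ 1 := (pow_one _).symm
      _ ≤ _ := pow_le_pow_right₀ (by linarith) (by norm_num)
  have hp1 : 2 * Real.log X ^ 21 ≤ (X : ℝ) ^ (d / 4) := hbig X hXc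
  have hp2 : 2 ≤ (X : ℝ) ^ (d / 4) := by
    have := hbig4 X hXe
    simpa using this
  have hHone : 1 ≤ (X : ℝ) ^ d := Real.one_le_rpow hXone hd0.le
  -- short intervals
  set S₁ : Finset ℕ := (Ioc 0 (0 + X)).filter (fun n => BadPos (1 / 2) c₁ X k n) with hS₁
  set S₂ : Finset ℕ := (Icc 1 X).filter (fun n : ℕ => ∃ u v : ℕ, u < n ∧ n ≤ v ∧ v ≤ X ∧
        k * (X : ℝ) ^ d ≤ (v : ℝ) - u ∧
        (k : ℝ) < (v : ℝ) - u ∧ (v : ℝ) - u ≤ k * (X : ℝ) ^ (5 / 9 - ε) ∧
        (2 - 3 * ε) * ((v : ℝ) - u) / (Nat.totient k * Real.log (((v : ℝ) - u) / k)) <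
          (Pool.Agent.Results.MP_26a8c3_nt.ShortProgressions.cnt u v k n : ℝ)) with hS₂
  have hS₂card : k * (X : ℝ) ^ d ≤ X → (S₂.card : ℝ) ≤ X * Real.log X ^ 21 / (X : ℝ) ^ d := by
    intro hkH
    exact hlib X hXb k hk ((X : ℝ) ^ d) hHone (Real.rpow_le_rpow_of_exponent_le hXone hd2) hkH
  have hS₂empty : ¬ k * (X : ℝ) ^ d ≤ X → S₂ = ∅ := by
    intro hkH
    rw [hS₂, filter_eq_empty_iff]
    rintro n _ ⟨u, v, g1, g2, g3, g4, _⟩
    have : (v : ℝ) ≤ X := by exact_mod_cast g3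
    have hu : (0 : ℝ) ≤ u := Nat.cast_nonneg u
    exact hkH (by linarith)
  have hS₂' : (S₂.card : ℝ) ≤ (X : ℝ) ^ (1 - d / 2) := by
    by_cases hkH : k * (X : ℝ) ^ d ≤ X
    · refine (hS₂card hkH).trans ?_
      rw [div_le_iff₀ (by positivity), ← Real.rpow_add hX0]
      calc X * Real.log X ^ 21 ≤ X * (X : ℝ) ^ (d / 4) := by
            apply mul_le_mul_of_nonneg_left _ hX0.le
            have : 0 ≤ Real.log X ^ 21 := by positivity
            linarith
        _ = (X : ℝ) ^ (1 + d / 4) := by rw [Real.rpow_add hX0, Real.rpow_one]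
        _ ≤ _ := Real.rpow_le_rpow_of_exponent_le hXone (by linarith)
    · rw [hS₂empty hkH]
      simp only [card_empty, Nat.cast_zero]
      positivity
  by_cases hkX : k ≤ X
  · have hlk : Real.log k ≤ Real.log X ^ 7 := by
      refine le_trans ?_ hl7
      apply Real.log_le_log hk0
      exact_mod_cast hkX
    have hS₁' : (S₁.card : ℝ) ≤ (X : ℝ) ^ (1 - d / 2) := by
      refine (hpos X hXa k hk hlk 0).trans (Real.rpow_le_rpow_of_exponent_le hXone (by linarith))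
    have hsub : (Icc 1 X).filter (fun n => ∃ a b : ℕ, a < n ∧ n ≤ b ∧ b ≤ X ∧ k * Real.log X ^ 7 ≤ (b : ℝ) - a ∧
        (b : ℝ) - a ≤ k * (X : ℝ) ^ (5 / 9 - ε) ∧
        (2 - 3 * ε) * ((b : ℝ) - a) / (Nat.totient k * Real.log (((b : ℝ) - a) / k)) < N b (b - a) k n) ⊆
        S₁ ∪ S₂ := by
      intro n hn
      rw [mem_filter, mem_Icc] at hn
      obtain ⟨hn1, a, b, g1, g2, g3, g4, g5, g6⟩ := hn
      have hab : a ≤ b := by omega
      have hyk : 2 ≤ ((b : ℝ) - a) / k := by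
        rw [le_div_iff₀ hk0]
        nlinarith
      have hy0 : 0 < (b : ℝ) - a := by
        have : 0 < ((b : ℝ) - a) / k := by linarith
        exact (div_pos_iff_of_pos_right hk0).1 this
      have hφ0 : (0 : ℝ) < Nat.totient k := by exact_mod_cast Nat.totient_pos.2 (by omega)
      have hlog : 0 < Real.log (((b : ℝ) - a) / k) := Real.log_pos (by linarith)
      have hB : 0 < ((b : ℝ) - a) / (Nat.totient k * Real.log (((b : ℝ) - a) / k)) := by positivity
      rw [mem_union]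
      by_cases hcase : (b : ℝ) - a ≤ k * (X : ℝ) ^ c₁
      · left
        rw [hS₁, mem_filter, mem_Ioc]
        refine ⟨⟨by omega, by omega⟩, b, (b : ℝ) - a, ?_, ?_, g4, hcase, ?_⟩
        · have : (0 : ℝ) ≤ a := Nat.cast_nonneg a
          linarith
        · have e1 : (a : ℝ) < n := by exact_mod_cast g1
          have e2 : (n : ℝ) ≤ b := by exact_mod_cast g2
          rw [abs_of_nonneg (by linarith)]
          linarith
        · refine lt_of_le_of_lt ?_ g6
          rw [mul_div_assoc, mul_div_assoc]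
          apply mul_le_mul_of_nonneg_right _ hB.le
          linarith
      · right
        push Not at hcase
        rw [hS₂, mem_filter, mem_Icc]
        have e1 : k * (X : ℝ) ^ d ≤ k * (X : ℝ) ^ c₁ :=
          mul_le_mul_of_nonneg_left (Real.rpow_le_rpow_of_exponent_le hXone hd1) hk0.le
        refine ⟨hn1, a, b, g1, g2, g3, by linarith, ?_, g5, ?_⟩
        · rw [le_div_iff₀ hk0] at hyk
          linarith
        · rw [← N_nat hab]
          exact g6
    have hcard := (card_le_card hsub).trans (card_union_le _ _)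
    refine (Nat.cast_le.2 hcard).trans ?_
    push_cast
    calc (S₁.card : ℝ) + S₂.card ≤ 2 * (X : ℝ) ^ (1 - d / 2) := by linarith
      _ ≤ (X : ℝ) ^ (d / 4) * (X : ℝ) ^ (1 - d / 2) := mul_le_mul_of_nonneg_right hp2 (by positivity)
      _ = (X : ℝ) ^ (1 - d / 4) := by
        rw [← Real.rpow_add hX0]
        congr 1
        ring
  · have hempty : (Icc 1 X).filter (fun n => ∃ a b : ℕ, a < n ∧ n ≤ b ∧ b ≤ X ∧
        k * Real.log X ^ 7 ≤ (b : ℝ) - a ∧ (b : ℝ) - a ≤ k * (X : ℝ) ^ (5 / 9 - ε) ∧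
        (2 - 3 * ε) * ((b : ℝ) - a) / (Nat.totient k * Real.log (((b : ℝ) - a) / k)) < N b (b - a) k n) = ∅ := by
      rw [filter_eq_empty_iff]
      rintro n _ ⟨a, b, g1, g2, g3, g4, _⟩
      have e1 : (b : ℝ) ≤ X := by exact_mod_cast g3
      have e2 : (X : ℝ) < k := by
        push Not at hkX
        exact_mod_cast hkX
      have e3 : (0 : ℝ) ≤ a := Nat.cast_nonneg a
      nlinarith
    rw [hempty]
    simp only [card_empty, Nat.cast_zero]
    positivity

end Pool.Agent.Helper51.PS.Fin5
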