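import Pool.Agent.Helper51.PS.Fin1

/-!
# Project PS, second round (helper51): all moduli, all `y ≥ H₀ k`

Statements of the two new modules. Each module is a file `Pool/Agent/Helper51/PS/<NAME>.lean` with the theorem
`Pool.Agent.Helper51.PS.<NAME>.main : S_<NAME>`.
-/

set_option autoImplicit false

open Finset
open scoped Classical

namespace Pool.Agent.Helper51.PS

open Pool.Agent.Helper51.PS.Fin1

/-- DIC: Selberg's weights and Mertens for ALL `k` (no condition `log k ≤ Z`). `cnt` is from `PS/Fin1.lean`.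
Let `κ = ∏ (1 - 1/p)⁻¹` over the primes `p ≤ Z` dividing `k`. The proof of `PS/SEL.lean` gives
`∑_j ∑_e c e ≤ C κ Z / log Z =: X` (`remove` with `s` = the primes `≤ z` dividing `k` instead of `k.primeFactors`; an `n ≤ z`
prime to these is prime to `k`), and `∑ |c e| ≤ z ^ 6 ≤ Z ^ (6 / 64)`. Let `Λ = 2 C / δ + 1`, and choose `M` with
`∑ 1/p ≥ 2 Λ` over ALL primes in `(Z, Z ^ M]` (`PS/MER.lean` or Mertens, `k = 1`), `L₁` an upper bound for this sum. If the sum over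
the `p ∤ k` is `≥ Λ`: second case, since `X / L ≤ C κ / Λ ...` and `κ ≤ k / φ(k)`. Otherwise the sum over the `p ∣ k`, `Z < p ≤ Z ^ M`,
is `≥ Λ`, so `k / φ(k) ≥ κ ∏ (1 - 1/p)⁻¹ ≥ κ ∏ (1 + 1/p) ≥ κ (1 + Λ)`, and `cnt Z (Z ^ M) k l ≤ X ≤ δ (k / φ(k)) Z / log Z`
(as in `Fin1.sieve`, only with the weights: `cnt` counts `j` with weight sum `≥ 1`, all weight sums are `≥ 0`). -/
def S_DIC : Prop := ∀ δ : ℝ, 0 < δ → ∃ (M Z₀ : ℕ) (L₁ : ℝ), 2 ≤ M ∧ 1 ≤ L₁ ∧ ∀ Z : ℕ, Z₀ ≤ Z → ∀ k : ℕ, 1 ≤ k →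
  (∀ l : ℕ, (cnt Z (Z ^ M) k l : ℝ) ≤ δ * ((k : ℝ) / (Nat.totient k : ℝ) * (Z / Real.log Z))) ∨
  (∃ (c : ℕ → ℝ) (D : ℕ) (X L : ℝ), D ≤ Z ∧ ∑ e ∈ Icc 1 D, |c e| ≤ (Z : ℝ) ^ (3 / 32 : ℝ) ∧
    (∀ n : ℕ, 0 ≤ ∑ e ∈ (Icc 1 D).filter (fun e => e ∣ n), c e) ∧
    (∀ n : ℕ, (∀ p : ℕ, p.Prime → p ∣ n → Z < p) → 1 ≤ ∑ e ∈ (Icc 1 D).filter (fun e => e ∣ n), c e) ∧
    (∀ l : ℕ, ∑ j ∈ Icc 1 Z, ∑ e ∈ (Icc 1 D).filter (fun e => e ∣ l + j * k), c e ≤ X) ∧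
    L = ∑ p ∈ (Ioc Z (Z ^ M)).filter (fun p => p.Prime ∧ ¬ p ∣ k), 1 / (p : ℝ) ∧ 1 ≤ L ∧ L ≤ L₁ ∧
    1 / L * X ≤ δ / 2 * ((k : ℝ) / (Nat.totient k : ℝ) * (Z / Real.log Z)))

/-- FST: the first moment. `∑_{l < k} N(x,y;k,l)` is the number of the primes in `(x - y, x]`, at most `C y / log y`
(Brun-Titchmarsh for the modulus 1; e.g. `S_SEL` with `k = 1`, `Z = ⌈y⌉₊`, `l = ⌊x - y⌋₊`, plus the primes `≤ Z`; or the library: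
Montgomery-Vaughan / Selberg in many files), and every counted `l` has `N ≥ y / (φ(k) log (y / k))`. -/
def S_FST : Prop := ∃ C : ℝ, 0 < C ∧ ∀ k : ℕ, 2 ≤ k → ∀ x y : ℝ, k < y → y ≤ x →
  (((range k).filter (fun l : ℕ => y / (Nat.totient k * Real.log (y / k)) ≤
    ({p : ℕ | p.Prime ∧ x - y < p ∧ (p : ℝ) ≤ x ∧ p ≡ l [MOD k]}.ncard : ℝ))).card : ℝ) ≤
    C * (Nat.totient k * Real.log (y / k) / Real.log y)

end Pool.Agent.Helper51.PS
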