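import Pool.Agent.Helper51.PS.Fin2
import Pool.Agent.Helper51.PS.Stm2

/-!
# Project PS, second round: one window, every modulus
-/

set_option autoImplicit false

open Finset Filter Topology
open scoped Classical

namespace Pool.Agent.Helper51.PS.G1

open Pool.Agent.Helper51.PS.Fin1 Pool.Agent.Helper51.PS.Fin2

/-- the bound for the number of the bad `l`, explicit -/
lemma bad2 (hMOM : S_MOM) (hLCM : S_LCM) (hTUR : S_TUR) {Z k D M K u m : ℕ} {c : ℕ → ℝ} {L L₁ X T S : ℝ} (P : Finset ℕ)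
    (hP : P = (Ioc Z (Z ^ M)).filter (fun p => p.Prime ∧ ¬ p ∣ k)) (hL : L = ∑ p ∈ P, 1 / (p : ℝ)) (hL1 : 1 ≤ L)
    (hLL : L ≤ L₁) (hZ : 1 ≤ Z) (hk : 1 ≤ k) (hZM : Z ≤ Z ^ M) (hD : D ≤ Z)
    (hc : ∑ e ∈ Icc 1 D, |c e| ≤ S)
    (h0 : ∀ n : ℕ, 0 ≤ ∑ e ∈ (Icc 1 D).filter (fun e => e ∣ n), c e)
    (h1 : ∀ n : ℕ, (∀ p : ℕ, p.Prime → p ∣ n → Z < p) → 1 ≤ ∑ e ∈ (Icc 1 D).filter (fun e => e ∣ n), c e)
    (h2 : ∀ l : ℕ, ∑ j ∈ Icc 1 Z, ∑ e ∈ (Icc 1 D).filter (fun e => e ∣ l + j * k), c e ≤ X) (hT : 0 < T) :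
    (((Ioc u (u + K)).filter (fun l => 1 / L * X + T < (cnt Z (Z ^ M) k l : ℝ))).card : ℝ) * T ^ (2 * m) ≤
      (S * 2) ^ (2 * m) * (K * 4 ^ m * Z ^ m * ((4 * m + 1) ^ 2 * (1 + L₁) ^ 2) ^ (2 * m) +
        (2 * Z * (2 * (Z ^ M) ^ 2)) ^ (2 * m)) := by
  have hPp : ∀ p ∈ P, p.Prime ∧ Z < p ∧ ¬ p ∣ k := by
    intro p hp
    rw [hP, mem_filter, mem_Ioc] at hp
    exact ⟨hp.2.1, hp.1.1, hp.2.2⟩
  obtain ⟨t1, t2, t3⟩ := hTUR P L (fun p hp => (hPp p hp).1) hL hL1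
  have hm := hMOM Z k K u m (Icc 1 D) (QQ P) c (bt L) 2 hZ hk (by
    intro e he
    rw [mem_Icc] at he
    exact ⟨he.1, fun p hp hpe => (Nat.le_of_dvd he.1 hpe).trans (he.2.trans hD)⟩) (QQ_prop hPp) t3
  have hl := hLCM P L₁ (2 * m) (fun p hp => (hPp p hp).1) (hL ▸ hLL)
  have hcard : P.card ≤ Z ^ M := by
    rw [hP]
    refine (card_filter_le _ _).trans ?_
    rw [Nat.card_Ioc]
    exact Nat.sub_le _ _
  have hq := QQ_card P (Z ^ M) (Nat.one_le_pow _ _ hZ) hcard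
  have hstep : (((Ioc u (u + K)).filter (fun l => 1 / L * X + T < (cnt Z (Z ^ M) k l : ℝ))).card : ℝ) * T ^ (2 * m) ≤
      ∑ l ∈ Ioc u (u + K), (GG Z k D P c L l) ^ (2 * m) := by
    have e1 : (((Ioc u (u + K)).filter (fun l => 1 / L * X + T < (cnt Z (Z ^ M) k l : ℝ))).card : ℝ) * T ^ (2 * m) =
        ∑ l ∈ (Ioc u (u + K)).filter (fun l => 1 / L * X + T < (cnt Z (Z ^ M) k l : ℝ)), T ^ (2 * m) := by
      rw [sum_const, nsmul_eq_mul]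
    rw [e1]
    refine (sum_le_sum (g := fun l => (GG Z k D P c L l) ^ (2 * m)) fun l hl => ?_).trans
      (sum_le_sum_of_subset_of_nonneg (filter_subset _ _) fun l _ _ => ?_)
    · rw [mem_filter] at hl
      have e2 := sieve hTUR P hP hL hL1 hZM h0 h1 h2 l
      apply pow_le_pow_left₀ hT.le
      linarith [hl.2]
    · rw [pow_mul]
      positivity
  refine hstep.trans (hm.trans ?_)
  have hL₁ : 0 ≤ L₁ := by linarith
  have ha : 0 ≤ ∑ e ∈ Icc 1 D, |c e| := sum_nonneg fun _ _ => abs_nonneg _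
  apply mul_le_mul
  · apply pow_le_pow_left₀ (by positivity)
    linarith
  · apply add_le_add
    · apply mul_le_mul_of_nonneg_left _ (by positivity)
      refine hl.trans (le_of_eq ?_)
      push_cast
      ring
    · apply pow_le_pow_left₀ (by positivity)
      apply mul_le_mul_of_nonneg_left _ (by positivity)
      exact_mod_cast hq
  · positivity
  · have : 0 ≤ S := ha.trans hc
    positivity

/-- the first term -/
lemma first {a ℓ δ L₁ T : ℝ} {m : ℕ} (ha : 1 ≤ a) (hℓ : 1 ≤ ℓ) (hδ : 0 < δ) (hL₁ : 0 ≤ L₁) (hT : T = δ / 2 * (a / ℓ))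
    (hm : 4 * (m : ℝ) + 1 ≤ a ^ (1 / 5 : ℝ)) (hbig : 64 * (1 + L₁) ^ 4 / δ ^ 2 * ℓ ^ 2 ≤ a ^ (1 / 160 : ℝ)) :
    (a ^ (3 / 32 : ℝ) * 2) ^ 2 * (4 * a * ((4 * m + 1) ^ 2 * (1 + L₁) ^ 2) ^ 2) ≤ T ^ 2 * a ^ (-(1 / 160) : ℝ) := by
  have ha0 : 0 < a := by linarith
  have e1 : (a ^ (3 / 32 : ℝ)) ^ 2 = a ^ (3 / 16 : ℝ) := by
    rw [← Real.rpow_natCast, ← Real.rpow_mul ha0.le]
    norm_num
  have e2 : (4 * (m : ℝ) + 1) ^ 4 ≤ a ^ (4 / 5 : ℝ) := by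
    calc (4 * (m : ℝ) + 1) ^ 4 ≤ (a ^ (1 / 5 : ℝ)) ^ 4 := pow_le_pow_left₀ (by positivity) hm 4
      _ = _ := by
        rw [← Real.rpow_natCast, ← Real.rpow_mul ha0.le]
        norm_num
  have e3 : a ^ (3 / 16 : ℝ) * a * a ^ (4 / 5 : ℝ) * a ^ (1 / 160 : ℝ) * a ^ (1 / 160 : ℝ) = a ^ 2 := by
    calc a ^ (3 / 16 : ℝ) * a * a ^ (4 / 5 : ℝ) * a ^ (1 / 160 : ℝ) * a ^ (1 / 160 : ℝ) =
        a ^ (3 / 16 : ℝ) * a ^ (1 : ℝ) * a ^ (4 / 5 : ℝ) * a ^ (1 / 160 : ℝ) * a ^ (1 / 160 : ℝ) := by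
          rw [Real.rpow_one]
      _ = a ^ (2 : ℝ) := by
          rw [← Real.rpow_add ha0, ← Real.rpow_add ha0, ← Real.rpow_add ha0, ← Real.rpow_add ha0]
          norm_num
      _ = a ^ 2 := by norm_cast
  have e4 : a ^ (-(1 / 160) : ℝ) * a ^ (1 / 160 : ℝ) = 1 := by
    rw [← Real.rpow_add ha0]
    norm_num
  have p1 : 0 < a ^ (1 / 160 : ℝ) := Real.rpow_pos_of_pos ha0 _
  have p2 : 0 < a ^ (3 / 16 : ℝ) := Real.rpow_pos_of_pos ha0 _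
  have p3 : 0 < a ^ (4 / 5 : ℝ) := Real.rpow_pos_of_pos ha0 _
  refine le_of_mul_le_mul_right ?_ p1
  rw [mul_assoc (T ^ 2), e4, mul_one, hT]
  have h1 : (a ^ (3 / 32 : ℝ) * 2) ^ 2 * (4 * a * ((4 * m + 1) ^ 2 * (1 + L₁) ^ 2) ^ 2) * a ^ (1 / 160 : ℝ) =
      16 * (1 + L₁) ^ 4 * (a ^ (3 / 16 : ℝ) * a * a ^ (1 / 160 : ℝ)) * (4 * (m : ℝ) + 1) ^ 4 := by
    rw [mul_pow, e1]
    ring
  rw [h1]
  have h2 : 16 * (1 + L₁) ^ 4 * (a ^ (3 / 16 : ℝ) * a * a ^ (1 / 160 : ℝ)) * (4 * (m : ℝ) + 1) ^ 4 ≤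
      16 * (1 + L₁) ^ 4 * (a ^ (3 / 16 : ℝ) * a * a ^ (1 / 160 : ℝ)) * a ^ (4 / 5 : ℝ) :=
    mul_le_mul_of_nonneg_left e2 (by positivity)
  refine h2.trans ?_
  have h3 : 16 * (1 + L₁) ^ 4 * (a ^ (3 / 16 : ℝ) * a * a ^ (1 / 160 : ℝ)) * a ^ (4 / 5 : ℝ) =
      (64 * (1 + L₁) ^ 4 / δ ^ 2 * ℓ ^ 2) * ((δ ^ 2 / 4) / ℓ ^ 2 * (a ^ (3 / 16 : ℝ) * a * a ^ (4 / 5 : ℝ) * a ^ (1 / 160 : ℝ))) := by
    field_simp
    ring
  rw [h3]
  calc (64 * (1 + L₁) ^ 4 / δ ^ 2 * ℓ ^ 2) * ((δ ^ 2 / 4) / ℓ ^ 2 * (a ^ (3 / 16 : ℝ) * a * a ^ (4 / 5 : ℝ) * a ^ (1 / 160 : ℝ)))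
      ≤ a ^ (1 / 160 : ℝ) * ((δ ^ 2 / 4) / ℓ ^ 2 * (a ^ (3 / 16 : ℝ) * a * a ^ (4 / 5 : ℝ) * a ^ (1 / 160 : ℝ))) :=
        mul_le_mul_of_nonneg_right hbig (by positivity)
    _ = (δ ^ 2 / 4) / ℓ ^ 2 * (a ^ (3 / 16 : ℝ) * a * a ^ (4 / 5 : ℝ) * a ^ (1 / 160 : ℝ) * a ^ (1 / 160 : ℝ)) := by ring
    _ = (δ ^ 2 / 4) / ℓ ^ 2 * a ^ 2 := by rw [e3]
    _ = (δ / 2 * (a / ℓ)) ^ 2 := by
        field_simp
        ring

/-- the second term -/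
lemma second {a ℓ δ T : ℝ} {M : ℕ} (ha : 1 ≤ a) (hℓ : 1 ≤ ℓ) (hδ : 0 < δ) (hT : T = δ / 2 * (a / ℓ))
    (hbig : 16 / δ * ℓ ≤ a) : (a ^ (3 / 32 : ℝ) * 2) * (2 * a * (2 * (a ^ M) ^ 2)) ≤ T * a ^ (2 * M + 2) := by
  have ha0 : 0 < a := by linarith
  have e1 : a ^ (3 / 32 : ℝ) ≤ a := by
    calc a ^ (3 / 32 : ℝ) ≤ a ^ (1 : ℝ) := Real.rpow_le_rpow_of_exponent_le ha (by norm_num)
      _ = a := Real.rpow_one a
  have hℓ0 : 0 < ℓ := by linarith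
  calc (a ^ (3 / 32 : ℝ) * 2) * (2 * a * (2 * (a ^ M) ^ 2)) ≤ (a * 2) * (2 * a * (2 * (a ^ M) ^ 2)) :=
        mul_le_mul_of_nonneg_right (by linarith) (by positivity)
    _ = (16 / δ * ℓ) * (δ / 2 * (1 / ℓ) * a ^ 2 * (a ^ M) ^ 2) := by
        field_simp
        ring
    _ ≤ a * (δ / 2 * (1 / ℓ) * a ^ 2 * (a ^ M) ^ 2) := mul_le_mul_of_nonneg_right hbig (by positivity)
    _ = T * a ^ (2 * M + 2) := by
        rw [hT]
        ring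

/-- choice of the number of moments -/
lemma moments {a κ : ℝ} {M : ℕ} (ha : 10 ≤ a ^ (1 / 5 : ℝ)) (hla : 6400 ≤ Real.log a) (ha1 : 1 ≤ a) (hκ0 : 0 < κ)
    (hup : a ≤ κ ^ (1 / (16 * (M : ℝ) + 16))) :
    ∃ m : ℕ, 4 * (m : ℝ) + 1 ≤ a ^ (1 / 5 : ℝ) ∧
      (a ^ (-(1 / 160) : ℝ)) ^ m ≤ κ ^ (-(1 / (320 * (8 * (M : ℝ) + 8)))) + Real.exp (-(5 * a ^ (1 / 5 : ℝ))) ∧
      (a ^ (2 * M + 2)) ^ (2 * m) ≤ κ ^ (1 / 2 : ℝ) := by
  have ha0 : 0 < a := by linarith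
  have hl1 : 1 ≤ Real.log a := by linarith
  have hM0 : (0 : ℝ) ≤ M := Nat.cast_nonneg M
  have h1 : Real.log a ≤ 1 / (16 * (M : ℝ) + 16) * Real.log κ := by
    rw [← Real.log_rpow hκ0]
    exact Real.log_le_log ha0 hup
  set lam : ℝ := Real.log κ / ((8 * M + 8) * Real.log a) with hlam
  have hpos : 0 < (8 * (M : ℝ) + 8) * Real.log a := by positivity
  have hlam2 : 2 ≤ lam := by
    rw [hlam, le_div_iff₀ hpos]
    have : (16 * (M : ℝ) + 16) * Real.log a ≤ Real.log κ := by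
      calc (16 * (M : ℝ) + 16) * Real.log a ≤ (16 * (M : ℝ) + 16) * (1 / (16 * (M : ℝ) + 16) * Real.log κ) :=
            mul_le_mul_of_nonneg_left h1 (by positivity)
        _ = Real.log κ := by field_simp
    linarith
  have hf1 : (⌊lam⌋₊ : ℝ) ≤ lam := Nat.floor_le (by linarith)
  have hf2 : lam < ⌊lam⌋₊ + 1 := Nat.lt_floor_add_one lam
  have hll : lam * ((8 * (M : ℝ) + 8) * Real.log a) = Real.log κ := by
    rw [hlam]
    field_simp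
  set b : ℝ := (a ^ (1 / 5 : ℝ) - 1) / 4 with hb
  have hb0 : 0 ≤ b := by
    rw [hb]
    linarith
  have hg1 : (⌊b⌋₊ : ℝ) ≤ b := Nat.floor_le hb0
  have hg2 : b < ⌊b⌋₊ + 1 := Nat.lt_floor_add_one b
  refine ⟨min ⌊lam⌋₊ ⌊b⌋₊, ?_, ?_, ?_⟩
  · have : ((min ⌊lam⌋₊ ⌊b⌋₊ : ℕ) : ℝ) ≤ ⌊b⌋₊ := by exact_mod_cast min_le_right _ _
    have h2 : 4 * b + 1 = a ^ (1 / 5 : ℝ) := by
      rw [hb]
      ring
    linarith
  · rcases le_total ⌊lam⌋₊ ⌊b⌋₊ with hle | hle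
    · rw [min_eq_left hle]
      refine le_trans ?_ (le_add_of_nonneg_right (Real.exp_pos _).le)
      rw [← Real.rpow_natCast, ← Real.rpow_mul ha0.le]
      rw [← Real.log_le_log_iff (Real.rpow_pos_of_pos ha0 _) (Real.rpow_pos_of_pos hκ0 _), Real.log_rpow ha0,
        Real.log_rpow hκ0]
      have h2 : lam / 2 ≤ ⌊lam⌋₊ := by linarith
      have h3 : 1 / (320 * (8 * (M : ℝ) + 8)) * Real.log κ = lam / 2 * (1 / 160) * Real.log a := by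
        rw [← hll]
        field_simp
        ring
      have h4 : lam / 2 * (1 / 160) * Real.log a ≤ ⌊lam⌋₊ * (1 / 160) * Real.log a := by
        apply mul_le_mul_of_nonneg_right _ (by linarith)
        linarith
      have h5 : -(1 / (320 * (8 * (M : ℝ) + 8))) * Real.log κ = -(lam / 2 * (1 / 160) * Real.log a) := by
        rw [neg_mul, h3]
      rw [h5]
      have h6 : -(1 / 160 : ℝ) * (⌊lam⌋₊ : ℝ) * Real.log a = -(⌊lam⌋₊ * (1 / 160) * Real.log a) := by ring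
      linarith
    · rw [min_eq_right hle]
      refine le_trans ?_ (le_add_of_nonneg_left (Real.rpow_nonneg hκ0.le _))
      rw [← Real.rpow_natCast, ← Real.rpow_mul ha0.le, Real.rpow_def_of_pos ha0]
      apply Real.exp_le_exp.2
      have h2 : a ^ (1 / 5 : ℝ) / 8 ≤ ⌊b⌋₊ := by
        have : b = (a ^ (1 / 5 : ℝ) - 1) / 4 := hb
        linarith
      have h3 : 5 * a ^ (1 / 5 : ℝ) = 6400 * (1 / 160) * (a ^ (1 / 5 : ℝ) / 8) := by ring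
      have h4 : 6400 * (1 / 160) * (a ^ (1 / 5 : ℝ) / 8) ≤ Real.log a * (1 / 160) * (⌊b⌋₊ : ℝ) := by
        apply mul_le_mul _ h2 (by positivity) (by positivity)
        linarith
      have h5 : Real.log a * (-(1 / 160) * (⌊b⌋₊ : ℝ)) = -(Real.log a * (1 / 160) * (⌊b⌋₊ : ℝ)) := by ring
      rw [h5, h3]
      linarith
  · rw [← pow_mul, ← Real.rpow_natCast]
    rw [← Real.log_le_log_iff (Real.rpow_pos_of_pos ha0 _) (Real.rpow_pos_of_pos hκ0 _), Real.log_rpow ha0,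
      Real.log_rpow hκ0]
    have hmm : ((min ⌊lam⌋₊ ⌊b⌋₊ : ℕ) : ℝ) ≤ lam := by
      have : ((min ⌊lam⌋₊ ⌊b⌋₊ : ℕ) : ℝ) ≤ ⌊lam⌋₊ := by exact_mod_cast min_le_left _ _
      linarith
    have h3 : 1 / 2 * Real.log κ = (2 * (M : ℝ) + 2) * (2 * lam) * Real.log a := by
      rw [← hll]
      ring
    rw [h3]
    apply mul_le_mul_of_nonneg_right _ (by linarith)
    have h4 : (((2 * M + 2) * (2 * min ⌊lam⌋₊ ⌊b⌋₊) : ℕ) : ℝ) =
        (2 * (M : ℝ) + 2) * (2 * ((min ⌊lam⌋₊ ⌊b⌋₊ : ℕ) : ℝ)) := by push_cast; ring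
    rw [h4]
    apply mul_le_mul_of_nonneg_left _ (by linarith)
    linarith

/-- one window, every modulus -/
def S_ONE2 : Prop := ∀ δ : ℝ, 0 < δ → ∃ (M H₀ : ℕ) (c : ℝ), 2 ≤ M ∧ 0 < c ∧ c < 1 ∧ ∀ K Z : ℕ, H₀ ≤ Z →
  (Z : ℝ) ≤ (K : ℝ) ^ c → ∀ k : ℕ, 1 ≤ k → ∀ u : ℕ,
    (((Ioc u (u + K)).filter (fun l => δ * ((k : ℝ) / (Nat.totient k : ℝ) * (Z / Real.log Z)) <
      (cnt Z (Z ^ M) k l : ℝ))).card : ℝ) ≤ K * Real.exp (-(5 * (Z : ℝ) ^ (1 / 5 : ℝ))) + (K : ℝ) ^ (1 - c)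

theorem one (hMOM : S_MOM) (hLCM : S_LCM) (hTUR : S_TUR) (hDIC : S_DIC) : S_ONE2 := by
  intro δ hδ
  obtain ⟨M, Z₁, L₁, hM, hL₁one, hdic⟩ := hDIC δ hδ
  obtain ⟨Z₃, hZ₃, hbig1⟩ := log_pow_le (64 * (1 + L₁) ^ 4 / δ ^ 2) 2 (1 / 160) (by norm_num)
  obtain ⟨Z₄, hZ₄, hbig2⟩ := log_pow_le (16 / δ) 1 1 (by norm_num)
  obtain ⟨Z₅, hZ₅, hbig3⟩ := log_pow_le 10 0 (1 / 5) (by norm_num)
  set c2 : ℝ := 1 / (320 * (8 * (M : ℝ) + 8)) with hc2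
  have hM0 : (0 : ℝ) ≤ M := Nat.cast_nonneg M
  have hc20 : 0 < c2 := by positivity
  have hc21 : c2 ≤ 1 / 2 := by
    rw [hc2]
    apply one_div_le_one_div_of_le (by norm_num)
    linarith
  have hcc : c2 / 2 ≤ 1 / (16 * (M : ℝ) + 16) := by
    rw [hc2, div_div]
    apply one_div_le_one_div_of_le (by positivity)
    linarith
  obtain ⟨K₁, hK₁, hKbig⟩ := log_pow_le (2 + 1 / c2) 0 (c2 / 2) (by positivity)
  have hlogK : Tendsto (fun K : ℕ => Real.log K) atTop atTop :=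
    Real.tendsto_log_atTop.comp tendsto_natCast_atTop_atTop
  obtain ⟨K₂, hK₂⟩ := eventually_atTop.1 (hlogK.eventually_ge_atTop 6400)
  refine ⟨M, max (max (max Z₁ Z₃) (max Z₄ Z₅)) (max K₁ K₂), c2 / 2, hM, by positivity, by linarith, ?_⟩
  intro K Z hZH hZup k hk u
  have hZa : Z₁ ≤ Z := le_trans (le_trans (le_trans (le_max_left _ _) (le_max_left _ _)) (le_max_left _ _)) hZH
  have hZc : Z₃ ≤ Z := le_trans (le_trans (le_trans (le_max_right _ _) (le_max_left _ _)) (le_max_left _ _)) hZH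
  have hZd : Z₄ ≤ Z := le_trans (le_trans (le_trans (le_max_left _ _) (le_max_right _ _)) (le_max_left _ _)) hZH
  have hZe : Z₅ ≤ Z := le_trans (le_trans (le_trans (le_max_right _ _) (le_max_right _ _)) (le_max_left _ _)) hZH
  have hZf : K₁ ≤ Z := le_trans (le_trans (le_max_left _ _) (le_max_right _ _)) hZH
  have hZg : K₂ ≤ Z := le_trans (le_trans (le_max_right _ _) (le_max_right _ _)) hZH
  have hZ3 : 3 ≤ Z := le_trans hZ₃ hZc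
  have ha3 : (3 : ℝ) ≤ Z := by exact_mod_cast hZ3
  have ha1 : (1 : ℝ) ≤ Z := by linarith
  have ha0 : (0 : ℝ) < Z := by linarith
  -- `K ≥ Z`
  have hKne : K ≠ 0 := by
    rintro rfl
    rw [Nat.cast_zero, Real.zero_rpow (by positivity)] at hZup
    linarith
  have hKone : (1 : ℝ) ≤ K := by exact_mod_cast (by omega : 1 ≤ K)
  have hK0 : (0 : ℝ) < K := by linarith
  have hZK : Z ≤ K := by
    have : (Z : ℝ) ≤ K := by
      refine hZup.trans ?_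
      calc (K : ℝ) ^ (c2 / 2) ≤ (K : ℝ) ^ (1 : ℝ) := Real.rpow_le_rpow_of_exponent_le hKone (by linarith)
        _ = K := Real.rpow_one _
    exact_mod_cast this
  have hK1 : K₁ ≤ K := hZf.trans hZK
  have hlZ : 6400 ≤ Real.log Z := hK₂ Z hZg
  have hl1 : 1 ≤ Real.log Z := by linarith
  have hl0 : 0 < Real.log Z := by linarith
  rcases hdic Z hZa k hk with htriv | ⟨c, D, X, L, hD, hs1, hs2, hs3, hs4, hL, hL1, hLL, hXL⟩
  · have h1 : (Ioc u (u + K)).filter (fun l => δ * ((k : ℝ) / (Nat.totient k : ℝ) * (Z / Real.log Z)) <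
      (cnt Z (Z ^ M) k l : ℝ)) = ∅ := by
      rw [filter_eq_empty_iff]
      intro l _
      exact not_lt.2 (htriv l)
    rw [h1]
    simp only [card_empty, Nat.cast_zero]
    positivity
  set P := (Ioc Z (Z ^ M)).filter (fun p => p.Prime ∧ ¬ p ∣ k) with hP
  have hL₁ : 0 ≤ L₁ := by linarith
  have hup : (Z : ℝ) ≤ (K : ℝ) ^ (1 / (16 * (M : ℝ) + 16)) :=
    hZup.trans (Real.rpow_le_rpow_of_exponent_le hKone hcc)
  have h10 : 10 ≤ (Z : ℝ) ^ (1 / 5 : ℝ) := by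
    have := hbig3 Z hZe
    simpa using this
  obtain ⟨m, g1, g2, g3⟩ := moments (M := M) h10 hlZ ha1 hK0 hup
  set T : ℝ := δ / 2 * ((Z : ℝ) / Real.log Z) with hT
  have hT0 : 0 < T := by positivity
  have hZM : Z ≤ Z ^ M := Nat.le_self_pow (by omega) Z
  have hb := bad2 hMOM hLCM hTUR (K := K) (u := u) (m := m) (L₁ := L₁) (T := T) P hP hL hL1 hLL (by omega) hk hZM hD hs1
    hs2 hs3 hs4 hT0
  have hf := first (m := m) ha1 hl1 hδ hL₁ hT g1 (hbig1 Z hZc)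
  have hsec := second (M := M) ha1 hl1 hδ hT (by
    have := hbig2 Z hZd
    simpa using this)
  -- the set
  have hsub : (Ioc u (u + K)).filter (fun l => δ * ((k : ℝ) / (Nat.totient k : ℝ) * (Z / Real.log Z)) <
      (cnt Z (Z ^ M) k l : ℝ)) ⊆ (Ioc u (u + K)).filter (fun l => 1 / L * X + T < (cnt Z (Z ^ M) k l : ℝ)) := by
    intro l hl
    rw [mem_filter] at hl ⊢
    refine ⟨hl.1, lt_of_le_of_lt ?_ hl.2⟩
    have hφ0 : (0 : ℝ) < Nat.totient k := by exact_mod_cast Nat.totient_pos.2 (by omega)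
    have hkφ : 1 ≤ (k : ℝ) / (Nat.totient k : ℝ) := by
      rw [one_le_div hφ0]
      exact_mod_cast Nat.totient_le k
    have hY : 0 < (Z : ℝ) / Real.log Z := by positivity
    have h3 : T ≤ δ / 2 * ((k : ℝ) / (Nat.totient k : ℝ) * (Z / Real.log Z)) := by
      rw [hT]
      apply mul_le_mul_of_nonneg_left _ (by positivity)
      exact le_mul_of_one_le_left hY.le hkφ
    linarith
  have hcard := card_le_card hsub
  refine (Nat.cast_le.2 hcard).trans ?_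
  have key : (((Ioc u (u + K)).filter (fun l => 1 / L * X + T < (cnt Z (Z ^ M) k l : ℝ))).card : ℝ) ≤
      K * ((Z : ℝ) ^ (-(1 / 160) : ℝ)) ^ m + ((Z : ℝ) ^ (2 * M + 2)) ^ (2 * m) := by
    refine le_of_mul_le_mul_right (hb.trans ?_) (pow_pos hT0 (2 * m))
    have t1 : ((Z : ℝ) ^ (3 / 32 : ℝ) * 2) ^ (2 * m) * (K * 4 ^ m * Z ^ m * ((4 * m + 1) ^ 2 * (1 + L₁) ^ 2) ^ (2 * m)) =
        K * (((Z : ℝ) ^ (3 / 32 : ℝ) * 2) ^ 2 * (4 * Z * ((4 * m + 1) ^ 2 * (1 + L₁) ^ 2) ^ 2)) ^ m := by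
      rw [pow_mul, pow_mul ((4 * (m : ℝ) + 1) ^ 2 * (1 + L₁) ^ 2), mul_pow (((Z : ℝ) ^ (3 / 32 : ℝ) * 2) ^ 2),
        mul_pow (4 * (Z : ℝ)), mul_pow 4 (Z : ℝ)]
      ring
    have t2 : ((Z : ℝ) ^ (3 / 32 : ℝ) * 2) ^ (2 * m) * (2 * Z * (2 * ((Z : ℝ) ^ M) ^ 2)) ^ (2 * m) =
        (((Z : ℝ) ^ (3 / 32 : ℝ) * 2) * (2 * Z * (2 * ((Z : ℝ) ^ M) ^ 2))) ^ (2 * m) := by
      rw [mul_pow _ (2 * (Z : ℝ) * (2 * ((Z : ℝ) ^ M) ^ 2))]
    rw [mul_add, t1]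
    rw [show ((2 : ℝ) * Z * (2 * (((Z : ℝ) ^ M) ^ 2))) ^ (2 * m) = (2 * Z * (2 * ((Z : ℝ) ^ M) ^ 2)) ^ (2 * m) from rfl, t2,
      add_mul]
    apply add_le_add
    · calc (K : ℝ) * (((Z : ℝ) ^ (3 / 32 : ℝ) * 2) ^ 2 * (4 * Z * ((4 * m + 1) ^ 2 * (1 + L₁) ^ 2) ^ 2)) ^ m ≤
          K * (T ^ 2 * (Z : ℝ) ^ (-(1 / 160) : ℝ)) ^ m := by
            apply mul_le_mul_of_nonneg_left _ hK0.le
            exact pow_le_pow_left₀ (by positivity) hf m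
        _ = _ := by
          rw [mul_pow, ← pow_mul]
          ring
    · calc (((Z : ℝ) ^ (3 / 32 : ℝ) * 2) * (2 * Z * (2 * ((Z : ℝ) ^ M) ^ 2))) ^ (2 * m) ≤
          (T * (Z : ℝ) ^ (2 * M + 2)) ^ (2 * m) := pow_le_pow_left₀ (by positivity) hsec _
        _ = _ := by
          rw [mul_pow]
          ring
  refine key.trans ?_
  have f1 : (K : ℝ) * ((Z : ℝ) ^ (-(1 / 160) : ℝ)) ^ m ≤
      (K : ℝ) ^ (1 - c2) + K * Real.exp (-(5 * (Z : ℝ) ^ (1 / 5 : ℝ))) := by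
    calc (K : ℝ) * ((Z : ℝ) ^ (-(1 / 160) : ℝ)) ^ m ≤
        K * ((K : ℝ) ^ (-c2) + Real.exp (-(5 * (Z : ℝ) ^ (1 / 5 : ℝ)))) := mul_le_mul_of_nonneg_left g2 hK0.le
      _ = (K : ℝ) ^ (1 : ℝ) * (K : ℝ) ^ (-c2) + K * Real.exp (-(5 * (Z : ℝ) ^ (1 / 5 : ℝ))) := by
          rw [Real.rpow_one]
          ring
      _ = (K : ℝ) ^ (1 - c2) + K * Real.exp (-(5 * (Z : ℝ) ^ (1 / 5 : ℝ))) := by
          rw [← Real.rpow_add hK0]
          rfl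
  have f2 : ((Z : ℝ) ^ (2 * M + 2)) ^ (2 * m) ≤ (K : ℝ) ^ (1 - c2) :=
    g3.trans (Real.rpow_le_rpow_of_exponent_le hKone (by linarith))
  have f3 : 2 ≤ (K : ℝ) ^ (c2 / 2) := by
    have h1 := hKbig K hK1
    simp only [pow_zero, mul_one] at h1
    have h3 : 0 < 1 / c2 := by positivity
    linarith
  have f4 : 2 * (K : ℝ) ^ (1 - c2) ≤ (K : ℝ) ^ (1 - c2 / 2) := by
    calc 2 * (K : ℝ) ^ (1 - c2) ≤ (K : ℝ) ^ (c2 / 2) * (K : ℝ) ^ (1 - c2) :=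
          mul_le_mul_of_nonneg_right f3 (by positivity)
      _ = (K : ℝ) ^ (1 - c2 / 2) := by
          rw [← Real.rpow_add hK0]
          congr 1
          ring
  linarith

end Pool.Agent.Helper51.PS.G1
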