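import Pool.Agent.Helper51.PS.G1
import Pool.Agent.Helper51.PS.Fin3

/-!
# Project PS, second round: all windows near a point
-/

set_option autoImplicit false

open Finset Filter Topology
open scoped Classical

namespace Pool.Agent.Helper51.PS.G2

open Pool.Agent.Helper51.PS.Fin1 Pool.Agent.Helper51.PS.Fin2 Pool.Agent.Helper51.PS.Fin3 Pool.Agent.Helper51.PS.G1

/-- all windows `m + k, ..., m + h k` with `m ≡ n` near `n`, `h ≥ H`, contain few rough numbers -/
def Good (δ : ℝ) (M : ℕ) (c H : ℝ) (K k n : ℕ) : Prop :=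
  ∀ m h : ℕ, 1 ≤ m → m ≡ n [MOD k] → H ≤ h → (h : ℝ) ≤ (K : ℝ) ^ c →
    |(m : ℝ) - n| ≤ k * min (Real.exp (2 * (h : ℝ) ^ (1 / 5 : ℝ))) ((K : ℝ) ^ c) →
    (cnt h (h ^ M) k m : ℝ) ≤ δ * ((k : ℝ) / (Nat.totient k : ℝ) * (h / Real.log h))

def S_UNI2 : Prop := ∀ δ : ℝ, 0 < δ → ∃ (M : ℕ) (c H₀ : ℝ), 2 ≤ M ∧ 0 < c ∧ c < 1 ∧ 1 ≤ H₀ ∧ ∀ (K k : ℕ) (H : ℝ),
  H₀ ≤ H → 1 ≤ k → ∀ u : ℕ,
    (((Ioc u (u + K)).filter (fun n => ¬ Good δ M c H K k n)).card : ℝ) ≤
      K * Real.exp (-H ^ (1 / 5 : ℝ)) + (K : ℝ) ^ (1 - c)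

lemma expo {h : ℝ} (hh : 80000 ^ 5 ≤ h) : 4 * h ^ 2 ≤ Real.exp (2 * h ^ (1 / 5 : ℝ)) := by
  have h0 : 0 < h := lt_of_lt_of_le (by norm_num) hh
  set y : ℝ := h ^ (1 / 5 : ℝ) with hy
  have hy5 : y ^ 5 = h := by
    rw [hy, ← Real.rpow_natCast, ← Real.rpow_mul h0.le]
    norm_num
  have hy0 : 0 ≤ y := Real.rpow_nonneg h0.le _
  have hy8 : 80000 ≤ y := by
    by_contra hlt
    push Not at hlt
    have : y ^ 5 < 80000 ^ 5 := pow_lt_pow_left₀ hlt hy0 (by norm_num)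
    linarith
  have h1 := Real.pow_div_factorial_le_exp (2 * y) (by positivity) 11
  refine le_trans ?_ h1
  rw [← hy5, le_div_iff₀ (by positivity)]
  have h2 : ((Nat.factorial 11 : ℕ) : ℝ) = 39916800 := by norm_num [Nat.factorial]
  rw [h2]
  have h3 : 0 ≤ y ^ 10 := by positivity
  nlinarith

theorem uni (h1 : S_ONE2) : S_UNI2 := by
  intro δ hδ
  obtain ⟨M, H₁, c, hM, hc0, hc1, hone⟩ := h1 δ hδ
  refine ⟨M, c / 4, max (max (H₁ : ℝ) (80000 ^ 5)) 8, hM, by positivity, by linarith,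
    le_trans (by norm_num) (le_max_right _ _), ?_⟩
  intro K k H hH hk u
  have hHa : (H₁ : ℝ) ≤ H := le_trans (le_trans (le_max_left _ _) (le_max_left _ _)) hH
  have hHb : (80000 ^ 5 : ℝ) ≤ H := le_trans (le_trans (le_max_right _ _) (le_max_left _ _)) hH
  have hHc : (8 : ℝ) ≤ H := le_trans (le_max_right _ _) hH
  by_cases hKH : (K : ℝ) ^ (c / 4) < H
  · have h2 : (Ioc u (u + K)).filter (fun n => ¬ Good δ M (c / 4) H K k n) = ∅ := by
      rw [filter_eq_empty_iff]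
      intro n _
      rw [not_not]
      intro m h _ _ hh1 hh2
      linarith
    rw [h2]
    simp only [card_empty, Nat.cast_zero]
    positivity
  push Not at hKH
  have hKne : K ≠ 0 := by
    rintro rfl
    rw [Nat.cast_zero, Real.zero_rpow (by positivity)] at hKH
    linarith
  have hKone : (1 : ℝ) ≤ K := by exact_mod_cast (by omega : 1 ≤ K)
  have hK0 : (0 : ℝ) < K := by linarith
  have hk0 : (0 : ℝ) < k := by exact_mod_cast hk
  have h8 : 8 ≤ (K : ℝ) ^ (c / 4) := hHc.trans hKH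
  set T : ℝ := (K : ℝ) ^ (c / 4) with hT
  set N : ℕ := ⌊T⌋₊ + 1 with hN
  have hNle : (N : ℝ) ≤ 2 * T := by
    have : (⌊T⌋₊ : ℝ) ≤ T := Nat.floor_le (by positivity)
    rw [hN]
    push_cast
    linarith
  have hlt : ∀ (a : ℕ) (r : ℝ), (a : ℝ) ≤ r → a < ⌊r⌋₊ + 1 := by
    intro a r ha
    have := Nat.le_floor ha
    omega
  set R : ℕ → ℝ := fun h => min (Real.exp (2 * (h : ℝ) ^ (1 / 5 : ℝ))) T with hR
  have hR1 : ∀ h : ℕ, 1 ≤ R h := by
    intro h
    apply le_min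
    · rw [← Real.exp_zero]
      apply Real.exp_le_exp.2
      positivity
    · linarith
  have hRle : ∀ h : ℕ, ((⌊R h⌋₊ + 1 : ℕ) : ℝ) ≤ 2 * R h := by
    intro h
    have : (⌊R h⌋₊ : ℝ) ≤ R h := Nat.floor_le (by linarith [hR1 h])
    push_cast
    linarith [hR1 h]
  -- the bad property for a window
  obtain ⟨Bd, hBd⟩ : ∃ Bd : ℕ → ℕ → Prop, ∀ h m : ℕ, Bd h m ↔ (H ≤ h ∧ (h : ℝ) ≤ T ∧
    δ * ((k : ℝ) / (Nat.totient k : ℝ) * (h / Real.log h)) < (cnt h (h ^ M) k m : ℝ)) := ⟨_, fun _ _ => Iff.rfl⟩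
  set E : ℕ → ℝ := fun h => K * Real.exp (-(5 * (h : ℝ) ^ (1 / 5 : ℝ))) + (K : ℝ) ^ (1 - c) with hE
  have hE0 : ∀ h, 0 ≤ E h := by
    intro h
    rw [hE]
    positivity
  have hcount : ∀ h v : ℕ, (((Ioc v (v + K)).filter (fun m => Bd h m)).card : ℝ) ≤ E h := by
    intro h v
    by_cases hh : H ≤ h ∧ (h : ℝ) ≤ T
    · have h2 : (h : ℝ) ≤ (K : ℝ) ^ c := hh.2.trans (Real.rpow_le_rpow_of_exponent_le hKone (by linarith))
      have h3 : H₁ ≤ h := by
        have : (H₁ : ℝ) ≤ h := hHa.trans hh.1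
        exact_mod_cast this
      refine le_trans ?_ (hone K h h3 h2 k hk v)
      apply Nat.cast_le.2
      apply card_le_card
      intro m hm
      rw [mem_filter] at hm ⊢
      exact ⟨hm.1, ((hBd h m).1 hm.2).2.2⟩
    · have h2 : (Ioc v (v + K)).filter (fun m => Bd h m) = ∅ := by
        rw [filter_eq_empty_iff]
        intro m _ hm
        exact hh ⟨((hBd h m).1 hm).1, ((hBd h m).1 hm).2.1⟩
      rw [h2]
      simp only [card_empty, Nat.cast_zero]
      exact hE0 h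
  set B : ℕ → ℕ → Finset ℕ := fun h s => (Ioc u (u + K)).filter (fun n => Bd h (n + s * k)) ∪
        (Ioc u (u + K)).filter (fun n => s * k < n ∧ Bd h (n - s * k)) with hB
  have hBcard : ∀ h s : ℕ, ((B h s).card : ℝ) ≤ 2 * E h := by
    intro h s
    have e1 := shift_right (u := u) (K := K) (s := s * k) (Bd h)
    have e2 := shift_left (u := u) (K := K) (s := s * k) (Bd h)
    have e3 := hcount h (u + s * k)
    have e4 := hcount h (u - s * k)
    have e1' : (((Ioc u (u + K)).filter (fun n => Bd h (n + s * k))).card : ℝ) ≤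
        (((Ioc (u + s * k) (u + s * k + K)).filter (fun m => Bd h m)).card : ℝ) := Nat.cast_le.2 e1
    have e2' : (((Ioc u (u + K)).filter (fun n => s * k < n ∧ Bd h (n - s * k))).card : ℝ) ≤
        (((Ioc (u - s * k) (u - s * k + K)).filter (fun m => Bd h m)).card : ℝ) := Nat.cast_le.2 e2
    have e5 : ((B h s).card : ℝ) ≤
        (((Ioc u (u + K)).filter (fun n => Bd h (n + s * k))).card : ℝ) +
        (((Ioc u (u + K)).filter (fun n => s * k < n ∧ Bd h (n - s * k))).card : ℝ) := by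
      rw [hB]
      exact_mod_cast card_union_le _ _
    linarith
  have hsub : (Ioc u (u + K)).filter (fun n => ¬ Good δ M (c / 4) H K k n) ⊆
      ((range N).filter (fun h : ℕ => H ≤ (h : ℝ))).biUnion (fun h => (range (⌊R h⌋₊ + 1)).biUnion (fun s => B h s)) := by
    intro n hn
    rw [mem_filter] at hn
    obtain ⟨hn1, hn2⟩ := hn
    unfold Good at hn2
    push Not at hn2
    obtain ⟨m, h, hm1, hmn, hh1, hh2, habs, hh3⟩ := hn2
    have hBdm : Bd h m := (hBd h m).2 ⟨hh1, hh2, hh3⟩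
    rw [mem_biUnion]
    refine ⟨h, ?_, ?_⟩
    · rw [mem_filter, mem_range]
      exact ⟨hlt h T hh2, hh1⟩
    rw [mem_biUnion]
    rcases le_total n m with hle | hle
    · have hdvd : k ∣ m - n := (Nat.modEq_iff_dvd' hle).1 hmn.symm
      obtain ⟨s, hs⟩ := hdvd
      have hms : m = n + s * k := by
        have : m - n = s * k := by rw [hs, mul_comm]
        omega
      have hs1 : (s : ℝ) ≤ R h := by
        have h2 : (m : ℝ) - n = k * s := by
          rw [hms]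
          push_cast
          ring
        rw [h2, abs_of_nonneg (by positivity)] at habs
        exact le_of_mul_le_mul_left habs hk0
      refine ⟨s, mem_range.2 (hlt s _ hs1), ?_⟩
      rw [hB, mem_union]
      left
      rw [mem_filter]
      exact ⟨hn1, hms ▸ hBdm⟩
    · have hdvd : k ∣ n - m := (Nat.modEq_iff_dvd' hle).1 hmn
      obtain ⟨s, hs⟩ := hdvd
      have hms : n = m + s * k := by
        have : n - m = s * k := by rw [hs, mul_comm]
        omega
      have hs1 : (s : ℝ) ≤ R h := by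
        have h2 : (m : ℝ) - n = -(k * s) := by
          rw [hms]
          push_cast
          ring
        rw [h2, abs_neg, abs_of_nonneg (by positivity)] at habs
        exact le_of_mul_le_mul_left habs hk0
      refine ⟨s, mem_range.2 (hlt s _ hs1), ?_⟩
      rw [hB, mem_union]
      right
      rw [mem_filter]
      refine ⟨hn1, (show s * k < n by omega), ?_⟩
      have : n - s * k = m := by omega
      simp only [this]
      exact hBdm
  have hterm : ∀ h ∈ (range N).filter (fun h : ℕ => H ≤ (h : ℝ)),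
      (((range (⌊R h⌋₊ + 1)).biUnion (fun s => B h s)).card : ℝ) ≤
        K * Real.exp (-H ^ (1 / 5 : ℝ)) * ((h : ℝ) ^ 2)⁻¹ + 4 * (T * (K : ℝ) ^ (1 - c)) := by
    intro h hh
    rw [mem_filter, mem_range] at hh
    have hhH : H ≤ (h : ℝ) := hh.2
    have hh0 : 0 < (h : ℝ) := by linarith
    have s1 : (((range (⌊R h⌋₊ + 1)).biUnion (fun s => B h s)).card : ℝ) ≤
        ∑ s ∈ range (⌊R h⌋₊ + 1), 2 * E h := by
      have : (((range (⌊R h⌋₊ + 1)).biUnion (fun s => B h s)).card : ℝ) ≤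
          ∑ s ∈ range (⌊R h⌋₊ + 1), ((B h s).card : ℝ) := by exact_mod_cast card_biUnion_le
      exact this.trans (sum_le_sum fun s _ => hBcard h s)
    rw [sum_const, card_range, nsmul_eq_mul] at s1
    refine s1.trans ?_
    have s2 : ((⌊R h⌋₊ + 1 : ℕ) : ℝ) * (2 * E h) ≤ 2 * R h * (2 * E h) :=
      mul_le_mul_of_nonneg_right (hRle h) (by linarith [hE0 h])
    refine s2.trans ?_
    have s3 : 2 * R h * (2 * E h) = 4 * (R h * (K * Real.exp (-(5 * (h : ℝ) ^ (1 / 5 : ℝ))))) +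
        4 * (R h * (K : ℝ) ^ (1 - c)) := by
      rw [hE]
      ring
    rw [s3]
    apply add_le_add
    · have s4 : R h ≤ Real.exp (2 * (h : ℝ) ^ (1 / 5 : ℝ)) := min_le_left _ _
      have s5 : 4 * (R h * (K * Real.exp (-(5 * (h : ℝ) ^ (1 / 5 : ℝ))))) ≤
          4 * (Real.exp (2 * (h : ℝ) ^ (1 / 5 : ℝ)) * (K * Real.exp (-(5 * (h : ℝ) ^ (1 / 5 : ℝ))))) := by
        gcongr
      refine s5.trans ?_
      have s6 : Real.exp (2 * (h : ℝ) ^ (1 / 5 : ℝ)) * Real.exp (-(5 * (h : ℝ) ^ (1 / 5 : ℝ))) =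
          Real.exp (-(h : ℝ) ^ (1 / 5 : ℝ)) * (Real.exp (2 * (h : ℝ) ^ (1 / 5 : ℝ)))⁻¹ := by
        rw [← Real.exp_neg, ← Real.exp_add, ← Real.exp_add]
        congr 1
        ring
      have s7 : 4 * (Real.exp (2 * (h : ℝ) ^ (1 / 5 : ℝ)) * (K * Real.exp (-(5 * (h : ℝ) ^ (1 / 5 : ℝ))))) =
          K * Real.exp (-(h : ℝ) ^ (1 / 5 : ℝ)) * (4 * (Real.exp (2 * (h : ℝ) ^ (1 / 5 : ℝ)))⁻¹) := by
        rw [show (4 : ℝ) * (Real.exp (2 * (h : ℝ) ^ (1 / 5 : ℝ)) * (K * Real.exp (-(5 * (h : ℝ) ^ (1 / 5 : ℝ))))) =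
          4 * K * (Real.exp (2 * (h : ℝ) ^ (1 / 5 : ℝ)) * Real.exp (-(5 * (h : ℝ) ^ (1 / 5 : ℝ)))) by ring, s6]
        ring
      rw [s7]
      have s8 : 4 * (Real.exp (2 * (h : ℝ) ^ (1 / 5 : ℝ)))⁻¹ ≤ ((h : ℝ) ^ 2)⁻¹ := by
        have := expo (hHb.trans hhH)
        rw [← div_eq_mul_inv, div_le_iff₀ (Real.exp_pos _), inv_mul_eq_div, le_div_iff₀ (by positivity)]
        linarith
      have s9 : Real.exp (-(h : ℝ) ^ (1 / 5 : ℝ)) ≤ Real.exp (-H ^ (1 / 5 : ℝ)) := by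
        apply Real.exp_le_exp.2
        have := Real.rpow_le_rpow (by linarith) hhH (by norm_num : (0 : ℝ) ≤ 1 / 5)
        linarith
      exact mul_le_mul (mul_le_mul_of_nonneg_left s9 hK0.le) s8 (by positivity) (by positivity)
    · have s4 : R h ≤ T := min_le_right _ _
      gcongr
  have hcard : (((Ioc u (u + K)).filter (fun n => ¬ Good δ M (c / 4) H K k n)).card : ℝ) ≤
      ∑ h ∈ (range N).filter (fun h : ℕ => H ≤ (h : ℝ)),
        (K * Real.exp (-H ^ (1 / 5 : ℝ)) * ((h : ℝ) ^ 2)⁻¹ + 4 * (T * (K : ℝ) ^ (1 - c))) := by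
    have e1 := (card_le_card hsub).trans card_biUnion_le
    have e2 : (((Ioc u (u + K)).filter (fun n => ¬ Good δ M (c / 4) H K k n)).card : ℝ) ≤
        ∑ h ∈ (range N).filter (fun h : ℕ => H ≤ (h : ℝ)),
          (((range (⌊R h⌋₊ + 1)).biUnion (fun s => B h s)).card : ℝ) := by exact_mod_cast e1
    exact e2.trans (sum_le_sum hterm)
  refine hcard.trans ?_
  rw [sum_add_distrib, ← mul_sum]
  apply add_le_add
  · have e1 : ∑ h ∈ (range N).filter (fun h : ℕ => H ≤ (h : ℝ)), ((h : ℝ) ^ 2)⁻¹ ≤ 1 := by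
      have e2 : (range N).filter (fun h : ℕ => H ≤ (h : ℝ)) ⊆ Ioc 1 N := by
        intro h hh
        rw [mem_filter, mem_range] at hh
        rw [mem_Ioc]
        have : (1 : ℝ) < h := by linarith [hh.2]
        exact ⟨by exact_mod_cast this, by omega⟩
      refine (sum_le_sum_of_subset_of_nonneg e2 fun _ _ _ => by positivity).trans ?_
      have e3 := sum_Ioc_inv_sq_le_sub (α := ℝ) (k := 1) (n := N) one_ne_zero (by omega)
      refine e3.trans ?_
      have : (0 : ℝ) ≤ (N : ℝ)⁻¹ := by positivity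
      simp only [Nat.cast_one, inv_one]
      linarith
    calc K * Real.exp (-H ^ (1 / 5 : ℝ)) * ∑ h ∈ (range N).filter (fun h : ℕ => H ≤ (h : ℝ)), ((h : ℝ) ^ 2)⁻¹ ≤
        K * Real.exp (-H ^ (1 / 5 : ℝ)) * 1 := mul_le_mul_of_nonneg_left e1 (by positivity)
      _ = _ := mul_one _
  · rw [sum_const, nsmul_eq_mul]
    have e1 : (((range N).filter (fun h : ℕ => H ≤ (h : ℝ))).card : ℝ) ≤ N := by
      have := card_filter_le (range N) (fun h : ℕ => H ≤ (h : ℝ))
      rw [card_range] at this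
      exact_mod_cast this
    have hp : 0 < (K : ℝ) ^ (1 - c) := by positivity
    calc (((range N).filter (fun h : ℕ => H ≤ (h : ℝ))).card : ℝ) * (4 * (T * (K : ℝ) ^ (1 - c))) ≤
        (2 * T) * (4 * (T * (K : ℝ) ^ (1 - c))) :=
          mul_le_mul_of_nonneg_right (e1.trans hNle) (by positivity)
      _ = 8 * (T * T * (K : ℝ) ^ (1 - c)) := by ring
      _ ≤ T * (T * T * (K : ℝ) ^ (1 - c)) := mul_le_mul_of_nonneg_right h8 (by positivity)
      _ = (K : ℝ) ^ (1 - c / 4) := by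
          rw [hT, ← Real.rpow_add hK0, ← Real.rpow_add hK0, ← Real.rpow_add hK0]
          congr 1
          ring

end Pool.Agent.Helper51.PS.G2
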