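import Pool.Agent.Helper51.PS.G2
import Pool.Agent.Helper51.PS.Fin4

/-!
# Project PS, second round: primes near a point
-/

set_option autoImplicit false

open Finset Filter Topology
open scoped Classical

namespace Pool.Agent.Helper51.PS.G3

open Pool.Agent.Helper51.PS.Fin1 Pool.Agent.Helper51.PS.Fin2 Pool.Agent.Helper51.PS.Fin4 Pool.Agent.Helper51.PS.G2

/-- the exceptional positions -/
def Bad2 (δ c H : ℝ) (K k n : ℕ) : Prop :=
  ∃ x y : ℝ, y ≤ x ∧ k * H ≤ y ∧ y ≤ k * (K : ℝ) ^ c ∧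
    |x - n| ≤ k * (1 + min (Real.exp ((y / k) ^ (1 / 5 : ℝ))) ((K : ℝ) ^ c)) ∧
    δ * y / (Nat.totient k * Real.log (y / k)) < N x y k n

def S_POS2 : Prop := ∀ δ : ℝ, 0 < δ → ∃ c H₀ : ℝ, 0 < c ∧ c < 1 ∧ 80000 ^ 5 ≤ H₀ ∧ ∀ (K k : ℕ) (H : ℝ),
  H₀ ≤ H → 1 ≤ k → ∀ u : ℕ,
    (((Ioc u (u + K)).filter (fun n => Bad2 δ c H K k n)).card : ℝ) ≤
      K * Real.exp (-H ^ (1 / 5 : ℝ)) + (K : ℝ) ^ (1 - c)

lemma expo2 {t : ℝ} (ht : 80000 ^ 5 ≤ t) : 2 * t ≤ Real.exp (t ^ (1 / 5 : ℝ)) := by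
  have h1 := expo ht
  have h2 : Real.exp (2 * t ^ (1 / 5 : ℝ)) = Real.exp (t ^ (1 / 5 : ℝ)) ^ 2 := by
    rw [← Real.exp_nat_mul]
    norm_num
  rw [h2] at h1
  have h0 : 0 < t := lt_of_lt_of_le (by norm_num) ht
  nlinarith [Real.exp_pos (t ^ (1 / 5 : ℝ))]

theorem pos (h1 : S_UNI2) : S_POS2 := by
  intro δ hδ
  obtain ⟨M, c₁, H₁, hM, hc10, hc11, hH₁, huni⟩ := h1 (δ / 4) (by positivity)
  have hM0 : (0 : ℝ) < M := by exact_mod_cast (by omega : 0 < M)
  have hM2 : (2 : ℝ) ≤ M := by exact_mod_cast hM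
  set c : ℝ := min (c₁ / 2) (1 / (8 * M)) with hc
  have hc0 : 0 < c := lt_min (by positivity) (by positivity)
  have hca : c ≤ c₁ / 2 := min_le_left _ _
  have hcb : c ≤ 1 / (8 * M) := min_le_right _ _
  have hc16 : c ≤ 1 / 16 := by
    refine hcb.trans ?_
    apply one_div_le_one_div_of_le (by norm_num)
    linarith
  have hcM : c * M ≤ 1 / 8 := by
    calc c * M ≤ 1 / (8 * M) * M := mul_le_mul_of_nonneg_right hcb hM0.le
      _ = 1 / 8 := by field_simp
  refine ⟨c, max (max H₁ (80000 ^ 5)) (max ((4 / δ) ^ 2) (2 ^ M + 4)), hc0, by linarith,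
    le_trans (le_max_right _ _) (le_max_left _ _), ?_⟩
  intro K k H hH hk u
  have hHa : H₁ ≤ H := le_trans (le_trans (le_max_left _ _) (le_max_left _ _)) hH
  have hHb : (80000 ^ 5 : ℝ) ≤ H := le_trans (le_trans (le_max_right _ _) (le_max_left _ _)) hH
  have hHc : (4 / δ) ^ 2 ≤ H := le_trans (le_trans (le_max_left _ _) (le_max_right _ _)) hH
  have hHd : 2 ^ M + 4 ≤ H := le_trans (le_trans (le_max_right _ _) (le_max_right _ _)) hH
  have h2M : (0 : ℝ) < 2 ^ M := by positivity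
  have hk0 : (0 : ℝ) < k := by exact_mod_cast hk
  by_cases hKH : (K : ℝ) ^ c < H
  · have h2 : (Ioc u (u + K)).filter (fun n => Bad2 δ c H K k n) = ∅ := by
      rw [filter_eq_empty_iff]
      rintro n _ ⟨x, y, _, hy1, hy2, _⟩
      have : k * (K : ℝ) ^ c < k * H := mul_lt_mul_of_pos_left hKH hk0
      linarith
    rw [h2]
    simp only [card_empty, Nat.cast_zero]
    positivity
  push Not at hKH
  have hKne : K ≠ 0 := by
    rintro rfl
    rw [Nat.cast_zero, Real.zero_rpow hc0.ne'] at hKH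
    linarith
  have hKone : (1 : ℝ) ≤ K := by exact_mod_cast (by omega : 1 ≤ K)
  have hK0 : (0 : ℝ) < K := by linarith
  set T : ℝ := (K : ℝ) ^ c with hT
  have hT4 : 4 ≤ T := by linarith
  have hTT : T * T ≤ (K : ℝ) ^ c₁ := by
    rw [hT, ← Real.rpow_add hK0]
    exact Real.rpow_le_rpow_of_exponent_le hKone (by linarith)
  have hTT8 : T * T ≤ (K : ℝ) ^ (1 / 8 : ℝ) := by
    rw [hT, ← Real.rpow_add hK0]
    exact Real.rpow_le_rpow_of_exponent_le hKone (by linarith)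
  have h18 : 2 ^ M + 4 ≤ (K : ℝ) ^ (1 / 8 : ℝ) := by
    refine hHd.trans (hKH.trans ?_)
    exact Real.rpow_le_rpow_of_exponent_le hKone (by linarith)
  have hpow : (2 * T) ^ M < (K : ℝ) ^ (1 / 2 : ℝ) := by
    have e1 : T ^ M ≤ (K : ℝ) ^ (1 / 8 : ℝ) := by
      rw [hT, ← Real.rpow_natCast, ← Real.rpow_mul hK0.le]
      exact Real.rpow_le_rpow_of_exponent_le hKone hcM
    calc (2 * T) ^ M = 2 ^ M * T ^ M := mul_pow _ _ _
      _ ≤ 2 ^ M * (K : ℝ) ^ (1 / 8 : ℝ) := mul_le_mul_of_nonneg_left e1 (by positivity)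
      _ < (K : ℝ) ^ (1 / 8 : ℝ) * (K : ℝ) ^ (1 / 8 : ℝ) := by
          apply mul_lt_mul_of_pos_right _ (by positivity)
          linarith
      _ = (K : ℝ) ^ (1 / 4 : ℝ) := by
          rw [← Real.rpow_add hK0]
          norm_num
      _ ≤ _ := Real.rpow_le_rpow_of_exponent_le hKone (by norm_num)
  -- the exceptional set
  have hsub : (Ioc u (u + K)).filter (fun n => Bad2 δ c H K k n) ⊆
      (Ioc u (u + K)).filter (fun n => ¬ Good (δ / 4) M c₁ H K k n) ∪ Icc 1 ⌊(K : ℝ) ^ (3 / 4 : ℝ)⌋₊ := by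
    intro n hn
    rw [mem_filter] at hn
    obtain ⟨hn1, x, y, hyx, hy1, hy2, hxn, hy3⟩ := hn
    rw [mem_union, mem_filter]
    by_cases hsmall : (n : ℝ) ≤ (K : ℝ) ^ (3 / 4 : ℝ)
    · right
      rw [mem_Icc]
      rw [mem_Ioc] at hn1
      exact ⟨by omega, Nat.le_floor hsmall⟩
    left
    refine ⟨hn1, fun hgood => ?_⟩
    push Not at hsmall
    have hy0 : 0 ≤ x - y := by linarith
    obtain ⟨m, hm1, hm2, hmn⟩ := exists_rep ⌊x - y⌋₊ k n hk
    have hm3 : x - y < m := by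
      rw [← Nat.floor_lt hy0]
      exact hm1
    have hm4 : (m : ℝ) ≤ x - y + k := by
      have h2 : (m : ℝ) ≤ ⌊x - y⌋₊ + k := by exact_mod_cast hm2
      have h3 := Nat.floor_le hy0
      linarith
    set t : ℝ := y / k with ht
    have hyt : y = k * t := by
      rw [ht]
      field_simp
    have ht1 : H ≤ t := by
      rw [ht, le_div_iff₀ hk0]
      linarith
    have ht2 : t ≤ T := by
      rw [ht, div_le_iff₀ hk0]
      linarith
    have ht5 : (80000 ^ 5 : ℝ) ≤ t := hHb.trans ht1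
    have ht0 : 0 < t := lt_of_lt_of_le (by norm_num) ht5
    set E : ℝ := Real.exp (t ^ (1 / 5 : ℝ)) with hE
    have hE2 : 2 * t ≤ E := expo2 ht5
    have ht4 : 4 ≤ t := by linarith
    have hmabs : |(m : ℝ) - n| ≤ k * (2 + t + min E T) := by
      have h2 := abs_le.1 hxn
      rw [abs_le]
      constructor
      · have : k * (2 + t + min E T) = k * (1 + min E T) + y + k := by
          rw [hyt]
          ring
        rw [this]
        linarith [h2.1, h2.2]
      · have : k * (2 + t + min E T) = k * (1 + min E T) + y + k := by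
          rw [hyt]
          ring
        have hy' : 0 ≤ y := by
          rw [hyt]
          positivity
        rw [this]
        linarith [h2.1, h2.2]
    have hq : 2 + 2 * T ≤ T * T := by nlinarith
    have hmin : 2 + t + min E T ≤ 2 + 2 * T := by linarith [min_le_right E T]
    set h : ℕ := ⌈t⌉₊ with hh
    have hh1 : t ≤ h := Nat.le_ceil t
    have hh2 : (h : ℝ) ≤ t + 1 := (Nat.ceil_lt_add_one (by linarith)).le
    have hhT : (h : ℝ) ≤ 2 * T := by linarith
    have hhM : ((h ^ M : ℕ) : ℝ) < (K : ℝ) ^ (1 / 2 : ℝ) := by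
      push_cast
      exact lt_of_le_of_lt (pow_le_pow_left₀ (by positivity) hhT M) hpow
    have hmin2 : 2 + t + min E T ≤ min (Real.exp (2 * (h : ℝ) ^ (1 / 5 : ℝ))) ((K : ℝ) ^ c₁) := by
      apply le_min
      · have e1 : Real.exp (2 * t ^ (1 / 5 : ℝ)) = E * E := by
          rw [hE, ← Real.exp_add]
          congr 1
          ring
        have e2 : Real.exp (2 * t ^ (1 / 5 : ℝ)) ≤ Real.exp (2 * (h : ℝ) ^ (1 / 5 : ℝ)) := by
          apply Real.exp_le_exp.2
          have := Real.rpow_le_rpow ht0.le hh1 (by norm_num : (0 : ℝ) ≤ 1 / 5)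
          linarith
        refine le_trans ?_ e2
        rw [e1]
        have e3 : min E T ≤ E := min_le_left _ _
        nlinarith
      · linarith
    have hg := hgood m h (by omega) hmn (ht1.trans hh1) (by nlinarith)
      (hmabs.trans (mul_le_mul_of_nonneg_left hmin2 hk0.le))
    have hB : ∀ p : ℕ, p.Prime → m + k ≤ p → h ^ M < p := by
      intro p _ hp
      have hp' : (m : ℝ) + k ≤ p := by exact_mod_cast hp
      have hm0 : (0 : ℝ) ≤ m := Nat.cast_nonneg m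
      have : ((h ^ M : ℕ) : ℝ) < p := by
        refine hhM.trans_le ?_
        by_cases hkk : (K : ℝ) ^ (1 / 2 : ℝ) ≤ k
        · linarith
        · push Not at hkk
          have e1 : (m : ℝ) - n ≥ -(k * (2 + t + min E T)) := (abs_le.1 hmabs).1
          have e2 : k * (2 + t + min E T) ≤ (K : ℝ) ^ (1 / 2 : ℝ) * (K : ℝ) ^ (1 / 8 : ℝ) := by
            have e0 : 0 ≤ 2 + t + min E T := by
              have : 0 ≤ min E T := le_min (by positivity) (by linarith)
              linarith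
            exact mul_le_mul hkk.le (hmin.trans (hq.trans hTT8)) e0 (by positivity)
          have e3 : (K : ℝ) ^ (3 / 4 : ℝ) = (K : ℝ) ^ (1 / 2 : ℝ) * (K : ℝ) ^ (1 / 8 : ℝ) * (K : ℝ) ^ (1 / 8 : ℝ) := by
            rw [← Real.rpow_add hK0, ← Real.rpow_add hK0]
            norm_num
          have e4 : 2 ≤ (K : ℝ) ^ (1 / 8 : ℝ) := by linarith
          have e6 : (K : ℝ) ^ (1 / 2 : ℝ) * (K : ℝ) ^ (1 / 8 : ℝ) * 2 ≤
              (K : ℝ) ^ (1 / 2 : ℝ) * (K : ℝ) ^ (1 / 8 : ℝ) * (K : ℝ) ^ (1 / 8 : ℝ) :=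
            mul_le_mul_of_nonneg_left e4 (by positivity)
          have e7 : (K : ℝ) ^ (1 / 2 : ℝ) * 1 ≤ (K : ℝ) ^ (1 / 2 : ℝ) * (K : ℝ) ^ (1 / 8 : ℝ) :=
            mul_le_mul_of_nonneg_left (by linarith) (by positivity)
          linarith
      exact_mod_cast this
    have hN := N_le hk hyx hm1 hm2 hmn hh1 hB
    have hN' : (N x y k n : ℝ) ≤ 1 + cnt h (h ^ M) k m := by exact_mod_cast hN
    have hfin := final (h := h) hδ hk ht (hHc.trans ht1) (by linarith) hh1 hh2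
    linarith
  have hcard := (card_le_card hsub).trans (card_union_le _ _)
  refine (Nat.cast_le.2 hcard).trans ?_
  push_cast
  rw [Nat.card_Icc, Nat.add_sub_cancel]
  have f1 := huni K k H hHa hk u
  have f2 : (⌊(K : ℝ) ^ (3 / 4 : ℝ)⌋₊ : ℝ) ≤ (K : ℝ) ^ (3 / 4 : ℝ) := Nat.floor_le (by positivity)
  have f3 : (K : ℝ) ^ (1 - c₁) ≤ (K : ℝ) ^ (1 - 2 * c) := Real.rpow_le_rpow_of_exponent_le hKone (by linarith)
  have f4 : (K : ℝ) ^ (3 / 4 : ℝ) ≤ (K : ℝ) ^ (1 - 2 * c) := Real.rpow_le_rpow_of_exponent_le hKone (by linarith)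
  have f5 : 2 * (K : ℝ) ^ (1 - 2 * c) ≤ (K : ℝ) ^ (1 - c) := by
    calc 2 * (K : ℝ) ^ (1 - 2 * c) ≤ T * (K : ℝ) ^ (1 - 2 * c) :=
          mul_le_mul_of_nonneg_right (by linarith) (by positivity)
      _ = _ := by
        rw [hT, ← Real.rpow_add hK0]
        congr 1
        ring
  linarith

end Pool.Agent.Helper51.PS.G3
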