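import Pool.Agent.Helper51.PS.G3
import Pool.Agent.Helper51.PS.Fin5
import Pool.Agent.Helper51.PS.SEL

/-!
# Project PS, second round: residue classes, combination with the library
-/

set_option autoImplicit false

open Finset Filter Topology
open scoped Classical

namespace Pool.Agent.Helper51.PS.G4

open Pool.Agent.Helper51.PS.Fin1 Pool.Agent.Helper51.PS.Fin2 Pool.Agent.Helper51.PS.Fin4 Pool.Agent.Helper51.PS.G2
  Pool.Agent.Helper51.PS.G3

def S_CLS2 : Prop := ∀ δ : ℝ, 0 < δ → ∃ c H₀ : ℝ, 0 < c ∧ c < 1 ∧ 80000 ^ 5 ≤ H₀ ∧ ∀ (k : ℕ) (H : ℝ), 1 ≤ k →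
  H₀ ≤ H → ∀ u : ℕ,
  (((range k).filter (fun l : ℕ => ∃ x y : ℝ, y ≤ x ∧ k * H ≤ y ∧ y ≤ (k : ℝ) ^ (1 + c) ∧
    |x - u| ≤ k * min (Real.exp ((y / k) ^ (1 / 5 : ℝ))) ((k : ℝ) ^ c) ∧
    δ * y / (Nat.totient k * Real.log (y / k)) < N x y k l)).card : ℝ) ≤
    k * Real.exp (-H ^ (1 / 5 : ℝ)) + (k : ℝ) ^ (1 - c)

theorem cls (h1 : S_POS2) : S_CLS2 := by
  intro δ hδ
  obtain ⟨c, H₀, hc0, hc1, hH₀, hpos⟩ := h1 δ hδ
  refine ⟨c, H₀, hc0, hc1, hH₀, ?_⟩
  intro k H hk hH u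
  have hk0 : (0 : ℝ) < k := by exact_mod_cast hk
  have h1c : (k : ℝ) ^ (1 + c) = k * (k : ℝ) ^ c := by
    rw [Real.rpow_add hk0, Real.rpow_one]
  refine le_trans ?_ (hpos k k H hH hk u)
  apply Nat.cast_le.2
  choose f hf1 hf2 hf3 using fun l : ℕ => exists_rep u k l hk
  apply card_le_card_of_injOn f
  · intro l hl
    rw [mem_coe, mem_filter] at hl ⊢
    obtain ⟨_, x, y, hyx, hy1, hy2, hxu, hy3⟩ := hl
    refine ⟨mem_Ioc.2 ⟨hf1 l, hf2 l⟩, x, y, hyx, hy1, by rw [← h1c]; exact hy2, ?_, ?_⟩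
    · have e1 : (u : ℝ) < f l := by exact_mod_cast hf1 l
      have e2 : (f l : ℝ) ≤ u + k := by exact_mod_cast hf2 l
      have e3 := abs_le.1 hxu
      have e4 : k * (1 + min (Real.exp ((y / k) ^ (1 / 5 : ℝ))) ((k : ℝ) ^ c)) =
          k * min (Real.exp ((y / k) ^ (1 / 5 : ℝ))) ((k : ℝ) ^ c) + k := by ring
      rw [e4, abs_le]
      constructor
      · linarith [e3.1, e3.2]
      · linarith [e3.1, e3.2]
    · have : N x y k (f l) = N x y k l := by
        unfold N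
        congr 1
        ext p
        exact ⟨fun h => ⟨h.1, h.2.1, h.2.2.1, h.2.2.2.trans (hf3 l)⟩,
          fun h => ⟨h.1, h.2.1, h.2.2.1, h.2.2.2.trans (hf3 l).symm⟩⟩
      rw [this]
      exact hy3
  · intro a ha b hb hab
    rw [mem_coe, mem_filter, mem_range] at ha hb
    have h3 : a ≡ b [MOD k] := (hf3 a).symm.trans (hab ▸ hf3 b)
    unfold Nat.ModEq at h3
    rwa [Nat.mod_eq_of_lt ha.1, Nat.mod_eq_of_lt hb.1] at h3

/-- all but few classes, arbitrary intervals, the whole range -/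
def S_ALL2 : Prop := ∀ A : ℝ, ∃ δ c H₀ : ℝ, 0 < δ ∧ δ ≤ 1 ∧ 0 < c ∧ c < 1 ∧ 80000 ^ 5 ≤ H₀ ∧ ∃ k₀ : ℕ, ∀ k : ℕ, k₀ ≤ k →
  ∀ x y : ℝ, k * H₀ ≤ y → y ≤ (k : ℝ) ^ A → y ≤ x →
  (((range k).filter (fun l => l.Coprime k ∧
    (2 - δ) * y / (Nat.totient k * Real.log (y / k)) ≤ N x y k l)).card : ℝ) ≤
    k * Real.exp (-(y / k) ^ (1 / 5 : ℝ)) + (k : ℝ) ^ (1 - c)

theorem all (h1 : S_CLS2) : S_ALL2 := by
  intro A
  obtain ⟨c₁, H₀, hc10, hc11, hH₀, hcls⟩ := h1 (1 / 2) (by norm_num)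
  obtain ⟨δ, c₂, hδ, hc2, k₂, hlib⟩ :=
    Pool.Agent.Results.MP_26a8c3_nt.AlmostAllClasses.result.1 c₁ A hc10
  refine ⟨min δ 1, min c₁ c₂, H₀, lt_min hδ one_pos, min_le_right _ _, lt_min hc10 hc2,
    lt_of_le_of_lt (min_le_left _ _) hc11, hH₀, max k₂ 3, ?_⟩
  intro k hk x y hy1 hy2 hyx
  have hkb : k₂ ≤ k := le_trans (le_max_left _ _) hk
  have hk3 : 3 ≤ k := le_trans (le_max_right _ _) hk
  have hk0 : (0 : ℝ) < k := by exact_mod_cast (by omega : 0 < k)
  have hkone : (1 : ℝ) ≤ k := by exact_mod_cast (by omega : 1 ≤ k)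
  have hyk : H₀ ≤ y / k := by
    rw [le_div_iff₀ hk0]
    linarith
  have hyk2 : 2 ≤ y / k := le_trans (by norm_num) (hH₀.trans hyk)
  have hy0 : 0 < y := by
    have : 0 < y / k := by linarith
    exact (div_pos_iff_of_pos_right hk0).1 this
  have hφ0 : (0 : ℝ) < Nat.totient k := by exact_mod_cast Nat.totient_pos.2 (by omega)
  have hlog : 0 < Real.log (y / k) := Real.log_pos (by linarith)
  have hB : 0 < y / (Nat.totient k * Real.log (y / k)) := by positivity
  have hexp : 0 ≤ k * Real.exp (-(y / k) ^ (1 / 5 : ℝ)) := by positivity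
  by_cases hcase : y ≤ (k : ℝ) ^ (1 + c₁)
  · refine le_trans ?_ (le_trans (hcls k (y / k) (by omega) hyk ⌊x⌋₊) (add_le_add le_rfl
      (Real.rpow_le_rpow_of_exponent_le hkone (by linarith [min_le_left c₁ c₂]))))
    apply Nat.cast_le.2
    apply card_le_card
    intro l hl
    rw [mem_filter] at hl ⊢
    refine ⟨hl.1, x, y, hyx, ?_, hcase, ?_, ?_⟩
    · apply le_of_eq
      field_simp
    · have hx0 : 0 ≤ x := by linarith
      have e1 := Nat.floor_le hx0
      have e2 := Nat.lt_floor_add_one x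
      have e3 : 1 ≤ (k : ℝ) ^ c₁ := Real.one_le_rpow hkone hc10.le
      have e4 : 1 ≤ Real.exp ((y / k) ^ (1 / 5 : ℝ)) := by
        rw [← Real.exp_zero]
        apply Real.exp_le_exp.2
        positivity
      have e5 : 1 ≤ k * min (Real.exp ((y / k) ^ (1 / 5 : ℝ))) ((k : ℝ) ^ c₁) := by
        have := le_min e4 e3
        nlinarith
      rw [abs_le]
      constructor <;> linarith
    · refine lt_of_lt_of_le ?_ hl.2.2
      rw [mul_div_assoc, mul_div_assoc]
      apply mul_lt_mul_of_pos_right _ hB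
      linarith [min_le_right δ 1]
  · push Not at hcase
    have h2 := hlib k hkb x y hcase.le hy2 hyx
    refine le_trans ?_ ((h2.trans (Real.rpow_le_rpow_of_exponent_le hkone (by linarith [min_le_right c₁ c₂]))).trans
      (le_add_of_nonneg_left hexp))
    rw [← Set.ncard_coe_finset]
    apply Nat.cast_le.2
    apply Set.ncard_le_ncard
    · intro l hl
      rw [mem_coe, mem_filter, mem_range] at hl
      refine ⟨hl.1, hl.2.1, ?_⟩
      refine le_trans ?_ hl.2.2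
      rw [mul_div_assoc, mul_div_assoc]
      apply mul_le_mul_of_nonneg_right _ hB.le
      linarith [min_le_left δ 1]
    · exact (Set.finite_lt_nat k).subset fun l hl => hl.1

lemma prod_ge (S : Finset ℕ) (hS : ∀ p ∈ S, 2 ≤ p) : 1 / ((S.card : ℝ) + 1) ≤ ∏ p ∈ S, (1 - (p : ℝ)⁻¹) := by
  induction S using Finset.induction_on_max with
  | empty => simp
  | insert a s hlt ih =>
    have has : a ∉ s := fun h => lt_irrefl a (hlt a h)
    rw [prod_insert has, card_insert_of_notMem has]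
    have ih' := ih fun p hp => hS p (mem_insert_of_mem hp)
    have hcard : s.card + 2 ≤ a := by
      have h1 : s ⊆ Ico 2 a := fun p hp => mem_Ico.2 ⟨hS p (mem_insert_of_mem hp), hlt p hp⟩
      have h2 := card_le_card h1
      rw [Nat.card_Ico] at h2
      have h3 := hS a (mem_insert_self a s)
      omega
    have hr : ((s.card : ℝ) + 2) ≤ a := by exact_mod_cast hcard
    have hs0 : (0 : ℝ) ≤ s.card := Nat.cast_nonneg _
    have h4 : ((s.card : ℝ) + 1) / (s.card + 2) ≤ 1 - (a : ℝ)⁻¹ := by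
      have h5 : (a : ℝ)⁻¹ ≤ ((s.card : ℝ) + 2)⁻¹ := inv_anti₀ (by linarith) hr
      have h6 : ((s.card : ℝ) + 1) / (s.card + 2) = 1 - ((s.card : ℝ) + 2)⁻¹ := by
        field_simp
        ring
      linarith
    push_cast
    calc 1 / ((s.card : ℝ) + 1 + 1) = ((s.card : ℝ) + 1) / (s.card + 2) * (1 / (s.card + 1)) := by
          field_simp
          ring
      _ ≤ (1 - (a : ℝ)⁻¹) * ∏ p ∈ s, (1 - (p : ℝ)⁻¹) :=
          mul_le_mul h4 ih' (by positivity) (le_trans (by positivity) h4)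

lemma totient_ge {k : ℕ} (hk : 3 ≤ k) : (k : ℝ) ≤ Nat.totient k * (3 * Real.log k) := by
  have hk0 : (0 : ℝ) < k := by exact_mod_cast (by omega : 0 < k)
  have h1 := Pool.Agent.Helper51.PS.SEL.totient_div k (by omega)
  have h2 := prod_ge k.primeFactors fun p hp => (Nat.prime_of_mem_primeFactors hp).two_le
  rw [← h1] at h2
  have h3 : 2 ^ k.primeFactors.card ≤ k := by
    calc 2 ^ k.primeFactors.card = ∏ _p ∈ k.primeFactors, 2 := by rw [prod_const]
      _ ≤ ∏ p ∈ k.primeFactors, p := prod_le_prod' fun p hp => (Nat.prime_of_mem_primeFactors hp).two_le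
      _ ≤ k := Nat.le_of_dvd (by omega) (Nat.prod_primeFactors_dvd k)
  have h4 : (k.primeFactors.card : ℝ) * Real.log 2 ≤ Real.log k := by
    rw [← Real.log_pow]
    apply Real.log_le_log (by positivity)
    exact_mod_cast h3
  have hl2 : 1 / 2 ≤ Real.log 2 := by linarith [Real.log_two_gt_d9]
  have hlk : 1 ≤ Real.log k := by
    rw [Real.le_log_iff_exp_le hk0]
    have : (3 : ℝ) ≤ k := by exact_mod_cast hk
    linarith [Real.exp_one_lt_d9]
  have h5 : (k.primeFactors.card : ℝ) + 1 ≤ 3 * Real.log k := by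
    have : (0 : ℝ) ≤ k.primeFactors.card := Nat.cast_nonneg _
    nlinarith
  have h6 : 0 < (k.primeFactors.card : ℝ) + 1 := by positivity
  have hφ0 : (0 : ℝ) ≤ Nat.totient k := Nat.cast_nonneg _
  rw [div_le_div_iff₀ h6 hk0, one_mul] at h2
  exact h2.trans (mul_le_mul_of_nonneg_left h5 hφ0)

/-- all `y > k` -/
def S_RNG : Prop := ∀ A : ℝ, ∃ δ : ℝ, 0 < δ ∧ ∃ k₀ : ℕ, ∀ k : ℕ, k₀ ≤ k →
  ∀ x y : ℝ, k < y → y ≤ (k : ℝ) ^ A → y ≤ x →
  (((range k).filter (fun l => l.Coprime k ∧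
    (2 - δ) * y / (Nat.totient k * Real.log (y / k)) ≤ N x y k l)).card : ℝ) ≤
    Nat.totient k * (Real.log (Real.log k) / Real.log k)

theorem rng (h1 : S_ALL2) (hF : S_FST) : S_RNG := by
  intro A
  obtain ⟨δ, c, H₀, hδ, hδ1, hc0, hc1, hH₀, k₁, hall⟩ := h1 A
  obtain ⟨C, hC, hfst⟩ := hF
  have hH₀0 : 0 < H₀ := lt_of_lt_of_le (by norm_num) hH₀
  have hlogk : Tendsto (fun k : ℕ => Real.log k) atTop atTop :=
    Real.tendsto_log_atTop.comp tendsto_natCast_atTop_atTop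
  have hloglog : Tendsto (fun k : ℕ => Real.log (Real.log k)) atTop atTop := Real.tendsto_log_atTop.comp hlogk
  -- conditions for `w = log log k`
  obtain ⟨Z₁, hZ₁, hw⟩ := log_pow_le (5 * C) 1 1 (by norm_num)
  have e1 : ∀ᶠ k : ℕ in atTop, max 12 H₀ ≤ Real.log (Real.log k) := hloglog.eventually_ge_atTop _
  have e2 : ∀ᶠ w : ℝ in atTop, C * (5 * Real.log (2 * w)) ≤ w := by
    have h2 : Tendsto (fun w : ℝ => Real.log (2 * w) / (2 * w)) atTop (𝓝 0) := by
      have h3 : Tendsto (fun x : ℝ => Real.log x / x) atTop (𝓝 0) := by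
        have := Real.tendsto_pow_log_div_mul_add_atTop 1 0 1 one_ne_zero
        simpa using this
      exact h3.comp (tendsto_id.const_mul_atTop (by norm_num : (0 : ℝ) < 2))
    have h3 : ∀ᶠ w : ℝ in atTop, Real.log (2 * w) / (2 * w) < 1 / (10 * C) :=
      h2.eventually (gt_mem_nhds (by positivity))
    filter_upwards [h3, eventually_gt_atTop 0] with w hw1 hw2
    rw [div_lt_div_iff₀ (by positivity) (by positivity)] at hw1
    nlinarith
  have e3 := hloglog.eventually e2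
  obtain ⟨Z₂, hZ₂, hz⟩ := log_pow_le 1 2 c hc0
  obtain ⟨k₂, hk₂⟩ := eventually_atTop.1 (e1.and e3)
  refine ⟨δ, hδ, max (max k₁ k₂) (max Z₂ 3), ?_⟩
  intro k hk x y hky hyA hyx
  have hka : k₁ ≤ k := le_trans (le_trans (le_max_left _ _) (le_max_left _ _)) hk
  have hkb : k₂ ≤ k := le_trans (le_trans (le_max_right _ _) (le_max_left _ _)) hk
  have hkc : Z₂ ≤ k := le_trans (le_trans (le_max_left _ _) (le_max_right _ _)) hk
  have hk3 : 3 ≤ k := le_trans (le_trans (le_max_right _ _) (le_max_right _ _)) hk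
  have hk0 : (0 : ℝ) < k := by exact_mod_cast (by omega : 0 < k)
  have hkone : (1 : ℝ) ≤ k := by exact_mod_cast (by omega : 1 ≤ k)
  obtain ⟨g1, g2⟩ := hk₂ k hkb
  set ℓ : ℝ := Real.log k with hℓ
  set w : ℝ := Real.log ℓ with hw'
  have hw12 : 12 ≤ w := le_trans (le_max_left _ _) g1
  have hwH : H₀ ≤ w := le_trans (le_max_right _ _) g1
  have hℓ1 : 1 ≤ ℓ := by
    by_contra hlt
    push Not at hlt
    have h0 : 0 ≤ ℓ := Real.log_natCast_nonneg k
    have := Real.log_nonpos h0 hlt.le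
    linarith
  have hℓ0 : 0 < ℓ := by linarith
  have hexpw : Real.exp w = ℓ := Real.exp_log hℓ0
  have hφ0 : (0 : ℝ) < Nat.totient k := by exact_mod_cast Nat.totient_pos.2 (by omega)
  have hy0 : 0 < y := by linarith
  have ht1 : 1 < y / k := by
    rw [one_lt_div hk0]
    exact hky
  have hlog : 0 < Real.log (y / k) := Real.log_pos ht1
  have hB : 0 < y / (Nat.totient k * Real.log (y / k)) := by positivity
  by_cases hcase : y / k ≤ (2 * w) ^ 5
  · have h2 := hfst k (by omega) x y hky hyx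
    have h3 : (((range k).filter (fun l => l.Coprime k ∧
        (2 - δ) * y / (Nat.totient k * Real.log (y / k)) ≤ N x y k l)).card : ℝ) ≤
        (((range k).filter (fun l : ℕ => y / (Nat.totient k * Real.log (y / k)) ≤
        ({p : ℕ | p.Prime ∧ x - y < p ∧ (p : ℝ) ≤ x ∧ p ≡ l [MOD k]}.ncard : ℝ))).card : ℝ) := by
      apply Nat.cast_le.2
      apply card_le_card
      intro l hl
      rw [mem_filter] at hl ⊢
      refine ⟨hl.1, le_trans ?_ hl.2.2⟩
      rw [mul_div_assoc]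
      apply le_mul_of_one_le_left hB.le
      linarith
    refine h3.trans (h2.trans ?_)
    have h4 : Real.log (y / k) ≤ 5 * Real.log (2 * w) := by
      have := Real.log_le_log (by linarith) hcase
      rw [Real.log_pow] at this
      exact_mod_cast this
    have h5 : ℓ ≤ Real.log y := Real.log_le_log hk0 hky.le
    calc C * (Nat.totient k * Real.log (y / k) / Real.log y) ≤ C * (Nat.totient k * (5 * Real.log (2 * w)) / ℓ) := by
          apply mul_le_mul_of_nonneg_left _ hC.le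
          apply div_le_div₀ _ _ hℓ0 h5
          · have : 0 ≤ 5 * Real.log (2 * w) := hlog.le.trans h4
            positivity
          · exact mul_le_mul_of_nonneg_left h4 hφ0.le
      _ = Nat.totient k * ((C * (5 * Real.log (2 * w))) / ℓ) := by ring
      _ ≤ Nat.totient k * (w / ℓ) := by
          apply mul_le_mul_of_nonneg_left _ hφ0.le
          exact div_le_div_of_nonneg_right g2 hℓ0.le
  · push Not at hcase
    have hw5 : H₀ ≤ y / k := by
      have : w ≤ (2 * w) ^ 5 := by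
        calc w ≤ 2 * w := by linarith
          _ = (2 * w) ^ 1 := (pow_one _).symm
          _ ≤ _ := pow_le_pow_right₀ (by linarith) (by norm_num)
      linarith
    have h2 := hall k hka x y (by rw [le_div_iff₀ hk0] at hw5; linarith) hyA hyx
    refine h2.trans ?_
    have h3 : 2 * w ≤ (y / k) ^ (1 / 5 : ℝ) := by
      have h4 : ((2 * w) ^ 5) ^ (1 / 5 : ℝ) = 2 * w := by
        rw [← Real.rpow_natCast, ← Real.rpow_mul (by linarith)]
        norm_num
      rw [← h4]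
      exact Real.rpow_le_rpow (by positivity) hcase.le (by norm_num)
    have h4 : Real.exp (-(y / k) ^ (1 / 5 : ℝ)) ≤ 1 / ℓ ^ 2 := by
      calc Real.exp (-(y / k) ^ (1 / 5 : ℝ)) ≤ Real.exp (-(2 * w)) := Real.exp_le_exp.2 (by linarith)
        _ = 1 / ℓ ^ 2 := by
          rw [Real.exp_neg, ← hexpw, ← Real.exp_nat_mul, one_div]
          norm_num
    have h5 : (k : ℝ) ^ (1 - c) ≤ k * (1 / ℓ ^ 2) := by
      have h6 := hz k hkc
      rw [one_mul] at h6
      rw [Real.rpow_sub hk0, Real.rpow_one, mul_one_div]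
      exact div_le_div_of_nonneg_left hk0.le (by positivity) h6
    have h6 : k * Real.exp (-(y / k) ^ (1 / 5 : ℝ)) ≤ k * (1 / ℓ ^ 2) := mul_le_mul_of_nonneg_left h4 hk0.le
    have h7 : (k : ℝ) ≤ Nat.totient k * (3 * ℓ) := totient_ge hk3
    calc k * Real.exp (-(y / k) ^ (1 / 5 : ℝ)) + (k : ℝ) ^ (1 - c) ≤ 2 * (k * (1 / ℓ ^ 2)) := by linarith
      _ ≤ 2 * (Nat.totient k * (3 * ℓ) * (1 / ℓ ^ 2)) := by
          apply mul_le_mul_of_nonneg_left _ (by norm_num)
          exact mul_le_mul_of_nonneg_right h7 (by positivity)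
      _ = Nat.totient k * (6 / ℓ) := by
          field_simp
          ring
      _ ≤ Nat.totient k * (w / ℓ) := by
          apply mul_le_mul_of_nonneg_left _ hφ0.le
          exact div_le_div_of_nonneg_right (by linarith) hℓ0.le

/-- all but few positions, all intervals, every modulus -/
def S_INT2 : Prop := ∀ ε : ℝ, 0 < ε → ε ≤ 1 / 2 → ∃ c H₀ : ℝ, 0 < c ∧ 0 < H₀ ∧ ∃ X₀ : ℕ, ∀ X : ℕ, X₀ ≤ X →
  ∀ (k : ℕ) (H : ℝ), 1 ≤ k → H₀ ≤ H →
  (((Icc 1 X).filter (fun n : ℕ => ∃ a b : ℕ, a < n ∧ n ≤ b ∧ b ≤ X ∧ k * H ≤ (b : ℝ) - a ∧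
    (b : ℝ) - a ≤ k * (X : ℝ) ^ (5 / 9 - ε) ∧
    (2 - 3 * ε) * ((b : ℝ) - a) / (Nat.totient k * Real.log (((b : ℝ) - a) / k)) < N b (b - a) k n)).card : ℝ) ≤
    X * Real.exp (-H ^ (1 / 5 : ℝ)) + (X : ℝ) ^ (1 - c)

theorem int (h1 : S_POS2) : S_INT2 := by
  intro ε hε hε2
  obtain ⟨c₁, H₀, hc10, hc11, hH₀, hpos⟩ := h1 (1 / 2) (by norm_num)
  obtain ⟨κ, hκ, x₁, hlib⟩ := Pool.Agent.Results.MP_26a8c3_nt.ShortProgressions.result.2.1 ε hε
  set d : ℝ := min c₁ κ with hd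
  have hd0 : 0 < d := lt_min hc10 hκ
  have hd1 : d ≤ c₁ := min_le_left _ _
  have hd2 : d ≤ κ := min_le_right _ _
  have hd3 : d < 1 := lt_of_le_of_lt hd1 hc11
  obtain ⟨K₂, hK₂, hbig⟩ := log_pow_le 2 21 (d / 4) (by positivity)
  obtain ⟨K₄, hK₄, hbig4⟩ := log_pow_le 2 0 (d / 4) (by positivity)
  refine ⟨d / 4, H₀, by positivity, lt_of_lt_of_le (by norm_num) hH₀, max x₁ (max K₂ K₄), ?_⟩
  intro X hX k H hk hH
  have hXb : x₁ ≤ X := le_trans (le_max_left _ _) hX
  have hXc : K₂ ≤ X := le_trans (le_trans (le_max_left _ _) (le_max_right _ _)) hX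
  have hXe : K₄ ≤ X := le_trans (le_trans (le_max_right _ _) (le_max_right _ _)) hX
  have hX3 : 3 ≤ X := le_trans hK₂ hXc
  have hX0 : (0 : ℝ) < X := by exact_mod_cast (by omega : 0 < X)
  have hXone : (1 : ℝ) ≤ X := by exact_mod_cast (by omega : 1 ≤ X)
  have hk0 : (0 : ℝ) < k := by exact_mod_cast hk
  have hl0 : 0 ≤ Real.log X := Real.log_natCast_nonneg X
  have hp1 : 2 * Real.log X ^ 21 ≤ (X : ℝ) ^ (d / 4) := hbig X hXc
  have hp2 : 2 ≤ (X : ℝ) ^ (d / 4) := by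
    have := hbig4 X hXe
    simpa using this
  have hHone : 1 ≤ (X : ℝ) ^ d := Real.one_le_rpow hXone hd0.le
  set S₁ : Finset ℕ := (Ioc 0 (0 + X)).filter (fun n => Bad2 (1 / 2) c₁ H X k n) with hS₁
  set S₂ : Finset ℕ := (Icc 1 X).filter (fun n : ℕ => ∃ u v : ℕ, u < n ∧ n ≤ v ∧ v ≤ X ∧
        k * (X : ℝ) ^ d ≤ (v : ℝ) - u ∧
        (k : ℝ) < (v : ℝ) - u ∧ (v : ℝ) - u ≤ k * (X : ℝ) ^ (5 / 9 - ε) ∧
        (2 - 3 * ε) * ((v : ℝ) - u) / (Nat.totient k * Real.log (((v : ℝ) - u) / k)) <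
          (Pool.Agent.Results.MP_26a8c3_nt.ShortProgressions.cnt u v k n : ℝ)) with hS₂
  have hS₂card : k * (X : ℝ) ^ d ≤ X → (S₂.card : ℝ) ≤ X * Real.log X ^ 21 / (X : ℝ) ^ d := by
    intro hkH
    exact hlib X hXb k hk ((X : ℝ) ^ d) hHone (Real.rpow_le_rpow_of_exponent_le hXone hd2) hkH
  have hS₂empty : ¬ k * (X : ℝ) ^ d ≤ X → S₂ = ∅ := by
    intro hkH
    rw [hS₂, filter_eq_empty_iff]
    rintro n _ ⟨u, v, g1, g2, g3, g4, _⟩
    have : (v : ℝ) ≤ X := by exact_mod_cast g3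
    have hu : (0 : ℝ) ≤ u := Nat.cast_nonneg u
    exact hkH (by linarith)
  have hS₂' : (S₂.card : ℝ) ≤ (X : ℝ) ^ (1 - d / 2) := by
    by_cases hkH : k * (X : ℝ) ^ d ≤ X
    · refine (hS₂card hkH).trans ?_
      rw [div_le_iff₀ (by positivity), ← Real.rpow_add hX0]
      calc X * Real.log X ^ 21 ≤ X * (X : ℝ) ^ (d / 4) := by
            apply mul_le_mul_of_nonneg_left _ hX0.le
            have : 0 ≤ Real.log X ^ 21 := by positivity
            linarith
        _ = (X : ℝ) ^ (1 + d / 4) := by rw [Real.rpow_add hX0, Real.rpow_one]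
        _ ≤ _ := Real.rpow_le_rpow_of_exponent_le hXone (by linarith)
    · rw [hS₂empty hkH]
      simp only [card_empty, Nat.cast_zero]
      positivity
  have hS₁' : (S₁.card : ℝ) ≤ X * Real.exp (-H ^ (1 / 5 : ℝ)) + (X : ℝ) ^ (1 - d / 2) := by
    refine (hpos X k H hH hk 0).trans (add_le_add le_rfl ?_)
    exact Real.rpow_le_rpow_of_exponent_le hXone (by linarith)
  have hsub : (Icc 1 X).filter (fun n : ℕ => ∃ a b : ℕ, a < n ∧ n ≤ b ∧ b ≤ X ∧ k * H ≤ (b : ℝ) - a ∧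
      (b : ℝ) - a ≤ k * (X : ℝ) ^ (5 / 9 - ε) ∧
      (2 - 3 * ε) * ((b : ℝ) - a) / (Nat.totient k * Real.log (((b : ℝ) - a) / k)) < N b (b - a) k n) ⊆
      S₁ ∪ S₂ := by
    intro n hn
    rw [mem_filter, mem_Icc] at hn
    obtain ⟨hn1, a, b, g1, g2, g3, g4, g5, g6⟩ := hn
    have hab : a ≤ b := by omega
    have hyH : H ≤ ((b : ℝ) - a) / k := by
      rw [le_div_iff₀ hk0]
      linarith
    have hy80 : (80000 ^ 5 : ℝ) ≤ ((b : ℝ) - a) / k := hH₀.trans (hH.trans hyH)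
    have hyk : 2 ≤ ((b : ℝ) - a) / k := le_trans (by norm_num) hy80
    have hy0 : 0 < (b : ℝ) - a := by
      have : 0 < ((b : ℝ) - a) / k := by linarith
      exact (div_pos_iff_of_pos_right hk0).1 this
    have hφ0 : (0 : ℝ) < Nat.totient k := by exact_mod_cast Nat.totient_pos.2 (by omega)
    have hlog : 0 < Real.log (((b : ℝ) - a) / k) := Real.log_pos (by linarith)
    have hB : 0 < ((b : ℝ) - a) / (Nat.totient k * Real.log (((b : ℝ) - a) / k)) := by positivity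
    rw [mem_union]
    by_cases hcase : (b : ℝ) - a ≤ k * (X : ℝ) ^ c₁
    · left
      rw [hS₁, mem_filter, mem_Ioc]
      refine ⟨⟨by omega, by omega⟩, b, (b : ℝ) - a, ?_, g4, hcase, ?_, ?_⟩
      · have : (0 : ℝ) ≤ a := Nat.cast_nonneg a
        linarith
      · have e1 : (a : ℝ) < n := by exact_mod_cast g1
        have e2 : (n : ℝ) ≤ b := by exact_mod_cast g2
        rw [abs_of_nonneg (by linarith)]
        have e3 := expo2 hy80
        have e4 : ((b : ℝ) - a) / k ≤ (X : ℝ) ^ c₁ := by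
          rw [div_le_iff₀ hk0]
          linarith
        have e5 : ((b : ℝ) - a) / k ≤ min (Real.exp ((((b : ℝ) - a) / k) ^ (1 / 5 : ℝ))) ((X : ℝ) ^ c₁) :=
          le_min (by linarith) e4
        have e6 : (b : ℝ) - a = k * (((b : ℝ) - a) / k) := by field_simp
        have e7 : k * (((b : ℝ) - a) / k) ≤
            k * (1 + min (Real.exp ((((b : ℝ) - a) / k) ^ (1 / 5 : ℝ))) ((X : ℝ) ^ c₁)) :=
          mul_le_mul_of_nonneg_left (by linarith) hk0.le
        linarith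
      · refine lt_of_le_of_lt ?_ g6
        rw [mul_div_assoc, mul_div_assoc]
        apply mul_le_mul_of_nonneg_right _ hB.le
        linarith
    · right
      push Not at hcase
      rw [hS₂, mem_filter, mem_Icc]
      have e1 : k * (X : ℝ) ^ d ≤ k * (X : ℝ) ^ c₁ :=
        mul_le_mul_of_nonneg_left (Real.rpow_le_rpow_of_exponent_le hXone hd1) hk0.le
      refine ⟨hn1, a, b, g1, g2, g3, by linarith, ?_, g5, ?_⟩
      · rw [le_div_iff₀ hk0] at hyk
        linarith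
      · rw [← Fin5.N_nat hab]
        exact g6
  have hcard := (card_le_card hsub).trans (card_union_le _ _)
  refine (Nat.cast_le.2 hcard).trans ?_
  push_cast
  have f1 : 2 * (X : ℝ) ^ (1 - d / 2) ≤ (X : ℝ) ^ (1 - d / 4) := by
    calc 2 * (X : ℝ) ^ (1 - d / 2) ≤ (X : ℝ) ^ (d / 4) * (X : ℝ) ^ (1 - d / 2) :=
          mul_le_mul_of_nonneg_right hp2 (by positivity)
      _ = (X : ℝ) ^ (1 - d / 4) := by
        rw [← Real.rpow_add hX0]
        congr 1
        ring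
  linarith

end Pool.Agent.Helper51.PS.G4
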