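import Pool.Agent.Helper51.PS.G4
import Pool.Agent.Helper73.BT.SIV
import Pool.Agent.Helper73.BT.AVG
import Pool.Agent.Helper73.BT.SIM
import Pool.Agent.Helper73.BT.FIN

/-!
# Project PS, second round: the whole range for almost all classes (with helper73's tails for `y ≤ k (log k) ^ 5`)
-/

set_option autoImplicit false

open Finset Filter Topology
open scoped Classical

namespace Pool.Agent.Helper51.PS.G5

open Pool.Agent.Helper51.PS.Fin2 Pool.Agent.Helper51.PS.Fin4 Pool.Agent.Helper51.PS.G4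

/-- the exceptional classes -/
noncomputable def Ex (δ x y : ℝ) (k : ℕ) : Finset ℕ :=
  (range k).filter (fun l => l.Coprime k ∧ (2 - δ) * y / (Nat.totient k * Real.log (y / k)) ≤ N x y k l)

/-- helper73: geometric tail over the classes -/
def S_H1 : Prop := ∃ c C : ℝ, 0 < c ∧ 0 < C ∧
    ∀ (k m : ℕ) (x y : ℝ), 2 ≤ k → (k : ℝ) ≤ y → y ≤ (k : ℝ) ^ 2 →
      (((range k).filter (fun l : ℕ => m < N x y k l)).card : ℝ) ≤
        C * k * ((y / (Nat.totient k * Real.log k)) / (1 + y / (Nat.totient k * Real.log k))) ^ (c * m)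

/-- helper73: exponential tail over the classes -/
def S_H2 : Prop := ∃ c C : ℝ, 0 < c ∧ 0 < C ∧
  ∀ (k : ℕ) (x y : ℝ), 2 ≤ k → 2 * (k : ℝ) ≤ y → k * Real.log k ≤ y → y ≤ (k : ℝ) ^ 2 →
    (((range k).filter (fun l : ℕ => y / (Nat.totient k * Real.log (y / k)) ≤ N x y k l)).card : ℝ) ≤
      C * k * Real.exp (-(c * Real.log k / Real.log (y / k)))

lemma N_eq (x y : ℝ) (k l : ℕ) : Helper73.BT.N x y k (l : ℤ) = N x y k l := by
  unfold Helper73.BT.N N
  congr 1
  ext p
  constructor
  · rintro ⟨h1, h2, h3, h4⟩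
    exact ⟨h1, h3, h4, (Int.natCast_modEq_iff).1 h2⟩
  · rintro ⟨h1, h3, h4, h2⟩
    exact ⟨h1, (Int.natCast_modEq_iff).2 h2, h3, h4⟩

theorem h12 : S_H1 ∧ S_H2 := by
  have hmer := Helper73.BT.mer
  have hsiv := Helper73.BT.siv hmer
  have hrb := Helper73.BT.rb hmer hsiv
  have hmom := Helper73.BT.gmom hmer Helper73.BT.avg (Helper73.BT.grb hmer hsiv)
    (Helper73.BT.gtup hsiv)
  have htail := Helper73.BT.gtail hrb hmom
  have hgeo := Helper73.BT.ggeo hrb hmom htail
  have heta := Helper73.BT.eta (Helper73.BT.tail_of_gtail htail)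
  have hres := Helper73.BT.res heta
  constructor
  · obtain ⟨c, C, hc, hC, h⟩ := Helper73.BT.classes hgeo
    refine ⟨c, C, hc, hC, fun k m x y hk hy hyk => ?_⟩
    have h1 := h k m x y hk hy hyk
    refine le_trans (le_of_eq ?_) h1
    congr 2
    apply filter_congr
    intro l _
    rw [N_eq]
  · obtain ⟨c, C, hc, hC, -, h⟩ := hres
    refine ⟨c, C, hc, hC, fun k x y hk hy hlog hyk => ?_⟩
    have h1 := h k x y 1 hk one_pos hy hlog hyk
    rw [mul_one] at h1
    refine le_trans (le_of_eq ?_) h1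
    congr 2
    apply filter_congr
    intro l _
    rw [N_eq, one_mul]

def S_RNG2 : Prop := ∀ A : ℝ, ∃ δ c C : ℝ, 0 < δ ∧ 0 < c ∧ 0 < C ∧ ∃ k₀ : ℕ, ∀ k : ℕ, k₀ ≤ k →
  ∀ x y : ℝ, y ≤ (k : ℝ) ^ A → y ≤ x →
  (k < y → ((Ex δ x y k).card : ℝ) ≤ C * (Nat.totient k / Real.log k)) ∧
  (k * Real.log k ≤ y → ((Ex δ x y k).card : ℝ) ≤ k * Real.exp (-(c * Real.log k / Real.log (Real.log k)))) ∧
  (k * Real.log k ^ 5 ≤ y → ((Ex δ x y k).card : ℝ) ≤ (k : ℝ) ^ (1 - c))

/-- the middle of the range -/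
lemma tail {c κ t ℓ w m μ : ℝ} (hc : 0 < c) (hκ : 1 ≤ κ) (ht : 1 < t) (htℓ : t ≤ ℓ) (hw : Real.exp w = ℓ)
    (hw1 : 12 ≤ w) (hw2 : 6144 / c ≤ w ^ 2) (hbig : 16 / c ≤ t / Real.log t) (hm : κ * t / Real.log t / 2 ≤ m)
    (hμ : μ = κ * t / ℓ) : (μ / (1 + μ)) ^ (c * m) ≤ 1 / (3 * ℓ ^ 2) := by
  have hℓ0 : 0 < ℓ := by
    rw [← hw]
    exact Real.exp_pos w
  have ht0 : 0 < t := by linarith
  have hlt : 0 < Real.log t := Real.log_pos ht
  have hμ0 : 0 < μ := by
    rw [hμ]
    positivity
  have hb0 : 0 < μ / (1 + μ) := by positivity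
  have hb1 : μ / (1 + μ) ≤ 1 := by
    rw [div_le_one (by positivity)]
    linarith
  have hlogℓ : Real.log ℓ = w := by rw [← hw, Real.log_exp]
  have hltw : Real.log t ≤ w := by
    rw [← hlogℓ]
    exact Real.log_le_log ht0 htℓ
  have hℓ3 : 3 ≤ ℓ := by
    rw [← hw]
    have := Real.add_one_le_exp w
    linarith
  have hkt : t ≤ κ * t := le_mul_of_one_le_left ht0.le hκ
  have hv : c * (κ * t / Real.log t / 2) ≤ c * m := mul_le_mul_of_nonneg_left hm hc.le
  -- the target as an exponential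
  have htarget : Real.exp (-(4 * w)) ≤ 1 / (3 * ℓ ^ 2) := by
    rw [Real.exp_neg, ← one_div]
    apply one_div_le_one_div_of_le (by positivity)
    have h1 : Real.exp (4 * w) = ℓ ^ 2 * ℓ ^ 2 := by
      rw [← hw, ← Real.exp_nat_mul, ← Real.exp_add]
      congr 1
      push_cast
      ring
    rw [h1]
    have : 3 ≤ ℓ ^ 2 := by nlinarith
    nlinarith [sq_nonneg ℓ]
  refine le_trans ?_ htarget
  rw [Real.rpow_def_of_pos hb0]
  apply Real.exp_le_exp.2
  by_cases hcase : μ ≤ Real.exp (-(w / 2))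
  · have h1 : Real.log (μ / (1 + μ)) ≤ -(w / 2) := by
      rw [← Real.log_exp (-(w / 2))]
      apply Real.log_le_log hb0
      refine le_trans ?_ hcase
      exact div_le_self hμ0.le (by linarith)
    have h2 : 8 ≤ c * (κ * t / Real.log t / 2) := by
      have h3 : 16 / c ≤ κ * t / Real.log t := hbig.trans (div_le_div_of_nonneg_right hkt hlt.le)
      rw [div_le_iff₀ hc] at h3
      linarith
    have h4 : 8 ≤ c * m := h2.trans hv
    nlinarith
  · push Not at hcase
    have h1 : Real.log (μ / (1 + μ)) ≤ -(1 / (1 + μ)) := by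
      have h2 := Real.log_le_sub_one_of_pos hb0
      have h3 : μ / (1 + μ) - 1 = -(1 / (1 + μ)) := by
        field_simp
        ring
      linarith
    -- `s = κ t`
    have hs : κ * t = μ * ℓ := by
      rw [hμ]
      field_simp
    have hs1 : Real.exp (w / 2) ≤ κ * t := by
      have h2 : Real.exp (-(w / 2)) * ℓ ≤ μ * ℓ := mul_le_mul_of_nonneg_right hcase.le hℓ0.le
      have h3 : Real.exp (-(w / 2)) * ℓ = Real.exp (w / 2) := by
        rw [← hw, ← Real.exp_add]
        congr 1
        ring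
      rw [hs]
      linarith
    have hs2 : Real.exp (w / 2) ≤ ℓ := by
      rw [← hw]
      apply Real.exp_le_exp.2
      linarith
    have hs3 : Real.exp (w / 2) / 2 ≤ κ * t / (1 + μ) := by
      rw [le_div_iff₀ (by positivity)]
      have h2 : Real.exp (w / 2) * μ ≤ κ * t := by
        rw [hs]
        nlinarith
      nlinarith
    have hexp4 : (w / 2) ^ 4 / 24 ≤ Real.exp (w / 2) := by
      have := Real.pow_div_factorial_le_exp (w / 2) (by linarith) 4
      have h24 : ((Nat.factorial 4 : ℕ) : ℝ) = 24 := by norm_num [Nat.factorial]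
      rwa [h24] at this
    have hfin : 4 * w ≤ c * (κ * t / Real.log t / 2) * (1 / (1 + μ)) := by
      have h2 : c * (κ * t / Real.log t / 2) * (1 / (1 + μ)) = c / 2 / Real.log t * (κ * t / (1 + μ)) := by
        field_simp
      rw [h2]
      calc 4 * w = 4 * w := rfl
        _ ≤ c / 2 / w * (Real.exp (w / 2) / 2) := by
            have h3 : c / 2 / w * ((w / 2) ^ 4 / 24 / 2) ≤ c / 2 / w * (Real.exp (w / 2) / 2) := by
              apply mul_le_mul_of_nonneg_left _ (by positivity)
              linarith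
            refine le_trans ?_ h3
            have h4 : c / 2 / w * ((w / 2) ^ 4 / 24 / 2) = c * w ^ 2 / 1536 * w := by
              field_simp
              ring
            rw [h4]
            rw [div_le_iff₀ hc] at hw2
            nlinarith
        _ ≤ c / 2 / Real.log t * (κ * t / (1 + μ)) := by
            apply mul_le_mul _ hs3 (by positivity) (by positivity)
            exact div_le_div_of_nonneg_left (by positivity) hlt hltw
    have h5 : Real.log (μ / (1 + μ)) * (c * m) ≤ -(1 / (1 + μ)) * (c * m) := by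
      apply mul_le_mul_of_nonneg_right h1
      exact le_trans (by positivity) hv
    have h6 : c * (κ * t / Real.log t / 2) * (1 / (1 + μ)) ≤ c * m * (1 / (1 + μ)) :=
      mul_le_mul_of_nonneg_right hv (by positivity)
    linarith

theorem rng2 (h1 : S_ALL2) (hF : S_FST) (hH1 : S_H1) (hH2 : S_H2) : S_RNG2 := by
  intro A
  obtain ⟨δ, c₀, H₀, hδ, hδ1, hc0, hc01, hH₀, k₁, hall⟩ := h1 A
  obtain ⟨C₂, hC₂, hfst⟩ := hF
  obtain ⟨c₃, C₃, hc₃, hC₃, hgeo⟩ := hH1
  obtain ⟨c₁, C₁, hc₁, hC₁, hexpo⟩ := hH2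
  have hH₀0 : 0 < H₀ := lt_of_lt_of_le (by norm_num) hH₀
  -- `H₁`
  obtain ⟨H₁, hH₁1, hH₁⟩ : ∃ H₁ : ℝ, 3 ≤ H₁ ∧ ∀ t : ℝ, H₁ ≤ t → max (16 / c₃) 4 ≤ t / Real.log t := by
    have h3 : Tendsto (fun x : ℝ => Real.log x / x) atTop (𝓝 0) := by
      have := Real.tendsto_pow_log_div_mul_add_atTop 1 0 1 one_ne_zero
      simpa using this
    have h4 : ∀ᶠ x : ℝ in atTop, Real.log x / x < 1 / max (16 / c₃) 4 :=
      h3.eventually (gt_mem_nhds (by positivity))
    obtain ⟨a, ha⟩ := eventually_atTop.1 (h4.and (eventually_gt_atTop 1))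
    refine ⟨max a 3, le_max_right _ _, fun t ht => ?_⟩
    obtain ⟨h5, h6⟩ := ha t (le_trans (le_max_left _ _) ht)
    have hlt : 0 < Real.log t := Real.log_pos h6
    rw [div_lt_div_iff₀ (by linarith) (by positivity)] at h5
    rw [le_div_iff₀ hlt]
    linarith
  set c : ℝ := min (c₀ / 2) (c₁ / 10) with hc
  have hcpos : 0 < c := lt_min (by positivity) (by positivity)
  have hca : c ≤ c₀ / 2 := min_le_left _ _
  have hcb : c ≤ c₁ / 10 := min_le_right _ _
  set C : ℝ := max (max (C₂ * Real.log H₁) C₃) 1 with hC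
  have hC1 : 1 ≤ C := le_max_right _ _
  have hCa : C₂ * Real.log H₁ ≤ C := le_trans (le_max_left _ _) (le_max_left _ _)
  have hCb : C₃ ≤ C := le_trans (le_max_right _ _) (le_max_left _ _)
  have hlogk : Tendsto (fun k : ℕ => Real.log k) atTop atTop :=
    Real.tendsto_log_atTop.comp tendsto_natCast_atTop_atTop
  have hloglog : Tendsto (fun k : ℕ => Real.log (Real.log k)) atTop atTop := Real.tendsto_log_atTop.comp hlogk
  set W : ℝ := 12 + H₀ + 6144 / c₃ + 96 / c + 240 / c₁ + |Real.log C₁| with hW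
  obtain ⟨k₂, hk₂⟩ := eventually_atTop.1 (hloglog.eventually_ge_atTop W)
  obtain ⟨Z₁, hZ₁, hz1⟩ := log_pow_le 1 5 1 one_pos
  obtain ⟨Z₂, hZ₂, hz2⟩ := log_pow_le 2 0 (c₀ / 2) (by positivity)
  refine ⟨δ, c, C, hδ, hcpos, by linarith, max (max k₁ k₂) (max Z₁ Z₂), ?_⟩
  intro k hk x y hyA hyx
  have hka : k₁ ≤ k := le_trans (le_trans (le_max_left _ _) (le_max_left _ _)) hk
  have hkb : k₂ ≤ k := le_trans (le_trans (le_max_right _ _) (le_max_left _ _)) hk
  have hkc : Z₁ ≤ k := le_trans (le_trans (le_max_left _ _) (le_max_right _ _)) hk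
  have hkd : Z₂ ≤ k := le_trans (le_trans (le_max_right _ _) (le_max_right _ _)) hk
  have hk3 : 3 ≤ k := le_trans hZ₁ hkc
  have hk0 : (0 : ℝ) < k := by exact_mod_cast (by omega : 0 < k)
  have hkone : (1 : ℝ) ≤ k := by exact_mod_cast (by omega : 1 ≤ k)
  have hWk := hk₂ k hkb
  set ℓ : ℝ := Real.log k with hℓ
  set w : ℝ := Real.log ℓ with hw'
  have p1 : 0 < 6144 / c₃ := by positivity
  have p2 : 0 < 96 / c := by positivity
  have p3 : 0 < 240 / c₁ := by positivity
  have p4 : 0 ≤ |Real.log C₁| := abs_nonneg _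
  have hw12 : 12 ≤ w := by linarith
  have hwH : H₀ ≤ w := by linarith
  have hw3 : 6144 / c₃ ≤ w := by linarith
  have hw4 : 96 / c ≤ w := by linarith
  have hw5 : 240 / c₁ ≤ w := by linarith
  have hw6 : Real.log C₁ ≤ w := (le_abs_self _).trans (by linarith)
  have hℓ1 : 1 ≤ ℓ := by
    by_contra hlt
    push Not at hlt
    have h0 : 0 ≤ ℓ := Real.log_natCast_nonneg k
    have := Real.log_nonpos h0 hlt.le
    linarith
  have hℓ0 : 0 < ℓ := by linarith
  have hexpw : Real.exp w = ℓ := Real.exp_log hℓ0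
  have hwℓ : w + 1 ≤ ℓ := by
    rw [← hexpw]
    exact Real.add_one_le_exp w
  have hexp4 : w ^ 4 / 24 ≤ ℓ := by
    have := Real.pow_div_factorial_le_exp w (by linarith) 4
    have h24 : ((Nat.factorial 4 : ℕ) : ℝ) = 24 := by norm_num [Nat.factorial]
    rwa [h24, hexpw] at this
  have hcube : w ^ 3 / 24 ≤ ℓ / w := by
    rw [le_div_iff₀ (by linarith)]
    calc w ^ 3 / 24 * w = w ^ 4 / 24 := by ring
      _ ≤ ℓ := hexp4
  have hφ0 : (0 : ℝ) < Nat.totient k := by exact_mod_cast Nat.totient_pos.2 (by omega)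
  have hφk : (Nat.totient k : ℝ) ≤ k := by exact_mod_cast Nat.totient_le k
  have h7 : (k : ℝ) ≤ Nat.totient k * (3 * ℓ) := totient_ge hk3
  have hℓ5 : ℓ ^ 5 ≤ k := by
    have := hz1 k hkc
    rwa [one_mul, Real.rpow_one] at this
  have hkexp : Real.exp ℓ = k := Real.exp_log hk0
  -- the long range
  have T3 : k * ℓ ^ 5 ≤ y → ((Ex δ x y k).card : ℝ) ≤ (k : ℝ) ^ (1 - c₀ / 2) := by
    intro hy
    have hyk : ℓ ^ 5 ≤ y / k := by
      rw [le_div_iff₀ hk0]
      linarith
    have hℓℓ : ℓ ≤ ℓ ^ 5 := by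
      calc ℓ = ℓ ^ 1 := (pow_one _).symm
        _ ≤ _ := pow_le_pow_right₀ hℓ1 (by norm_num)
    have h2 := hall k hka x y (by nlinarith) hyA hyx
    refine h2.trans ?_
    have h3 : ℓ ≤ (y / k) ^ (1 / 5 : ℝ) := by
      have h4 : (ℓ ^ 5) ^ (1 / 5 : ℝ) = ℓ := by
        rw [← Real.rpow_natCast, ← Real.rpow_mul hℓ0.le]
        norm_num
      calc ℓ = (ℓ ^ 5) ^ (1 / 5 : ℝ) := h4.symm
        _ ≤ _ := Real.rpow_le_rpow (by positivity) hyk (by norm_num)
    have h4 : k * Real.exp (-(y / k) ^ (1 / 5 : ℝ)) ≤ 1 := by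
      calc k * Real.exp (-(y / k) ^ (1 / 5 : ℝ)) ≤ k * Real.exp (-ℓ) := by
            apply mul_le_mul_of_nonneg_left _ hk0.le
            apply Real.exp_le_exp.2
            linarith
        _ = 1 := by
            rw [Real.exp_neg, hkexp]
            exact mul_inv_cancel₀ hk0.ne'
    have h5 : 1 ≤ (k : ℝ) ^ (1 - c₀) := Real.one_le_rpow hkone (by linarith)
    have h6 : 2 ≤ (k : ℝ) ^ (c₀ / 2) := by
      have := hz2 k hkd
      simpa using this
    calc k * Real.exp (-(y / k) ^ (1 / 5 : ℝ)) + (k : ℝ) ^ (1 - c₀) ≤ 2 * (k : ℝ) ^ (1 - c₀) := by linarith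
      _ ≤ (k : ℝ) ^ (c₀ / 2) * (k : ℝ) ^ (1 - c₀) := mul_le_mul_of_nonneg_right h6 (by positivity)
      _ = (k : ℝ) ^ (1 - c₀ / 2) := by
        rw [← Real.rpow_add hk0]
        congr 1
        ring
  have hsub : k < y → Ex δ x y k ⊆ (range k).filter (fun l : ℕ => y / (Nat.totient k * Real.log (y / k)) ≤ N x y k l) := by
    intro hky l hl
    unfold Ex at hl
    rw [mem_filter] at hl ⊢
    refine ⟨hl.1, le_trans ?_ hl.2.2⟩
    have hlog : 0 ≤ Real.log (y / k) := Real.log_nonneg ((one_le_div hk0).2 hky.le)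
    have hy0 : 0 ≤ y := by linarith
    rw [mul_div_assoc]
    apply le_mul_of_one_le_left (by positivity)
    linarith
  -- the middle range
  have T2 : k * ℓ ≤ y → ((Ex δ x y k).card : ℝ) ≤ k * Real.exp (-(c * ℓ / w)) := by
    intro hy
    by_cases hcase : k * ℓ ^ 5 ≤ y
    · refine (T3 hcase).trans ?_
      rw [Real.rpow_sub hk0, Real.rpow_one, div_eq_mul_inv]
      apply mul_le_mul_of_nonneg_left _ hk0.le
      rw [← Real.rpow_neg hk0.le, Real.rpow_def_of_pos hk0]
      apply Real.exp_le_exp.2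
      have h2 : c * ℓ / w ≤ ℓ * (c₀ / 2) := by
        rw [div_le_iff₀ (by linarith)]
        have h3 : c * ℓ ≤ ℓ * (c₀ / 2) := by nlinarith
        have h4 : 0 ≤ ℓ * (c₀ / 2) := by positivity
        nlinarith
      have h3 : Real.log (k : ℝ) * -(c₀ / 2) = -(ℓ * (c₀ / 2)) := by
        rw [← hℓ]
        ring
      rw [h3]
      linarith
    · push Not at hcase
      have hy2 : 2 * (k : ℝ) ≤ y := by nlinarith
      have hyk2 : y ≤ (k : ℝ) ^ 2 := by nlinarith
      have hky : (k : ℝ) < y := by linarith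
      have h2 := hexpo k x y (by omega) hy2 hy hyk2
      have h3 : ((Ex δ x y k).card : ℝ) ≤ C₁ * k * Real.exp (-(c₁ * Real.log k / Real.log (y / k))) :=
        le_trans (Nat.cast_le.2 (card_le_card (hsub hky))) h2
      refine h3.trans ?_
      have ht1 : 1 < y / k := by
        rw [one_lt_div hk0]
        exact hky
      have hlog : 0 < Real.log (y / k) := Real.log_pos ht1
      have hlog5 : Real.log (y / k) ≤ 5 * w := by
        have h4 : y / k ≤ ℓ ^ 5 := by
          rw [div_le_iff₀ hk0]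
          linarith
        have h5 := Real.log_le_log (by linarith) h4
        rw [Real.log_pow] at h5
        exact_mod_cast h5
      have h4 : c₁ / 5 * (ℓ / w) ≤ c₁ * Real.log k / Real.log (y / k) := by
        calc c₁ / 5 * (ℓ / w) = c₁ * ℓ / (5 * w) := by
              field_simp
          _ ≤ _ := div_le_div_of_nonneg_left (by positivity) hlog hlog5
      have h5 : w ≤ c₁ / 10 * (ℓ / w) := by
        calc w ≤ c₁ / 10 * (w ^ 3 / 24) := by
              rw [div_le_iff₀ hc₁] at hw5
              have : 240 ≤ w * c₁ * w := by nlinarith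
              nlinarith
          _ ≤ _ := mul_le_mul_of_nonneg_left hcube (by positivity)
      have h6 : C₁ ≤ Real.exp w := by
        calc C₁ = Real.exp (Real.log C₁) := (Real.exp_log hC₁).symm
          _ ≤ _ := Real.exp_le_exp.2 hw6
      have h7 : C₁ * Real.exp (-(c₁ * Real.log k / Real.log (y / k))) ≤ Real.exp (-(c * ℓ / w)) := by
        calc C₁ * Real.exp (-(c₁ * Real.log k / Real.log (y / k))) ≤ Real.exp w * Real.exp (-(c₁ / 5 * (ℓ / w))) := by
              apply mul_le_mul h6 _ (Real.exp_pos _).le (Real.exp_pos _).le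
              apply Real.exp_le_exp.2
              linarith
          _ = Real.exp (w - c₁ / 5 * (ℓ / w)) := by
              rw [← Real.exp_add]
              congr 1
          _ ≤ _ := by
              apply Real.exp_le_exp.2
              have h8 : c * ℓ / w ≤ c₁ / 10 * (ℓ / w) := by
                rw [mul_div_assoc]
                exact mul_le_mul_of_nonneg_right hcb (by positivity)
              linarith
      calc C₁ * k * Real.exp (-(c₁ * Real.log k / Real.log (y / k))) =
          k * (C₁ * Real.exp (-(c₁ * Real.log k / Real.log (y / k)))) := by ring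
        _ ≤ _ := mul_le_mul_of_nonneg_left h7 hk0.le
  refine ⟨fun hky => ?_, T2, fun hy => (T3 hy).trans (Real.rpow_le_rpow_of_exponent_le hkone (by linarith))⟩
  -- the whole range
  have hgoal : ∀ E : ℝ, E ≤ 1 / (3 * ℓ ^ 2) → k * E ≤ Nat.totient k / ℓ := by
    intro E hE
    calc k * E ≤ k * (1 / (3 * ℓ ^ 2)) := mul_le_mul_of_nonneg_left hE hk0.le
      _ ≤ Nat.totient k * (3 * ℓ) * (1 / (3 * ℓ ^ 2)) := mul_le_mul_of_nonneg_right h7 (by positivity)
      _ = Nat.totient k / ℓ := by
        field_simp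
  have hφℓ : 0 ≤ (Nat.totient k : ℝ) / ℓ := by positivity
  by_cases hcase : k * ℓ ≤ y
  · refine (T2 hcase).trans ?_
    have h2 : Real.exp (-(c * ℓ / w)) ≤ 1 / (3 * ℓ ^ 2) := by
      have h3 : 4 * w ≤ c * ℓ / w := by
        calc 4 * w ≤ c * (w ^ 3 / 24) := by
              rw [div_le_iff₀ hcpos] at hw4
              have : 96 ≤ w * c * w := by nlinarith
              nlinarith
          _ ≤ c * (ℓ / w) := mul_le_mul_of_nonneg_left hcube hcpos.le
          _ = _ := by ring
      calc Real.exp (-(c * ℓ / w)) ≤ Real.exp (-(4 * w)) := Real.exp_le_exp.2 (by linarith)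
        _ ≤ _ := by
          rw [Real.exp_neg, ← one_div]
          apply one_div_le_one_div_of_le (by positivity)
          have h1 : Real.exp (4 * w) = ℓ ^ 2 * ℓ ^ 2 := by
            rw [← hexpw, ← Real.exp_nat_mul, ← Real.exp_add]
            congr 1
            push_cast
            ring
          rw [h1]
          have : 3 ≤ ℓ ^ 2 := by nlinarith
          nlinarith [sq_nonneg ℓ]
    refine (hgoal _ h2).trans ?_
    exact le_mul_of_one_le_left hφℓ hC1
  · push Not at hcase
    set t : ℝ := y / k with ht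
    have ht1 : 1 < t := by
      rw [ht, one_lt_div hk0]
      exact hky
    have htℓ : t ≤ ℓ := by
      rw [ht, div_le_iff₀ hk0]
      linarith
    have hlog : 0 < Real.log t := Real.log_pos ht1
    have hyt : y = k * t := by
      rw [ht]
      field_simp
    by_cases hsmall : t ≤ H₁
    · have h2 := hfst k (by omega) x y hky hyx
      have h3 : ((Ex δ x y k).card : ℝ) ≤ C₂ * (Nat.totient k * Real.log (y / k) / Real.log y) :=
        le_trans (Nat.cast_le.2 (card_le_card (hsub hky))) h2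
      refine h3.trans ?_
      have h4 : Real.log t ≤ Real.log H₁ := Real.log_le_log (by linarith) hsmall
      have h5 : ℓ ≤ Real.log y := Real.log_le_log hk0 hky.le
      calc C₂ * (Nat.totient k * Real.log (y / k) / Real.log y) ≤ C₂ * (Nat.totient k * Real.log H₁ / ℓ) := by
            apply mul_le_mul_of_nonneg_left _ hC₂.le
            apply div_le_div₀ _ _ hℓ0 h5
            · have : 0 ≤ Real.log H₁ := hlog.le.trans h4
              positivity
            · exact mul_le_mul_of_nonneg_left h4 hφ0.le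
        _ = C₂ * Real.log H₁ * (Nat.totient k / ℓ) := by ring
        _ ≤ _ := mul_le_mul_of_nonneg_right hCa hφℓ
    · push Not at hsmall
      have hbig := hH₁ t hsmall.le
      have hbig1 : 16 / c₃ ≤ t / Real.log t := le_trans (le_max_left _ _) hbig
      have hbig2 : 4 ≤ t / Real.log t := le_trans (le_max_right _ _) hbig
      set κ : ℝ := (k : ℝ) / Nat.totient k with hκ
      have hκ1 : 1 ≤ κ := by
        rw [hκ, one_le_div hφ0]
        exact hφk
      have hB : y / (Nat.totient k * Real.log t) = κ * t / Real.log t := by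
        rw [hyt, hκ]
        field_simp
      set B : ℝ := y / (Nat.totient k * Real.log t) with hBdef
      have hB4 : 4 ≤ B := by
        rw [hB]
        refine hbig2.trans (div_le_div_of_nonneg_right ?_ hlog.le)
        exact le_mul_of_one_le_left (by linarith) hκ1
      set m : ℕ := ⌈B⌉₊ - 1 with hm
      have hceil : B ≤ ⌈B⌉₊ := Nat.le_ceil B
      have hceil4 : 4 ≤ ⌈B⌉₊ := by
        have : (4 : ℝ) ≤ ⌈B⌉₊ := hB4.trans hceil
        exact_mod_cast this
      have hmB : B - 1 ≤ m := by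
        have : ((⌈B⌉₊ : ℕ) : ℝ) = m + 1 := by
          rw [hm]
          have : ⌈B⌉₊ = (⌈B⌉₊ - 1) + 1 := by omega
          exact_mod_cast this
        linarith
      have hℓk : ℓ ≤ k := by
        refine le_trans ?_ hℓ5
        calc ℓ = ℓ ^ 1 := (pow_one _).symm
          _ ≤ _ := pow_le_pow_right₀ hℓ1 (by norm_num)
      have hyk2 : y ≤ (k : ℝ) ^ 2 := by
        calc y ≤ k * ℓ := hcase.le
          _ ≤ k * k := mul_le_mul_of_nonneg_left hℓk hk0.le
          _ = (k : ℝ) ^ 2 := by ring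
      have h2 := hgeo k m x y (by omega) hky.le hyk2
      have h3 : Ex δ x y k ⊆ (range k).filter (fun l : ℕ => m < N x y k l) := by
        intro l hl
        have h4 := hsub hky hl
        rw [mem_filter] at h4 ⊢
        refine ⟨h4.1, ?_⟩
        have h5 : ⌈B⌉₊ ≤ N x y k l := Nat.ceil_le.2 h4.2
        omega
      have h4 : ((Ex δ x y k).card : ℝ) ≤ _ := le_trans (Nat.cast_le.2 (card_le_card h3)) h2
      refine h4.trans ?_
      have h5 := tail (c := c₃) (κ := κ) (t := t) (ℓ := ℓ) (w := w) (m := (m : ℝ))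
        (μ := y / (Nat.totient k * Real.log k)) hc₃ hκ1 ht1 htℓ hexpw hw12
        (by
          have : w ≤ w ^ 2 := by nlinarith
          linarith) hbig1
        (by
          rw [← hB]
          linarith)
        (by
          have e1 : κ * t / ℓ = (k * t) / (Nat.totient k * ℓ) := by
            rw [hκ]
            field_simp
          rw [e1, ← hyt])
      calc C₃ * k * ((y / (Nat.totient k * Real.log k)) / (1 + y / (Nat.totient k * Real.log k))) ^ (c₃ * m) =
          C₃ * (k * ((y / (Nat.totient k * Real.log k)) / (1 + y / (Nat.totient k * Real.log k))) ^ (c₃ * m)) := by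
            ring
        _ ≤ C₃ * (Nat.totient k / ℓ) := mul_le_mul_of_nonneg_left (hgoal _ h5) hC₃.le
        _ ≤ _ := mul_le_mul_of_nonneg_right hCb hφℓ

end Pool.Agent.Helper51.PS.G5
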