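import Pool.Agent.Helper51.PS.Stm

/-!
# Project PS: the sum of `1 / lcm` over tuples
-/

set_option autoImplicit false

open Finset

namespace Pool.Agent.Helper51.PS.LCM

theorem pf_QQ {P : Finset ℕ} (hP : ∀ p ∈ P, p.Prime) {q : ℕ} (hq : q ∈ QQ P) :
    q ≠ 0 ∧ q.primeFactors.card ≤ 2 := by
  unfold QQ at hq
  rw [mem_union] at hq
  rcases hq with hq | hq
  · refine ⟨(hP q hq).ne_zero, ?_⟩
    rw [(hP q hq).primeFactors, card_singleton]
    norm_num
  · rw [mem_image] at hq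
    obtain ⟨x, hx, rfl⟩ := hq
    rw [mem_offDiag] at hx
    have h1 := hP _ hx.1
    have h2 := hP _ hx.2.1
    refine ⟨mul_ne_zero h1.ne_zero h2.ne_zero, ?_⟩
    rw [Nat.primeFactors_mul h1.ne_zero h2.ne_zero, h1.primeFactors, h2.primeFactors]
    exact (card_union_le _ _).trans (by simp)

/-- `gcd (q, N) / q` -/
noncomputable def ff (N q : ℕ) : ℝ := ((Nat.gcd q N : ℕ) : ℝ) / q

theorem ff_nonneg (N q : ℕ) : 0 ≤ ff N q := by unfold ff; positivity

theorem ff_mul {p p' : ℕ} (h : p.Coprime p') (N : ℕ) : ff N (p * p') = ff N p * ff N p' := by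
  unfold ff
  rw [Nat.gcd_comm, Nat.Coprime.gcd_mul N h, Nat.gcd_comm N p, Nat.gcd_comm N p']
  push_cast
  rw [mul_div_mul_comm]

theorem sum_P {P : Finset ℕ} {L : ℝ} (hP : ∀ p ∈ P, p.Prime) (hL : ∑ p ∈ P, 1 / (p : ℝ) ≤ L)
    {N t : ℕ} (hN : N ≠ 0) (ht : N.primeFactors.card ≤ t) : ∑ p ∈ P, ff N p ≤ t + L := by
  classical
  have h1 : ∀ p ∈ P, ff N p ≤ (if p ∈ N.primeFactors then (1 : ℝ) else 0) + 1 / (p : ℝ) := by
    intro p hp
    have hpp := hP p hp
    unfold ff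
    by_cases h : p ∈ N.primeFactors
    · rw [if_pos h]
      have h2 : Nat.gcd p N = p := Nat.gcd_eq_left (Nat.dvd_of_mem_primeFactors h)
      have h3 : (p : ℝ) ≠ 0 := by exact_mod_cast hpp.ne_zero
      rw [h2, div_self h3]
      have : (0 : ℝ) ≤ 1 / p := by positivity
      linarith
    · rw [if_neg h, zero_add]
      have h2 : Nat.gcd p N = 1 := by
        rw [← Nat.coprime_iff_gcd_eq_one, hpp.coprime_iff_not_dvd]
        intro h3
        exact h (Nat.mem_primeFactors.2 ⟨hpp, h3, hN⟩)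
      rw [h2, Nat.cast_one]
  calc ∑ p ∈ P, ff N p ≤ ∑ p ∈ P, ((if p ∈ N.primeFactors then (1 : ℝ) else 0) + 1 / (p : ℝ)) :=
        sum_le_sum h1
    _ = ((P.filter (fun p => p ∈ N.primeFactors)).card : ℝ) + ∑ p ∈ P, 1 / (p : ℝ) := by
        rw [sum_add_distrib, sum_boole]
    _ ≤ t + L := by
        have h2 : (P.filter (fun p => p ∈ N.primeFactors)).card ≤ t :=
          (card_le_card fun p hp => (mem_filter.1 hp).2).trans ht
        have h3 : ((P.filter (fun p => p ∈ N.primeFactors)).card : ℝ) ≤ t := by exact_mod_cast h2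
        linarith

theorem sum_QQ {P : Finset ℕ} {L : ℝ} (hP : ∀ p ∈ P, p.Prime) (hL : ∑ p ∈ P, 1 / (p : ℝ) ≤ L)
    {N t : ℕ} (hN : N ≠ 0) (ht : N.primeFactors.card ≤ t) :
    ∑ q ∈ QQ P, ff N q ≤ (t + 1) ^ 2 * (1 + L) ^ 2 := by
  classical
  have hL0 : 0 ≤ L := le_trans (sum_nonneg fun p _ => by positivity) hL
  set F : ℝ := ∑ p ∈ P, ff N p with hF
  have hF0 : 0 ≤ F := sum_nonneg fun p _ => ff_nonneg N p
  have hF1 : F ≤ t + L := sum_P hP hL hN ht
  have h1 : ∑ q ∈ QQ P, ff N q ≤ F + ∑ x ∈ P.offDiag, ff N (x.1 * x.2) := by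
    have h2 := sum_union_inter (s₁ := P) (s₂ := P.offDiag.image (fun x => x.1 * x.2)) (f := ff N)
    have h3 : 0 ≤ ∑ q ∈ P ∩ P.offDiag.image (fun x => x.1 * x.2), ff N q :=
      sum_nonneg fun p _ => ff_nonneg N p
    have h4 : ∑ q ∈ P.offDiag.image (fun x => x.1 * x.2), ff N q ≤
        ∑ x ∈ P.offDiag, ff N (x.1 * x.2) :=
      sum_image_le_of_nonneg fun q _ => ff_nonneg N q
    unfold QQ
    linarith
  have h2 : ∑ x ∈ P.offDiag, ff N (x.1 * x.2) ≤ F * F := by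
    calc ∑ x ∈ P.offDiag, ff N (x.1 * x.2) = ∑ x ∈ P.offDiag, ff N x.1 * ff N x.2 := by
          refine sum_congr rfl fun x hx => ?_
          rw [mem_offDiag] at hx
          exact ff_mul ((Nat.coprime_primes (hP _ hx.1) (hP _ hx.2.1)).2 hx.2.2) N
      _ ≤ ∑ x ∈ P ×ˢ P, ff N x.1 * ff N x.2 := by
          refine sum_le_sum_of_subset_of_nonneg ?_ fun x _ _ =>
            mul_nonneg (ff_nonneg N _) (ff_nonneg N _)
          intro x hx
          rw [mem_offDiag] at hx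
          exact mem_product.2 ⟨hx.1, hx.2.1⟩
      _ = F * F := by rw [hF, sum_mul_sum, sum_product]
  have ht0 : (0 : ℝ) ≤ t := Nat.cast_nonneg t
  have h3 : (t : ℝ) + 1 + L ≤ (t + 1) * (1 + L) := by nlinarith
  have h4 : (F + 1) ^ 2 ≤ ((t + 1) * (1 + L)) ^ 2 := by
    apply pow_le_pow_left₀ (by linarith)
    linarith
  calc ∑ q ∈ QQ P, ff N q ≤ F + F * F := by linarith
    _ ≤ (F + 1) ^ 2 := by nlinarith
    _ ≤ ((t + 1) * (1 + L)) ^ 2 := h4
    _ = (t + 1) ^ 2 * (1 + L) ^ 2 := by ring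

theorem inv_lcm {q N : ℕ} (hq : q ≠ 0) (hN : N ≠ 0) :
    1 / ((Nat.lcm q N : ℕ) : ℝ) = 1 / (N : ℝ) * ff N q := by
  have h1 : ((Nat.gcd q N : ℕ) : ℝ) * ((Nat.lcm q N : ℕ) : ℝ) = q * N := by
    exact_mod_cast Nat.gcd_mul_lcm q N
  have hq' : (q : ℝ) ≠ 0 := by exact_mod_cast hq
  have hN' : (N : ℝ) ≠ 0 := by exact_mod_cast hN
  have hl : ((Nat.lcm q N : ℕ) : ℝ) ≠ 0 := by exact_mod_cast Nat.lcm_ne_zero hq hN
  unfold ff
  field_simp
  linarith

theorem lcm_succ {n : ℕ} (q : Fin (n + 1) → ℕ) : (univ : Finset (Fin (n + 1))).lcm q =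
    Nat.lcm (q 0) ((univ : Finset (Fin n)).lcm (fun i => q i.succ)) := by
  apply Nat.dvd_antisymm
  · refine Finset.lcm_dvd fun i _ => ?_
    refine Fin.cases ?_ (fun i => ?_) i
    · exact Nat.dvd_lcm_left _ _
    · exact (Finset.dvd_lcm (f := fun i => q i.succ) (mem_univ i)).trans (Nat.dvd_lcm_right _ _)
  · refine Nat.lcm_dvd (Finset.dvd_lcm (mem_univ 0)) ?_
    exact Finset.lcm_dvd fun i _ => Finset.dvd_lcm (mem_univ i.succ)

theorem lcm_facts {P : Finset ℕ} (hP : ∀ p ∈ P, p.Prime) : ∀ (n : ℕ) (q : Fin n → ℕ),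
    (∀ i, q i ∈ QQ P) → (univ : Finset (Fin n)).lcm q ≠ 0 ∧
      ((univ : Finset (Fin n)).lcm q).primeFactors.card ≤ 2 * n := by
  intro n
  induction n with
  | zero =>
    intro q _
    have h : (univ : Finset (Fin 0)).lcm q = 1 := by simp
    rw [h]
    simp
  | succ n ih =>
    intro q hq
    obtain ⟨h1, h2⟩ := ih (fun i => q i.succ) fun i => hq _
    obtain ⟨h3, h4⟩ := pf_QQ hP (hq 0)
    rw [lcm_succ]
    refine ⟨Nat.lcm_ne_zero h3 h1, ?_⟩
    have h5 : (Nat.lcm (q 0) ((univ : Finset (Fin n)).lcm (fun i => q i.succ))).primeFactors ⊆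
        (q 0).primeFactors ∪ ((univ : Finset (Fin n)).lcm (fun i => q i.succ)).primeFactors := by
      rw [← Nat.primeFactors_mul h3 h1]
      exact Nat.primeFactors_mono (Nat.lcm_dvd_mul _ _) (mul_ne_zero h3 h1)
    refine (card_le_card h5).trans ((card_union_le _ _).trans ?_)
    omega

theorem sum_succ {n : ℕ} (S : Finset ℕ) (f : (Fin (n + 1) → ℕ) → ℝ) :
    ∑ q ∈ Fintype.piFinset (fun _ : Fin (n + 1) => S), f q =
      ∑ q ∈ Fintype.piFinset (fun _ : Fin n => S), ∑ a ∈ S, f (Fin.cons a q) := by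
  rw [← sum_product']
  refine sum_nbij' (fun q => (fun i => q i.succ, q 0)) (fun x => Fin.cons x.2 x.1) ?_ ?_ ?_ ?_ ?_
  · intro q hq
    rw [Fintype.mem_piFinset] at hq
    exact mem_product.2 ⟨Fintype.mem_piFinset.2 fun i => hq _, hq 0⟩
  · intro x hx
    obtain ⟨h1, h2⟩ := mem_product.1 hx
    rw [Fintype.mem_piFinset] at h1 ⊢
    intro i
    refine Fin.cases ?_ (fun i => ?_) i
    · exact h2
    · exact h1 i
  · intro q _
    exact Fin.cons_self_tail q
  · intro x _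
    rfl
  · intro q _
    congr 1
    exact (Fin.cons_self_tail q).symm

/-- **LCM**. -/
theorem main : S_LCM := by
  intro P L n hP hL
  have hL0 : 0 ≤ L := le_trans (sum_nonneg fun p _ => by positivity) hL
  have key : ∀ (M n : ℕ), n ≤ M →
      ∑ q ∈ Fintype.piFinset (fun _ : Fin n => QQ P),
        1 / (((univ : Finset (Fin n)).lcm q : ℕ) : ℝ) ≤ ((2 * M + 1) ^ 2 * (1 + L) ^ 2) ^ n := by
    intro M n
    induction n with
    | zero =>
      intro _
      simp
    | succ n ih =>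
      intro hn
      have ih' := ih (by omega)
      rw [sum_succ]
      calc ∑ q ∈ Fintype.piFinset (fun _ : Fin n => QQ P), ∑ a ∈ QQ P,
            1 / (((univ : Finset (Fin (n + 1))).lcm (Fin.cons a q : Fin (n + 1) → ℕ) : ℕ) : ℝ)
          ≤ ∑ q ∈ Fintype.piFinset (fun _ : Fin n => QQ P),
            1 / (((univ : Finset (Fin n)).lcm q : ℕ) : ℝ) * ((2 * M + 1) ^ 2 * (1 + L) ^ 2) := by
            refine sum_le_sum fun q hq => ?_
            rw [Fintype.mem_piFinset] at hq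
            obtain ⟨h1, h2⟩ := lcm_facts hP n q hq
            have h3 : ∀ a ∈ QQ P,
                1 / (((univ : Finset (Fin (n + 1))).lcm (Fin.cons a q : Fin (n + 1) → ℕ) : ℕ) : ℝ) =
                1 / (((univ : Finset (Fin n)).lcm q : ℕ) : ℝ) * ff ((univ : Finset (Fin n)).lcm q) a := by
              intro a ha
              rw [lcm_succ]
              exact inv_lcm (pf_QQ hP ha).1 h1
            rw [sum_congr rfl h3, ← mul_sum]
            refine mul_le_mul_of_nonneg_left ?_ (by positivity)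
            have h4 := sum_QQ hP hL h1 (h2.trans (show 2 * n ≤ 2 * M by omega))
            push_cast at h4
            exact h4
        _ = (∑ q ∈ Fintype.piFinset (fun _ : Fin n => QQ P),
            1 / (((univ : Finset (Fin n)).lcm q : ℕ) : ℝ)) * ((2 * M + 1) ^ 2 * (1 + L) ^ 2) := by
            rw [sum_mul]
        _ ≤ ((2 * M + 1) ^ 2 * (1 + L) ^ 2) ^ n * ((2 * M + 1) ^ 2 * (1 + L) ^ 2) :=
            mul_le_mul_of_nonneg_right ih' (by positivity)
        _ = ((2 * M + 1) ^ 2 * (1 + L) ^ 2) ^ (n + 1) := (pow_succ _ _).symm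
  exact key n n le_rfl

end Pool.Agent.Helper51.PS.LCM
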