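import Pool.Agent.Helper51.PS.Stm

set_option autoImplicit false

open Finset

namespace Pool.Agent.Helper51.PS.LINK

open Pool.Agent.Helper51.PS

/-- a dominating set bounds the number of consistent tuples -/
lemma dom {n : ℕ} (Z : ℕ) (q : Fin n → ℕ) (T : Finset (Fin n))
    (hT : ∀ i, i ∉ T → ∃ i' ∈ T, ¬ (q i).Coprime (q i')) : NN Z q univ ≤ Z ^ T.card := by
  classical
  have h1 : (Fintype.piFinset (fun _ : T => Icc 1 Z)).card = Z ^ T.card := by
    rw [Fintype.card_piFinset]
    simp
  rw [← h1]
  unfold NN
  apply Finset.card_le_card_of_injOn (fun j => fun t : T => j t)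
  · intro j hj
    rw [Finset.mem_coe, mem_filter, Fintype.mem_piFinset] at hj
    rw [Finset.mem_coe, Fintype.mem_piFinset]
    exact fun t => hj.1 t
  · intro j hj j' hj' hjj
    rw [Finset.mem_coe, mem_filter] at hj hj'
    have hT' : ∀ t ∈ T, j t = j' t := fun t ht => congrFun hjj ⟨t, ht⟩
    funext i
    by_cases hi : i ∈ T
    · exact hT' i hi
    · obtain ⟨i', hi', hc⟩ := hT i hi
      rw [hj.2 i (mem_univ _) i' (mem_univ _) hc, hj'.2 i (mem_univ _) i' (mem_univ _) hc]
      exact hT' i' hi'

theorem main : S_LINK := by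
  classical
  intro m Z q hZ hlink
  obtain ⟨S, hS, hmax⟩ := Finset.exists_max_image
    ((univ : Finset (Finset (Fin (2 * m)))).filter
      (fun S => ∀ i ∈ S, ∀ i' ∈ S, i ≠ i' → (q i).Coprime (q i'))) (fun S => S.card)
    ⟨∅, by simp⟩
  rw [mem_filter] at hS
  have h1 : NN Z q univ ≤ Z ^ S.card := by
    apply dom
    intro i hi
    by_contra hcon
    push Not at hcon
    have h2 := hmax (insert i S) (by
      rw [mem_filter]
      refine ⟨mem_univ _, ?_⟩
      intro x hx y hy hxy
      rw [mem_insert] at hx hy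
      rcases hx with rfl | hx
      · rcases hy with rfl | hy
        · exact absurd rfl hxy
        · exact hcon y hy
      · rcases hy with rfl | hy
        · exact (hcon x hx).symm
        · exact hS.2 x hx y hy hxy)
    rw [card_insert_of_notMem hi] at h2
    omega
  have h2 : NN Z q univ ≤ Z ^ (Sᶜ).card := by
    apply dom
    intro i hi
    rw [mem_compl, not_not] at hi
    obtain ⟨i', hne, hc⟩ := hlink i
    refine ⟨i', ?_, hc⟩
    rw [mem_compl]
    intro hi'
    exact hc (hS.2 i hi i' hi' hne.symm)
  have h3 : S.card + (Sᶜ).card = 2 * m := by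
    rw [card_add_card_compl, Fintype.card_fin]
  rcases le_total S.card m with h | h
  · exact h1.trans (Nat.pow_le_pow_right hZ h)
  · exact h2.trans (Nat.pow_le_pow_right hZ (by omega))

end Pool.Agent.Helper51.PS.LINK
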