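import Pool.Agent.Helper51.PS.Stm

/-!
# Project PS: the moments
-/

set_option autoImplicit false

open Finset
open scoped Classical

namespace Pool.Agent.Helper51.PS.MOM

variable {n : ℕ}

/-- the main term of the count -/
noncomputable def Mt (K D : ℕ) (q j : Fin n → ℕ) (A : Finset (Fin n)) : ℝ :=
  if Cons q A j then (K : ℝ) / ((D * A.lcm q : ℕ) : ℝ) else 0

lemma Mt_nonneg (K D : ℕ) (q j : Fin n → ℕ) (A : Finset (Fin n)) : 0 ≤ Mt K D q j A := by
  unfold Mt
  split_ifs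
  · positivity
  · exact le_rfl

lemma Mt_insert (K D : ℕ) (q j : Fin n → ℕ) (A : Finset (Fin n)) (i0 : Fin n)
    (h : ∀ i ∈ A, i ≠ i0 ∧ (q i0).Coprime (q i)) :
    Mt K D q j (insert i0 A) = 1 / (q i0 : ℝ) * Mt K D q j A := by
  have hc : Cons q (insert i0 A) j ↔ Cons q A j := by
    constructor
    · intro hh i hi i' hi' hn
      exact hh i (mem_insert_of_mem hi) i' (mem_insert_of_mem hi') hn
    · intro hh i hi i' hi' hn
      rw [mem_insert] at hi hi'
      rcases hi with rfl | hi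
      · rcases hi' with rfl | hi'
        · rfl
        · exact absurd (h i' hi').2 hn
      · rcases hi' with rfl | hi'
        · exact absurd (h i hi).2.symm hn
        · exact hh i hi i' hi' hn
  have hcop : (q i0).Coprime (A.lcm q) := by
    have h1 : A.lcm q ∣ ∏ i ∈ A, q i := Finset.lcm_dvd fun i hi => dvd_prod_of_mem _ hi
    exact Nat.Coprime.coprime_dvd_right h1 (Nat.Coprime.prod_right fun i hi => (h i hi).2)
  have hl : (insert i0 A).lcm q = q i0 * A.lcm q := by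
    rw [Finset.lcm_insert]
    exact hcop.lcm_eq_mul
  unfold Mt
  rw [hl]
  by_cases hh : Cons q A j
  · rw [if_pos hh, if_pos (hc.2 hh)]
    push_cast
    rw [one_div, ← div_eq_inv_mul, div_div]
    congr 1
    ring
  · rw [if_neg hh, if_neg (fun h => hh (hc.1 h)), mul_zero]

lemma iso_zero (K D : ℕ) (q j : Fin n → ℕ) (s : Finset (Fin n)) (i0 : Fin n) (hi0 : i0 ∉ s)
    (h : ∀ i ∈ s, (q i0).Coprime (q i)) :
    ∑ A ∈ (insert i0 s).powerset, (∏ i ∈ insert i0 s \ A, (-(1 / (q i : ℝ)))) * Mt K D q j A = 0 := by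
  rw [sum_powerset_insert hi0, ← sum_add_distrib]
  apply sum_eq_zero
  intro A hA
  rw [mem_powerset] at hA
  have hiA : i0 ∉ A := fun hh => hi0 (hA hh)
  have h1 : insert i0 s \ A = insert i0 (s \ A) := insert_sdiff_of_notMem s hiA
  have h2 : insert i0 s \ insert i0 A = s \ A := by
    ext x
    simp only [mem_sdiff, mem_insert]
    constructor
    · rintro ⟨h3 | h3, h4⟩
      · exact absurd (Or.inl h3) h4
      · exact ⟨h3, fun h5 => h4 (Or.inr h5)⟩
    · rintro ⟨h3, h4⟩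
      refine ⟨Or.inr h3, ?_⟩
      rintro (h5 | h5)
      · exact hi0 (h5 ▸ h3)
      · exact h4 h5
  have h3 : i0 ∉ s \ A := fun hh => hi0 (mem_sdiff.1 hh).1
  rw [h1, h2, prod_insert h3, Mt_insert K D q j A i0 (fun i hi => ⟨fun hh => hiA (hh ▸ hi), h i (hA hi)⟩)]
  ring

/-- the sum over `l` -/
noncomputable def SS (I : Finset ℕ) (k : ℕ) (e q j : Fin n → ℕ) : ℝ :=
  ∑ l ∈ I, ∏ i, (if e i ∣ l + j i * k then ((if q i ∣ l + j i * k then (1 : ℝ) else 0) - 1 / (q i : ℝ)) else 0)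

lemma S_eq (I : Finset ℕ) (k : ℕ) (e q j : Fin n → ℕ) :
    SS I k e q j = ∑ A ∈ (univ : Finset (Fin n)).powerset, (∏ i ∈ univ \ A, (-(1 / (q i : ℝ)))) *
      ((I.filter (fun l => (∀ i, e i ∣ l + j i * k) ∧ ∀ i ∈ A, q i ∣ l + j i * k)).card : ℝ) := by
  have h1 : ∀ l ∈ I, ∏ i, (if e i ∣ l + j i * k then
      ((if q i ∣ l + j i * k then (1 : ℝ) else 0) - 1 / (q i : ℝ)) else 0) =
      ∑ A ∈ (univ : Finset (Fin n)).powerset, (∏ i ∈ univ \ A, (-(1 / (q i : ℝ)))) *
        (if (∀ i, e i ∣ l + j i * k) ∧ ∀ i ∈ A, q i ∣ l + j i * k then (1 : ℝ) else 0) := by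
    intro l _
    rw [prod_ite_zero]
    by_cases he : ∀ i ∈ (univ : Finset (Fin n)), e i ∣ l + j i * k
    · rw [if_pos he]
      simp only [sub_eq_add_neg]
      rw [prod_add]
      apply sum_congr rfl
      intro A _
      rw [prod_boole, mul_comm]
      congr 1
      have he' : ∀ i, e i ∣ l + j i * k := fun i => he i (mem_univ i)
      simp [he']
    · rw [if_neg he]
      symm
      apply sum_eq_zero
      intro A _
      rw [if_neg (fun h => he (fun i _ => h.1 i)), mul_zero]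
  unfold SS
  rw [sum_congr rfl h1, sum_comm]
  apply sum_congr rfl
  intro A _
  rw [← mul_sum, card_filter]
  push_cast
  rfl

lemma abs_prod_le (q : Fin n → ℕ) (hq : ∀ i, Squarefree (q i)) (s : Finset (Fin n)) :
    |∏ i ∈ s, (-(1 / (q i : ℝ)))| ≤ 1 := by
  rw [abs_prod]
  apply prod_le_one
  · intro i _; exact abs_nonneg _
  · intro i _
    rw [abs_neg, abs_of_nonneg (by positivity)]
    have h1 : 1 ≤ q i := Nat.pos_of_ne_zero (hq i).ne_zero
    rw [div_le_one (by exact_mod_cast h1)]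
    exact_mod_cast h1

/-- the set of the `l` with the conditions of the first type -/
lemma modset (k : ℕ) (e j : Fin n → ℕ) (l0 : ℕ) (h0 : ∀ i, e i ∣ l0 + j i * k) (l : ℕ) :
    (∀ i, e i ∣ l + j i * k) ↔ l ≡ l0 [MOD (univ : Finset (Fin n)).lcm e] := by
  have key : ∀ i, (e i ∣ l + j i * k ↔ e i ∣ ((l0 : ℤ) - l).natAbs) := by
    intro i
    rw [← Int.natCast_dvd, ← Int.natCast_dvd_natCast]
    have h1 : ((e i : ℕ) : ℤ) ∣ (l0 : ℤ) + j i * k := by exact_mod_cast h0 i
    have h2 : ((l0 : ℤ) - l) = ((l0 : ℤ) + j i * k) - (((l + j i * k : ℕ) : ℤ)) := by push_cast; ring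
    rw [h2]
    constructor
    · intro h; exact dvd_sub h1 h
    · intro h; exact (dvd_sub_right h1).1 h
  constructor
  · intro h
    rw [Nat.modEq_iff_dvd, Int.natCast_dvd]
    exact Finset.lcm_dvd fun i _ => (key i).1 (h i)
  · intro h i
    rw [Nat.modEq_iff_dvd, Int.natCast_dvd] at h
    exact (key i).2 ((Finset.dvd_lcm (mem_univ i)).trans h)

/-- the condition of being linked -/
def Linked (q : Fin n → ℕ) : Prop := ∀ i, ∃ i', i' ≠ i ∧ ¬ (q i).Coprime (q i')

lemma one (hCNT : S_CNT) {Z k K u : ℕ} (hZ : 1 ≤ Z) (e q j : Fin n → ℕ)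
    (he : ∀ i, 1 ≤ e i ∧ ∀ p : ℕ, p.Prime → p ∣ e i → p ≤ Z)
    (hq : ∀ i, Squarefree (q i) ∧ ∀ p : ℕ, p.Prime → p ∣ q i → Z < p ∧ ¬ p ∣ k)
    (hj : ∀ i, 1 ≤ j i ∧ j i ≤ Z) :
    |SS (Ioc u (u + K)) k e q j| ≤ (if Linked q then
      ∑ A ∈ (univ : Finset (Fin n)).powerset, (∏ i ∈ univ \ A, (1 / (q i : ℝ))) * Mt K 1 q j A else 0) + 2 ^ n := by
  have hpos : (0 : ℝ) ≤ (if Linked q then
      ∑ A ∈ (univ : Finset (Fin n)).powerset, (∏ i ∈ univ \ A, (1 / (q i : ℝ))) * Mt K 1 q j A else 0) := by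
    split_ifs
    · exact sum_nonneg fun A _ => mul_nonneg (prod_nonneg fun i _ => by positivity) (Mt_nonneg _ _ _ _ _)
    · exact le_rfl
  by_cases h0 : ∃ l0 : ℕ, ∀ i, e i ∣ l0 + j i * k
  · obtain ⟨l0, h0⟩ := h0
    set D := (univ : Finset (Fin n)).lcm e with hD
    have hD1 : 1 ≤ D := by
      apply Nat.pos_of_ne_zero
      rw [hD, Ne, Finset.lcm_eq_zero_iff]
      push Not
      intro i _
      have := (he i).1
      omega
    have hDp : ∀ i, ∀ p : ℕ, p.Prime → p ∣ q i → Z < p ∧ ¬ p ∣ k ∧ ¬ p ∣ D := by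
      intro i p hp hpq
      obtain ⟨h1, h2⟩ := (hq i).2 p hp hpq
      refine ⟨h1, h2, fun h3 => ?_⟩
      have h4 : D ∣ ∏ i, e i := Finset.lcm_dvd fun i hi => dvd_prod_of_mem _ hi
      obtain ⟨i', _, h5⟩ := (hp.prime.dvd_finsetProd_iff _).1 (h3.trans h4)
      have := (he i').2 p hp h5
      omega
    have hcnt : ∀ A : Finset (Fin n),
        |(((Ioc u (u + K)).filter (fun l => (∀ i, e i ∣ l + j i * k) ∧ ∀ i ∈ A, q i ∣ l + j i * k)).card : ℝ) -
          Mt K D q j A| ≤ 1 := by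
      intro A
      have h1 := hCNT n Z k D l0 u K q A j hZ hD1 (fun i => (hq i).1) hDp hj
      have h2 : (Ioc u (u + K)).filter (fun l => (∀ i, e i ∣ l + j i * k) ∧ ∀ i ∈ A, q i ∣ l + j i * k) =
          (Ioc u (u + K)).filter (fun l => l ≡ l0 [MOD D] ∧ ∀ i ∈ A, q i ∣ l + j i * k) := by
        apply filter_congr
        intro l _
        rw [modset k e j l0 h0 l]
      rw [h2]
      unfold Mt
      by_cases hc : Cons q A j
      · rw [if_pos hc]
        convert h1.1 hc using 5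
      · rw [if_neg hc]
        have h3 := h1.2 hc
        have h4 : (((Ioc u (u + K)).filter (fun l => l ≡ l0 [MOD D] ∧ ∀ i ∈ A, q i ∣ l + j i * k)).card : ℝ) = 0 := by
          rw [← Nat.cast_zero, ← h3]
        rw [h4]
        simp
    rw [S_eq]
    have hsplit : ∑ A ∈ (univ : Finset (Fin n)).powerset, (∏ i ∈ univ \ A, (-(1 / (q i : ℝ)))) *
        (((Ioc u (u + K)).filter (fun l => (∀ i, e i ∣ l + j i * k) ∧ ∀ i ∈ A, q i ∣ l + j i * k)).card : ℝ) =
        ∑ A ∈ (univ : Finset (Fin n)).powerset, (∏ i ∈ univ \ A, (-(1 / (q i : ℝ)))) * Mt K D q j A +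
        ∑ A ∈ (univ : Finset (Fin n)).powerset, (∏ i ∈ univ \ A, (-(1 / (q i : ℝ)))) *
          ((((Ioc u (u + K)).filter (fun l => (∀ i, e i ∣ l + j i * k) ∧ ∀ i ∈ A, q i ∣ l + j i * k)).card : ℝ) -
            Mt K D q j A) := by
      rw [← sum_add_distrib]
      apply sum_congr rfl
      intro A _
      ring
    rw [hsplit]
    refine (abs_add_le _ _).trans (add_le_add ?_ ?_)
    · by_cases hl : Linked q
      · rw [if_pos hl]
        refine (abs_sum_le_sum_abs _ _).trans (sum_le_sum fun A _ => ?_)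
        rw [abs_mul, abs_prod, abs_of_nonneg (Mt_nonneg _ _ _ _ _)]
        apply mul_le_mul
        · apply le_of_eq
          apply prod_congr rfl
          intro i _
          rw [abs_neg, abs_of_nonneg (by positivity)]
        · unfold Mt
          split_ifs
          · apply div_le_div_of_nonneg_left (Nat.cast_nonneg _)
            · rw [one_mul]
              have : A.lcm q ≠ 0 := by
                rw [Ne, Finset.lcm_eq_zero_iff]
                push Not
                intro i _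
                exact (hq i).1.ne_zero
              exact_mod_cast Nat.pos_of_ne_zero this
            · exact_mod_cast Nat.mul_le_mul_right _ hD1
          · exact le_rfl
        · exact Mt_nonneg _ _ _ _ _
        · exact prod_nonneg fun i _ => by positivity
      · rw [if_neg hl]
        unfold Linked at hl
        push Not at hl
        obtain ⟨i0, hi0⟩ := hl
        have h1 := iso_zero K D q j (univ.erase i0) i0 (notMem_erase i0 univ)
          (fun i hi => hi0 i (ne_of_mem_erase hi))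
        rw [insert_erase (mem_univ i0)] at h1
        rw [h1, abs_zero]
    · refine (abs_sum_le_sum_abs _ _).trans ?_
      have h1 : ∀ A ∈ (univ : Finset (Fin n)).powerset, |(∏ i ∈ univ \ A, (-(1 / (q i : ℝ)))) *
          ((((Ioc u (u + K)).filter (fun l => (∀ i, e i ∣ l + j i * k) ∧ ∀ i ∈ A, q i ∣ l + j i * k)).card : ℝ) -
            Mt K D q j A)| ≤ 1 := by
        intro A _
        rw [abs_mul]
        exact mul_le_one₀ (abs_prod_le q (fun i => (hq i).1) _) (abs_nonneg _) (hcnt A)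
      refine (sum_le_sum h1).trans ?_
      rw [sum_const, card_powerset, card_univ, Fintype.card_fin, nsmul_eq_mul, mul_one]
      push_cast
      exact le_rfl
  · have h1 : SS (Ioc u (u + K)) k e q j = 0 := by
      unfold SS
      apply sum_eq_zero
      intro l _
      push Not at h0
      obtain ⟨i, hi⟩ := h0 l
      apply prod_eq_zero (mem_univ i)
      rw [if_neg hi]
    rw [h1, abs_zero]
    positivity

lemma key (hPHI : S_PHI) (hLINK : S_LINK) (hCNT : S_CNT) {m Z k K u : ℕ} (hZ : 1 ≤ Z) (e q : Fin (2 * m) → ℕ)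
    (he : ∀ i, 1 ≤ e i ∧ ∀ p : ℕ, p.Prime → p ∣ e i → p ≤ Z)
    (hq : ∀ i, Squarefree (q i) ∧ ∀ p : ℕ, p.Prime → p ∣ q i → Z < p ∧ ¬ p ∣ k) :
    ∑ j ∈ Fintype.piFinset (fun _ : Fin (2 * m) => Icc 1 Z), |SS (Ioc u (u + K)) k e q j| ≤
      K * 4 ^ m * Z ^ m * (1 / (((univ : Finset (Fin (2 * m))).lcm q : ℕ) : ℝ)) + (2 * Z) ^ (2 * m) := by
  have hK0 : (0 : ℝ) ≤ K := Nat.cast_nonneg _
  have hl0 : ∀ A : Finset (Fin (2 * m)), 0 < A.lcm q := by
    intro A
    apply Nat.pos_of_ne_zero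
    rw [Ne, Finset.lcm_eq_zero_iff]
    push Not
    intro i _
    exact (hq i).1.ne_zero
  have h1 : ∀ j ∈ Fintype.piFinset (fun _ : Fin (2 * m) => Icc 1 Z), |SS (Ioc u (u + K)) k e q j| ≤
      (if Linked q then ∑ A ∈ (univ : Finset (Fin (2 * m))).powerset,
        (∏ i ∈ univ \ A, (1 / (q i : ℝ))) * Mt K 1 q j A else 0) + 2 ^ (2 * m) := by
    intro j hj
    rw [Fintype.mem_piFinset] at hj
    exact one hCNT hZ e q j he hq (fun i => mem_Icc.1 (hj i))
  refine (sum_le_sum h1).trans ?_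
  rw [sum_add_distrib]
  apply add_le_add
  · by_cases hl : Linked q
    · simp only [if_pos hl]
      rw [sum_comm]
      have h2 : ∀ A ∈ (univ : Finset (Fin (2 * m))).powerset,
          ∑ j ∈ Fintype.piFinset (fun _ : Fin (2 * m) => Icc 1 Z),
            (∏ i ∈ univ \ A, (1 / (q i : ℝ))) * Mt K 1 q j A ≤
          K * Z ^ m * (1 / (((univ : Finset (Fin (2 * m))).lcm q : ℕ) : ℝ)) := by
        intro A _
        rw [← mul_sum]
        have e1 : ∑ j ∈ Fintype.piFinset (fun _ : Fin (2 * m) => Icc 1 Z), Mt K 1 q j A =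
            (NN Z q A : ℝ) * ((K : ℝ) / (A.lcm q : ℕ)) := by
          unfold Mt NN
          rw [← sum_filter, sum_const, nsmul_eq_mul, one_mul]
        rw [e1]
        have e2 := hPHI (2 * m) Z q A hZ (fun i => (hq i).1) (fun i p hp hpq => ((hq i).2 p hp hpq).1)
        have e3 := hLINK m Z q hZ hl
        have e4 : (∏ i ∈ univ \ A, (1 / (q i : ℝ))) = 1 / ((∏ i ∈ Aᶜ, q i : ℕ) : ℝ) := by
          rw [compl_eq_univ_sdiff]
          push_cast
          rw [one_div, ← prod_inv_distrib]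
          apply prod_congr rfl
          intro i _
          rw [one_div]
        rw [e4]
        have hP : (0 : ℝ) < ((∏ i ∈ Aᶜ, q i : ℕ) : ℝ) := by
          exact_mod_cast prod_pos fun i _ => Nat.pos_of_ne_zero (hq i).1.ne_zero
        have hA : (0 : ℝ) < ((A.lcm q : ℕ) : ℝ) := by exact_mod_cast hl0 A
        have hU : (0 : ℝ) < (((univ : Finset (Fin (2 * m))).lcm q : ℕ) : ℝ) := by exact_mod_cast hl0 univ
        have e5 : (NN Z q A : ℝ) * (((univ : Finset (Fin (2 * m))).lcm q : ℕ) : ℝ) ≤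
            (Z : ℝ) ^ m * (((A.lcm q : ℕ) : ℝ) * ((∏ i ∈ Aᶜ, q i : ℕ) : ℝ)) := by
          have e6 : NN Z q A * (univ : Finset (Fin (2 * m))).lcm q ≤ Z ^ m * (A.lcm q * ∏ i ∈ Aᶜ, q i) :=
            e2.trans (Nat.mul_le_mul_right _ e3)
          exact_mod_cast e6
        have e7 : 1 / ((∏ i ∈ Aᶜ, q i : ℕ) : ℝ) * ((NN Z q A : ℝ) * ((K : ℝ) / (A.lcm q : ℕ))) =
            K * ((NN Z q A : ℝ) / (((A.lcm q : ℕ) : ℝ) * ((∏ i ∈ Aᶜ, q i : ℕ) : ℝ))) := by
          field_simp
        rw [e7, mul_assoc]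
        apply mul_le_mul_of_nonneg_left _ hK0
        rw [mul_one_div, div_le_div_iff₀ (mul_pos hA hP) hU]
        exact e5
      refine (sum_le_sum h2).trans ?_
      rw [sum_const, card_powerset, card_univ, Fintype.card_fin, nsmul_eq_mul]
      push_cast
      rw [pow_mul]
      norm_num
      apply le_of_eq
      ring
    · simp only [if_neg hl, sum_const_zero]
      positivity
  · rw [sum_const, Fintype.card_piFinset, prod_const, card_univ, Fintype.card_fin, Nat.card_Icc,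
      Nat.add_sub_cancel, nsmul_eq_mul]
    push_cast
    rw [mul_pow, mul_comm]

theorem main (hPHI : S_PHI) (hLINK : S_LINK) (hCNT : S_CNT) : S_MOM := by
  intro Z k K u m ℰ 𝒬 a b B hZ _hk hE hQ hB
  set T := Fintype.piFinset (fun _ : Fin (2 * m) => Icc 1 Z) with hT
  have hB0 : 0 ≤ B ∨ 𝒬 = ∅ := by
    rcases 𝒬.eq_empty_or_nonempty with h | ⟨q, hq⟩
    · exact Or.inr h
    · exact Or.inl ((abs_nonneg _).trans (hB q hq))
  have hexp : ∀ l : ℕ, (∑ e ∈ ℰ, a e * ∑ q ∈ 𝒬, b q * ∑ j ∈ (Icc 1 Z).filter (fun j => e ∣ l + j * k),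
      ((if q ∣ l + j * k then (1 : ℝ) else 0) - 1 / q)) ^ (2 * m) =
      ∑ ε ∈ Fintype.piFinset (fun _ : Fin (2 * m) => ℰ), (∏ i, a (ε i)) *
        ∑ κ ∈ Fintype.piFinset (fun _ : Fin (2 * m) => 𝒬), (∏ i, b (κ i)) *
          ∑ j ∈ T, ∏ i, (if ε i ∣ l + j i * k then
            ((if κ i ∣ l + j i * k then (1 : ℝ) else 0) - 1 / (κ i : ℝ)) else 0) := by
    intro l
    have h1 : (∑ e ∈ ℰ, a e * ∑ q ∈ 𝒬, b q * ∑ j ∈ (Icc 1 Z).filter (fun j => e ∣ l + j * k),
        ((if q ∣ l + j * k then (1 : ℝ) else 0) - 1 / q)) ^ (2 * m) =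
        ∏ _i : Fin (2 * m), (∑ e ∈ ℰ, a e * ∑ q ∈ 𝒬, b q * ∑ j ∈ (Icc 1 Z).filter (fun j => e ∣ l + j * k),
        ((if q ∣ l + j * k then (1 : ℝ) else 0) - 1 / q)) := by
      rw [prod_const, card_univ, Fintype.card_fin]
    rw [h1, prod_univ_sum]
    apply sum_congr rfl
    intro ε _
    rw [prod_mul_distrib]
    congr 1
    rw [prod_univ_sum]
    apply sum_congr rfl
    intro κ _
    rw [prod_mul_distrib]
    congr 1
    simp only [sum_filter]
    rw [prod_univ_sum]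
  have h2 : ∑ l ∈ Ioc u (u + K), (∑ e ∈ ℰ, a e * ∑ q ∈ 𝒬, b q * ∑ j ∈ (Icc 1 Z).filter (fun j => e ∣ l + j * k),
      ((if q ∣ l + j * k then (1 : ℝ) else 0) - 1 / q)) ^ (2 * m) =
      ∑ ε ∈ Fintype.piFinset (fun _ : Fin (2 * m) => ℰ), (∏ i, a (ε i)) *
        ∑ κ ∈ Fintype.piFinset (fun _ : Fin (2 * m) => 𝒬), (∏ i, b (κ i)) *
          ∑ j ∈ T, SS (Ioc u (u + K)) k ε κ j := by
    rw [sum_congr rfl (fun l _ => hexp l), sum_comm]
    apply sum_congr rfl
    intro ε _
    rw [← mul_sum, sum_comm]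
    congr 1
    apply sum_congr rfl
    intro κ _
    rw [← mul_sum, sum_comm]
    rfl
  rw [h2]
  rcases hB0 with hB0 | hQ0
  swap
  · rw [hQ0]
    rcases Nat.eq_zero_or_pos m with hm | hm
    · subst hm
      simp only [mul_zero, pow_zero, one_mul, card_empty, Nat.cast_zero, mul_one]
      have hs : ∀ s : Finset ℕ, Fintype.piFinset (fun _ : Fin (2 * 0) => s) = {fun i => i.elim0} := by
        intro s
        ext f
        simp only [Fintype.mem_piFinset, mem_singleton]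
        constructor
        · intro _; funext i; exact i.elim0
        · intro _ i; exact i.elim0
      rw [hs ℰ, hs ∅, sum_singleton, sum_singleton, sum_singleton, hT, hs (Icc 1 Z), sum_singleton]
      unfold SS
      simp
    · have hs : Fintype.piFinset (fun _ : Fin (2 * m) => (∅ : Finset ℕ)) = ∅ := by
        rw [Fintype.piFinset_eq_empty]
        exact ⟨⟨0, by omega⟩, rfl⟩
      rw [hs]
      simp only [sum_empty, mul_zero, sum_const_zero]
      have : 0 ≤ ((∑ e ∈ ℰ, |a e|) * B) ^ (2 * m) := by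
        rw [pow_mul]
        positivity
      positivity
  have hin : ∀ ε ∈ Fintype.piFinset (fun _ : Fin (2 * m) => ℰ),
      |∑ κ ∈ Fintype.piFinset (fun _ : Fin (2 * m) => 𝒬), (∏ i, b (κ i)) * ∑ j ∈ T, SS (Ioc u (u + K)) k ε κ j| ≤
      B ^ (2 * m) * (K * 4 ^ m * Z ^ m *
      ∑ q ∈ Fintype.piFinset (fun _ : Fin (2 * m) => 𝒬), 1 / (((univ : Finset (Fin (2 * m))).lcm q : ℕ) : ℝ) +
      (2 * Z * 𝒬.card) ^ (2 * m)) := by
    intro ε hε
    rw [Fintype.mem_piFinset] at hε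
    refine (abs_sum_le_sum_abs _ _).trans ?_
    have h3 : ∀ κ ∈ Fintype.piFinset (fun _ : Fin (2 * m) => 𝒬),
        |(∏ i, b (κ i)) * ∑ j ∈ T, SS (Ioc u (u + K)) k ε κ j| ≤
        B ^ (2 * m) * (K * 4 ^ m * Z ^ m * (1 / (((univ : Finset (Fin (2 * m))).lcm κ : ℕ) : ℝ)) +
          (2 * Z) ^ (2 * m)) := by
      intro κ hκ
      rw [Fintype.mem_piFinset] at hκ
      rw [abs_mul]
      apply mul_le_mul
      · rw [abs_prod]
        calc ∏ i, |b (κ i)| ≤ ∏ _i : Fin (2 * m), B := prod_le_prod (fun i _ => abs_nonneg _) (fun i _ => hB _ (hκ i))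
          _ = B ^ (2 * m) := by rw [prod_const, card_univ, Fintype.card_fin]
      · refine (abs_sum_le_sum_abs _ _).trans ?_
        exact key hPHI hLINK hCNT hZ ε κ (fun i => hE _ (hε i)) (fun i => hQ _ (hκ i))
      · exact abs_nonneg _
      · positivity
    refine (sum_le_sum h3).trans ?_
    rw [← mul_sum]
    apply mul_le_mul_of_nonneg_left _ (by positivity)
    rw [sum_add_distrib, ← mul_sum, sum_const, Fintype.card_piFinset, prod_const, card_univ, Fintype.card_fin,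
      nsmul_eq_mul]
    push_cast
    apply le_of_eq
    rw [mul_pow (2 * (Z : ℝ)) (𝒬.card : ℝ), mul_comm ((2 * (Z : ℝ)) ^ (2 * m))]
  have hR : 0 ≤ B ^ (2 * m) * (K * 4 ^ m * Z ^ m *
      ∑ q ∈ Fintype.piFinset (fun _ : Fin (2 * m) => 𝒬), 1 / (((univ : Finset (Fin (2 * m))).lcm q : ℕ) : ℝ) +
      (2 * Z * 𝒬.card) ^ (2 * m)) := by positivity
  calc _ ≤ |∑ ε ∈ Fintype.piFinset (fun _ : Fin (2 * m) => ℰ), (∏ i, a (ε i)) *
        ∑ κ ∈ Fintype.piFinset (fun _ : Fin (2 * m) => 𝒬), (∏ i, b (κ i)) *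
          ∑ j ∈ T, SS (Ioc u (u + K)) k ε κ j| := le_abs_self _
    _ ≤ ∑ ε ∈ Fintype.piFinset (fun _ : Fin (2 * m) => ℰ), (∏ i, |a (ε i)|) *
        (B ^ (2 * m) * (K * 4 ^ m * Z ^ m *
      ∑ q ∈ Fintype.piFinset (fun _ : Fin (2 * m) => 𝒬), 1 / (((univ : Finset (Fin (2 * m))).lcm q : ℕ) : ℝ) +
      (2 * Z * 𝒬.card) ^ (2 * m))) := by
        refine (abs_sum_le_sum_abs _ _).trans (sum_le_sum fun ε hε => ?_)
        rw [abs_mul, abs_prod]
        exact mul_le_mul_of_nonneg_left (hin ε hε) (prod_nonneg fun i _ => abs_nonneg _)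
    _ = _ := by
        rw [← sum_mul]
        have h4 : ∑ ε ∈ Fintype.piFinset (fun _ : Fin (2 * m) => ℰ), ∏ i, |a (ε i)| =
            (∑ e ∈ ℰ, |a e|) ^ (2 * m) := by
          have h5 := prod_univ_sum (fun _ : Fin (2 * m) => ℰ) (fun _ e => |a e|)
          rw [← h5, prod_const, card_univ, Fintype.card_fin]
        rw [h4, mul_pow]
        ring

end Pool.Agent.Helper51.PS.MOM
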