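import Pool.Agent.Helper51.PS.Stm

set_option autoImplicit false

open Finset

namespace Pool.Agent.Helper51.PS.PHI

open Pool.Agent.Helper51.PS

open Classical in
/-- the number of the tuples in `[1, Z]` which satisfy the equations `j x = j y`, `E x y` -/
noncomputable def sols {n : ℕ} (Z : ℕ) (E : Fin n → Fin n → Prop) : Finset (Fin n → ℕ) :=
  (Fintype.piFinset (fun _ : Fin n => Icc 1 Z)).filter (fun j => ∀ x y, E x y → j x = j y)

lemma mem_sols {n Z : ℕ} {E : Fin n → Fin n → Prop} {j : Fin n → ℕ} :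
    j ∈ sols Z E ↔ (∀ x, j x ∈ Icc 1 Z) ∧ ∀ x y, E x y → j x = j y := by
  classical
  unfold sols
  rw [mem_filter, Fintype.mem_piFinset]

lemma add_edge {n Z : ℕ} (hZ : 1 ≤ Z) (E : Fin n → Fin n → Prop) (v i : Fin n) :
    (sols Z E).card ≤ Z * (sols Z (fun x y => E x y ∨ (x = v ∧ y = i))).card := by
  classical
  have hR : ∀ j ∈ sols Z E, ∀ x y, Relation.EqvGen E x y → j x = j y := by
    intro j hj x y h
    rw [mem_sols] at hj
    induction h with
    | rel x y h => exact hj.2 x y h
    | refl x => rfl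
    | symm x y _ ih => exact ih.symm
    | trans x y z _ _ ih1 ih2 => exact ih1.trans ih2
  by_cases hvi : Relation.EqvGen E v i
  · have hsub : sols Z E ⊆ sols Z (fun x y => E x y ∨ (x = v ∧ y = i)) := by
      intro j hj
      have hj' := mem_sols.1 hj
      rw [mem_sols]
      refine ⟨hj'.1, ?_⟩
      rintro x y (h | ⟨rfl, rfl⟩)
      · exact hj'.2 x y h
      · exact hR j hj _ _ hvi
    refine (card_le_card hsub).trans ?_
    exact Nat.le_mul_of_pos_left _ hZ
  · have h1 : (Icc 1 Z ×ˢ sols Z (fun x y => E x y ∨ (x = v ∧ y = i))).card =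
        Z * (sols Z (fun x y => E x y ∨ (x = v ∧ y = i))).card := by
      rw [card_product, Nat.card_Icc, Nat.add_sub_cancel]
    rw [← h1]
    apply Finset.card_le_card_of_injOn
      (fun j => (j i, fun x => if Relation.EqvGen E i x then j v else j x))
    · intro j hj
      rw [Finset.mem_coe] at hj
      have hj' := mem_sols.1 hj
      rw [Finset.mem_coe, mem_product]
      refine ⟨hj'.1 i, ?_⟩
      rw [mem_sols]
      refine ⟨fun x => ?_, ?_⟩
      · change (if Relation.EqvGen E i x then j v else j x) ∈ Icc 1 Z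
        split_ifs
        · exact hj'.1 v
        · exact hj'.1 x
      · rintro x y (h | ⟨rfl, rfl⟩)
        · change (if Relation.EqvGen E i x then j v else j x) =
            (if Relation.EqvGen E i y then j v else j y)
          have hxy : Relation.EqvGen E i x ↔ Relation.EqvGen E i y :=
            ⟨fun hx => hx.trans _ _ _ (Relation.EqvGen.rel _ _ h),
              fun hy => hy.trans _ _ _ ((Relation.EqvGen.rel _ _ h).symm _ _)⟩
          by_cases hx : Relation.EqvGen E i x
          · rw [if_pos hx, if_pos (hxy.1 hx)]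
          · rw [if_neg hx, if_neg (fun hy => hx (hxy.2 hy))]
            exact hj'.2 x y h
        · change (if Relation.EqvGen E y x then j x else j x) =
            (if Relation.EqvGen E y y then j x else j y)
          rw [if_pos (Relation.EqvGen.refl y), ite_self]
    · intro j hj j' hj' hjj
      rw [Finset.mem_coe] at hj hj'
      simp only [Prod.mk.injEq] at hjj
      obtain ⟨h2, h3⟩ := hjj
      funext x
      by_cases hx : Relation.EqvGen E i x
      · rw [← hR j hj _ _ hx, ← hR j' hj' _ _ hx]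
        exact h2
      · have h4 := congrFun h3 x
        simp only [if_neg hx] at h4
        exact h4

lemma add_edges {n Z : ℕ} (hZ : 1 ≤ Z) (E : Fin n → Fin n → Prop) (v : Fin n) (c : ℕ → Fin n)
    (W : Finset ℕ) :
    (sols Z E).card ≤ Z ^ W.card * (sols Z (fun x y => E x y ∨ (x = v ∧ ∃ p ∈ W, y = c p))).card := by
  classical
  induction W using Finset.induction_on with
  | empty =>
    rw [card_empty, pow_zero, one_mul]
    apply card_le_card
    intro j hj
    rw [mem_sols] at hj ⊢
    refine ⟨hj.1, ?_⟩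
    rintro x y (h | ⟨_, p, hp, _⟩)
    · exact hj.2 x y h
    · simp at hp
  | insert p W hp ih =>
    refine ih.trans ?_
    rw [card_insert_of_notMem hp, pow_succ, mul_assoc]
    apply Nat.mul_le_mul_left
    refine (add_edge hZ _ v (c p)).trans ?_
    apply Nat.mul_le_mul_left
    apply card_le_card
    intro j hj
    rw [mem_sols] at hj ⊢
    refine ⟨hj.1, ?_⟩
    rintro x y (h | ⟨hx, p', hp', hy⟩)
    · exact hj.2 x y (Or.inl (Or.inl h))
    · rw [mem_insert] at hp'
      rcases hp' with rfl | hp'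
      · exact hj.2 x y (Or.inr ⟨hx, hy⟩)
      · exact hj.2 x y (Or.inl (Or.inr ⟨hx, p', hp', hy⟩))

lemma prime_dvd_lcm {n : ℕ} (q : Fin n → ℕ) (A : Finset (Fin n)) {p : ℕ} (hp : p.Prime)
    (h : p ∣ A.lcm q) : ∃ i ∈ A, p ∣ q i := by
  classical
  induction A using Finset.induction_on with
  | empty =>
    rw [Finset.lcm_empty] at h
    exact absurd (Nat.dvd_one.1 h) hp.one_lt.ne'
  | insert a A ha ih =>
    rw [Finset.lcm_insert] at h
    have h2 : p ∣ q a * A.lcm q := h.trans (lcm_dvd (dvd_mul_right _ _) (dvd_mul_left _ _))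
    rcases (Nat.Prime.dvd_mul hp).1 h2 with h3 | h3
    · exact ⟨a, mem_insert_self _ _, h3⟩
    · obtain ⟨i, hi, h4⟩ := ih h3
      exact ⟨i, mem_insert_of_mem hi, h4⟩

lemma step {n Z : ℕ} (hZ : 1 ≤ Z) (q : Fin n → ℕ) (hsq : ∀ i, Squarefree (q i))
    (hp : ∀ i, ∀ p : ℕ, p.Prime → p ∣ q i → Z < p) (A : Finset (Fin n)) (v : Fin n) :
    NN Z q A ≤ Nat.gcd (q v) (A.lcm q) * NN Z q (insert v A) := by
  classical
  set g := Nat.gcd (q v) (A.lcm q) with hg
  have hgv : g ∣ q v := Nat.gcd_dvd_left _ _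
  have hgA : g ∣ A.lcm q := Nat.gcd_dvd_right _ _
  have hgsq : Squarefree g := (hsq v).squarefree_of_dvd hgv
  have hex : ∀ p : ℕ, ∃ i : Fin n, p ∈ g.primeFactors → i ∈ A ∧ p ∣ q i := by
    intro p
    by_cases h : p ∈ g.primeFactors
    · obtain ⟨i, hi, h2⟩ := prime_dvd_lcm q A (Nat.prime_of_mem_primeFactors h)
        ((Nat.dvd_of_mem_primeFactors h).trans hgA)
      exact ⟨i, fun _ => ⟨hi, h2⟩⟩
    · exact ⟨v, fun h' => absurd h' h⟩
  choose c hc using hex
  set E : Fin n → Fin n → Prop := fun x y => x ∈ A ∧ y ∈ A ∧ ¬ (q x).Coprime (q y) with hE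
  have h1 : NN Z q A = (sols Z E).card := by
    unfold NN
    apply congrArg Finset.card
    ext j
    rw [mem_filter, mem_sols, Fintype.mem_piFinset]
    exact and_congr_right fun _ => ⟨fun h x y hxy => h x hxy.1 y hxy.2.1 hxy.2.2,
      fun h x hx y hy hxy => h x y ⟨hx, hy, hxy⟩⟩
  have h2 : (sols Z (fun x y => E x y ∨ (x = v ∧ ∃ p ∈ g.primeFactors, y = c p))).card ≤
      NN Z q (insert v A) := by
    unfold NN
    apply card_le_card
    intro j hj
    rw [mem_sols] at hj
    rw [mem_filter, Fintype.mem_piFinset]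
    refine ⟨hj.1, ?_⟩
    have hA : ∀ x ∈ A, ∀ y ∈ A, ¬ (q x).Coprime (q y) → j x = j y :=
      fun x hx y hy hxy => hj.2 x y (Or.inl ⟨hx, hy, hxy⟩)
    have hv : ∀ y ∈ A, ¬ (q v).Coprime (q y) → j v = j y := by
      intro y hy hvy
      obtain ⟨p, hpp, hpv, hpy⟩ := Nat.Prime.not_coprime_iff_dvd.1 hvy
      have hpg : p ∈ g.primeFactors := by
        rw [Nat.mem_primeFactors]
        exact ⟨hpp, Nat.dvd_gcd hpv (hpy.trans (Finset.dvd_lcm hy)), hgsq.ne_zero⟩
      obtain ⟨hcA, hcp⟩ := hc p hpg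
      rw [hj.2 v (c p) (Or.inr ⟨rfl, p, hpg, rfl⟩)]
      apply hA _ hcA _ hy
      exact Nat.Prime.not_coprime_iff_dvd.2 ⟨p, hpp, hcp, hpy⟩
    intro x hx y hy hxy
    rw [mem_insert] at hx hy
    rcases hx with rfl | hx
    · rcases hy with rfl | hy
      · rfl
      · exact hv y hy hxy
    · rcases hy with rfl | hy
      · exact (hv x hx (fun h => hxy h.symm)).symm
      · exact hA x hx y hy hxy
  have h3 : Z ^ g.primeFactors.card ≤ g := by
    calc Z ^ g.primeFactors.card = ∏ _p ∈ g.primeFactors, Z := by rw [prod_const]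
      _ ≤ ∏ p ∈ g.primeFactors, p := by
          apply prod_le_prod' 
          intro p hpg
          exact (hp v p (Nat.prime_of_mem_primeFactors hpg)
            ((Nat.dvd_of_mem_primeFactors hpg).trans hgv)).le
      _ = g := Nat.prod_primeFactors_of_squarefree hgsq
  rw [h1]
  refine (add_edges hZ E v c g.primeFactors).trans ?_
  exact Nat.mul_le_mul h3 h2

theorem main : S_PHI := by
  classical
  intro n Z q A hZ hsq hp
  -- induction on the complement
  induction hm : (Aᶜ).card generalizing A with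
  | zero =>
    have : Aᶜ = ∅ := card_eq_zero.1 hm
    have hA : A = univ := by
      rw [← compl_compl A, this, compl_empty]
    rw [hA]
    simp
  | succ m ih =>
    obtain ⟨v, hv⟩ : (Aᶜ).Nonempty := card_pos.1 (by omega)
    have hvA : v ∉ A := mem_compl.1 hv
    have hBc : (insert v A)ᶜ = (Aᶜ).erase v := by
      rw [compl_insert]
    have h1 := ih (insert v A) (by rw [hBc, card_erase_of_mem hv, hm]; rfl)
    have h2 := step hZ q hsq hp A v
    have h3 : ∏ i ∈ Aᶜ, q i = q v * ∏ i ∈ (insert v A)ᶜ, q i := by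
      rw [hBc, mul_prod_erase _ _ hv]
    have h4 : (insert v A).lcm q * Nat.gcd (q v) (A.lcm q) = q v * A.lcm q := by
      rw [Finset.lcm_insert, mul_comm]
      exact Nat.gcd_mul_lcm _ _
    calc NN Z q A * (univ : Finset (Fin n)).lcm q
        ≤ Nat.gcd (q v) (A.lcm q) * NN Z q (insert v A) * (univ : Finset (Fin n)).lcm q :=
          Nat.mul_le_mul_right _ h2
      _ = Nat.gcd (q v) (A.lcm q) * (NN Z q (insert v A) * (univ : Finset (Fin n)).lcm q) := by
          ring
      _ ≤ Nat.gcd (q v) (A.lcm q) *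
          (NN Z q univ * ((insert v A).lcm q * ∏ i ∈ (insert v A)ᶜ, q i)) :=
          Nat.mul_le_mul_left _ h1
      _ = NN Z q univ * (((insert v A).lcm q * Nat.gcd (q v) (A.lcm q)) *
          ∏ i ∈ (insert v A)ᶜ, q i) := by ring
      _ = NN Z q univ * (A.lcm q * ∏ i ∈ Aᶜ, q i) := by
          rw [h4, h3]
          ring

end Pool.Agent.Helper51.PS.PHI
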