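import Mathlib

/-!
# Project PS (helper51): Brun-Titchmarsh with any constant `δ > 0` for all but `k ^ (1 - c)` residue classes

Statements of the modules. Each module is a file `Pool/Agent/Helper51/PS/<NAME>.lean` with the theorem
`Pool.Agent.Helper51.PS.<NAME>.main : S_<NAME>`. All modules are independent of each other.
-/

set_option autoImplicit false

open Finset

namespace Pool.Agent.Helper51.PS

open Classical in
/-- the primes of `P` and the products of two different primes of `P` -/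
noncomputable def QQ (P : Finset ℕ) : Finset ℕ := P ∪ P.offDiag.image (fun x => x.1 * x.2)

/-- consistent tuples: `j i = j i'` if `q i` and `q i'` have a common prime factor (indices in `A`) -/
def Cons {n : ℕ} (q : Fin n → ℕ) (A : Finset (Fin n)) (j : Fin n → ℕ) : Prop :=
  ∀ i ∈ A, ∀ i' ∈ A, ¬ (q i).Coprime (q i') → j i = j i'

open Classical in
/-- the number of the consistent tuples in `[1, Z]` -/
noncomputable def NN {n : ℕ} (Z : ℕ) (q : Fin n → ℕ) (A : Finset (Fin n)) : ℕ :=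
  ((Fintype.piFinset (fun _ : Fin n => Icc 1 Z)).filter (Cons q A)).card

/-- PHI. Proof: induction on `Aᶜ`, so it suffices: for `v ∉ A`, `B = insert v A`,
`NN Z q A * B.lcm q ≤ NN Z q B * (A.lcm q * q v)`. As `B.lcm q * g = A.lcm q * q v` with `g = gcd (A.lcm q) (q v)`, this is
`NN Z q A ≤ g * NN Z q B`. For each of the primes `p ∣ g` choose `i_p ∈ A` with `p ∣ q (i_p)`; `Cons q A j` and
`j v = j (i_p)` for all `p ∣ g` imply `Cons q B j`; every such equation costs at most a factor `Z < p`: for a finite set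
`E` of pairs of indices let `N E` be the number of the tuples in `[1, Z]` with `j x = j y` for `(x, y) ∈ E`; then
`N E ≤ Z * N (insert (v, i) E)`: the map `j ↦ (j i, j')`, `j' x = j v` for `x` in the class of `i` for the equivalence
relation generated by `E` (`Relation.EqvGen`) and `j' x = j x` otherwise, is injective (if `v` is in the class of `i`,
trivial). And `g` is squarefree with all prime factors `> Z`, so `Z ^ (number of the primes of g) ≤ g`. -/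
def S_PHI : Prop := ∀ (n Z : ℕ) (q : Fin n → ℕ) (A : Finset (Fin n)), 1 ≤ Z → (∀ i, Squarefree (q i)) →
  (∀ i, ∀ p : ℕ, p.Prime → p ∣ q i → Z < p) →
  NN Z q A * (univ : Finset (Fin n)).lcm q ≤ NN Z q univ * (A.lcm q * ∏ i ∈ Aᶜ, q i)

/-- LINK. Proof: let `S` be a maximal set of indices with pairwise coprime `q i`. Every index outside `S` is linked
to one in `S` (maximality), every index in `S` is linked to some other one, which is outside `S`. So consistent tuples are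
determined by their restriction to `S` and also by the restriction to `Sᶜ`; one of them has at most `m` elements. -/
def S_LINK : Prop := ∀ (m Z : ℕ) (q : Fin (2 * m) → ℕ), 1 ≤ Z →
  (∀ i, ∃ i', i' ≠ i ∧ ¬ (q i).Coprime (q i')) → NN Z q univ ≤ Z ^ m

/-- LCM. Proof: induction on `n` (`Fin.consEquiv`/`Fin.snoc`; better prove it with a fixed bound `(2 M + 1) ^ 2`, `n ≤ M`):
`lcm (N, q) = N q / gcd (N, q)`, so `∑_q 1 / lcm (N, q) = (1 / N) ∑_{q ∈ QQ P} gcd (N, q) / q`, and with `g = gcd (N, q)`,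
`q' = q / g` (one, a prime of `P` or in `QQ P`) this is at most `(1 / N) #{g ∣ N : at most two primes} (1 + L + L ^ 2)`;
`N` has at most `2 n` prime factors. -/
def S_LCM : Prop := ∀ (P : Finset ℕ) (L : ℝ) (n : ℕ), (∀ p ∈ P, p.Prime) → ∑ p ∈ P, 1 / (p : ℝ) ≤ L →
  ∑ q ∈ Fintype.piFinset (fun _ : Fin n => QQ P), 1 / (((univ : Finset (Fin n)).lcm q : ℕ) : ℝ) ≤
    ((2 * n + 1) ^ 2 * (1 + L) ^ 2) ^ n

/-- CNT: the number of the `l` in an interval with `l ≡ r` modulo `D` and `q i ∣ l + j i * k` for `i ∈ A`.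
Proof: if there is such an `l` at all, then `Cons q A j` (a common prime `p > Z` of `q i` and `q i'` divides
`(j i - j i') * k`, `p ∤ k`, `|j i - j i'| < Z`). If `Cons q A j`: by the Chinese remainder theorem for `D` and the primes
dividing `A.lcm q` (for each choose one `i`) there is a solution `l₀` (a natural number), and the solutions are the
`l ≡ l₀` modulo `D * A.lcm q`; the number of them in an interval of `K` integers is `K / (D * A.lcm q)` up to an error `≤ 1`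
(`Nat.count_modEq_card`, `Nat.Ioc_filter_modEq_card` or so). -/
def S_CNT : Prop := ∀ (n Z k D r u K : ℕ) (q : Fin n → ℕ) (A : Finset (Fin n)) (j : Fin n → ℕ), 1 ≤ Z → 1 ≤ D →
  (∀ i, Squarefree (q i)) → (∀ i, ∀ p : ℕ, p.Prime → p ∣ q i → Z < p ∧ ¬ p ∣ k ∧ ¬ p ∣ D) →
  (∀ i, 1 ≤ j i ∧ j i ≤ Z) →
  (Cons q A j → |(((Ioc u (u + K)).filter (fun l => l ≡ r [MOD D] ∧ ∀ i ∈ A, q i ∣ l + j i * k)).card : ℝ) -
    (K : ℝ) / ((D * A.lcm q : ℕ) : ℝ)| ≤ 1) ∧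
  (¬ Cons q A j → ((Ioc u (u + K)).filter (fun l => l ≡ r [MOD D] ∧ ∀ i ∈ A, q i ∣ l + j i * k)).card = 0)

/-- SEL: Selberg's weights of small level for progressions.
Proof: `Pool.Agent.W356.UBSel.main : Pool.Agent.W25.UB.St_SEL` (library, `Pool/Graph/R_seed8/W356/UBSel.lean`) with
`P` = the primes up to `z` not dividing `k` and `z = ⌊Z ^ (1 / 16)⌋`, `D = z ^ 2`; `GG P z ≥ (φ(k) / k) log z` (classical; see
e.g. `Pool/Graph/R_seed8/Helper923/PPS/BT.lean`); the number of the `j ≤ Z` with `e ∣ l + j k` (`(e, k) = 1`) is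
`Z / e + O(1)`, and `∑ |c e| ≤ ∑_{e ≤ D} 3 ^ ω(e) ≤ ∑ d(e) ^ 2 ≤ D (1 + log D) ^ 3 ≤ Z ^ (1 / 6)`. -/
def S_SEL : Prop := ∃ (C : ℝ) (Z₀ : ℕ), 0 < C ∧ ∀ Z : ℕ, Z₀ ≤ Z → ∀ k : ℕ, 1 ≤ k → ∃ (c : ℕ → ℝ) (D : ℕ), D ≤ Z ∧
  ∑ e ∈ Icc 1 D, |c e| ≤ (Z : ℝ) ^ (1 / 6 : ℝ) ∧
  (∀ n : ℕ, 0 ≤ ∑ e ∈ (Icc 1 D).filter (fun e => e ∣ n), c e) ∧
  (∀ n : ℕ, (∀ p : ℕ, p.Prime → p ∣ n → Z < p) → 1 ≤ ∑ e ∈ (Icc 1 D).filter (fun e => e ∣ n), c e) ∧
  ∀ l : ℕ, ∑ j ∈ Icc 1 Z, ∑ e ∈ (Icc 1 D).filter (fun e => e ∣ l + j * k), c e ≤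
    C * ((k : ℝ) / (Nat.totient k : ℝ) * (Z / Real.log Z))

/-- MER: the sum of the reciprocals of the primes in `(Z, Z ^ M]` not dividing `k`. Mertens for the whole sum (the library
has many versions), and at most `log k / log Z ≤ Z / log Z` primes `> Z` divide `k`, each contributes at most `1 / Z`. -/
def S_MER : Prop := ∀ L₀ : ℝ, ∃ (M Z₀ : ℕ) (L₁ : ℝ), 2 ≤ M ∧ ∀ Z : ℕ, Z₀ ≤ Z → ∀ k : ℕ, 1 ≤ k → Real.log k ≤ Z →
  L₀ ≤ ∑ p ∈ (Ioc Z (Z ^ M)).filter (fun p => p.Prime ∧ ¬ p ∣ k), 1 / (p : ℝ) ∧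
  ∑ p ∈ (Ioc Z (Z ^ M)).filter (fun p => p.Prime ∧ ¬ p ∣ k), 1 / (p : ℝ) ≤ L₁

open Classical in
/-- the coefficients of Turán's majorant -/
noncomputable def bt (L : ℝ) (q : ℕ) : ℝ := if q.Prime then -2 / L + 1 / L ^ 2 else 2 / L ^ 2

open Classical in
/-- TUR: Turán's majorant `(1 - g / L) ^ 2`, `g` = number of the primes of `P` dividing `n`, `L = ∑ 1 / p`:
`g ^ 2 = g + 2 (number of the pairs)`, and `∑ 1 / (p p') ≤ L ^ 2 / 2` over the pairs. -/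
def S_TUR : Prop := ∀ (P : Finset ℕ) (L : ℝ), (∀ p ∈ P, p.Prime) → L = ∑ p ∈ P, 1 / (p : ℝ) → 1 ≤ L →
  (∀ n : ℕ, (1 - ((P.filter (fun p => p ∣ n)).card : ℝ) / L) ^ 2 =
    1 + ∑ q ∈ (QQ P).filter (fun q => q ∣ n), bt L q) ∧
  ∑ q ∈ QQ P, bt L q / q ≤ -1 + 1 / L ∧ ∀ q ∈ QQ P, |bt L q| ≤ 2

/-- MOM: the moments (helper51 from PHI, LINK, CNT) -/
def S_MOM : Prop := ∀ (Z k K u m : ℕ) (ℰ 𝒬 : Finset ℕ) (a b : ℕ → ℝ) (B : ℝ), 1 ≤ Z → 1 ≤ k →
  (∀ e ∈ ℰ, 1 ≤ e ∧ ∀ p : ℕ, p.Prime → p ∣ e → p ≤ Z) →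
  (∀ q ∈ 𝒬, Squarefree q ∧ ∀ p : ℕ, p.Prime → p ∣ q → Z < p ∧ ¬ p ∣ k) → (∀ q ∈ 𝒬, |b q| ≤ B) →
  ∑ l ∈ Ioc u (u + K), (∑ e ∈ ℰ, a e * ∑ q ∈ 𝒬, b q * ∑ j ∈ (Icc 1 Z).filter (fun j => e ∣ l + j * k),
      ((if q ∣ l + j * k then (1 : ℝ) else 0) - 1 / q)) ^ (2 * m) ≤
    ((∑ e ∈ ℰ, |a e|) * B) ^ (2 * m) * (K * 4 ^ m * Z ^ m *
      ∑ q ∈ Fintype.piFinset (fun _ : Fin (2 * m) => 𝒬), 1 / (((univ : Finset (Fin (2 * m))).lcm q : ℕ) : ℝ) +
      (2 * Z * 𝒬.card) ^ (2 * m))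

end Pool.Agent.Helper51.PS
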