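import Pool.Agent.Helper51.PS.Stm

set_option autoImplicit false

/-! # TUR: Turán's majorant -/

namespace Pool.Agent.Helper51.PS.TUR

open Finset

open Classical in
lemma fibre (P : Finset ℕ) (hP : ∀ p ∈ P, p.Prime) (q : ℕ)
    (hq : q ∈ P.offDiag.image (fun x => x.1 * x.2)) :
    (P.offDiag.filter (fun x => x.1 * x.2 = q)).card = 2 := by
  obtain ⟨⟨a, b⟩, hab, rfl⟩ := mem_image.1 hq
  rw [mem_offDiag] at hab
  obtain ⟨ha, hb, hne⟩ := hab
  simp only at ha hb hne
  have h1 : P.offDiag.filter (fun x => x.1 * x.2 = a * b) = {(a, b), (b, a)} := by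
    ext ⟨c, d⟩
    simp only [mem_filter, mem_offDiag, mem_insert, mem_singleton, Prod.mk.injEq]
    constructor
    · rintro ⟨⟨hc, hd, hcd⟩, he⟩
      have hc' := hP c hc
      have hd' := hP d hd
      have ha' := hP a ha
      have hb' := hP b hb
      have h2 : c ∣ a * b := ⟨d, he.symm⟩
      rcases (hc'.dvd_mul).1 h2 with h3 | h3
      · have h4 := (Nat.prime_dvd_prime_iff_eq hc' ha').1 h3
        subst h4
        left
        exact ⟨rfl, Nat.eq_of_mul_eq_mul_left hc'.pos he⟩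
      · have h4 := (Nat.prime_dvd_prime_iff_eq hc' hb').1 h3
        subst h4
        right
        refine ⟨rfl, ?_⟩
        rw [mul_comm a c] at he
        exact Nat.eq_of_mul_eq_mul_left hc'.pos he
    · rintro (⟨rfl, rfl⟩ | ⟨rfl, rfl⟩)
      · exact ⟨⟨ha, hb, hne⟩, rfl⟩
      · exact ⟨⟨hb, ha, fun h => hne h.symm⟩, mul_comm _ _⟩
  rw [h1, card_pair]
  intro h
  exact hne (Prod.mk.inj h).1

open Classical in
lemma sum_QQ (P : Finset ℕ) (hP : ∀ p ∈ P, p.Prime) (F : ℕ → ℝ) :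
    ∑ q ∈ QQ P, F q = ∑ p ∈ P, F p + 1 / 2 * ∑ x ∈ P.offDiag, F (x.1 * x.2) := by
  have hd : Disjoint P (P.offDiag.image (fun x => x.1 * x.2)) := by
    rw [disjoint_left]
    intro q hq hq'
    obtain ⟨⟨a, b⟩, hab, rfl⟩ := mem_image.1 hq'
    rw [mem_offDiag] at hab
    exact Nat.not_prime_mul (hP _ hab.1).one_lt.ne' (hP _ hab.2.1).one_lt.ne' (hP _ hq)
  have e1 : ∑ x ∈ P.offDiag, F (x.1 * x.2) = ∑ q ∈ P.offDiag.image (fun x => x.1 * x.2), 2 * F q := by
    rw [Finset.sum_comp F (fun x : ℕ × ℕ => x.1 * x.2)]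
    refine sum_congr rfl fun q hq => ?_
    rw [fibre P hP q hq, nsmul_eq_mul]
    norm_num
  rw [QQ, sum_union hd, e1, ← mul_sum]
  ring

open Classical in
theorem main : S_TUR := by
  intro P L hP hL h1L
  have hL0 : 0 < L := by linarith
  have hb : ∀ x ∈ P.offDiag, bt L (x.1 * x.2) = 2 / L ^ 2 := by
    intro x hx
    rw [mem_offDiag] at hx
    rw [bt, if_neg (Nat.not_prime_mul (hP _ hx.1).one_lt.ne' (hP _ hx.2.1).one_lt.ne')]
  have hp : ∀ p ∈ P, bt L p = -2 / L + 1 / L ^ 2 := fun p hp => by rw [bt, if_pos (hP p hp)]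
  refine ⟨?_, ?_, ?_⟩
  · intro n
    rw [sum_filter, sum_QQ P hP]
    set g := (P.filter (fun p => p ∣ n)).card with hg
    have e1 : ∑ p ∈ P, (if p ∣ n then bt L p else 0) = g * (-2 / L + 1 / L ^ 2) := by
      rw [← sum_filter, sum_congr rfl fun p hp' => hp p (mem_filter.1 hp').1, sum_const,
        nsmul_eq_mul]
    have e2 : ∑ x ∈ P.offDiag, (if x.1 * x.2 ∣ n then bt L (x.1 * x.2) else 0) =
        ((g : ℝ) * g - g) * (2 / L ^ 2) := by
      rw [← sum_filter, sum_congr rfl fun x hx => hb x (mem_filter.1 hx).1, sum_const,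
        nsmul_eq_mul]
      congr 1
      have e3 : P.offDiag.filter (fun x => x.1 * x.2 ∣ n) = (P.filter (fun p => p ∣ n)).offDiag := by
        ext ⟨a, b⟩
        simp only [mem_filter, mem_offDiag]
        constructor
        · rintro ⟨⟨ha, hb', hab⟩, hd⟩
          exact ⟨⟨ha, (Dvd.intro _ rfl).trans hd⟩, ⟨hb', (Dvd.intro_left _ rfl).trans hd⟩, hab⟩
        · rintro ⟨⟨ha, had⟩, ⟨hb', hbd⟩, hab⟩
          exact ⟨⟨ha, hb', hab⟩, Nat.Coprime.mul_dvd_of_dvd_of_dvd
            ((Nat.coprime_primes (hP _ ha) (hP _ hb')).2 hab) had hbd⟩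
      rw [e3, offDiag_card, Nat.cast_sub (Nat.le_mul_self _), Nat.cast_mul]
    rw [e1, e2]
    field_simp
    ring
  · rw [sum_QQ P hP]
    have e1 : ∑ p ∈ P, bt L p / p = (-2 / L + 1 / L ^ 2) * L := by
      rw [sum_congr rfl fun p hp' => by rw [hp p hp', div_eq_mul_one_div], ← mul_sum, ← hL]
    have e2 : ∑ x ∈ P.offDiag, bt L (x.1 * x.2) / ((x.1 * x.2 : ℕ) : ℝ) ≤ 2 / L ^ 2 * (L * L) := by
      have e3 : ∑ x ∈ P.offDiag, bt L (x.1 * x.2) / ((x.1 * x.2 : ℕ) : ℝ) =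
          2 / L ^ 2 * ∑ x ∈ P.offDiag, (1 / (x.1 : ℝ)) * (1 / (x.2 : ℝ)) := by
        rw [mul_sum]
        refine sum_congr rfl fun x hx => ?_
        rw [hb x hx]
        push_cast
        ring
      rw [e3]
      refine mul_le_mul_of_nonneg_left ?_ (by positivity)
      have e4 : L * L = ∑ x ∈ P ×ˢ P, (1 / (x.1 : ℝ)) * (1 / (x.2 : ℝ)) := by
        rw [hL, sum_mul_sum, sum_product]
      rw [e4]
      exact sum_le_sum_of_subset_of_nonneg (fun x hx => by
        rw [mem_offDiag] at hx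
        exact mem_product.2 ⟨hx.1, hx.2.1⟩) fun x _ _ => by positivity
    rw [e1]
    have e5 : (-2 / L + 1 / L ^ 2) * L = -2 + 1 / L := by field_simp
    have e6 : 2 / L ^ 2 * (L * L) = 2 := by field_simp
    rw [e5]
    rw [e6] at e2
    linarith
  · intro q _
    have h2 : 2 / L ≤ 2 := by rw [div_le_iff₀ hL0]; linarith
    have h3 : 2 / L ^ 2 ≤ 2 := by rw [div_le_iff₀ (by positivity)]; nlinarith
    have h4 : 0 < 1 / L ^ 2 := by positivity
    have h5 : 1 / L ^ 2 ≤ 1 := by rw [div_le_iff₀ (by positivity)]; nlinarith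
    rw [bt]
    split_ifs
    · rw [abs_le]
      have h6 : -2 / L = -(2 / L) := by ring
      rw [h6]
      have h7 : 0 < 2 / L := by positivity
      constructor <;> linarith
    · rw [abs_of_pos (by positivity)]
      exact h3

end Pool.Agent.Helper51.PS.TUR
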